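import Pool.Agent.HPZ.Defs

/-!
# HPZ/EBas: basic facts about patterns (port of `HPP/EBas` to full digit sets), and `#RR = b ^ (m - 1 + #F)`
-/

namespace Pool.Agent.HPZ

open Finset

theorem Bas.coprime {b p : ℕ} (h : Bas b p) : Nat.Coprime p b := h.cop

theorem digit_lt {b p m : ℕ} {F : Finset ℕ} (h : Bas b p) {ω : Fin m → ℕ × ℕ}
    (hω : ω ∈ RR b p m F) (i : Fin m) : (ω i).1 < b ∧ (ω i).2 < b := by
  have h1 : ω i ∈ Sd b p F i := (Fintype.mem_piFinset.mp hω) i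
  have h3 := h.two
  have h4 := h.lt
  unfold Sd at h1
  split_ifs at h1 with h0 hF
  · rw [Finset.mem_singleton] at h1
    rw [h1]
    exact ⟨h4, h4⟩
  · rw [Finset.mem_product, Finset.mem_range, Finset.mem_range] at h1
    exact h1
  · rw [Finset.mem_image] at h1
    obtain ⟨d, hd, he⟩ := h1
    rw [Finset.mem_range] at hd
    rw [← he]
    exact ⟨hd, hd⟩

private theorem sum_lt27 {b : ℕ} : ∀ {m : ℕ} (f : Fin m → ℕ), (∀ i, f i < b) →
    ∑ i, f i * b ^ (i : ℕ) < b ^ m := by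
  intro m
  induction m with
  | zero => intro f _; simp
  | succ n ih =>
    intro f hf
    rw [Fin.sum_univ_castSucc]
    have h1 := ih (fun i => f (Fin.castSucc i)) (fun i => hf _)
    have h2 : f (Fin.last n) + 1 ≤ b := hf _
    have h3 : (f (Fin.last n) + 1) * b ^ n ≤ b * b ^ n := Nat.mul_le_mul_right _ h2
    simp only [Fin.val_castSucc, Fin.val_last] at h1 ⊢
    calc ∑ i : Fin n, f (Fin.castSucc i) * b ^ (i : ℕ) + f (Fin.last n) * b ^ n
        < b ^ n + f (Fin.last n) * b ^ n := by omega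
      _ = (f (Fin.last n) + 1) * b ^ n := by ring
      _ ≤ b * b ^ n := h3
      _ = b ^ (n + 1) := by ring

private theorem sum_inj27 {b : ℕ} : ∀ {m : ℕ} (f g : Fin m → ℕ), (∀ i, f i < b) →
    (∀ i, g i < b) → ∑ i, f i * b ^ (i : ℕ) = ∑ i, g i * b ^ (i : ℕ) → ∀ i, f i = g i := by
  intro m
  induction m with
  | zero => intro f g _ _ _ i; exact i.elim0
  | succ n ih =>
    intro f g hf hg he
    have hs : ∀ f : Fin (n + 1) → ℕ, ∑ i, f i * b ^ (i : ℕ)
        = f 0 + b * ∑ i : Fin n, f (Fin.succ i) * b ^ (i : ℕ) := by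
      intro f
      rw [Fin.sum_univ_succ, Finset.mul_sum]
      congr 1
      · simp
      · refine Finset.sum_congr rfl fun i _ => ?_
        rw [Fin.val_succ]
        ring
    rw [hs f, hs g] at he
    have hb : 0 < b := lt_of_le_of_lt (Nat.zero_le _) (hf 0)
    have h0 : f 0 = g 0 := by
      have := congrArg (fun x => x % b) he
      simp only [Nat.add_mul_mod_self_left] at this
      rwa [Nat.mod_eq_of_lt (hf 0), Nat.mod_eq_of_lt (hg 0)] at this
    have h1 : ∑ i : Fin n, f (Fin.succ i) * b ^ (i : ℕ)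
        = ∑ i : Fin n, g (Fin.succ i) * b ^ (i : ℕ) := by
      rw [h0] at he
      exact Nat.eq_of_mul_eq_mul_left hb (Nat.add_left_cancel he)
    have h2 := ih (fun i => f (Fin.succ i)) (fun i => g (Fin.succ i)) (fun i => hf _)
      (fun i => hg _) h1
    intro i
    refine Fin.cases h0 (fun j => h2 j) i

private theorem topv_rev27 (b : ℕ) {m : ℕ} (ω : Fin m → ℕ × ℕ) :
    topv b ω = ∑ i : Fin m, (ω (Fin.rev i)).2 * b ^ (i : ℕ) := by
  unfold topv
  rw [← Equiv.sum_comp Fin.revPerm]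
  refine Finset.sum_congr rfl fun i _ => ?_
  rw [Fin.revPerm_apply, Fin.val_rev]
  have : m - 1 - (m - ((i : ℕ) + 1)) = i := by have := i.isLt; omega
  rw [this]

private theorem dig0_27 {b p n : ℕ} {F : Finset ℕ} {ω : Fin (n + 1) → ℕ × ℕ}
    (hω : ω ∈ RR b p (n + 1) F) : ω 0 = (p, p) := by
  have h1 : ω 0 ∈ Sd b p F ((0 : Fin (n + 1)) : ℕ) := (Fintype.mem_piFinset.mp hω) 0
  unfold Sd at h1
  rw [if_pos (by simp), Finset.mem_singleton] at h1
  exact h1

theorem low_lt {b p m : ℕ} {F : Finset ℕ} (h : Bas b p) {ω : Fin m → ℕ × ℕ}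
    (hω : ω ∈ RR b p m F) : lowv b ω < b ^ m :=
  sum_lt27 (fun i => (ω i).1) (fun i => (digit_lt h hω i).1)

theorem low_mod {b p m : ℕ} {F : Finset ℕ} (h : Bas b p) (hm : 1 ≤ m) {ω : Fin m → ℕ × ℕ}
    (hω : ω ∈ RR b p m F) : lowv b ω ≡ p [MOD b] := by
  obtain ⟨n, rfl⟩ : ∃ n, m = n + 1 := ⟨m - 1, by omega⟩
  have h0 := dig0_27 hω
  unfold lowv
  rw [Fin.sum_univ_succ]
  have h1 : ∑ i : Fin n, (ω (Fin.succ i)).1 * b ^ ((Fin.succ i : Fin (n + 1)) : ℕ)
      = b * ∑ i : Fin n, (ω (Fin.succ i)).1 * b ^ (i : ℕ) := by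
    rw [Finset.mul_sum]
    refine Finset.sum_congr rfl fun i _ => ?_
    rw [Fin.val_succ]
    ring
  rw [h1, h0]
  simp only [Fin.val_zero, pow_zero, mul_one]
  unfold Nat.ModEq
  rw [Nat.add_mul_mod_self_left]

theorem low_coprime {b p m : ℕ} {F : Finset ℕ} (h : Bas b p) (hm : 1 ≤ m) {ω : Fin m → ℕ × ℕ}
    (hω : ω ∈ RR b p m F) : Nat.Coprime (lowv b ω) b := by
  have h1 := (low_mod h hm hω).gcd_eq
  unfold Nat.Coprime
  rw [h1]
  exact h.coprime

theorem top_bounds {b p m : ℕ} {F : Finset ℕ} (h : Bas b p) (hm : 1 ≤ m) {ω : Fin m → ℕ × ℕ}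
    (hω : ω ∈ RR b p m F) :
    p * b ^ (m - 1) ≤ topv b ω ∧ topv b ω < (p + 1) * b ^ (m - 1) ∧ topv b ω < b ^ m := by
  obtain ⟨n, rfl⟩ : ∃ n, m = n + 1 := ⟨m - 1, by omega⟩
  have h0 := dig0_27 hω
  have h4 : p + 1 ≤ b := h.lt
  have h1 : topv b ω = ∑ i : Fin n, (ω (Fin.rev (Fin.castSucc i))).2 * b ^ (i : ℕ)
      + p * b ^ n := by
    rw [topv_rev27, Fin.sum_univ_castSucc]
    simp only [Fin.val_castSucc, Fin.val_last, Fin.rev_last, h0]
  have h2 : ∑ i : Fin n, (ω (Fin.rev (Fin.castSucc i))).2 * b ^ (i : ℕ) < b ^ n :=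
    sum_lt27 (fun i : Fin n => (ω (Fin.rev (Fin.castSucc i))).2)
      (fun i => (digit_lt h hω _).2)
  have h3 : (p + 1) * b ^ n = b ^ n + p * b ^ n := by ring
  have h5 : (p + 1) * b ^ n ≤ b * b ^ n := Nat.mul_le_mul_right _ h4
  have h6 : b * b ^ n = b ^ (n + 1) := by ring
  have h7 : n + 1 - 1 = n := by omega
  rw [h7]
  refine ⟨?_, ?_, ?_⟩ <;> omega

theorem low_inj {b p m : ℕ} {F : Finset ℕ} (h : Bas b p) {ω ω' : Fin m → ℕ × ℕ}
    (hω : ω ∈ RR b p m F) (hω' : ω' ∈ RR b p m F) (he : lowv b ω = lowv b ω') (i : Fin m) :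
    (ω i).1 = (ω' i).1 :=
  sum_inj27 (fun i => (ω i).1) (fun i => (ω' i).1) (fun i => (digit_lt h hω i).1)
    (fun i => (digit_lt h hω' i).1) he i

theorem top_inj {b p m : ℕ} {F : Finset ℕ} (h : Bas b p) {ω ω' : Fin m → ℕ × ℕ}
    (hω : ω ∈ RR b p m F) (hω' : ω' ∈ RR b p m F) (he : topv b ω = topv b ω') (i : Fin m) :
    (ω i).2 = (ω' i).2 := by
  rw [topv_rev27, topv_rev27] at he
  have h1 := sum_inj27 (fun i => (ω (Fin.rev i)).2) (fun i => (ω' (Fin.rev i)).2)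
    (fun i => (digit_lt h hω _).2) (fun i => (digit_lt h hω' _).2) he (Fin.rev i)
  simpa only [Fin.rev_rev] using h1

theorem card_Sd {b p : ℕ} {F : Finset ℕ} {i : ℕ} (hi : i ≠ 0) :
    (Sd b p F i).card = b * (if i ∈ F then b else 1) := by
  unfold Sd
  rw [if_neg hi]
  split_ifs with h
  · rw [Finset.card_product, Finset.card_range]
  · rw [Finset.card_image_of_injective _ (fun x y hxy => (Prod.mk.inj hxy).1), Finset.card_range,
      mul_one]

theorem card_RR {b p m : ℕ} {F : Finset ℕ} (hm : 1 ≤ m) (hF : F ⊆ Finset.Ico 1 m) :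
    (RR b p m F).card = b ^ (m - 1 + F.card) := by
  obtain ⟨n, rfl⟩ : ∃ n, m = n + 1 := ⟨m - 1, by omega⟩
  unfold RR
  rw [Fintype.card_piFinset, Fin.prod_univ_succ]
  have h0 : (Sd b p F ((0 : Fin (n + 1)) : ℕ)).card = 1 := by
    unfold Sd
    rw [if_pos (by simp), Finset.card_singleton]
  rw [h0, one_mul]
  have h1 : ∀ i : Fin n, (Sd b p F ((Fin.succ i : Fin (n + 1)) : ℕ)).card =
      b * (if (i : ℕ) + 1 ∈ F then b else 1) := by
    intro i
    rw [card_Sd (by simp), Fin.val_succ]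
  rw [Finset.prod_congr rfl fun i _ => h1 i, Finset.prod_mul_distrib, Finset.prod_const,
    Finset.card_univ, Fintype.card_fin]
  have h2 : ∏ i : Fin n, (if (i : ℕ) + 1 ∈ F then b else 1) = b ^ F.card := by
    rw [Fin.prod_univ_eq_prod_range (fun i => if i + 1 ∈ F then b else 1) n, Finset.prod_ite,
      Finset.prod_const_one, mul_one, Finset.prod_const]
    congr 1
    refine Finset.card_bij (fun i _ => i + 1) (fun i hi => (Finset.mem_filter.1 hi).2)
      (fun i _ j _ h => by omega) fun k hk => ?_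
    have h3 := Finset.mem_Ico.1 (hF hk)
    refine ⟨k - 1, ?_, by omega⟩
    rw [Finset.mem_filter, Finset.mem_range]
    refine ⟨by omega, ?_⟩
    have : k - 1 + 1 = k := by omega
    rwa [this]
  rw [h2, ← pow_add]
  congr 1

theorem RR_pos {b p m : ℕ} (h : Bas b p) {F : Finset ℕ} (hm : 1 ≤ m) (hF : F ⊆ Finset.Ico 1 m) :
    0 < (RR b p m F).card := by
  rw [card_RR hm hF]
  have := h.two
  positivity

end Pool.Agent.HPZ
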