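import Pool.Agent.HPZ.Defs
import Pool.Agent.HPP.APP

/-!
# HPZ/APP: continuity and the trivial bound of `cc` (port of the end of `HPP/APP`)

The lemmas on `PP` are those of `HPP/APP` (`HPP.PP_summable, HPP.PP_continuous, HPP.PP_bound, HPP.weight_sum_le,
HPP.PP_induced`).
-/

namespace Pool.Agent.HPZ

open Complex MeasureTheory

private theorem app_topv_pos {b p m : ℕ} (hb : Bas b p) (hm : 1 ≤ m) (F : Finset ℕ)
    {ω : Fin m → ℕ × ℕ} (hω : ω ∈ RR b p m F) : 0 < topv b ω := by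
  have h0 : ω ⟨0, hm⟩ = (p, p) := by
    have := Fintype.mem_piFinset.1 hω ⟨0, hm⟩
    simpa [Sd] using this
  unfold topv
  refine Finset.sum_pos' (fun i _ => Nat.zero_le _) ⟨⟨0, hm⟩, Finset.mem_univ _, ?_⟩
  rw [h0]
  exact Nat.mul_pos hb.pos (pow_pos (by have := hb.two; omega) _)

theorem cc_continuous {b p m : ℕ} (hb : Bas b p) (hm : 1 ≤ m) (F : Finset ℕ) (V : ℝ → ℝ)
    (χ : DirichletCharacter ℂ (b ^ m)) : Continuous fun t : ℝ => cc b p F V χ t := by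
  unfold cc
  refine continuous_finsetSum _ fun ω hω => Continuous.mul continuous_const ?_
  refine Continuous.const_cpow (by fun_prop) (Or.inl ?_)
  exact_mod_cast (app_topv_pos hb hm F hω).ne'

theorem cc_le {b p m : ℕ} (hb : Bas b p) (hm : 1 ≤ m) (F : Finset ℕ) {V : ℝ → ℝ}
    (hV : ∀ y, 0 ≤ V y ∧ V y ≤ 1) (χ : DirichletCharacter ℂ (b ^ m)) (t : ℝ) :
    ‖cc b p F V χ t‖ ≤ (RR b p m F).card := by
  unfold cc
  refine (norm_sum_le _ _).trans ?_
  have : ∀ ω ∈ RR b p m F, ‖(wt b V ω : ℂ) * (starRingEnd ℂ) (χ (lowv b ω : ZMod (b ^ m))) *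
      (topv b ω : ℂ) ^ (-(t * I))‖ ≤ 1 := by
    intro ω hω
    have h1 : ‖(topv b ω : ℂ) ^ (-(t * I))‖ = 1 := by
      rw [Complex.norm_natCast_cpow_of_pos (app_topv_pos hb hm F hω)]
      simp
    rw [norm_mul, norm_mul, h1, mul_one]
    have h2 : ‖(wt b V ω : ℂ)‖ ≤ 1 := by
      rw [Complex.norm_real, Real.norm_eq_abs]
      unfold wt
      rw [abs_of_nonneg (hV _).1]
      exact (hV _).2
    have h3 : ‖(starRingEnd ℂ) (χ (lowv b ω : ZMod (b ^ m)))‖ ≤ 1 := by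
      rw [RCLike.norm_conj]
      exact χ.norm_le_one _
    calc _ ≤ (1 : ℝ) * 1 := mul_le_mul h2 h3 (norm_nonneg _) zero_le_one
      _ = 1 := one_mul 1
  calc _ ≤ ∑ ω ∈ RR b p m F, (1 : ℝ) := Finset.sum_le_sum this
    _ = (RR b p m F).card := by simp

end Pool.Agent.HPZ
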