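import Pool.Agent.HPZ.DSm
import Pool.Agent.HPP.DTop

/-! # HPZ/DTop: SupTopProp (every digit `p` prime to `b`, full digit sets)

The leading digit `p` may be small, so the free block is used from position `i + 1` on (one factor `b` lost):
the leading value of the first `i + 1` digits is in `[P, 2 P)`, `P = p b ^ i`, and `|t| ≤ P ^ 2`. -/

namespace Pool.Agent.HPZ

open Complex
open Pool.Agent.HPP (DD DD_nonneg spaced top_inner rhi ext2 dg_lt norm_npow_le putT)

variable {b p m m' i₀ l : ℕ} {F : Finset ℕ} {V : ℝ → ℝ} {χ : DirichletCharacter ℂ (b ^ m)}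

/-- the count over the leading digits, `R = n = 2 P` -/
lemma sum_lead {R N β : ℝ} {n : ℕ} {σ : ℝ} (hσ : σ = 1 ∨ σ = -1) (hR : 3 ≤ R) (hRn : R = n)
    (hN : 1 ≤ N) (h1 : R ≤ 16 * β) (h2 : β * N ≤ R ^ 2) (h3 : N ≤ R) :
    ∑ r ∈ (Finset.range n).filter (fun r => n ≤ 2 * r), DD N (σ * (β / r)) ≤
      400 * (R * (1 + Real.log R)) := by
  have hβ : 0 < β := by linarith
  have hR0 : 0 < R := by linarith
  set δ := β / R ^ 2 with hδ
  have hδ0 : 0 < δ := by positivity
  have hδ1 : δ ≤ 1 := by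
    rw [hδ, div_le_one (by positivity)]
    nlinarith
  have hmem : ∀ r ∈ (Finset.range n).filter (fun r => n ≤ 2 * r), R / 2 ≤ (r : ℝ) ∧ (r : ℝ) ≤ R := by
    intro r hr
    rw [Finset.mem_filter, Finset.mem_range] at hr
    rw [hRn]
    constructor
    · have : (n : ℝ) ≤ 2 * r := by exact_mod_cast hr.2
      linarith
    · exact_mod_cast hr.1.le
  have hrange : ∀ r ∈ (Finset.range n).filter (fun r => n ≤ 2 * r),
      β / R ≤ β / r ∧ β / r ≤ 2 * (β / R) := by
    intro r hr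
    obtain ⟨a1, a2⟩ := hmem r hr
    have hr0 : (0 : ℝ) < r := by linarith
    constructor
    · gcongr
    · rw [div_le_iff₀ hr0]
      have : 2 * (β / R) * r = β * (2 * r / R) := by ring
      rw [this]
      have : 1 ≤ 2 * (r : ℝ) / R := by rw [le_div_iff₀ hR0]; linarith
      nlinarith
  have hsp : ∀ r ∈ (Finset.range n).filter (fun r => n ≤ 2 * r),
      ∀ s ∈ (Finset.range n).filter (fun r => n ≤ 2 * r), r ≠ s →
      δ ≤ |σ * (β / r) - σ * (β / s)| := by
    intro r hr s hs hne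
    obtain ⟨a1, a2⟩ := hmem r hr
    obtain ⟨b1, b2⟩ := hmem s hs
    have hr0 : (0 : ℝ) < r := by linarith
    have hs0 : (0 : ℝ) < s := by linarith
    have e : |σ * (β / r) - σ * (β / s)| = β * |(s : ℝ) - r| / (r * s) := by
      have : σ * (β / r) - σ * (β / s) = σ * (β * ((s : ℝ) - r) / (r * s)) := by
        field_simp
      rw [this, abs_mul]
      have hσ1 : |σ| = 1 := by rcases hσ with h | h <;> simp [h]
      rw [hσ1, one_mul, abs_div, abs_mul, abs_of_pos hβ, abs_of_pos (mul_pos hr0 hs0)]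
    rw [e, hδ]
    have h1' : (1 : ℝ) ≤ |(s : ℝ) - r| := by
      have : (1 : ℤ) ≤ |(s : ℤ) - r| := Int.one_le_abs (by omega)
      exact_mod_cast this
    have h2' : (r : ℝ) * s ≤ R ^ 2 := by nlinarith
    calc β / R ^ 2 = β * 1 / R ^ 2 := by ring
      _ ≤ β * |(s : ℝ) - r| / (r * s) := by gcongr
  have key : ∀ a, (∀ r ∈ (Finset.range n).filter (fun r => n ≤ 2 * r),
      a ≤ σ * (β / r) ∧ σ * (β / r) ≤ a + β / R) →
      ∑ r ∈ (Finset.range n).filter (fun r => n ≤ 2 * r), DD N (σ * (β / r)) ≤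
      400 * (R * (1 + Real.log R)) := by
    intro a ha
    have hs := spaced (x := fun r : ℕ => σ * (β / r)) (a := a) (L := β / R) (N := N) hδ0 hδ1 hN
      (by positivity) ha hsp
    refine hs.trans ?_
    have i1 : δ⁻¹ = R ^ 2 / β := by rw [hδ, inv_div]
    have i2 : R ^ 2 / β ≤ 16 * R := by
      rw [div_le_iff₀ hβ]
      nlinarith
    have i3 : Real.log δ⁻¹ ≤ 3 + Real.log R := by
      rw [i1]
      calc Real.log (R ^ 2 / β) ≤ Real.log (16 * R) := Real.log_le_log (by positivity) i2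
        _ = Real.log 16 + Real.log R := Real.log_mul (by norm_num) hR0.ne'
        _ ≤ 3 + Real.log R := by
          have : Real.log 16 ≤ 3 := by
            have : (16 : ℝ) = 2 ^ (4 : ℕ) := by norm_num
            rw [this, Real.log_pow]
            have := Real.log_two_lt_d9
            push_cast
            linarith
          linarith
    have i4 : 0 ≤ Real.log δ⁻¹ := Real.log_nonneg ((one_le_inv₀ hδ0).2 hδ1)
    have i5 : β / R * N ≤ R := by
      rw [div_mul_eq_mul_div, div_le_iff₀ hR0]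
      nlinarith
    have i6 : β / R * δ⁻¹ = R := by rw [i1]; field_simp
    have i7 : δ⁻¹ ≤ 16 * R := by rw [i1]; exact i2
    have hlogR : 0 ≤ Real.log R := Real.log_nonneg (by linarith)
    have j1 : (β / R + 3) * N ≤ 4 * R := by nlinarith
    have j2 : (β / R + 3) * δ⁻¹ ≤ 49 * R := by
      rw [add_mul, i6]; linarith
    have j3 : (β / R + 3) * (δ⁻¹ * (1 + Real.log δ⁻¹)) ≤ 49 * R * (4 + Real.log R) := by
      rw [← mul_assoc]
      have : (0 : ℝ) ≤ 49 * R := by positivity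
      apply mul_le_mul j2 (by linarith) (by linarith) this
    have j4 : (β / R + 3) * 2 * (N + δ⁻¹ * (1 + Real.log δ⁻¹)) =
        2 * ((β / R + 3) * N) + 2 * ((β / R + 3) * (δ⁻¹ * (1 + Real.log δ⁻¹))) := by ring
    rw [j4]
    nlinarith [mul_nonneg hR0.le hlogR]
  rcases hσ with h | h
  · apply key (β / R)
    intro r hr
    have := hrange r hr
    rw [h]
    constructor <;> linarith
  · apply key (-(2 * (β / R)))
    intro r hr
    have := hrange r hr
    rw [h]
    constructor <;> linarith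

lemma rhi_bounds (hB : Bas b p) (hm : 1 ≤ m) (i : ℕ) {ω : Fin m → ℕ × ℕ} (hω : ω ∈ RR b p m F) :
    p * b ^ i ≤ rhi b (i + 1) ω ∧ rhi b (i + 1) ω < p * b ^ i + b ^ i := by
  have e : rhi b (i + 1) ω = ∑ s ∈ Finset.range i, ext2 ω (i - s) * b ^ s + p * b ^ i := by
    unfold rhi
    rw [Finset.sum_range_succ]
    congr 1
    have : i + 1 - 1 - i = 0 := by omega
    rw [this, ext2_zero (by omega) hω]
  have h := dg_lt (b := b) (fun s => ext2 ω (i - s)) i fun s _ => ext2_lt hB hω _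
  rw [e]
  constructor <;> omega

lemma trm_le (hV : ∀ y, 0 ≤ V y ∧ V y ≤ 1) (t : ℝ) (ω : Fin m → ℕ × ℕ) :
    ‖trm b m V χ t ω‖ ≤ 1 := by
  unfold trm
  rw [norm_mul, norm_mul, RCLike.norm_conj]
  have h1 : ‖(wt b V ω : ℂ)‖ ≤ 1 := by
    rw [Complex.norm_real, Real.norm_eq_abs]
    unfold wt
    rw [abs_of_nonneg (hV _).1]
    exact (hV _).2
  have h2 : ‖χ (lowv b ω : ZMod (b ^ m))‖ ≤ 1 := DirichletCharacter.norm_le_one _ _
  have h4 := norm_npow_le (topv b ω) t
  calc ‖(wt b V ω : ℂ)‖ * ‖χ (lowv b ω : ZMod (b ^ m))‖ * ‖(topv b ω : ℂ) ^ (-(t * I))‖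
      ≤ 1 * 1 * 1 := by gcongr
    _ = 1 := by norm_num

/-- trivial bound -/
lemma dt_cc_le (hV : ∀ y, 0 ≤ V y ∧ V y ≤ 1) (t : ℝ) :
    ‖cc b p F V χ t‖ ≤ (RR b p m F).card := by
  rw [cc_eq]
  refine (norm_sum_le _ _).trans ?_
  refine (Finset.sum_le_sum fun ω _ => trm_le hV t ω).trans ?_
  simp

theorem supTop : SupTopProp := by
  refine ⟨14400, by norm_num, ?_⟩
  intro b p m i l F V K hB hF hV hK0 hK hi hil hilF χ h t ht1 ht2
  have hb : 2 ≤ b := hB.two
  have hb2 : (2 : ℝ) ≤ b := by exact_mod_cast hb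
  have hb' : (0 : ℝ) < b := by linarith
  have hm : 1 ≤ m := by omega
  have hpi := Real.pi_pos
  have hpi3 := Real.pi_gt_three
  have hpi4 := Real.pi_lt_four
  have hlogb : 0 ≤ Real.log b := Real.log_nonneg (by linarith)
  have hRR : (0 : ℝ) ≤ (RR b p m F).card := Nat.cast_nonneg _
  have hmlog : (1 : ℝ) ≤ m * Real.log b + 1 := by
    have : (0 : ℝ) ≤ m * Real.log b := by positivity
    linarith
  rcases Nat.eq_zero_or_pos l with hl0 | hl0
  · subst hl0
    have h1 : (1 : ℝ) ≤ 14400 * (1 + K) * (m * Real.log b + 1) * b ^ 3 * ((b : ℝ) ^ 0)⁻¹ := by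
      rw [pow_zero, inv_one, mul_one]
      have a1 : (1 : ℝ) ≤ 14400 * (1 + K) := by linarith
      have a2 : (1 : ℝ) ≤ (b : ℝ) ^ 3 := one_le_pow₀ (by linarith)
      calc (1 : ℝ) = 1 * 1 * 1 := by norm_num
        _ ≤ _ := by gcongr
    calc ‖cc b p F V χ t‖ ≤ 1 * (RR b p m F).card := by rw [one_mul]; exact dt_cc_le hV t
      _ ≤ _ := by gcongr
  obtain ⟨l, rfl⟩ : ∃ l', l = l' + 1 := ⟨l - 1, by omega⟩
  have hli : l + 1 ≤ i := by
    by_contra hcon
    have : (b : ℝ) ^ (2 * i) < (b : ℝ) ^ (i + (l + 1)) :=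
      pow_lt_pow_right₀ (by linarith) (by omega)
    linarith
  have hj : (i + 1) + l ≤ m := by omega
  have hjF : Finset.Ico (i + 1) ((i + 1) + l) ⊆ F := by
    refine Finset.Subset.trans ?_ hilF
    apply Finset.Ico_subset_Ico <;> omega
  set P : ℝ := (p : ℝ) * (b : ℝ) ^ i with hP
  set R : ℝ := 2 * P with hR
  set N : ℝ := (b : ℝ) ^ l with hN
  have hp1 : (1 : ℝ) ≤ p := by exact_mod_cast hB.pos
  have hpb : (p : ℝ) ≤ b := by exact_mod_cast hB.lt.le
  have hbi : (2 : ℝ) ≤ (b : ℝ) ^ i := by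
    calc (2 : ℝ) ≤ b := hb2
      _ = (b : ℝ) ^ 1 := (pow_one _).symm
      _ ≤ (b : ℝ) ^ i := pow_le_pow_right₀ (by linarith) hi
  have hbiP : (b : ℝ) ^ i ≤ P := by rw [hP]; nlinarith
  have hR3 : 3 ≤ R := by rw [hR]; linarith
  have hN1 : 1 ≤ N := one_le_pow₀ (by linarith)
  set β : ℝ := |t| / (2 * Real.pi * N) with hβ
  have hβN : 2 * Real.pi * β * N = |t| := by rw [hβ]; field_simp
  have hβ0 : 0 ≤ β := by rw [hβ]; positivity
  have ht2P : |t| ≤ P ^ 2 := by
    refine ht2.trans ?_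
    rw [mul_comm, pow_mul]
    exact pow_le_pow_left₀ (by positivity) hbiP 2
  have ht1P : P * N ≤ |t| := by
    refine le_trans ?_ ht1
    have : (b : ℝ) ^ (i + (l + 1)) = b * (b : ℝ) ^ i * N := by
      rw [hN, pow_add, pow_succ]; ring
    rw [this, hP]
    gcongr
  -- the sign
  obtain ⟨σ, hσ, hσt⟩ : ∃ σ : ℝ, (σ = 1 ∨ σ = -1) ∧ -t = σ * |t| := by
    rcases le_total 0 t with h0 | h0
    · exact ⟨-1, Or.inr rfl, by rw [abs_of_nonneg h0]; ring⟩
    · exact ⟨1, Or.inl rfl, by rw [abs_of_nonpos h0]; ring⟩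
  have hinner : ∀ ω ∈ RR b p m F,
      ‖∑ z ∈ Finset.range (b ^ l), trm b m V χ t (putT b (i + 1) l z ω)‖ ≤
        9 * (1 + K) * DD N (σ * (β / (rhi b (i + 1) ω : ℕ))) := by
    intro ω hω
    obtain ⟨W, hW1, hW2⟩ := topv_split hB hj hω
    have hρ1 := (rhi_bounds hB hm i hω).1
    set ρ := rhi b (i + 1) ω with hρ
    have hρr : P ≤ (ρ : ℝ) := by rw [hP]; exact_mod_cast hρ1
    have hP0 : 0 < P := by linarith
    have hρ0 : (0 : ℝ) < ρ := by linarith
    set q : ℝ := (b : ℝ) ^ (m - (i + 1) - l) with hq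
    set X : ℝ := ρ * (b : ℝ) ^ (m - (i + 1)) with hX
    set B : ℝ := X + W with hB'
    have hq0 : 0 < q := by positivity
    have hX0 : 0 < X := by positivity
    have hNq : N * q = (b : ℝ) ^ (m - (i + 1)) := by
      rw [hN, hq, ← pow_add]; congr 1; omega
    have hM0 : (0 : ℝ) < (b : ℝ) ^ (m - 1) := by positivity
    have hti := top_inner (X := X) (B := B) (q := q) (M := (b : ℝ) ^ (m - 1)) (t := t)
      (N := b ^ l) hV hK0 hK (Nat.one_le_pow _ _ (by omega)) hX0 hq0 hM0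
      (by rw [hB']; linarith [(Nat.cast_nonneg W : (0 : ℝ) ≤ W)])
      (by
        rw [hB']
        have : (W : ℝ) ≤ q := by rw [hq]; exact_mod_cast hW1.le
        linarith)
      (by
        push_cast
        rw [← hN, hNq]
        exact pow_le_pow_right₀ (by linarith) (by omega))
      (by
        push_cast
        rw [← hN, hNq, hX, mul_pow]
        have : |t| ≤ 4 * (ρ : ℝ) ^ 2 := by nlinarith
        calc |t| * ((b : ℝ) ^ (m - (i + 1))) ^ 2 ≤
              4 * (ρ : ℝ) ^ 2 * ((b : ℝ) ^ (m - (i + 1))) ^ 2 := by gcongr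
          _ = _ := by ring)
    have hθ : -(t * q) / (2 * Real.pi * X) = σ * (β / (ρ : ℝ)) := by
      rw [hX, ← hNq, hβ]
      have : -(t * q) = σ * |t| * q := by rw [← hσt]; ring
      rw [this]
      field_simp
    rw [hθ] at hti
    have hNc : ((b ^ l : ℕ) : ℝ) = N := by rw [hN]; push_cast; rfl
    rw [hNc] at hti
    have hsum : ∑ z ∈ Finset.range (b ^ l), trm b m V χ t (putT b (i + 1) l z ω) =
        (starRingEnd ℂ) (χ (p : ZMod (b ^ m))) * ∑ z ∈ Finset.range (b ^ l),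
          (V ((B + z * q) / (b : ℝ) ^ (m - 1)) : ℂ) * ((B + z * q : ℝ) : ℂ) ^ (-(t * I)) := by
      rw [Finset.mul_sum]
      refine Finset.sum_congr rfl fun z hz => ?_
      rw [Finset.mem_range] at hz
      unfold trm wt
      rw [lowv_putT, chi_low hb hm h hω]
      have e : ((topv b (putT b (i + 1) l z ω) : ℕ) : ℝ) = B + z * q := by
        rw [topv_putT hj hz, hW2, hB', hX, hq]
        push_cast
        ring
      have e2 : ((topv b (putT b (i + 1) l z ω) : ℕ) : ℂ) = ((B + z * q : ℝ) : ℂ) := by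
        rw [← e]; simp
      rw [e, e2]
      ring
    rw [hsum, norm_mul, RCLike.norm_conj]
    have h1 : ‖χ (p : ZMod (b ^ m))‖ ≤ 1 := DirichletCharacter.norm_le_one _ _
    calc ‖χ (p : ZMod (b ^ m))‖ * _ ≤ 1 * _ := by gcongr
      _ ≤ _ := by rw [one_mul]; exact hti
  have hav : N * ‖cc b p F V χ t‖ ≤
      ∑ ω ∈ RR b p m F, 9 * (1 + K) * DD N (σ * (β / (rhi b (i + 1) ω : ℕ))) := by
    have e := avgT (m := m) (F := F) hB (Nat.succ_le_succ (Nat.zero_le i)) hj hjF
      (fun ω => trm b m V χ t ω)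
    rw [← cc_eq, nsmul_eq_mul] at e
    have e2 : N * ‖cc b p F V χ t‖ = ‖((b ^ l : ℕ) : ℂ) * cc b p F V χ t‖ := by
      rw [norm_mul, Complex.norm_natCast, hN]; push_cast; rfl
    rw [e2, ← e]
    exact (norm_sum_le _ _).trans (Finset.sum_le_sum hinner)
  have h9 : (0 : ℝ) ≤ 9 * (1 + K) := by positivity
  have hfib := sum_fibT (F := F) (m := m) (i₀ := i + 1) hB (by omega)
    (fun r => 9 * (1 + K) * DD N (σ * (β / (r : ℕ))))
    (fun r => mul_nonneg h9 (DD_nonneg (by linarith) _))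
    ((Finset.range (2 * (p * b ^ i))).filter fun r => 2 * (p * b ^ i) ≤ 2 * r) (by
      intro ω hω
      rw [Finset.mem_filter, Finset.mem_range]
      obtain ⟨hρ1, hρ2⟩ := rhi_bounds hB hm i hω
      have : b ^ i ≤ p * b ^ i := Nat.le_mul_of_pos_left _ hB.pos
      constructor <;> omega)
  have hlead := sum_lead (n := 2 * (p * b ^ i)) (β := β) (N := N) hσ hR3
    (by rw [hR, hP]; push_cast; rfl) hN1
    (by
      have : P * N ≤ 2 * Real.pi * β * N := by rw [hβN]; exact ht1P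
      have := le_of_mul_le_mul_right this (by linarith)
      rw [hR]
      nlinarith)
    (by
      have e1 : β * N ≤ 2 * Real.pi * β * N := by
        have : 0 ≤ β * N := by positivity
        nlinarith
      have e2 : P ^ 2 ≤ R ^ 2 := by rw [hR]; nlinarith [sq_nonneg P]
      linarith)
    (by
      have : N ≤ (b : ℝ) ^ i := pow_le_pow_right₀ (by linarith) (by omega)
      rw [hR]; linarith)
  have hlogR : Real.log R ≤ (i + 2) * Real.log b := by
    have e1 : R ≤ (b : ℝ) ^ (i + 2) := by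
      rw [hR, hP, pow_add]
      calc 2 * ((p : ℝ) * (b : ℝ) ^ i) ≤ b * (b * (b : ℝ) ^ i) := by gcongr
        _ = _ := by ring
    calc Real.log R ≤ Real.log ((b : ℝ) ^ (i + 2)) := Real.log_le_log (by linarith) e1
      _ = _ := by rw [Real.log_pow]; push_cast; ring
  have hbi0 : (0 : ℝ) < (b : ℝ) ^ (i + 1) := by positivity
  have h5 : ∑ ω ∈ RR b p m F, 9 * (1 + K) * DD N (σ * (β / (rhi b (i + 1) ω : ℕ))) ≤
      (RR b p m F).card * (9 * (1 + K) * (400 * (2 * b * (2 * (m * Real.log b + 1))))) := by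
    have h6 : (∑ ω ∈ RR b p m F, 9 * (1 + K) * DD N (σ * (β / (rhi b (i + 1) ω : ℕ)))) *
        (b : ℝ) ^ (i + 1) ≤
        b * (RR b p m F).card * (9 * (1 + K) * (400 * (R * (1 + (i + 2) * Real.log b)))) := by
      refine hfib.trans ?_
      rw [← Finset.mul_sum]
      have e3 : 400 * (R * (1 + Real.log R)) ≤ 400 * (R * (1 + (i + 2) * Real.log b)) := by
        gcongr
      have e4 := hlead.trans e3
      gcongr
    have e5 : R * (1 + (i + 2) * Real.log b) ≤
        2 * b * (b : ℝ) ^ i * (2 * (m * Real.log b + 1)) := by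
      have e6 : R ≤ 2 * b * (b : ℝ) ^ i := by rw [hR, hP]; nlinarith
      have e7 : (i : ℝ) + 1 ≤ m := by exact_mod_cast (by omega : i + 1 ≤ m)
      have e8 : 1 + ((i : ℝ) + 2) * Real.log b ≤ 2 * (m * Real.log b + 1) := by
        have m1 : (1 : ℝ) ≤ m := by exact_mod_cast hm
        nlinarith
      have e9 : (0 : ℝ) ≤ 1 + ((i : ℝ) + 2) * Real.log b := by positivity
      exact mul_le_mul e6 e8 e9 (by positivity)
    have h8 : b * ((RR b p m F).card : ℝ) *
        (9 * (1 + K) * (400 * (R * (1 + (i + 2) * Real.log b)))) ≤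
        (RR b p m F).card * (9 * (1 + K) * (400 * (2 * b * (2 * (m * Real.log b + 1))))) *
          (b : ℝ) ^ (i + 1) := by
      calc b * ((RR b p m F).card : ℝ) *
            (9 * (1 + K) * (400 * (R * (1 + (i + 2) * Real.log b)))) ≤
            b * ((RR b p m F).card : ℝ) *
            (9 * (1 + K) * (400 * (2 * b * (b : ℝ) ^ i * (2 * (m * Real.log b + 1))))) := by
              gcongr
        _ = _ := by rw [pow_succ]; ring
    exact le_of_mul_le_mul_right (h6.trans h8) hbi0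
  have h10 : N * ‖cc b p F V χ t‖ ≤
      14400 * (1 + K) * (m * Real.log b + 1) * b * (RR b p m F).card := by
    refine hav.trans (h5.trans (le_of_eq ?_))
    ring
  have hN0 : (0 : ℝ) < N := by linarith
  rw [mul_comm, ← le_div_iff₀ hN0] at h10
  refine h10.trans ?_
  have hbl : ((b : ℝ) ^ (l + 1))⁻¹ = (b : ℝ)⁻¹ * N⁻¹ := by
    rw [hN, pow_succ, mul_inv]; ring
  rw [hbl, div_eq_mul_inv]
  have e1 : (b : ℝ) ≤ (b : ℝ) ^ 3 * (b : ℝ)⁻¹ := by
    have : (b : ℝ) ^ 3 * (b : ℝ)⁻¹ = (b : ℝ) ^ 2 := by field_simp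
    rw [this]; nlinarith
  calc 14400 * (1 + K) * (m * Real.log b + 1) * b * (RR b p m F).card * N⁻¹
      = b * (14400 * (1 + K) * (m * Real.log b + 1) * (RR b p m F).card * N⁻¹) := by ring
    _ ≤ (b : ℝ) ^ 3 * (b : ℝ)⁻¹ *
        (14400 * (1 + K) * (m * Real.log b + 1) * (RR b p m F).card * N⁻¹) := by gcongr
    _ = _ := by ring

end Pool.Agent.HPZ
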