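import Pool.Agent.HPZ.DFib
import Pool.Agent.HPP.DChr

/-!
# HPZ/DChr: characters modulo `b ^ m` of level `b ^ m'` on blocks

The lemmas `chi_congr, chi_add, zeta_pow, zeta_ne, zeta_u_ne, chi_block, exists_inv` do not mention the
patterns: use those of `HPP/DChr` (`open Pool.Agent.HPP`).
-/

namespace Pool.Agent.HPZ

lemma coprime_of_mod {b p r : ℕ} (hB : Bas b p) (hr : r ≡ p [MOD b]) : r.Coprime b := by
  unfold Nat.Coprime
  rw [Nat.ModEq.gcd_eq hr]
  exact hB.cop

end Pool.Agent.HPZ
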