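import Pool.Agent.HPZ.Iface
import Pool.Agent.HPZ.EBas
import Pool.Agent.HPP.AFin

/-!
# HPZ/AFin: choice of the parameters, every base

`FinalZ` from `MainProp`, `CountProp`, `ErrZ`. `p = 1`, `w = ⌊(5/9) (k-1) / (2^(J+1) + 1)⌋`, `m = 2^J w`,
`M = range m \ Fr J w`. `N₀ = #RR b^(k-1) / (b^m φ(b^m)) ≥ b^(k - #M - 2)` as `#RR = b^(m-1+#F)`,
`#M = m - #F`. `c₀/2 N₀ ≤ k log b (G + 2 k log b b^(k/2))` and the last term is absorbed
(`k - #M ≥ 13 k / 18`). The constant is `c₀ / (4 b² log b)`.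
-/

namespace Pool.Agent.HPZ

open Filter

private theorem AFz_N0 {b p m k : ℕ} {F : Finset ℕ} (hb : 2 ≤ b) (hm : 1 ≤ m) (hmk : 2 * m ≤ k)
    (hF : F ⊆ Finset.Ico 1 m) :
    (b : ℝ) ^ (k - (m - F.card)) / (b : ℝ) ^ 2 ≤
      (RR b p m F).card * (b : ℝ) ^ (k - 1) / ((b : ℝ) ^ m * (b ^ m).totient) := by
  have hB : (0 : ℝ) < b := by positivity
  have hFc : F.card ≤ m - 1 := by
    have := Finset.card_le_card hF
    rwa [Nat.card_Ico] at this
  have htot : ((b ^ m).totient : ℝ) ≤ (b : ℝ) ^ m := by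
    have := Nat.totient_le (b ^ m)
    exact_mod_cast this
  have htot0 : (0 : ℝ) < ((b ^ m).totient : ℝ) := by
    have : 0 < (b ^ m).totient := Nat.totient_pos.mpr (by positivity)
    exact_mod_cast this
  rw [card_RR hm hF]
  push_cast
  calc (b : ℝ) ^ (k - (m - F.card)) / (b : ℝ) ^ 2
      = (b : ℝ) ^ (m - 1 + F.card) * (b : ℝ) ^ (k - 1) / ((b : ℝ) ^ m * (b : ℝ) ^ m) := by
        rw [div_eq_div_iff (by positivity) (by positivity), ← pow_add, ← pow_add, ← pow_add,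
          ← pow_add]
        congr 1
        omega
    _ ≤ (b : ℝ) ^ (m - 1 + F.card) * (b : ℝ) ^ (k - 1) / ((b : ℝ) ^ m * (b ^ m).totient) := by
        gcongr

private theorem AFz_J (ε : ℝ) (hε : 0 < ε) (J₀ : ℕ) : ∃ J : ℕ, J₀ ≤ J ∧ 5 ≤ J ∧
    (1 / 2 : ℝ) ^ J ≤ ε / 8 ∧ 3 * J * (1 / 2 : ℝ) ^ J ≤ ε / 8 := by
  have h1 : Tendsto (fun n : ℕ => (1 / 2 : ℝ) ^ n) atTop (nhds 0) :=
    tendsto_pow_atTop_nhds_zero_of_lt_one (by norm_num) (by norm_num)
  have h2 : Tendsto (fun n : ℕ => (n : ℝ) * (1 / 2 : ℝ) ^ n) atTop (nhds 0) :=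
    tendsto_self_mul_const_pow_of_lt_one (by norm_num) (by norm_num)
  have e1 := h1.eventually (gt_mem_nhds (show (0 : ℝ) < ε / 8 by positivity))
  have e2 := h2.eventually (gt_mem_nhds (show (0 : ℝ) < ε / 24 by positivity))
  obtain ⟨J, ⟨⟨a1, a2⟩, a3⟩, a4⟩ :=
    (((e1.and e2).and (eventually_ge_atTop J₀)).and (eventually_ge_atTop 5)).exists
  refine ⟨J, a3, a4, a1.le, ?_⟩
  nlinarith

private theorem AFz_growth (L a C : ℝ) (hL : 0 < L) (ha : 0 < a) (hC : 0 < C) :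
    ∀ᶠ k : ℕ in atTop, (k : ℝ) * L * (2 * k * L) ≤ C * Real.exp (a * k) := by
  have h := isLittleO_pow_exp_pos_mul_atTop 2 ha
  have h1 := h.bound (show 0 < C / (2 * L ^ 2) by positivity)
  have h2 := (tendsto_natCast_atTop_atTop (R := ℝ)).eventually h1
  filter_upwards [h2] with k hk
  rw [Real.norm_of_nonneg (by positivity), Real.norm_of_nonneg (Real.exp_pos _).le] at hk
  have hD : 0 < 2 * L ^ 2 := by positivity
  calc (k : ℝ) * L * (2 * k * L) = (2 * L ^ 2) * (k : ℝ) ^ 2 := by ring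
    _ ≤ (2 * L ^ 2) * (C / (2 * L ^ 2) * Real.exp (a * k)) := mul_le_mul_of_nonneg_left hk hD.le
    _ = C * Real.exp (a * k) := by field_simp

/-- the assembly -/
theorem assemblyZ : AssemblyZ := by
  intro hM hC hE b hb2 ε hε
  obtain ⟨V₀, η, hB⟩ := HPP.exists_Bp
  obtain ⟨J₀, hJ₀⟩ := hE V₀ η hB
  obtain ⟨J, hJ1, hJ5, hJa, hJb⟩ := AFz_J ε hε J₀
  have hBpos : (0 : ℝ) < b := by positivity
  have hB2 : (2 : ℝ) ≤ b := by exact_mod_cast hb2
  have hB1 : (1 : ℝ) < b := by linarith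
  have hp : Bas b 1 := ⟨hb2, le_rfl, by omega, Nat.coprime_one_left b⟩
  obtain ⟨c₀, hc₀, w₁, hw₁⟩ := hM V₀ η hB b 1 J hp hJ5
  -- the slope of `w`
  set c : ℝ := (5 / 9) / (2 ^ (J + 1) + 1) with hc
  have hc0 : 0 < c := by rw [hc]; positivity
  obtain ⟨w₂, hw₂⟩ := hJ₀ J hJ1 b 1 hp (2 / c) (by positivity) (c₀ / 2) (by positivity)
  -- `w → ∞`
  have hwt : Tendsto (fun k : ℕ => ⌊c * ((k : ℝ) - 1)⌋₊) atTop atTop := by
    refine tendsto_nat_floor_atTop.comp ?_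
    refine Tendsto.const_mul_atTop hc0 ?_
    exact tendsto_atTop_add_const_right _ _ tendsto_natCast_atTop_atTop
  have hL : 0 < Real.log b := Real.log_pos hB1
  have ev2 := hwt.eventually_ge_atTop (max 1 (max w₁ w₂))
  have ev3 := (tendsto_natCast_atTop_atTop (R := ℝ)).eventually_ge_atTop
    (max (2 + 2 / c) ((1 + 2 ^ J) / (5 * ε / 8)))
  have ev4 := AFz_growth (Real.log b) (2 / 9 * Real.log b) (c₀ / (4 * (b : ℝ) ^ 2)) hL
    (by positivity) (by positivity)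
  obtain ⟨k₀, hk₀⟩ := eventually_atTop.mp ((ev2.and ev3).and (ev4.and
    (eventually_ge_atTop 1)))
  refine ⟨c₀ / (4 * (b : ℝ) ^ 2 * Real.log b), by positivity, k₀, fun k hk => ?_⟩
  obtain ⟨⟨e2, e3⟩, e4, e5⟩ := hk₀ k hk
  set w : ℕ := ⌊c * ((k : ℝ) - 1)⌋₊ with hw
  have hw1 : 1 ≤ w := (le_max_left _ _).trans e2
  have hww₁ : w₁ ≤ w := ((le_max_left _ _).trans (le_max_right _ _)).trans e2
  have hww₂ : w₂ ≤ w := ((le_max_right _ _).trans (le_max_right _ _)).trans e2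
  have hk2c : 2 + 2 / c ≤ (k : ℝ) := (le_max_left _ _).trans e3
  have hkJ : (1 + 2 ^ J) / (5 * ε / 8) ≤ (k : ℝ) := (le_max_right _ _).trans e3
  have hkJ' : 1 + (2 : ℝ) ^ J ≤ 5 * ε / 8 * k := by
    rw [div_le_iff₀ (by positivity)] at hkJ
    linarith
  have hk1 : (1 : ℝ) ≤ k := by exact_mod_cast e5
  have hwle : (w : ℝ) ≤ c * ((k : ℝ) - 1) := Nat.floor_le (by
    apply mul_nonneg hc0.le; linarith)
  have hwge : c * ((k : ℝ) - 1) < (w : ℝ) + 1 := Nat.lt_floor_add_one _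
  have hP : (0 : ℝ) < 2 ^ J := by positivity
  have hP1 : (1 : ℝ) ≤ 2 ^ J := one_le_pow₀ (by norm_num)
  have hcP : c * (2 * 2 ^ J + 1) = 5 / 9 := by
    rw [hc, pow_succ]
    field_simp
  have hw0 : (0 : ℝ) ≤ w := Nat.cast_nonneg w
  have hwf : (2 * 2 ^ J + 1) * (w : ℝ) ≤ 5 / 9 * ((k : ℝ) - 1) := by
    calc (2 * 2 ^ J + 1) * (w : ℝ) ≤ (2 * 2 ^ J + 1) * (c * ((k : ℝ) - 1)) :=
          mul_le_mul_of_nonneg_left hwle (by positivity)
      _ = c * (2 * 2 ^ J + 1) * ((k : ℝ) - 1) := by ring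
      _ = 5 / 9 * ((k : ℝ) - 1) := by rw [hcP]
  have hcond1 : (2 : ℝ) * (2 ^ J * w) + w ≤ 5 / 9 * (k - 1) := by
    linarith only [hwf]
  have hcond2 : (k : ℝ) ≤ 2 / c * w := by
    have h1 : (k : ℝ) - 1 < (w + 1) / c := by
      rw [lt_div_iff₀ hc0]; linarith
    have h2 : 2 / c * w = 2 * ((w + 1) / c) - 2 / c := by field_simp; ring
    rw [h2]
    linarith
  set m : ℕ := 2 ^ J * w with hm
  have hmr : (m : ℝ) = 2 ^ J * w := by rw [hm]; push_cast; ring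
  have hm1 : 1 ≤ m := by
    rw [hm]
    exact Nat.one_le_iff_ne_zero.mpr (Nat.mul_ne_zero (by positivity) (by omega))
  have h2m : (2 : ℝ) * m ≤ 5 / 9 * k := by
    rw [hmr]; linarith only [hwf, hw0]
  have h2mk : 2 * m ≤ k := by
    have : (2 : ℝ) * m ≤ k := by linarith only [h2m, hk1]
    exact_mod_cast this
  have hmk : m ≤ k := by omega
  have hMain := hw₁ w hww₁ k h2mk
  have hErr := hw₂ w hww₂ k hcond1 hcond2
  have hFs : HPP.Fr J w ⊆ Finset.Ico 1 m := HPP.Fr_subset J w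
  have hCount := hC V₀ η hB b 1 m k (HPP.Fr J w) hp hFs hm1 h2mk
  have hN := AFz_N0 (p := 1) hb2 hm1 h2mk hFs
  rw [← hm] at hMain hErr
  have hFr : HPP.Fr J w ⊆ Finset.range m := fun i hi =>
    Finset.mem_range.mpr (Finset.mem_Ico.mp (hFs hi)).2
  have hMc : (Finset.range m \ HPP.Fr J w).card = m - (HPP.Fr J w).card := by
    rw [Finset.card_sdiff_of_subset hFr, Finset.card_range]
  refine ⟨Finset.range m \ HPP.Fr J w, ?_, ?_, ?_⟩
  · intro i hi
    have him : i < m := Finset.mem_range.mp (Finset.mem_sdiff.mp hi).1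
    have : (i : ℝ) < m := by exact_mod_cast him
    linarith only [this, h2m, hk1]
  · have h1 := Finset.le_card_sdiff (HPP.Fr J w) (Finset.range m)
    rw [Finset.card_range] at h1
    have h2 := HPP.Fr_card J w (by omega)
    have h3 : (m : ℝ) - 3 * J * w ≤ ((Finset.range m \ HPP.Fr J w).card : ℝ) := by
      have : m ≤ (Finset.range m \ HPP.Fr J w).card + 3 * J * w := by omega
      have : (m : ℝ) ≤ ((Finset.range m \ HPP.Fr J w).card : ℝ) + 3 * J * w := by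
        exact_mod_cast this
      linarith
    refine le_trans ?_ h3
    set u : ℝ := (1 / 2 : ℝ) ^ J with hu
    have hu0 : 0 < u := by positivity
    have huP : u * 2 ^ J = 1 := by
      rw [hu, ← mul_pow]; norm_num
    have hcu : c ≤ u := by
      have h5 : c * (2 ^ J) ≤ 1 := by linarith only [hcP, hc0]
      nlinarith only [h5, huP, hu0, hP]
    have h4 : 3 * (J : ℝ) * w ≤ ε / 8 * k := by
      have h5 : (w : ℝ) ≤ u * k := by
        have h51 : c * (k : ℝ) ≤ u * k := mul_le_mul_of_nonneg_right hcu (by linarith only [hk1])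
        linarith only [hwle, h51, hc0]
      calc 3 * (J : ℝ) * w ≤ 3 * (J : ℝ) * (u * k) := mul_le_mul_of_nonneg_left h5 (by positivity)
        _ = 3 * (J : ℝ) * u * k := by ring
        _ ≤ ε / 8 * k := mul_le_mul_of_nonneg_right hJb (by linarith)
    have h6 : ((5 / 9 : ℝ) / 2 - u) ≤ 2 ^ J * c := by
      have : 2 * (2 ^ J * c) + c = 5 / 9 := by linarith
      linarith
    have h7 : 2 ^ J * c ≤ 1 := by linarith only [hcP, hc0]
    have h8 : ((5 / 9 : ℝ) / 2 - u) * k - 1 - 2 ^ J ≤ (m : ℝ) := by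
      rw [hmr]
      have h9 : 2 ^ J * (c * ((k : ℝ) - 1)) ≤ 2 ^ J * ((w : ℝ) + 1) :=
        mul_le_mul_of_nonneg_left hwge.le hP.le
      have h10 : ((5 / 9 : ℝ) / 2 - u) * k ≤ 2 ^ J * c * k :=
        mul_le_mul_of_nonneg_right h6 (by linarith only [hk1])
      linarith only [h7, h9, h10]
    have h11 : u * k ≤ ε / 8 * k := mul_le_mul_of_nonneg_right hJa (by linarith)
    have h13 : ((5 / 9 : ℝ) / 2 - u) * (k : ℝ) = 5 / 18 * k - u * k := by ring
    have h14 : ((5 / 18 : ℝ) - ε) * (k : ℝ) = 5 / 18 * k - ε * k := by ring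
    rw [h13] at h8
    rw [h14]
    have h15 : 5 * ε / 8 * (k : ℝ) = 5 / 8 * (ε * k) := by ring
    have h16 : ε / 8 * (k : ℝ) = 1 / 8 * (ε * k) := by ring
    rw [h15] at hkJ'
    rw [h16] at h4 h11
    have h17 : 0 ≤ ε * k := by positivity
    linarith only [h4, h8, h11, hkJ', h17]
  · set G : ℝ := (((Finset.range (b ^ k)).filter fun n => n.Prime ∧ b ^ (k - 1) ≤ n ∧
      ∀ i < m, i ∉ HPP.Fr J w →
        (Nat.digits b n).getD i 0 = (Nat.digits b n).getD (k - 1 - i) 0).card : ℝ) with hG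
    have hGeq : (((Finset.range (b ^ k)).filter fun n => n.Prime ∧
        b ^ (k - 1) ≤ n ∧ ∀ i ∈ Finset.range m \ HPP.Fr J w,
        (Nat.digits b n).getD i 0 = (Nat.digits b n).getD (k - 1 - i) 0).card : ℝ) = G := by
      rw [hG]
      congr 2
      refine Finset.filter_congr fun n _ => ?_
      simp only [Finset.mem_sdiff, Finset.mem_range, and_imp]
    rw [hGeq, hMc]
    set N₀ : ℝ := ((RR b 1 m (HPP.Fr J w)).card * (b : ℝ) ^ (k - 1) /
      ((b : ℝ) ^ m * (b ^ m).totient)) with hN₀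
    have htot0 : (0 : ℝ) < ((b ^ m).totient : ℝ) := by
      have : 0 < (b ^ m).totient := Nat.totient_pos.mpr (by positivity)
      exact_mod_cast this
    have hN₀0 : 0 ≤ N₀ := by rw [hN₀]; positivity
    have hE2 : Err b 1 J w k (fun y => V₀ (y - (1 : ℕ))) / ((b : ℝ) ^ m * (b ^ m).totient) ≤
        c₀ / 2 * N₀ := by
      calc Err b 1 J w k (fun y => V₀ (y - (1 : ℕ))) / ((b : ℝ) ^ m * (b ^ m).totient)
          ≤ (c₀ / 2 * (RR b 1 m (HPP.Fr J w)).card * (b : ℝ) ^ (k - 1)) /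
            ((b : ℝ) ^ m * (b ^ m).totient) := by gcongr
        _ = c₀ / 2 * N₀ := by rw [hN₀]; ring
    have hS : c₀ / 2 * N₀ ≤
        k * Real.log b * (G + 2 * k * Real.log b * (b : ℝ) ^ ((k : ℝ) / 2)) := by
      refine le_trans ?_ hCount
      linarith
    set X : ℝ := (b : ℝ) ^ (k - (m - (HPP.Fr J w).card)) with hX
    have hX0 : 0 < X := by rw [hX]; positivity
    have hXN : c₀ / 2 * (X / (b : ℝ) ^ 2) ≤ c₀ / 2 * N₀ :=
      mul_le_mul_of_nonneg_left hN (by positivity)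
    have habs : (k : ℝ) * Real.log b * (2 * k * Real.log b) * (b : ℝ) ^ ((k : ℝ) / 2) ≤
        c₀ / (4 * (b : ℝ) ^ 2) * X := by
      have h1 : Real.exp (2 / 9 * Real.log b * k) = (b : ℝ) ^ (2 / 9 * k : ℝ) := by
        rw [Real.rpow_def_of_pos hBpos]; congr 1; ring
      have h2 : (b : ℝ) ^ (2 / 9 * k : ℝ) * (b : ℝ) ^ ((k : ℝ) / 2) ≤ X := by
        rw [← Real.rpow_add hBpos, hX, ← Real.rpow_natCast]
        refine Real.rpow_le_rpow_of_exponent_le hB1.le ?_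
        have h3 : (k : ℝ) ≤ ((k - (m - (HPP.Fr J w).card) : ℕ) : ℝ) + m := by
          have : k ≤ (k - (m - (HPP.Fr J w).card)) + m := by omega
          exact_mod_cast this
        linarith only [h3, h2m]
      calc (k : ℝ) * Real.log b * (2 * k * Real.log b) * (b : ℝ) ^ ((k : ℝ) / 2)
          ≤ c₀ / (4 * (b : ℝ) ^ 2) * Real.exp (2 / 9 * Real.log b * k) *
            (b : ℝ) ^ ((k : ℝ) / 2) := by gcongr
        _ = c₀ / (4 * (b : ℝ) ^ 2) * ((b : ℝ) ^ (2 / 9 * k : ℝ) * (b : ℝ) ^ ((k : ℝ) / 2)) := by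
            rw [h1]; ring
        _ ≤ c₀ / (4 * (b : ℝ) ^ 2) * X := by gcongr
    have hk0 : (0 : ℝ) < k := by linarith
    have h5 : c₀ / (4 * (b : ℝ) ^ 2) * X ≤ k * Real.log b * G := by
      have h6 : c₀ / 2 * (X / (b : ℝ) ^ 2) = 2 * (c₀ / (4 * (b : ℝ) ^ 2) * X) := by
        field_simp; ring
      have h7 : k * Real.log b * (G + 2 * k * Real.log b * (b : ℝ) ^ ((k : ℝ) / 2)) =
          k * Real.log b * G +
          (k : ℝ) * Real.log b * (2 * k * Real.log b) * (b : ℝ) ^ ((k : ℝ) / 2) := by ring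
      linarith only [h6, h7, hXN, hS, habs]
    have h8 : c₀ / (4 * (b : ℝ) ^ 2 * Real.log b) * X / k =
        c₀ / (4 * (b : ℝ) ^ 2) * X / (k * Real.log b) := by
      field_simp
    rw [h8, div_le_iff₀ (by positivity)]
    linarith only [h5]

end Pool.Agent.HPZ
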