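import Pool.Agent.HPZ.AMain
import Pool.Agent.HPZ.ATail

set_option autoImplicit false

/-!
# HPZ/AMP : `MainProp` (assembly of A1, A2, A5) (port of `HPP/AMP` by helper14)

The sets of the error terms are now `Es χ (b^(w/3)) T`, one sum over all characters.
-/

namespace Pool.Agent.HPZ

open Complex MeasureTheory Filter Topology

open Pool.Agent.HPP (Bp eh eh_le eh_zero PP PP_continuous Fr II GG II_GG c_pos lw eventually_lw)

variable {V₀ η : ℝ → ℝ}

private theorem itg_norm_le (hB : Bp V₀ η) {b p m k : ℕ} (hb : Bas b p) (F : Finset ℕ)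
    {V : ℝ → ℝ} (χ : DirichletCharacter ℂ (b ^ m)) (t : ℝ) :
    ‖itg b p m k F V η χ t‖ ≤
      1 / 2 * (‖cc b p F V χ t‖ * ‖PP χ t ((b : ℝ) ^ (k - 1))‖) := by
  have hb0 : (0 : ℝ) < b := by
    have := hb.two
    exact_mod_cast (by omega : 0 < b)
  have h1 : ‖((b : ℂ) ^ (k - m)) ^ (-(t * I))‖ = 1 := by
    have h2 : ((b : ℂ) ^ (k - m)) = (((b : ℝ) ^ (k - m) : ℝ) : ℂ) := by push_cast; rfl
    rw [h2, Complex.norm_cpow_eq_rpow_re_of_pos (by positivity)]
    simp
  unfold itg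
  rw [norm_mul, norm_mul, norm_mul, h1, mul_one]
  exact mul_le_mul_of_nonneg_right (eh_le hB _) (by positivity)

theorem mainZ (hS : SmProp) : MainProp := by
  classical
  intro V₀ η hB b p J hb hJ
  obtain ⟨c1, hc1, he0⟩ := eh_zero hB
  have hp1 : 1 ≤ p := hb.pos
  have hc2 := c_pos hB hp1
  obtain ⟨c2, hc2d⟩ : ∃ c2 : ℝ, c2 = ∫ y in (p : ℝ)..(p + 1 : ℝ), V₀ (y - p) *
    (y * Real.exp (-(Real.log y) ^ 2)) := ⟨_, rfl⟩
  rw [← hc2d] at hc2
  obtain ⟨L, hLd⟩ : ∃ L : ℝ, L = c1 * (2 * Real.pi * c2) := ⟨_, rfl⟩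
  have hL : 0 < L := by rw [hLd]; positivity
  have hV : ∀ y : ℝ, 0 ≤ V₀ (y - p) ∧ V₀ (y - p) ≤ 1 := fun y => hB.V_range _
  have hlim := main_tendsto hS hB hb J
  rw [he0, II_GG hB hp1, ← hc2d] at hlim
  have hre : Tendsto (fun u : ℕ × ℕ => (Mn b p J u.1 u.2 (fun y => V₀ (y - p)) η /
      (((RR b p (2 ^ J * u.1) (Fr J u.1)).card : ℂ) * (b : ℂ) ^ (u.2 - 1))).re) (lw J) (𝓝 L) := by
    have h1 := (Complex.continuous_re.tendsto _).comp hlim
    have h2 : ((c1 : ℂ) * ((2 * Real.pi * c2 : ℝ) : ℂ)).re = L := by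
      rw [hLd, ← Complex.ofReal_mul, Complex.ofReal_re]
    rw [h2] at h1
    exact h1
  have hev := hre.eventually (lt_mem_nhds (show 3 / 4 * L < L by linarith))
  rw [eventually_lw] at hev
  obtain ⟨w1, hw1⟩ := hev
  obtain ⟨w2, hw2⟩ := tail_le hB hb J (V := fun y => V₀ (y - p)) hV
    (show (0 : ℝ) < L / 4 by positivity)
  refine ⟨L / (4 * Real.pi), by positivity, max 1 (max w1 w2), ?_⟩
  intro w hw k hk
  have hw0 : 1 ≤ w := (le_max_left _ _).trans hw
  have hww1 : w1 ≤ w := ((le_max_left _ _).trans (le_max_right _ _)).trans hw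
  have hww2 : w2 ≤ w := ((le_max_right _ _).trans (le_max_right _ _)).trans hw
  have h1 := hw1 w hww1 k hk
  have h2 := hw2 w hww2 k hk
  have hb3 := hb.two
  have hb1 : (1 : ℝ) ≤ b := by exact_mod_cast (by omega : 1 ≤ b)
  have hb0 : (0 : ℝ) < b := by linarith
  obtain ⟨m, hm⟩ : ∃ m, m = 2 ^ J * w := ⟨_, rfl⟩
  have hJ1 : 1 ≤ 2 ^ J := Nat.one_le_two_pow
  have hmw : w ≤ m := by rw [hm]; nlinarith
  have hm1 : 1 ≤ m := hw0.trans hmw
  have hmk : m ≤ k := by rw [hm]; omega
  have hF : Fr J w ⊆ Finset.Ico 1 m := by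
    rw [hm]
    exact Finset.filter_subset _ _
  simp only at h1
  rw [← hm] at h1 h2 ⊢
  obtain ⟨R, hR⟩ : ∃ R : ℝ, R = (RR b p m (Fr J w)).card * (b : ℝ) ^ (k - 1) := ⟨_, rfl⟩
  have hRc : (((RR b p m (Fr J w)).card : ℂ) * (b : ℂ) ^ (k - 1)) = (R : ℂ) := by
    rw [hR]; push_cast; rfl
  rw [hRc, Complex.div_ofReal_re] at h1
  rw [← hR] at h2 ⊢
  have hR0 : 0 ≤ R := by rw [hR]; positivity
  have hRpos : 0 < R := by
    rcases hR0.lt_or_eq with h | h
    · exact h
    · exfalso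
      rw [← h, div_zero] at h1
      linarith
  have h3 : 3 / 4 * L * R < (Mn b p J w k (fun y => V₀ (y - p)) η).re :=
    (lt_div_iff₀ hRpos).1 h1
  -- the expansion
  have h4 := expansion hB hb hm1 hmk (Fr J w) hF hV
  obtain ⟨φ, hφ⟩ : ∃ φ : ℝ, φ = (b : ℝ) ^ m * (b ^ m).totient := ⟨_, rfl⟩
  have hφ0 : 0 < φ := by
    rw [hφ]
    have : 0 < (b ^ m).totient := Nat.totient_pos.2 (by positivity)
    positivity
  rw [← hφ] at h4 ⊢
  obtain ⟨A, hA⟩ : ∃ A : ℝ, A = (b : ℝ) ^ ((w : ℝ) / 3) := ⟨_, rfl⟩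
  obtain ⟨T, hT⟩ : ∃ T : ℝ, T = (b : ℝ) ^ (m + w / 4) := ⟨_, rfl⟩
  have hAT : A ≤ T := by
    rw [hA, hT, ← Real.rpow_natCast]
    apply Real.rpow_le_rpow_of_exponent_le hb1
    have : (w : ℝ) ≤ m := by exact_mod_cast hmw
    push_cast
    have h5 : (0 : ℝ) ≤ ((w / 4 : ℕ) : ℝ) := by positivity
    have h6 : (0 : ℝ) ≤ w := by positivity
    linarith
  have hA0 : 0 ≤ A := by rw [hA]; positivity
  have hT0 : 0 ≤ T := hA0.trans hAT
  rw [← hT] at h2
  -- measurable sets
  have mA : MeasurableSet {t : ℝ | |t| < A} := measurableSet_lt continuous_abs.measurable measurable_const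
  have mT : MeasurableSet {t : ℝ | T < |t|} := measurableSet_lt measurable_const continuous_abs.measurable
  have mE : ∀ χ : DirichletCharacter ℂ (b ^ m), MeasurableSet (Es χ A T) := by
    intro χ
    unfold Es
    by_cases hχ : χ.FactorsThrough b
    · simp only [hχ, forall_const]
      exact (measurableSet_le continuous_abs.measurable measurable_const).inter
        (measurableSet_le measurable_const continuous_abs.measurable)
    · simp only [hχ, false_imp_iff, and_true]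
      exact measurableSet_le continuous_abs.measurable measurable_const
  have hint : ∀ χ : DirichletCharacter ℂ (b ^ m),
      Integrable (itg b p m k (Fr J w) (fun y => V₀ (y - p)) η χ) :=
    fun χ => itg_integrable hB hb hm1 (Fr J w) hF hV χ
  -- continuity of the product
  have hcont : ∀ χ : DirichletCharacter ℂ (b ^ m), Continuous fun t : ℝ =>
      ‖cc b p (Fr J w) (fun y => V₀ (y - p)) χ t‖ * ‖PP χ t ((b : ℝ) ^ (k - 1))‖ := fun χ =>
    (cc_continuous hb hm1 _ _ χ).norm.mul (PP_continuous χ (by positivity)).norm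
  -- set integrals of itg on bounded sets
  have hset : ∀ (χ : DirichletCharacter ℂ (b ^ m)) (S : Set ℝ), MeasurableSet S →
      S ⊆ Set.Icc (-T) T →
      ‖∫ t in S, itg b p m k (Fr J w) (fun y => V₀ (y - p)) η χ t‖ ≤ 1 / 2 *
        ∫ t in S, ‖cc b p (Fr J w) (fun y => V₀ (y - p)) χ t‖ *
          ‖PP χ t ((b : ℝ) ^ (k - 1))‖ := by
    intro χ S hSm hST
    have hIo : IntegrableOn (fun t : ℝ => ‖cc b p (Fr J w) (fun y => V₀ (y - p)) χ t‖ *
        ‖PP χ t ((b : ℝ) ^ (k - 1))‖) S :=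
      ((hcont χ).continuousOn.integrableOn_compact isCompact_Icc).mono_set hST
    refine (norm_integral_le_integral_norm _).trans ?_
    rw [← integral_const_mul]
    apply setIntegral_mono_on (hint χ).norm.integrableOn (hIo.const_mul _) hSm
    intro t _
    exact itg_norm_le hB hb _ χ t
  -- splitting of one integral
  have split1 : ∀ χ : DirichletCharacter ℂ (b ^ m),
      ∫ t : ℝ, itg b p m k (Fr J w) (fun y => V₀ (y - p)) η χ t =
      (if χ.FactorsThrough b then
        ∫ t in {t : ℝ | |t| < A}, itg b p m k (Fr J w) (fun y => V₀ (y - p)) η χ t else 0) +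
      ((∫ t in Es χ A T, itg b p m k (Fr J w) (fun y => V₀ (y - p)) η χ t) +
      ∫ t in {t : ℝ | T < |t|}, itg b p m k (Fr J w) (fun y => V₀ (y - p)) η χ t) := by
    intro χ
    have hd : Disjoint (Es χ A T) {t : ℝ | T < |t|} := by
      rw [Set.disjoint_left]
      intro t h5 h6
      have h7 : |t| ≤ T := h5.1
      have h8 : T < |t| := h6
      linarith
    rw [← setIntegral_union hd mT (hint χ).integrableOn (hint χ).integrableOn]
    by_cases hχ : χ.FactorsThrough b
    · rw [if_pos hχ]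
      have hc : Es χ A T ∪ {t : ℝ | T < |t|} = {t : ℝ | |t| < A}ᶜ := by
        ext t
        simp only [Es, Set.mem_union, Set.mem_setOf_eq, Set.mem_compl_iff, not_lt, hχ,
          forall_const]
        constructor
        · rintro (h | h)
          · exact h.2
          · exact hAT.trans h.le
        · intro h
          rcases le_or_gt |t| T with h5 | h5
          · exact Or.inl ⟨h5, h⟩
          · exact Or.inr h5
      rw [hc, integral_add_compl mA (hint χ)]
    · rw [if_neg hχ, zero_add]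
      have hc : Es χ A T ∪ {t : ℝ | T < |t|} = Set.univ := by
        ext t
        simp only [Es, Set.mem_union, Set.mem_setOf_eq, hχ, false_imp_iff, and_true,
          Set.mem_univ, iff_true]
        exact le_or_gt _ _
      rw [hc, setIntegral_univ]
  -- the sum
  have hsum : ((2 * Real.pi * φ * SSum b p m k (Fr J w) (fun y => V₀ (y - p)) η : ℝ) : ℂ) =
      Mn b p J w k (fun y => V₀ (y - p)) η +
      ((∑ χ : DirichletCharacter ℂ (b ^ m), ∫ t in Es χ A T,
          itg b p m k (Fr J w) (fun y => V₀ (y - p)) η χ t) +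
      ∑ χ : DirichletCharacter ℂ (b ^ m), ∫ t in {t : ℝ | T < |t|},
          itg b p m k (Fr J w) (fun y => V₀ (y - p)) η χ t) := by
    rw [h4, Finset.sum_congr rfl (fun χ _ => split1 χ), Finset.sum_add_distrib,
      Finset.sum_add_distrib]
    congr 1
    rw [← Finset.sum_filter]
    unfold Mn
    rw [← hm, ← hA]
  -- norms of the two error sums
  obtain ⟨E1, hE1⟩ : ∃ E1 : ℝ, E1 = ∑ χ : DirichletCharacter ℂ (b ^ m), ∫ t in Es χ A T,
      ‖cc b p (Fr J w) (fun y => V₀ (y - p)) χ t‖ * ‖PP χ t ((b : ℝ) ^ (k - 1))‖ := ⟨_, rfl⟩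
  have hErr : Err b p J w k (fun y => V₀ (y - p)) = E1 := by
    unfold Err
    rw [← hm, ← hA, ← hT, hE1]
  have n1 : ‖∑ χ : DirichletCharacter ℂ (b ^ m), ∫ t in Es χ A T,
          itg b p m k (Fr J w) (fun y => V₀ (y - p)) η χ t‖ ≤ 1 / 2 * E1 := by
    refine (norm_sum_le _ _).trans ?_
    rw [hE1, Finset.mul_sum]
    refine Finset.sum_le_sum fun χ _ => hset χ _ (mE χ) ?_
    intro t ht
    exact Set.mem_Icc.2 (abs_le.1 ht.1)
  have n3 : ‖∑ χ : DirichletCharacter ℂ (b ^ m), ∫ t in {t : ℝ | T < |t|},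
          itg b p m k (Fr J w) (fun y => V₀ (y - p)) η χ t‖ ≤ L / 4 * R :=
    ((norm_sum_le _ _).trans (Finset.sum_le_sum fun χ _ => norm_integral_le_integral_norm _)).trans h2
  have hEnn : 0 ≤ E1 := by
    have h5 := norm_nonneg (∑ χ : DirichletCharacter ℂ (b ^ m), ∫ t in Es χ A T,
          itg b p m k (Fr J w) (fun y => V₀ (y - p)) η χ t)
    linarith
  have hfin := congrArg Complex.re hsum
  rw [Complex.ofReal_re, Complex.add_re, Complex.add_re] at hfin
  have r1 := (abs_le.1 (Complex.abs_re_le_norm (∑ χ : DirichletCharacter ℂ (b ^ m),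
      ∫ t in Es χ A T, itg b p m k (Fr J w) (fun y => V₀ (y - p)) η χ t))).1
  have r3 := (abs_le.1 (Complex.abs_re_le_norm (∑ χ : DirichletCharacter ℂ (b ^ m),
      ∫ t in {t : ℝ | T < |t|},
          itg b p m k (Fr J w) (fun y => V₀ (y - p)) η χ t))).1
  have key : L / 2 * R ≤ 2 * Real.pi * φ * SSum b p m k (Fr J w) (fun y => V₀ (y - p)) η +
      1 / 2 * E1 := by
    rw [hfin]
    linarith
  rw [hErr]
  have hpi := Real.pi_gt_three
  have hφp : 0 < 4 * Real.pi * φ := by positivity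
  have g1 : L / (4 * Real.pi) * (R / φ) = (L / 2 * R) / (2 * Real.pi * φ) := by
    field_simp
    ring
  have g2 : (L / 2 * R) / (2 * Real.pi * φ) ≤
      (2 * Real.pi * φ * SSum b p m k (Fr J w) (fun y => V₀ (y - p)) η +
        1 / 2 * E1) / (2 * Real.pi * φ) :=
    div_le_div_of_nonneg_right key (by positivity)
  have g3 : (2 * Real.pi * φ * SSum b p m k (Fr J w) (fun y => V₀ (y - p)) η +
        1 / 2 * E1) / (2 * Real.pi * φ) =
      SSum b p m k (Fr J w) (fun y => V₀ (y - p)) η + E1 / (4 * Real.pi * φ) := by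
    field_simp
    ring
  have g4 : E1 / (4 * Real.pi * φ) ≤ E1 / φ := by
    apply div_le_div_of_nonneg_left hEnn hφ0
    nlinarith
  rw [g1]
  linarith

end Pool.Agent.HPZ
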