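import Pool.Agent.HPZ.Defs
import Pool.Agent.HPP.VDefs

/-!
# HPZ/Iface: the statements of the parts, as propositions (for type checking only)

Parts: D (sup bounds, copies of `HPP/D*` with full digit sets, NO constant^m), A (main term, counting,
assembly, copies of `HPP/A*`), L (mixed lemma), C (combinatorial lemma), V (class bounds, one vector), R.
-/

namespace Pool.Agent.HPZ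

open Complex MeasureTheory

/-! ## Part D -/

/-- (S1) level `m'`, `i₀ < m' ≤ 2 i₀`, block `[i₀, i₀ + l)` free -/
def SupLowProp : Prop := ∃ C : ℝ, 1 ≤ C ∧ ∀ (b p m m' i₀ l : ℕ) (F : Finset ℕ) (V : ℝ → ℝ),
  Bas b p → F ⊆ Finset.Ico 1 m → (∀ y, 0 ≤ V y ∧ V y ≤ 1) → 1 ≤ i₀ → i₀ < m' → m' ≤ 2 * i₀ →
  m' ≤ m → i₀ + l ≤ m → Finset.Ico i₀ (i₀ + l) ⊆ F → ∀ χ : DirichletCharacter ℂ (b ^ m),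
  χ.FactorsThrough (b ^ m') → ¬ χ.FactorsThrough (b ^ (m' - 1)) → ∀ t : ℝ,
  ‖cc b p F V χ t‖ ≤ C * (m * Real.log b + 1) * b ^ 2 * ((b : ℝ) ^ l)⁻¹ * (RR b p m F).card

/-- (S0) characters of level `2 ≤ m'` with `[1, m')` free -/
def VanProp : Prop := ∀ (b p m m' : ℕ) (F : Finset ℕ) (V : ℝ → ℝ), Bas b p →
  F ⊆ Finset.Ico 1 m → 2 ≤ m' → m' ≤ m → Finset.Ico 1 m' ⊆ F →
  ∀ χ : DirichletCharacter ℂ (b ^ m), χ.FactorsThrough (b ^ m') →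
  ¬ χ.FactorsThrough (b ^ (m' - 1)) → ∀ t : ℝ, cc b p F V χ t = 0

/-- (S2) characters mod `b`, `b ^ (i + l) ≤ |t| ≤ b ^ (2 i)`, block `[i, i + l)` free -/
def SupTopProp : Prop := ∃ C : ℝ, 1 ≤ C ∧ ∀ (b p m i l : ℕ) (F : Finset ℕ) (V : ℝ → ℝ) (K : ℝ),
  Bas b p → F ⊆ Finset.Ico 1 m → (∀ y, 0 ≤ V y ∧ V y ≤ 1) → 0 ≤ K →
  (∀ y z, |V y - V z| ≤ K * |y - z|) → 1 ≤ i → i + l ≤ m → Finset.Ico i (i + l) ⊆ F →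
  ∀ χ : DirichletCharacter ℂ (b ^ m), χ.FactorsThrough b → ∀ t : ℝ,
  (b : ℝ) ^ (i + l) ≤ |t| → |t| ≤ (b : ℝ) ^ (2 * i) →
  ‖cc b p F V χ t‖ ≤ C * (1 + K) * (m * Real.log b + 1) * b ^ 3 * ((b : ℝ) ^ l)⁻¹ *
    (RR b p m F).card

/-- (S3) characters mod `b`, small `t`: `[1, w)` free -/
def SmProp : Prop := ∃ C : ℝ, 1 ≤ C ∧ ∀ (b p m w : ℕ) (F : Finset ℕ) (V : ℝ → ℝ) (K : ℝ),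
  Bas b p → F ⊆ Finset.Ico 1 m → (∀ y, 0 ≤ V y ∧ V y ≤ 1) → 0 ≤ K →
  (∀ y z, |V y - V z| ≤ K * |y - z|) → 1 ≤ w → w ≤ m → Finset.Ico 1 w ⊆ F →
  ∀ χ : DirichletCharacter ℂ (b ^ m), χ.FactorsThrough b → ∀ t : ℝ,
  ‖cc b p F V χ t - (starRingEnd ℂ) (χ (p : ZMod (b ^ m))) * ((b : ℂ) ^ (m - 1)) ^ (-(t * I)) *
    (RR b p m F).card * ∫ y in (p : ℝ)..(p + 1 : ℝ), (V y : ℂ) * (y : ℂ) ^ (-(t * I))‖ ≤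
    C * (1 + K) * (1 + |t|) * b ^ 2 * ((b : ℝ) ^ w)⁻¹ * (RR b p m F).card

/-! ## Part A -/

/-- (A1, A2, A5): main term. `c₀` may depend on everything but `w`, `k`. -/
def MainProp : Prop := ∀ V₀ η : ℝ → ℝ, HPP.Bp V₀ η → ∀ b p J : ℕ, Bas b p → 5 ≤ J →
  ∃ c₀ : ℝ, 0 < c₀ ∧ ∃ w₀ : ℕ, ∀ w : ℕ, w₀ ≤ w → ∀ k : ℕ, 2 * (2 ^ J * w) ≤ k →
  c₀ * ((RR b p (2 ^ J * w) (HPP.Fr J w)).card * (b : ℝ) ^ (k - 1) /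
      ((b : ℝ) ^ (2 ^ J * w) * (b ^ (2 ^ J * w)).totient)) ≤
    SSum b p (2 ^ J * w) k (HPP.Fr J w) (fun y => V₀ (y - p)) η +
    Err b p J w k (fun y => V₀ (y - p)) / ((b : ℝ) ^ (2 ^ J * w) * (b ^ (2 ^ J * w)).totient)

/-- (A6): from the weighted sum to the number of primes -/
def CountProp : Prop := ∀ V₀ η : ℝ → ℝ, HPP.Bp V₀ η → ∀ b p m k : ℕ, ∀ F : Finset ℕ, Bas b p →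
  F ⊆ Finset.Ico 1 m → 1 ≤ m → 2 * m ≤ k →
  SSum b p m k F (fun y => V₀ (y - p)) η ≤ (k * Real.log b) *
    ((((Finset.range (b ^ k)).filter fun n => n.Prime ∧ b ^ (k - 1) ≤ n ∧
      ∀ i < m, i ∉ F → (Nat.digits b n).getD i 0 = (Nat.digits b n).getD (k - 1 - i) 0).card : ℝ) +
      2 * k * Real.log b * (b : ℝ) ^ ((k : ℝ) / 2))

/-- all error terms -/
def ErrZ : Prop := ∀ V₀ η : ℝ → ℝ, HPP.Bp V₀ η → ∃ J₀ : ℕ, ∀ J : ℕ, J₀ ≤ J → ∀ b p : ℕ, Bas b p →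
  ∀ A : ℝ, 0 < A → ∀ ε : ℝ, 0 < ε → ∃ w₀ : ℕ, ∀ w : ℕ, w₀ ≤ w → ∀ k : ℕ,
  (2 : ℝ) * (2 ^ J * w) + w ≤ 5 / 9 * (k - 1) → (k : ℝ) ≤ A * w →
  Err b p J w k (fun y => V₀ (y - p)) ≤
    ε * (RR b p (2 ^ J * w) (HPP.Fr J w)).card * (b : ℝ) ^ (k - 1)

/-- the final statement -/
def FinalZ : Prop := ∀ b : ℕ, 2 ≤ b → ∀ ε : ℝ, 0 < ε → ∃ c : ℝ, 0 < c ∧ ∃ k₀ : ℕ, ∀ k : ℕ, k₀ ≤ k →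
  ∃ M : Finset ℕ, (∀ i ∈ M, (i : ℝ) < 5 / 18 * k) ∧ (5 / 18 - ε) * k ≤ (M.card : ℝ) ∧
  c * (b : ℝ) ^ (k - M.card) / k ≤ (((Finset.range (b ^ k)).filter fun n => n.Prime ∧
    b ^ (k - 1) ≤ n ∧ ∀ i ∈ M,
      (Nat.digits b n).getD i 0 = (Nat.digits b n).getD (k - 1 - i) 0).card : ℝ)

/-- assembly -/
def AssemblyZ : Prop := MainProp → CountProp → ErrZ → FinalZ

/-! ## Part L: the mixed lemma -/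

/-- lattice points: for `q ≤ b s`, `q ≤ b s'` (`s, s'` the top values), the coprime pairs -/
def LatProp : Prop := ∀ (q b K W s s' r r' : ℕ), 1 ≤ q → 1 ≤ b → 1 ≤ K → 1 ≤ W → q ≤ b * s →
  q ≤ b * s' → r.Coprime q → r'.Coprime q →
  ((((Finset.Icc 1 K) ×ˢ (Finset.Icc 1 K)).filter fun z => z.1.Coprime z.2 ∧
    z.1 * r' ≡ z.2 * r [MOD q] ∧ |((z.1 : ℤ) * s' - (z.2 : ℤ) * s)| ≤ W).card : ℝ) ≤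
    1 + 20 * b * K * W / (q : ℝ) ^ 2

/-- the number of `(ω, ω', n, n')` with `n low' ≡ n' low mod b^m`, `|n top' - n' top| ≤ H` -/
def MixCount : Prop := ∀ b : ℕ, 2 ≤ b → ∃ C : ℝ, 1 ≤ C ∧ ∀ (p m : ℕ) (F : Finset ℕ), Bas b p →
  1 ≤ m → F ⊆ Finset.Ico 1 m → ∀ H : ℕ, 1 ≤ H →
  ((((RR b p m F ×ˢ RR b p m F) ×ˢ (Finset.Icc 1 H ×ˢ Finset.Icc 1 H)).filter fun z =>
    z.2.1.Coprime b ∧ z.2.2.Coprime b ∧ z.2.1 * lowv b z.1.2 ≡ z.2.2 * lowv b z.1.1 [MOD b ^ m] ∧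
    |((z.2.1 : ℤ) * topv b z.1.2 - (z.2.2 : ℤ) * topv b z.1.1)| ≤ H).card : ℝ) ≤
    C * (1 + Real.log H) * (b : ℝ) ^ (3 * F.card) * ((H : ℝ) ^ 2 + H * (b : ℝ) ^ m)

/-- second moment of `∑ c_k χ(u_k) exp (i t Y_k)` -/
def SecondProp : Prop := ∃ C : ℝ, 1 ≤ C ∧ ∀ (q : ℕ) [NeZero q] {ι : Type} [DecidableEq ι] (S : Finset ι)
  (u : ι → ZMod q) (Y : ι → ℝ) (c : ι → ℂ) (D : ℝ), 0 ≤ D → (∀ i ∈ S, IsUnit (u i)) →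
  (∀ i ∈ S, ‖c i‖ ≤ D) → ∀ T : ℝ, 0 < T →
  ∑ χ : DirichletCharacter ℂ q, ∫ t in (-T)..T,
    ‖∑ i ∈ S, c i * χ (u i) * cexp (t * Y i * I)‖ ^ 2 ≤
  C * D ^ 2 * T * q.totient * ((S ×ˢ S).filter fun z => u z.1 = u z.2 ∧ |Y z.1 - Y z.2| ≤ 1 / T).card

/-- THE MIXED LEMMA -/
def MixProp : Prop := ∀ b : ℕ, 2 ≤ b → ∃ C : ℝ, 1 ≤ C ∧ ∀ (p m : ℕ) (F : Finset ℕ) (V : ℝ → ℝ),
  Bas b p → 1 ≤ m → F ⊆ Finset.Ico 1 m → (∀ y, 0 ≤ V y ∧ V y ≤ 1) → ∀ (H : ℕ) (a : ℕ → ℂ) (D : ℝ),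
  1 ≤ H → 0 ≤ D → (∀ n, ‖a n‖ ≤ D) → ∀ T : ℝ, (b : ℝ) ^ m ≤ T →
  ∑ χ : DirichletCharacter ℂ (b ^ m), ∫ t in (-T)..T, ‖cc b p F V χ t‖ ^ 2 *
    ‖∑ n ∈ Finset.Icc 1 H, a n * χ (n : ZMod (b ^ m)) * (n : ℂ) ^ (t * I)‖ ^ 2 ≤
  C * D ^ 2 * T * (b : ℝ) ^ m * (1 + Real.log H) * (b : ℝ) ^ (3 * F.card) *
    ((H : ℝ) ^ 2 + H * (b : ℝ) ^ m)

/-! ## Part C: the combinatorial lemma (lengths `ν`, deficits `a`, `M = x ^ R` the measure) -/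

def CombProp : Prop := ∃ δ : ℝ, 0 < δ ∧ δ ≤ 1 / 1000 ∧ ∀ (n : ℕ) (ν a : Fin n → ℝ) (R η : ℝ),
  (∀ i, 0 ≤ ν i) → (∀ i, 0 ≤ a i) → |∑ i, ν i - 1| ≤ δ → 0 ≤ η → η ≤ δ →
  (∀ A : Finset (Fin n), R ≤ max 0 (5 / 9 - ∑ i ∈ A, ν i) + 2 * ∑ i ∈ A, a i + η) →
  (∀ A : Finset (Fin n), 5 / 18 + δ ≤ 2 * (∑ i ∈ A, ν i) - 4 * ∑ i ∈ A, a i →
    R ≤ max (2 * ∑ i ∈ A, a i) (5 / 9 - 2 * (∑ i ∈ A, ν i) + 6 * ∑ i ∈ A, a i) + η) →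
  (∀ i, 1 / 4 ≤ ν i → R ≤ 5 / 9 - 2 * ν i + 4 * a i + η) →
  R ≤ (∑ i, a i) + η ∨ ∃ A : Finset (Fin n),
    R ≤ 2 * (∑ i, a i - ∑ i ∈ A, a i) - max 0 (5 / 18 - ∑ i ∈ A, ν i) - δ

/-! ## Part V. `j' ≤ 80` factors, lengths `exp (v i)`, `v i ≤ 3 log x`; `np` = normalised product -/

/-- product of the factors in `A` -/
noncomputable def PG {j : ℕ} (f : Fin j → ArithmeticFunction ℝ) (v : Fin j → ℕ) (A : Finset (Fin j)) :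
    ArithmeticFunction ℝ := ∏ i ∈ A, HPP.pc (f i) (v i)

/-- normalised product of the factors in `A`; equals `exp (-∑ v) ‖DP (PG f v A) χ t‖` -/
noncomputable def np {j : ℕ} (f : Fin j → ArithmeticFunction ℝ) (v : Fin j → ℕ) (A : Finset (Fin j))
    {Q : ℕ} (χ : DirichletCharacter ℂ Q) (t : ℝ) : ℝ := ∏ i ∈ A, HPP.nt (f i) (v i) χ t

/-- total length of `A` -/
noncomputable def sv {j : ℕ} (v : Fin j → ℕ) (A : Finset (Fin j)) : ℝ := ∑ i ∈ A, (v i : ℝ)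

/-- (VCo) coefficients, support, product formula -/
def CoProp : Prop := ∀ ε : ℝ, 0 < ε → ∃ C : ℝ, 1 ≤ C ∧ ∀ (j : ℕ), j ≤ 80 →
  ∀ (f : Fin j → ArithmeticFunction ℝ) (v : Fin j → ℕ), (∀ i, HPP.Sm (f i)) → ∀ A : Finset (Fin j),
  (∀ n, |PG f v A n| ≤ C * Real.exp (ε * sv v A)) ∧
  (∀ n, PG f v A n ≠ 0 → 1 ≤ n ∧ |Real.log n - sv v A| ≤ 80) ∧
  ∀ (Q : ℕ) (χ : DirichletCharacter ℂ Q) (t : ℝ),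
    np f v A χ t = Real.exp (-sv v A) * ‖HPP.DP (PG f v A) χ t‖

/-- (VMv) mean value -/
def MvProp : Prop := ∀ ε : ℝ, 0 < ε → ∃ C : ℝ, 1 ≤ C ∧ ∀ (Q : ℕ), 1 ≤ Q → ∀ (j : ℕ), j ≤ 80 →
  ∀ (f : Fin j → ArithmeticFunction ℝ) (v : Fin j → ℕ), (∀ i, HPP.Sm (f i)) →
  ∀ (A : Finset (Fin j)) (t₀ T : ℝ), 1 ≤ T →
  ∑ χ : DirichletCharacter ℂ Q, ∫ t in (t₀ - T)..(t₀ + T), np f v A χ t ^ 2 ≤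
    C * Real.exp (ε * sv v A) * (1 + Q * T * Real.exp (-sv v A))

/-- (VHm) large values (Halasz-Montgomery), as `HPP.ls_hm` -/
def HmProp : Prop := ∀ b : ℕ, 2 ≤ b → ∀ ε : ℝ, 0 < ε → ∃ C : ℝ, 1 ≤ C ∧ ∀ (m j : ℕ), j ≤ 80 →
  ∀ (f : Fin j → ArithmeticFunction ℝ) (v : Fin j → ℕ), (∀ i, HPP.Sm (f i)) →
  ∀ (A : Finset (Fin j)) (t₀ T U : ℝ), 1 ≤ T → 0 < U →
  C * Real.exp (ε * sv v A) * Real.sqrt ((b : ℝ) ^ m * T) * Real.log ((b : ℝ) ^ m * (2 + T)) ≤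
      U ^ 2 * Real.exp (sv v A) →
  HPP.LM (fun _ : DirichletCharacter ℂ (b ^ m) => Set.Icc t₀ (t₀ + T)) (fun χ t => np f v A χ t) U ≤
      C * Real.exp (ε * sv v A) * (U ^ 2)⁻¹

/-- (VHux) Huxley's subdivision -/
def HuxProp : Prop := ∀ b : ℕ, 2 ≤ b → ∀ ε : ℝ, 0 < ε → ∃ x₀ : ℝ, ∀ x : ℝ, x₀ ≤ x →
  ∀ (m : ℕ) (T : ℝ), (b : ℝ) ^ m ≤ T → (b : ℝ) ^ m * T ≤ x ^ (5 / 9 : ℝ) → ∀ (j : ℕ), j ≤ 80 →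
  ∀ (f : Fin j → ArithmeticFunction ℝ) (v : Fin j → ℕ), (∀ i, HPP.Sm (f i)) →
  (∀ i, (v i : ℝ) ≤ 3 * Real.log x) → ∀ (A : Finset (Fin j)) (σ : ℝ), 0 ≤ σ → σ ≤ 3 →
  5 / 18 + ε ≤ 2 * (sv v A / Real.log x) - 4 * σ →
  HPP.LM (fun _ : DirichletCharacter ℂ (b ^ m) => Set.Icc (-(3 * T)) (3 * T))
    (fun χ t => np f v A χ t) (x ^ (-σ)) ≤
    x ^ ε * max (x ^ (2 * σ)) (x ^ (5 / 9 - 2 * (sv v A / Real.log x) + 6 * σ))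

/-- (VFo) fourth moment of a smooth factor (from `HPP.four_nt`) -/
def FoProp : Prop := ∀ b : ℕ, 2 ≤ b → ∀ ε : ℝ, 0 < ε → ∀ κ : ℝ, 0 < κ → ∃ x₀ : ℝ, ∀ x : ℝ, x₀ ≤ x →
  ∀ (m : ℕ) (T K : ℝ), (b : ℝ) ^ m ≤ T → (b : ℝ) ^ m * T ≤ x ^ (5 / 9 : ℝ) → x ^ κ ≤ K →
  ∀ (k : Fin 3) (Z : ℝ), k ≠ 2 → ∀ v : ℕ, (v : ℝ) ≤ 3 * Real.log x → ∀ ξ : ℝ, |ξ| ≤ Real.log x →
  ∑ χ : DirichletCharacter ℂ (b ^ m), ∫ t in HPP.Gt χ K T, HPP.nt (HPP.tyf Z k) v χ (t + ξ) ^ 4 ≤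
    x ^ ε * ((b : ℝ) ^ m * T) * Real.exp (-(2 * v))

/-- (VT1) the mixed lemma for the product of the factors in `A` -/
def T1Prop : Prop := ∀ b : ℕ, 2 ≤ b → ∀ ε : ℝ, 0 < ε → ∃ x₀ : ℝ, ∀ x : ℝ, x₀ ≤ x →
  ∀ (p m : ℕ) (F : Finset ℕ) (V : ℝ → ℝ) (T : ℝ), Bas b p → 1 ≤ m → F ⊆ Finset.Ico 1 m →
  (∀ y, 0 ≤ V y ∧ V y ≤ 1) → (b : ℝ) ^ m ≤ T → (b : ℝ) ^ m * T ≤ x ^ (5 / 9 : ℝ) → ∀ (j : ℕ), j ≤ 80 →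
  ∀ (f : Fin j → ArithmeticFunction ℝ) (v : Fin j → ℕ), (∀ i, HPP.Sm (f i)) →
  (∀ i, (v i : ℝ) ≤ 3 * Real.log x) → ∀ (A : Finset (Fin j)) (ξ : ℝ),
  ∑ χ : DirichletCharacter ℂ (b ^ m), ∫ t in (-T)..T, ‖cc b p F V χ t‖ ^ 2 * np f v A χ (t + ξ) ^ 2 ≤
    x ^ ε * (T / (b : ℝ) ^ m) * (b : ℝ) ^ (3 * F.card) * ((RR b p m F).card : ℝ) ^ 2 *
      (1 + (b : ℝ) ^ m * Real.exp (-sv v A))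

/-- (VLay) decomposition into level classes -/
def LayProp : Prop := ∀ {X : Type} [Fintype X] (E : X → Set ℝ) (T : ℝ) (n K : ℕ)
  (P : Fin n → X → ℝ → ℝ) (c : X → ℝ → ℝ) (B s W : ℝ), (∀ χ, MeasurableSet (E χ)) →
  (∀ χ, E χ ⊆ Set.Icc (-T) T) → (∀ i χ, Continuous (P i χ)) → (∀ χ, Continuous (c χ)) → 0 ≤ T → 1 ≤ B →
  (∀ χ t, 0 ≤ c χ t ∧ c χ t ≤ s) → (∀ i χ t, 0 ≤ P i χ t ∧ P i χ t ≤ B) →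
  (∀ k : Fin n → ℕ, (∀ i, k i ≤ K) → ∑ χ, ∫ t in E χ ∩ {t | ∀ i, B * Real.exp (-(k i : ℝ) - 1) < P i χ t ∧
    P i χ t ≤ B * Real.exp (-(k i : ℝ))}, c χ t ≤ W * Real.exp (∑ i, (k i : ℝ))) →
  ∑ χ, ∫ t in E χ, c χ t * ∏ i, P i χ t ≤
    (K + 1) ^ n * B ^ n * W + s * (Fintype.card X * (2 * T)) * B ^ n * Real.exp (-K)

/-- (VCls) one class. `B = (log x)^2`. `E χ ⊆ Gt χ K T` any measurable region, `‖cc‖ ≤ s #RR` on it -/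
def ClsProp : Prop := ∃ δ : ℝ, 0 < δ ∧ δ ≤ 1 / 1000 ∧ ∀ b : ℕ, 2 ≤ b → ∀ ε : ℝ, 0 < ε → ∀ κ : ℝ, 0 < κ →
  ∃ x₀ : ℝ, ∀ x : ℝ, x₀ ≤ x → ∀ (p m : ℕ) (F : Finset ℕ) (V : ℝ → ℝ) (T K s : ℝ), Bas b p → 1 ≤ m →
  F ⊆ Finset.Ico 1 m → (∀ y, 0 ≤ V y ∧ V y ≤ 1) → (b : ℝ) ^ m ≤ T → (b : ℝ) ^ m * T ≤ x ^ (5 / 9 : ℝ) →
  x ^ κ ≤ K → x ^ κ ≤ T → 0 ≤ s → ∀ E : DirichletCharacter ℂ (b ^ m) → Set ℝ,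
  (∀ χ, MeasurableSet (E χ)) → (∀ χ, E χ ⊆ HPP.Gt χ K T) →
  (∀ χ, ∀ t ∈ E χ, ‖cc b p F V χ t‖ ≤ s * (RR b p m F).card) →
  ∀ j ∈ Finset.Icc 1 40, ∀ v ∈ HPP.VV δ x j, ∀ ξ : ℝ, |ξ| ≤ Real.log x →
  ∀ k : Fin (2 * j) → ℕ, (∀ i, (k i : ℝ) ≤ 4 * Real.log x) →
  ∑ χ : DirichletCharacter ℂ (b ^ m), ∫ t in E χ ∩ {t | ∀ i,
      (Real.log x) ^ 2 * Real.exp (-(k i : ℝ) - 1) <
        HPP.nt (HPP.tyf (x ^ (1 / 20 : ℝ)) (HPP.fac j i)) (v i) χ (t + ξ) ∧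
      HPP.nt (HPP.tyf (x ^ (1 / 20 : ℝ)) (HPP.fac j i)) (v i) χ (t + ξ) ≤
        (Real.log x) ^ 2 * Real.exp (-(k i : ℝ))}, ‖cc b p F V χ t‖ ≤
  (RR b p m F).card * x ^ ε * (s + ((T / (b : ℝ) ^ m) * (b : ℝ) ^ (3 * F.card)) ^ (1 / 2 : ℝ) *
    x ^ (-δ)) * Real.exp (∑ i, (k i : ℝ))

/-- (VVec) one vector of lengths, one shift `ξ` -/
def VecProp : Prop := ∃ δ : ℝ, 0 < δ ∧ δ ≤ 1 / 1000 ∧ ∀ b : ℕ, 2 ≤ b → ∀ ε : ℝ, 0 < ε → ∀ κ : ℝ, 0 < κ →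
  ∃ x₀ : ℝ, ∀ x : ℝ, x₀ ≤ x → ∀ (p m : ℕ) (F : Finset ℕ) (V : ℝ → ℝ) (T K s : ℝ), Bas b p → 1 ≤ m →
  F ⊆ Finset.Ico 1 m → (∀ y, 0 ≤ V y ∧ V y ≤ 1) → (b : ℝ) ^ m ≤ T → (b : ℝ) ^ m * T ≤ x ^ (5 / 9 : ℝ) →
  x ^ κ ≤ K → x ^ κ ≤ T → 0 ≤ s → ∀ E : DirichletCharacter ℂ (b ^ m) → Set ℝ,
  (∀ χ, MeasurableSet (E χ)) → (∀ χ, E χ ⊆ HPP.Gt χ K T) →
  (∀ χ, ∀ t ∈ E χ, ‖cc b p F V χ t‖ ≤ s * (RR b p m F).card) →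
  ∀ j ∈ Finset.Icc 1 40, ∀ v ∈ HPP.VV δ x j, ∀ ξ : ℝ, |ξ| ≤ Real.log x →
  ∑ χ : DirichletCharacter ℂ (b ^ m), ∫ t in E χ, ‖cc b p F V χ t‖ *
    ∏ i, HPP.nt (HPP.tyf (x ^ (1 / 20 : ℝ)) (HPP.fac j i)) (v i) χ (t + ξ) ≤
  (RR b p m F).card * x ^ ε * (s + ((T / (b : ℝ) ^ m) * (b : ℝ) ^ (3 * F.card)) ^ (1 / 2 : ℝ) *
    x ^ (-δ) + x ^ (-1 : ℝ))

/-- (VPri) the bound for the prime polynomial -/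
def PrimeProp : Prop := ∃ δ : ℝ, 0 < δ ∧ ∀ b : ℕ, 2 ≤ b → ∀ ε : ℝ, 0 < ε → ∀ κ : ℝ, 0 < κ →
  ∃ x₀ : ℝ, ∀ x : ℝ, x₀ ≤ x → ∀ (p m : ℕ) (F : Finset ℕ) (V : ℝ → ℝ) (T K s : ℝ), Bas b p → 1 ≤ m →
  F ⊆ Finset.Ico 1 m → (∀ y, 0 ≤ V y ∧ V y ≤ 1) → (b : ℝ) ^ m ≤ T → (b : ℝ) ^ m * T ≤ x ^ (5 / 9 : ℝ) →
  x ^ κ ≤ K → x ^ κ ≤ T → 0 ≤ s → ∀ E : DirichletCharacter ℂ (b ^ m) → Set ℝ,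
  (∀ χ, MeasurableSet (E χ)) → (∀ χ, E χ ⊆ HPP.Gt χ K T) →
  (∀ χ, ∀ t ∈ E χ, ‖cc b p F V χ t‖ ≤ s * (RR b p m F).card) →
  ∑ χ : DirichletCharacter ℂ (b ^ m), ∫ t in E χ, ‖cc b p F V χ t‖ * ‖HPP.PP χ t x‖ ≤
  (RR b p m F).card * x ^ (1 + ε) * (s + ((T / (b : ℝ) ^ m) * (b : ℝ) ^ (3 * F.card)) ^ (1 / 2 : ℝ) *
    x ^ (-δ) + x ^ (-(1 / 4) : ℝ))

/-! ## Part R -/

/-- sup bound on the region of the error terms -/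
def SupE : Prop := ∀ V₀ η : ℝ → ℝ, HPP.Bp V₀ η → ∀ J : ℕ, 5 ≤ J → ∀ b p : ℕ, Bas b p →
  ∃ w₀ : ℕ, ∀ w : ℕ, w₀ ≤ w → ∀ χ : DirichletCharacter ℂ (b ^ (2 ^ J * w)),
  ∀ t ∈ Es χ ((b : ℝ) ^ ((w : ℝ) / 3)) ((b : ℝ) ^ (2 ^ J * w + w / 4)),
  ‖cc b p (HPP.Fr J w) (fun y => V₀ (y - p)) χ t‖ ≤
    (b : ℝ) ^ (-(w : ℝ) / 24) * (RR b p (2 ^ J * w) (HPP.Fr J w)).card

end Pool.Agent.HPZ
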