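import Pool.Agent.HPZ.Iface

/-!
# HPZ/CDefs: combinatorial lemma: the constraints, in units of 1/18

`s` = total deficit, `κ = s - R / 2`, `e` = tolerance. `Cn s κ e α σ` collects the constraints on a subset of total
length `α` and total deficit `σ`. `Case k l`: there is no system of `k` items of length `≤ 5` and `l` items of length
`> 5`, no two of them mergeable (sum `≤ 5`), that satisfies all constraints.
-/

namespace Pool.Agent.HPZ

open Complex MeasureTheory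

/-- constraints on a subset -/
structure Cn (s κ e α σ : ℝ) : Prop where
  t1 : α ≤ 5 → κ - (5 - α) / 2 ≤ σ + e
  t2 : 5 ≤ α → κ ≤ σ + e
  m1 : α ≤ 8 → σ ≤ κ + e
  m2 : 8 ≤ α → σ ≤ κ + (α - 8) / 2 + e
  h : 2 * α - 4 * σ ≤ 5 + e ∨ s - κ + α - 5 ≤ 3 * σ + e ∨ (s / 2 < σ ∧ s - κ ≤ σ + e)

/-- no counterexample with `k` short and `l` long items -/
def Case (k l : ℕ) : Prop := ∀ (x a : Fin k → ℝ) (y d : Fin l → ℝ) (s κ e : ℝ), 0 ≤ e → e ≤ 1 / 400 →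
  (∀ i, 0 ≤ x i ∧ x i ≤ 5 ∧ 0 ≤ a i) → (∀ j, 5 < y j ∧ 0 ≤ d j ∧ (s - κ + y j - 5) / 2 ≤ d j + e) →
  Monotone x → Monotone y → (∀ i j, i ≠ j → 5 < x i + x j) →
  |∑ i, x i + ∑ j, y j - 18| ≤ e → s = ∑ i, a i + ∑ j, d j → κ ≤ s / 2 →
  (∀ (A : Finset (Fin k)) (B : Finset (Fin l)),
    Cn s κ e (∑ i ∈ A, x i + ∑ j ∈ B, y j) (∑ i ∈ A, a i + ∑ j ∈ B, d j)) → False

end Pool.Agent.HPZ
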