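import Pool.Agent.HPZ.CDefs

/-!
# HPZ/CMer: from the 16 cases to `CombProp`

Scaling by 18 with `δ = 1 / 7200`, the constraints `Cn` for all subsets (`cn_of`), merging of items of total length
`≤ 5` by choosing a grouping `g : Fin n → Fin n` with the fewest groups, sorting, and the count of the cases.
-/

namespace Pool.Agent.HPZ

open Finset

/-- the 16 cases -/
def Cases : Prop := Case 4 0 ∧ Case 5 0 ∧ Case 6 0 ∧ Case 7 0 ∧ Case 0 1 ∧ Case 1 1 ∧ Case 2 1 ∧ Case 3 1 ∧
  Case 4 1 ∧ Case 5 1 ∧ Case 0 2 ∧ Case 1 2 ∧ Case 2 2 ∧ Case 3 2 ∧ Case 0 3 ∧ Case 1 3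

/-- items no two of which can be merged have total at least `5 k / 2` -/
private theorem pair_sum {k : ℕ} (x : Fin k → ℝ) (h : ∀ i j, i ≠ j → 5 < x i + x j) (hk : 2 ≤ k) :
    5 * (k : ℝ) / 2 ≤ ∑ i, x i := by
  classical
  have h1 : (0 : ℝ) ≤ ∑ i, ∑ j, (if i = j then (0 : ℝ) else x i + x j - 5) := by
    refine sum_nonneg fun i _ => sum_nonneg fun j _ => ?_
    split_ifs with hij
    · exact le_refl _
    · have := h i j hij
      linarith
  have h2 : ∀ i j : Fin k, (if i = j then (0 : ℝ) else x i + x j - 5) =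
      (x i + x j - 5) - (if i = j then (2 * x i - 5) else 0) := by
    intro i j
    split_ifs with hij
    · subst hij
      ring
    · ring
  simp_rw [h2] at h1
  simp only [sum_sub_distrib, sum_add_distrib, sum_const, card_univ, Fintype.card_fin, nsmul_eq_mul,
    sum_ite_eq, mem_univ, if_true, ← mul_sum] at h1
  have hk' : (2 : ℝ) ≤ k := by exact_mod_cast hk
  by_contra hc
  rw [not_le] at hc
  nlinarith [mul_pos (show (0 : ℝ) < k - 1 by linarith) (sub_pos.2 hc)]

/-- the constraints for all subsets -/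
private theorem cn_of {n : ℕ} (ν a : Fin n → ℝ) (R η : ℝ)
    (htot : |∑ i, ν i - 1| ≤ 1 / 7200) (hη : η ≤ 1 / 7200)
    (H1 : ∀ A : Finset (Fin n), R ≤ max 0 (5 / 9 - ∑ i ∈ A, ν i) + 2 * ∑ i ∈ A, a i + η)
    (H2 : ∀ A : Finset (Fin n), 5 / 18 + 1 / 7200 ≤ 2 * (∑ i ∈ A, ν i) - 4 * ∑ i ∈ A, a i →
      R ≤ max (2 * ∑ i ∈ A, a i) (5 / 9 - 2 * (∑ i ∈ A, ν i) + 6 * ∑ i ∈ A, a i) + η)
    (hR : (∑ i, a i) + η < R)
    (hS : ∀ A : Finset (Fin n),
      2 * (∑ i, a i - ∑ i ∈ A, a i) - max 0 (5 / 18 - ∑ i ∈ A, ν i) - 1 / 7200 < R) (A : Finset (Fin n)) :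
    Cn (18 * ∑ i, a i) (18 * (∑ i, a i) - 9 * R) (1 / 400) (18 * ∑ i ∈ A, ν i) (18 * ∑ i ∈ A, a i) := by
  classical
  have hν : ∑ i ∈ Aᶜ, ν i = ∑ i, ν i - ∑ i ∈ A, ν i := by
    rw [← sum_compl_add_sum A]; ring
  have ha : ∑ i ∈ Aᶜ, a i = ∑ i, a i - ∑ i ∈ A, a i := by
    rw [← sum_compl_add_sum A]; ring
  have h1 := H1 Aᶜ
  rw [hν, ha] at h1
  have h2 := hS A
  obtain ⟨ht1, ht2⟩ := abs_le.1 htot
  refine ⟨?_, ?_, ?_, ?_, ?_⟩
  · intro h
    rw [max_eq_right (by linarith)] at h2
    linarith
  · intro h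
    rw [max_eq_left (by linarith)] at h2
    linarith
  · intro h
    have : max 0 (5 / 9 - (∑ i, ν i - ∑ i ∈ A, ν i)) ≤ 1 / 7200 := max_le (by norm_num) (by linarith)
    linarith
  · intro h
    have : max 0 (5 / 9 - (∑ i, ν i - ∑ i ∈ A, ν i)) ≤ (∑ i ∈ A, ν i) - 8 / 18 + 1 / 7200 :=
      max_le (by linarith) (by linarith)
    linarith
  · by_cases h : 5 / 18 + 1 / 7200 ≤ 2 * (∑ i ∈ A, ν i) - 4 * ∑ i ∈ A, a i
    · have h3 := H2 A h
      rcases max_cases (2 * ∑ i ∈ A, a i) (5 / 9 - 2 * (∑ i ∈ A, ν i) + 6 * ∑ i ∈ A, a i) with hm | hm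
      · rw [hm.1] at h3
        right; right
        constructor <;> linarith
      · rw [hm.1] at h3
        right; left
        linarith
    · left
      rw [not_le] at h
      linarith

/-- a sorted enumeration of a finite set -/
private theorem exists_enum {n : ℕ} (S : Finset (Fin n)) (X : Fin n → ℝ) :
    ∃ f : Fin S.card → Fin n, Function.Injective f ∧ (∀ i, f i ∈ S) ∧ Monotone (X ∘ f) ∧
      univ.image f = S := by
  classical
  let e0 := S.equivFin.symm
  let f0 : Fin S.card → ℝ := fun i => X (e0 i)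
  refine ⟨fun i => e0 (Tuple.sort f0 i), ?_, ?_, ?_, ?_⟩
  · intro i j hij
    exact (Tuple.sort f0).injective (e0.injective (Subtype.ext hij))
  · intro i
    exact (e0 _).2
  · exact Tuple.monotone_sort f0
  · ext j
    simp only [mem_image, mem_univ, true_and]
    constructor
    · rintro ⟨i, rfl⟩
      exact (e0 _).2
    · intro hj
      refine ⟨(Tuple.sort f0).symm (e0.symm ⟨j, hj⟩), ?_⟩
      simp

theorem combProp_of (h : Cases) : CombProp := by
  classical
  refine ⟨1 / 7200, by norm_num, by norm_num, ?_⟩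
  intro n ν a R η hν ha htot hη0 hη H1 H2 H3
  by_contra hcon
  rw [not_or] at hcon
  obtain ⟨hR, hS⟩ := hcon
  rw [not_le] at hR
  push Not at hS
  have hcn := cn_of ν a R η htot hη H1 H2 hR hS
  obtain ⟨ht1, ht2⟩ := abs_le.1 htot
  -- groups
  let X : (Fin n → Fin n) → Fin n → ℝ := fun g j => ∑ i with g i = j, 18 * ν i
  let D : (Fin n → Fin n) → Fin n → ℝ := fun g j => ∑ i with g i = j, 18 * a i
  let P : (Fin n → Fin n) → Prop := fun g => ∀ j, 5 < X g j → ∃ i, ∀ i', g i' = j ↔ i' = i
  have hXsum : ∀ (g : Fin n → Fin n) (C : Finset (Fin n)),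
      ∑ j ∈ C, X g j = 18 * ∑ i with g i ∈ C, ν i := by
    intro g C
    rw [mul_sum, ← sum_fiberwise_of_maps_to (s := univ.filter (fun i => g i ∈ C)) (t := C) (g := g)
      (fun i hi => (mem_filter.1 hi).2)]
    refine sum_congr rfl fun j hj => ?_
    rw [filter_filter]
    refine sum_congr (filter_congr fun i _ => ?_) fun _ _ => rfl
    constructor
    · intro hi
      exact ⟨hi ▸ hj, hi⟩
    · exact fun hi => hi.2
  have hDsum : ∀ (g : Fin n → Fin n) (C : Finset (Fin n)),
      ∑ j ∈ C, D g j = 18 * ∑ i with g i ∈ C, a i := by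
    intro g C
    rw [mul_sum, ← sum_fiberwise_of_maps_to (s := univ.filter (fun i => g i ∈ C)) (t := C) (g := g)
      (fun i hi => (mem_filter.1 hi).2)]
    refine sum_congr rfl fun j hj => ?_
    rw [filter_filter]
    refine sum_congr (filter_congr fun i _ => ?_) fun _ _ => rfl
    constructor
    · intro hi
      exact ⟨hi ▸ hj, hi⟩
    · exact fun hi => hi.2
  have hX0 : ∀ g j, 0 ≤ X g j := fun g j => sum_nonneg fun i _ => by have := hν i; linarith
  have hD0 : ∀ g j, 0 ≤ D g j := fun g j => sum_nonneg fun i _ => by have := ha i; linarith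
  have hPid : P id := by
    intro j _
    exact ⟨j, fun i' => Iff.rfl⟩
  obtain ⟨g, hg, hmin⟩ := exists_min_image (univ.filter P) (fun g => (univ.image g).card)
    ⟨id, by simpa using hPid⟩
  have hgP : P g := (mem_filter.1 hg).2
  set S : Finset (Fin n) := univ.image g with hSdef
  -- no two groups can be merged
  have hpair : ∀ j ∈ S, ∀ j' ∈ S, j ≠ j' → 5 < X g j + X g j' := by
    intro j hj j' hj' hjj
    by_contra hle
    rw [not_lt] at hle
    let g' : Fin n → Fin n := fun i => if g i = j' then j else g i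
    have hX' : X g' j = X g j + X g j' := by
      have e1 : X g' j = ∑ k ∈ {j, j'}, X g k := by
        rw [hXsum, mul_sum]
        refine sum_congr (filter_congr fun i _ => ?_) fun _ _ => rfl
        simp only [g', mem_insert, mem_singleton]
        constructor
        · intro hi
          split_ifs at hi with h1
          · exact Or.inr h1
          · exact Or.inl hi
        · rintro (h1 | h1)
          · split_ifs with h2
            · rfl
            · exact h1
          · rw [if_pos h1]
      rw [e1, sum_pair hjj]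
    have hP' : P g' := by
      intro k hk
      by_cases hkj : k = j
      · subst hkj
        rw [hX'] at hk
        linarith
      · have hfib : ∀ i, g' i = k → g i = k := by
          intro i hi
          simp only [g'] at hi
          split_ifs at hi with h1
          · exact absurd hi.symm hkj
          · exact hi
        by_cases hkj' : k = j'
        · subst hkj'
          have : X g' k = 0 := by
            refine sum_eq_zero fun i hi => ?_
            have h1 := (mem_filter.1 hi).2
            have h2 := hfib i h1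
            simp only [g', if_pos h2] at h1
            exact absurd h1.symm hkj
          rw [this] at hk
          linarith
        · have hiff : ∀ i, g' i = k ↔ g i = k := by
            intro i
            refine ⟨hfib i, fun hi => ?_⟩
            simp only [g']
            rw [if_neg (by rw [hi]; exact hkj')]
            exact hi
          have hXX : X g' k = X g k := by
            refine sum_congr (filter_congr fun i _ => hiff i) fun _ _ => rfl
          rw [hXX] at hk
          obtain ⟨i, hi⟩ := hgP k hk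
          exact ⟨i, fun i' => (hiff i').trans (hi i')⟩
    have hle2 := hmin g' (by simpa using hP')
    have hsub : univ.image g' ⊆ S.erase j' := by
      intro k hk
      obtain ⟨i, _, rfl⟩ := mem_image.1 hk
      simp only [g']
      split_ifs with h1
      · exact mem_erase.2 ⟨hjj, hj⟩
      · exact mem_erase.2 ⟨h1, mem_image_of_mem _ (mem_univ _)⟩
    have hc := card_le_card hsub
    rw [card_erase_of_mem hj'] at hc
    have hpos : 0 < S.card := card_pos.2 ⟨j, hj⟩
    have : S.card ≤ (univ.image g').card := hle2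
    omega
  -- long groups are original items
  have hlong : ∀ j, 5 < X g j → (9 * R + X g j - 5) / 2 ≤ D g j + 1 / 400 := by
    intro j hj
    obtain ⟨i, hi⟩ := hgP j hj
    have hfil : (univ.filter fun i' => g i' = j) = {i} := by
      ext i'
      simp [hi i']
    have e1 : X g j = 18 * ν i := by
      simp only [X, hfil, sum_singleton]
    have e2 : D g j = 18 * a i := by
      simp only [D, hfil, sum_singleton]
    rw [e1] at hj ⊢
    rw [e2]
    have := H3 i (by linarith)
    linarith
  -- enumerate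
  set Sx := S.filter fun j => X g j ≤ 5 with hSx
  set Sy := S.filter fun j => ¬ X g j ≤ 5 with hSy
  obtain ⟨fx, fxi, fxm, fxmono, fximg⟩ := exists_enum Sx (X g)
  obtain ⟨fy, fyi, fym, fymono, fyimg⟩ := exists_enum Sy (X g)
  have hdisj : Disjoint Sx Sy := disjoint_filter_filter_not _ _ _
  have hunion : Sx ∪ Sy = S := filter_union_filter_not_eq _ _
  have hsumC : ∀ (F : Fin n → ℝ) (A : Finset (Fin Sx.card)) (B : Finset (Fin Sy.card)),
      ∑ i ∈ A, F (fx i) + ∑ j ∈ B, F (fy j) = ∑ j ∈ A.image fx ∪ B.image fy, F j := by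
    intro F A B
    rw [sum_union, sum_image (fun i _ j _ hij => fxi hij), sum_image (fun i _ j _ hij => fyi hij)]
    refine disjoint_left.2 fun j hj hj' => ?_
    obtain ⟨i, _, rfl⟩ := mem_image.1 hj
    obtain ⟨i', _, hi'⟩ := mem_image.1 hj'
    exact disjoint_left.1 hdisj (fxm i) (hi' ▸ fym i')
  have hall : ∑ i, X g (fx i) + ∑ j, X g (fy j) = 18 * ∑ i, ν i := by
    rw [hsumC (X g) univ univ, fximg, fyimg, hunion, hXsum, hSdef]
    congr 1
    refine sum_congr (filter_true_of_mem fun i _ => mem_image_of_mem _ (mem_univ _)) fun _ _ => rfl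
  have hallD : ∑ i, D g (fx i) + ∑ j, D g (fy j) = 18 * ∑ i, a i := by
    rw [hsumC (D g) univ univ, fximg, fyimg, hunion, hDsum, hSdef]
    congr 1
    refine sum_congr (filter_true_of_mem fun i _ => mem_image_of_mem _ (mem_univ _)) fun _ _ => rfl
  have hxpair : ∀ i j, i ≠ j → 5 < X g (fx i) + X g (fx j) := fun i j hij =>
    hpair _ (mem_filter.1 (fxm i)).1 _ (mem_filter.1 (fxm j)).1 fun h => hij (fxi h)
  have hxle : ∀ i, X g (fx i) ≤ 5 := fun i => (mem_filter.1 (fxm i)).2
  have hylt : ∀ j, 5 < X g (fy j) := fun j => not_le.1 (mem_filter.1 (fym j)).2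
  have key : Case Sx.card Sy.card → False := by
    intro hC
    refine hC (fun i => X g (fx i)) (fun i => D g (fx i)) (fun j => X g (fy j)) (fun j => D g (fy j))
      (18 * ∑ i, a i) (18 * (∑ i, a i) - 9 * R) (1 / 400) (by norm_num) le_rfl
      (fun i => ⟨hX0 _ _, hxle i, hD0 _ _⟩) (fun j => ⟨hylt j, hD0 _ _, ?_⟩) fxmono fymono hxpair ?_ ?_ ?_ ?_
    · have := hlong _ (hylt j)
      linarith
    · rw [hall, abs_le]
      constructor <;> linarith
    · exact hallD.symm
    · linarith
    · intro A B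
      rw [hsumC (X g), hsumC (D g), hXsum, hDsum]
      exact hcn _
  -- the numbers of items
  have hX5 : ∑ i, X g (fx i) ≤ 5 * (Sx.card : ℝ) := by
    have := sum_le_card_nsmul (univ : Finset (Fin Sx.card)) (fun i => X g (fx i)) 5 fun i _ => hxle i
    simpa [nsmul_eq_mul, mul_comm] using this
  have hX0s : 0 ≤ ∑ i, X g (fx i) := sum_nonneg fun i _ => hX0 _ _
  have hY5 : 5 * (Sy.card : ℝ) ≤ ∑ j, X g (fy j) := by
    have := card_nsmul_le_sum (univ : Finset (Fin Sy.card)) (fun j => X g (fy j)) 5 fun j _ => (hylt j).le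
    simpa [nsmul_eq_mul, mul_comm] using this
  have hX2 : 2 ≤ Sx.card → 5 * (Sx.card : ℝ) / 2 ≤ ∑ i, X g (fx i) := fun hk => pair_sum _ hxpair hk
  have hY0 : Sy.card = 0 → ∑ j, X g (fy j) = 0 := by
    intro h0
    have : IsEmpty (Fin Sy.card) := by rw [h0]; infer_instance
    simp
  have n1 : 2 ≤ Sx.card → 2 * Sy.card + Sx.card < 8 := by
    intro hk
    have h1 := hX2 hk
    have : (2 * Sy.card + Sx.card : ℝ) < 8 := by linarith
    exact_mod_cast this
  have n2 : Sy.card < 4 := by
    have : (Sy.card : ℝ) < 4 := by linarith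
    exact_mod_cast this
  have n3 : Sy.card = 0 → 3 < Sx.card := by
    intro h0
    have h1 := hY0 h0
    have : (3 : ℝ) < Sx.card := by linarith
    exact_mod_cast this
  clear hX5 hX0s hY5 hX2 hY0 hxle hylt hxpair hallD hall hsumC
  clear_value Sx Sy
  clear fximg fyimg fxm fym fxmono fymono fxi fyi fx fy hSx hSy hdisj hunion
  revert key n1 n2 n3
  generalize Sx.card = k
  generalize Sy.card = l
  intro key n1 n2 n3
  have hk : k < 8 := by omega
  obtain ⟨c1, c2, c3, c4, c5, c6, c7, c8, c9, c10, c11, c12, c13, c14, c15, c16⟩ := h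
  interval_cases l <;> interval_cases k <;>
    first
    | exact key (by assumption)
    | omega

end Pool.Agent.HPZ
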