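import Pool.Agent.HPZ.CDefs

/-!
# HPZ/CTool: subset sums by coefficients in `{0, 1}`
-/

namespace Pool.Agent.HPZ

theorem coef {n : ℕ} (c : Fin n → ℝ) (hc : ∀ i, c i = 0 ∨ c i = 1) (x : Fin n → ℝ) :
    ∑ i ∈ Finset.univ.filter (fun i => c i = 1), x i = ∑ i, c i * x i := by
  rw [Finset.sum_filter]
  refine Finset.sum_congr rfl fun i _ => ?_
  rcases hc i with h | h
  · rw [h, if_neg (by norm_num), zero_mul]
  · rw [h, if_pos rfl, one_mul]

end Pool.Agent.HPZ
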