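import Pool.Agent.HPZ.CTool

/-!
# HPZ/CaseA: cases (4, 0) of the combinatorial lemma

Each case is a finite case distinction; every leaf is a linear contradiction (certificates found by a
branch and bound search with linear programs, checked here by `linarith`).
-/

namespace Pool.Agent.HPZ

set_option linter.all false

/-- `4` short and `0` long items; certificate found by linear programming -/
private theorem aux40 (x0 x1 x2 x3 a0 a1 a2 a3 s κ e : ℝ) (he : e ≤ 1 / 400)
    (xu1 : x1 ≤ 5)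
    (xu2 : x2 ≤ 5)
    (xu3 : x3 ≤ 5)
    (xs0 : x0 ≤ x1)
    (xs1 : x1 ≤ x2)
    (xs2 : x2 ≤ x3)
    (tot1 : x0 + x1 + x2 + x3 ≤ 18 + e)
    (tot2 : 18 - e ≤ x0 + x1 + x2 + x3)
    (hs : s = a0 + a1 + a2 + a3)
    (he0 : 0 ≤ e)
    (H : ∀ c0 c1 c2 c3 : ℝ, (c0 = 0 ∨ c0 = 1) → (c1 = 0 ∨ c1 = 1) → (c2 = 0 ∨ c2 = 1) → (c3 = 0 ∨ c3 = 1) →
      Cn s κ e (c0 * x0 + c1 * x1 + c2 * x2 + c3 * x3) (c0 * a0 + c1 * a1 + c2 * a2 + c3 * a3)) : False := by
  have C0 := H 0 0 0 0 (Or.inl rfl) (Or.inl rfl) (Or.inl rfl) (Or.inl rfl)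
  have C1 := H 1 0 0 0 (Or.inr rfl) (Or.inl rfl) (Or.inl rfl) (Or.inl rfl)
  have C2 := H 0 1 0 0 (Or.inl rfl) (Or.inr rfl) (Or.inl rfl) (Or.inl rfl)
  have C3 := H 1 1 0 0 (Or.inr rfl) (Or.inr rfl) (Or.inl rfl) (Or.inl rfl)
  have C4 := H 0 0 1 0 (Or.inl rfl) (Or.inl rfl) (Or.inr rfl) (Or.inl rfl)
  have C5 := H 1 0 1 0 (Or.inr rfl) (Or.inl rfl) (Or.inr rfl) (Or.inl rfl)
  have C6 := H 0 1 1 0 (Or.inl rfl) (Or.inr rfl) (Or.inr rfl) (Or.inl rfl)
  have C7 := H 1 1 1 0 (Or.inr rfl) (Or.inr rfl) (Or.inr rfl) (Or.inl rfl)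
  have C9 := H 1 0 0 1 (Or.inr rfl) (Or.inl rfl) (Or.inl rfl) (Or.inr rfl)
  have C10 := H 0 1 0 1 (Or.inl rfl) (Or.inr rfl) (Or.inl rfl) (Or.inr rfl)
  have C12 := H 0 0 1 1 (Or.inl rfl) (Or.inl rfl) (Or.inr rfl) (Or.inr rfl)
  rcases le_total (1 * a0 + 0 * a1 + 1 * a2 + 0 * a3) (s / 2) with g2_5 | g1_5
  · rcases C5.h with h1_5 | h3_5 | ⟨g1_5, h2_5⟩
    · rcases le_total (0 * x0 + 0 * x1 + 0 * x2 + 0 * x3) 5 with u5_0 | l5_0
      · have t1_0 := C0.t1 u5_0
        rcases le_total (1 * x0 + 0 * x1 + 1 * x2 + 0 * x3) 8 with u8_5 | l8_5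
        · have m1_5 := C5.m1 u8_5
          linarith only [he, hs, xu3, xu1, tot2, t1_0, m1_5, h1_5]
        · have m2_5 := C5.m2 l8_5
          linarith only [he, hs, h1_5, t1_0, m2_5]
      · have t2_0 := C0.t2 l5_0
        linarith only [he, hs, l5_0]
    · rcases le_total (1 * x0 + 0 * x1 + 0 * x2 + 0 * x3) 5 with u5_1 | l5_1
      · have t1_1 := C1.t1 u5_1
        rcases le_total (0 * x0 + 0 * x1 + 1 * x2 + 0 * x3) 5 with u5_4 | l5_4
        · have t1_4 := C4.t1 u5_4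
          rcases le_total (1 * x0 + 0 * x1 + 1 * x2 + 0 * x3) 8 with u8_5 | l8_5
          · have m1_5 := C5.m1 u8_5
            linarith only [he, hs, h3_5, xu1, m1_5, g2_5, t1_1, xu3, t1_4, tot2]
          · have m2_5 := C5.m2 l8_5
            linarith only [he, hs, h3_5, g2_5, m2_5, l8_5, t1_4, t1_1]
        · have t2_4 := C4.t2 l5_4
          rcases le_total (1 * x0 + 0 * x1 + 1 * x2 + 0 * x3) 8 with u8_5 | l8_5
          · have m1_5 := C5.m1 u8_5
            linarith only [he, hs, h3_5, g2_5, m1_5, xu1, xu2, t1_1, t2_4, xu3, tot2]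
          · have m2_5 := C5.m2 l8_5
            linarith only [he, hs, h3_5, g2_5, m2_5, t2_4, l8_5, xu2, t1_1]
      · have t2_1 := C1.t2 l5_1
        linarith only [he, hs, l5_1, xs0, xs1, xs2, tot1]
    · linarith only [g1_5, g2_5]
  · have g2_10 : 0 * a0 + 1 * a1 + 0 * a2 + 1 * a3 ≤ s / 2 := by linarith only [g1_5, hs]
    rcases C10.h with h1_10 | h3_10 | ⟨g1_10, h2_10⟩
    · rcases le_total (1 * x0 + 1 * x1 + 1 * x2 + 0 * x3) 8 with u8_7 | l8_7
      · have m1_7 := C7.m1 u8_7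
        linarith only [he, hs, u8_7, xu3, tot2]
      · have m2_7 := C7.m2 l8_7
        rcases le_total (0 * x0 + 1 * x1 + 0 * x2 + 0 * x3) 5 with u5_2 | l5_2
        · have t1_2 := C2.t1 u5_2
          linarith only [he, hs, h1_10, xs2, xs0, t1_2, m2_7, g2_10]
        · have t2_2 := C2.t2 l5_2
          linarith only [he, hs, h1_10, xs2, tot1, t2_2, m2_7, g2_10, xs1, l5_2]
    · rcases le_total (0 * x0 + 1 * x1 + 1 * x2 + 0 * x3) 8 with u8_6 | l8_6
      · have m1_6 := C6.m1 u8_6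
        linarith only [he, hs, xs1, xu3, xs0, u8_6, tot2]
      · have m2_6 := C6.m2 l8_6
        rcases le_total (1 * x0 + 0 * x1 + 0 * x2 + 0 * x3) 5 with u5_1 | l5_1
        · have t1_1 := C1.t1 u5_1
          rcases le_total (0 * x0 + 1 * x1 + 0 * x2 + 1 * x3) 8 with u8_10 | l8_10
          · have m1_10 := C10.m1 u8_10
            linarith only [he, hs, u8_10, xs0, xs2, tot2]
          · have m2_10 := C10.m2 l8_10
            rcases le_total (1 * a0 + 1 * a1 + 0 * a2 + 0 * a3) (s / 2) with g2_3 | g1_3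
            · rcases C3.h with h1_3 | h3_3 | ⟨g1_3, h2_3⟩
              · rcases le_total (0 * x0 + 1 * x1 + 0 * x2 + 0 * x3) 5 with u5_2 | l5_2
                · have t1_2 := C2.t1 u5_2
                  linarith only [he, hs, h1_3, xu3, g2_3, m2_6, m2_10, t1_2, xu2, tot2]
                · have t2_2 := C2.t2 l5_2
                  linarith only [he, hs, g2_3, xs2, xu2, h3_10, g2_10, m2_6, xu1, t2_2, m2_10]
              · rcases le_total (1 * x0 + 0 * x1 + 0 * x2 + 1 * x3) 8 with u8_9 | l8_9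
                · have m1_9 := C9.m1 u8_9
                  linarith only [he, hs, g2_3, xs2, xu3, m1_9, h3_10, g2_10, m2_6, t1_1, xs1, tot2]
                · have m2_9 := C9.m2 l8_9
                  linarith only [he, hs, g2_3, xs2, g2_10, m2_9, h3_10, m2_6, t1_1, xu3, tot2]
              · linarith only [g1_3, g2_3]
            · have g2_12 : 0 * a0 + 0 * a1 + 1 * a2 + 1 * a3 ≤ s / 2 := by linarith only [g1_3, hs]
              rcases C12.h with h1_12 | h3_12 | ⟨g1_12, h2_12⟩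
              · rcases le_total (0 * x0 + 1 * x1 + 0 * x2 + 0 * x3) 5 with u5_2 | l5_2
                · have t1_2 := C2.t1 u5_2
                  linarith only [he, hs, h1_12, m2_10, m2_6, t1_2]
                · have t2_2 := C2.t2 l5_2
                  linarith only [he, hs, h1_12, xu3, m2_10, xs1, m2_6, xs2, t2_2]
              · rcases le_total (0 * x0 + 0 * x1 + 1 * x2 + 0 * x3) 5 with u5_4 | l5_4
                · have t1_4 := C4.t1 u5_4
                  linarith only [he, hs, xs2, h3_10, g2_12, m2_6, xs0, m2_10, t1_4, xs1, tot2]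
                · have t2_4 := C4.t2 l5_4
                  linarith only [he, hs, xs2, h3_10, xu1, t2_4, g2_12, m2_10, xu2, m2_6]
              · linarith only [g1_12, g2_12]
        · have t2_1 := C1.t2 l5_1
          linarith only [he, hs, xs1, l5_1, xs0, xs2, tot1]
    · linarith only [g1_10, g2_10]

theorem case40 : Case 4 0 := by
  intro x a y d s κ e he0 he hx hy hxm hym hp htot hs hk hC
  have ht := abs_le.1 htot
  simp only [Fin.sum_univ_four, Fin.sum_univ_zero] at ht hs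
  refine aux40 (x 0) (x 1) (x 2) (x 3) (a 0) (a 1) (a 2) (a 3) s κ e he
    ((hx 1).2.1)
    ((hx 2).2.1)
    ((hx 3).2.1)
    (hxm (by decide))
    (hxm (by decide))
    (hxm (by decide))
    (by linarith [ht.2])
    (by linarith [ht.1])
    (by linarith [hs])
    he0
    ?_
  intro c0 c1 c2 c3 hc0 hc1 hc2 hc3
  have h1 := coef (![c0, c1, c2, c3] : Fin 4 → ℝ) (by simp [Fin.forall_fin_succ, hc0, hc1, hc2, hc3])
  have h2 := coef (![] : Fin 0 → ℝ) (by simp)
  have h3 := hC (Finset.univ.filter fun i => (![c0, c1, c2, c3] : Fin 4 → ℝ) i = 1)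
    (Finset.univ.filter fun i => (![] : Fin 0 → ℝ) i = 1)
  rw [h1 x, h2 y, h1 a, h2 d] at h3
  convert h3 using 1
  · simp [Fin.sum_univ_four, Fin.sum_univ_zero]
  · simp [Fin.sum_univ_four, Fin.sum_univ_zero]

end Pool.Agent.HPZ
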