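import Pool.Agent.HPZ.CTool

/-!
# HPZ/CaseB: cases (5, 0) of the combinatorial lemma

Each case is a finite case distinction; every leaf is a linear contradiction (certificates found by a
branch and bound search with linear programs, checked here by `linarith`).
-/

namespace Pool.Agent.HPZ

set_option linter.all false

/-- `5` short and `0` long items; certificate found by linear programming -/
private theorem aux50 (x0 x1 x2 x3 x4 a0 a1 a2 a3 a4 s κ e : ℝ) (he : e ≤ 1 / 400)
    (xn0 : 0 ≤ x0)
    (an0 : 0 ≤ a0)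
    (xn1 : 0 ≤ x1)
    (xu3 : x3 ≤ 5)
    (xu4 : x4 ≤ 5)
    (xs0 : x0 ≤ x1)
    (xs1 : x1 ≤ x2)
    (xs2 : x2 ≤ x3)
    (xs3 : x3 ≤ x4)
    (xp : 5 ≤ x0 + x1)
    (tot1 : x0 + x1 + x2 + x3 + x4 ≤ 18 + e)
    (tot2 : 18 - e ≤ x0 + x1 + x2 + x3 + x4)
    (hs : s = a0 + a1 + a2 + a3 + a4)
    (he0 : 0 ≤ e)
    (kap : κ ≤ s / 2)
    (H : ∀ c0 c1 c2 c3 c4 : ℝ, (c0 = 0 ∨ c0 = 1) → (c1 = 0 ∨ c1 = 1) → (c2 = 0 ∨ c2 = 1) → (c3 = 0 ∨ c3 = 1) → (c4 = 0 ∨ c4 = 1) →
      Cn s κ e (c0 * x0 + c1 * x1 + c2 * x2 + c3 * x3 + c4 * x4) (c0 * a0 + c1 * a1 + c2 * a2 + c3 * a3 + c4 * a4)) : False := by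
  have C1 := H 1 0 0 0 0 (Or.inr rfl) (Or.inl rfl) (Or.inl rfl) (Or.inl rfl) (Or.inl rfl)
  have C2 := H 0 1 0 0 0 (Or.inl rfl) (Or.inr rfl) (Or.inl rfl) (Or.inl rfl) (Or.inl rfl)
  have C3 := H 1 1 0 0 0 (Or.inr rfl) (Or.inr rfl) (Or.inl rfl) (Or.inl rfl) (Or.inl rfl)
  have C4 := H 0 0 1 0 0 (Or.inl rfl) (Or.inl rfl) (Or.inr rfl) (Or.inl rfl) (Or.inl rfl)
  have C5 := H 1 0 1 0 0 (Or.inr rfl) (Or.inl rfl) (Or.inr rfl) (Or.inl rfl) (Or.inl rfl)
  have C6 := H 0 1 1 0 0 (Or.inl rfl) (Or.inr rfl) (Or.inr rfl) (Or.inl rfl) (Or.inl rfl)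
  have C7 := H 1 1 1 0 0 (Or.inr rfl) (Or.inr rfl) (Or.inr rfl) (Or.inl rfl) (Or.inl rfl)
  have C8 := H 0 0 0 1 0 (Or.inl rfl) (Or.inl rfl) (Or.inl rfl) (Or.inr rfl) (Or.inl rfl)
  have C9 := H 1 0 0 1 0 (Or.inr rfl) (Or.inl rfl) (Or.inl rfl) (Or.inr rfl) (Or.inl rfl)
  have C10 := H 0 1 0 1 0 (Or.inl rfl) (Or.inr rfl) (Or.inl rfl) (Or.inr rfl) (Or.inl rfl)
  have C12 := H 0 0 1 1 0 (Or.inl rfl) (Or.inl rfl) (Or.inr rfl) (Or.inr rfl) (Or.inl rfl)
  have C13 := H 1 0 1 1 0 (Or.inr rfl) (Or.inl rfl) (Or.inr rfl) (Or.inr rfl) (Or.inl rfl)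
  have C14 := H 0 1 1 1 0 (Or.inl rfl) (Or.inr rfl) (Or.inr rfl) (Or.inr rfl) (Or.inl rfl)
  have C16 := H 0 0 0 0 1 (Or.inl rfl) (Or.inl rfl) (Or.inl rfl) (Or.inl rfl) (Or.inr rfl)
  have C17 := H 1 0 0 0 1 (Or.inr rfl) (Or.inl rfl) (Or.inl rfl) (Or.inl rfl) (Or.inr rfl)
  have C18 := H 0 1 0 0 1 (Or.inl rfl) (Or.inr rfl) (Or.inl rfl) (Or.inl rfl) (Or.inr rfl)
  have C19 := H 1 1 0 0 1 (Or.inr rfl) (Or.inr rfl) (Or.inl rfl) (Or.inl rfl) (Or.inr rfl)
  have C21 := H 1 0 1 0 1 (Or.inr rfl) (Or.inl rfl) (Or.inr rfl) (Or.inl rfl) (Or.inr rfl)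
  have C22 := H 0 1 1 0 1 (Or.inl rfl) (Or.inr rfl) (Or.inr rfl) (Or.inl rfl) (Or.inr rfl)
  have C24 := H 0 0 0 1 1 (Or.inl rfl) (Or.inl rfl) (Or.inl rfl) (Or.inr rfl) (Or.inr rfl)
  have C26 := H 0 1 0 1 1 (Or.inl rfl) (Or.inr rfl) (Or.inl rfl) (Or.inr rfl) (Or.inr rfl)
  have C28 := H 0 0 1 1 1 (Or.inl rfl) (Or.inl rfl) (Or.inr rfl) (Or.inr rfl) (Or.inr rfl)
  rcases le_total (0 * a0 + 0 * a1 + 1 * a2 + 1 * a3 + 0 * a4) (s / 2) with g2_12 | g1_12
  · rcases C12.h with h1_12 | h3_12 | ⟨g1_12, h2_12⟩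
    · rcases le_total (0 * x0 + 1 * x1 + 1 * x2 + 1 * x3 + 0 * x4) 8 with u8_14 | l8_14
      · have m1_14 := C14.m1 u8_14
        linarith only [he, hs, u8_14, tot2, xu4, xs0, xs1, xs2]
      · have m2_14 := C14.m2 l8_14
        rcases le_total (0 * x0 + 1 * x1 + 0 * x2 + 0 * x3 + 0 * x4) 5 with u5_2 | l5_2
        · have t1_2 := C2.t1 u5_2
          linarith only [he, hs, h1_12, m2_14, t1_2]
        · have t2_2 := C2.t2 l5_2
          linarith only [he, hs, l5_2, xs3, xs1, tot1, xn0, xs2]
    · rcases le_total (0 * x0 + 1 * x1 + 0 * x2 + 1 * x3 + 0 * x4) 5 with u5_10 | l5_10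
      · have t1_10 := C10.t1 u5_10
        linarith only [he, hs, xs0, xs2, u5_10, xu4, tot2]
      · have t2_10 := C10.t2 l5_10
        rcases le_total (1 * x0 + 0 * x1 + 0 * x2 + 1 * x3 + 0 * x4) 8 with u8_9 | l8_9
        · have m1_9 := C9.m1 u8_9
          rcases le_total (0 * x0 + 0 * x1 + 0 * x2 + 1 * x3 + 1 * x4) 5 with u5_24 | l5_24
          · have t1_24 := C24.t1 u5_24
            linarith only [he, hs, xs0, u5_24, xs3, xs2, xs1, tot2]
          · have t2_24 := C24.t2 l5_24
            rcases le_total (1 * x0 + 0 * x1 + 0 * x2 + 0 * x3 + 0 * x4) 5 with u5_1 | l5_1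
            · have t1_1 := C1.t1 u5_1
              rcases le_total (1 * a0 + 0 * a1 + 0 * a2 + 1 * a3 + 0 * a4) (s / 2) with g2_9 | g1_9
              · rcases C9.h with h1_9 | h3_9 | ⟨g1_9, h2_9⟩
                · rcases le_total (0 * x0 + 0 * x1 + 0 * x2 + 1 * x3 + 0 * x4) 5 with u5_8 | l5_8
                  · have t1_8 := C8.t1 u5_8
                    rcases le_total (0 * x0 + 0 * x1 + 1 * x2 + 0 * x3 + 0 * x4) 5 with u5_4 | l5_4
                    · have t1_4 := C4.t1 u5_4
                      rcases le_total (0 * x0 + 0 * x1 + 1 * x2 + 1 * x3 + 0 * x4) 8 with u8_12 | l8_12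
                      · have m1_12 := C12.m1 u8_12
                        linarith only [he, hs, h1_9, t1_4, tot2, m1_12, xu4, t1_8, m1_9, xs2, xs1]
                      · have m2_12 := C12.m2 l8_12
                        linarith only [he, hs, l8_12, h3_12, t1_8, g2_12, m2_12, t1_4]
                    · have t2_4 := C4.t2 l5_4
                      linarith only [he, hs, xp, xs3, l5_4, tot1, xs2]
                  · have t2_8 := C8.t2 l5_8
                    linarith only [he, hs, l5_8, t1_1, t2_8, xs1, xp, m1_9, tot1, h1_9, xs3]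
                · rcases le_total (0 * x0 + 1 * x1 + 0 * x2 + 0 * x3 + 0 * x4) 5 with u5_2 | l5_2
                  · have t1_2 := C2.t1 u5_2
                    rcases le_total (0 * x0 + 0 * x1 + 1 * x2 + 0 * x3 + 0 * x4) 5 with u5_4 | l5_4
                    · have t1_4 := C4.t1 u5_4
                      rcases le_total (0 * x0 + 1 * x1 + 1 * x2 + 0 * x3 + 0 * x4) 8 with u8_6 | l8_6
                      · have m1_6 := C6.m1 u8_6
                        rcases le_total (1 * a0 + 0 * a1 + 1 * a2 + 0 * a3 + 0 * a4) (s / 2) with g2_5 | g1_5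
                        · rcases C5.h with h1_5 | h3_5 | ⟨g1_5, h2_5⟩
                          · rcases le_total (0 * x0 + 0 * x1 + 0 * x2 + 1 * x3 + 0 * x4) 5 with u5_8 | l5_8
                            · have t1_8 := C8.t1 u5_8
                              linarith only [he, hs, h1_5, m1_6, xu4, t1_2, t1_8, m1_9, tot2]
                            · have t2_8 := C8.t2 l5_8
                              linarith only [he, hs, h1_5, t1_1, tot1, xp, xs3, g2_12, xs1, l5_8, m1_9, t2_8, h3_9]
                          · rcases le_total (1 * x0 + 0 * x1 + 0 * x2 + 0 * x3 + 1 * x4) 5 with u5_17 | l5_17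
                            · have t1_17 := C17.t1 u5_17
                              linarith only [he, hs, u8_6, u5_17, xp, xs1, xs3, tot2]
                            · have t2_17 := C17.t2 l5_17
                              rcases le_total (0 * x0 + 0 * x1 + 0 * x2 + 1 * x3 + 0 * x4) 5 with u5_8 | l5_8
                              · have t1_8 := C8.t1 u5_8
                                rcases le_total (1 * a0 + 1 * a1 + 1 * a2 + 0 * a3 + 0 * a4) (s / 2) with g2_7 | g1_7
                                · rcases C7.h with h1_7 | h3_7 | ⟨g1_7, h2_7⟩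
                                  · linarith only [he, hs, t1_2, t1_4, t1_8, m1_6, tot2, t1_1, m1_9, xu4, h1_7]
                                  · linarith only [he, hs, h3_7, t1_1, m1_9, g2_7, t1_8, t1_2, xu4, m1_6, t2_17, t1_4, tot2]
                                  · linarith only [g1_7, g2_7]
                                · have g2_24 : 0 * a0 + 0 * a1 + 0 * a2 + 1 * a3 + 1 * a4 ≤ s / 2 := by linarith only [g1_7, hs]
                                  rcases C24.h with h1_24 | h3_24 | ⟨g1_24, h2_24⟩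
                                  · linarith only [he, hs, h1_24, m1_9, m1_6, tot2, g2_24, xs2, t1_8, xs1, xs0, t1_4, t1_2]
                                  · rcases le_total (0 * x0 + 0 * x1 + 0 * x2 + 1 * x3 + 1 * x4) 8 with u8_24 | l8_24
                                    · have m1_24 := C24.m1 u8_24
                                      linarith only [he, hs, t1_4, m1_24, xs1, xs0, h3_24, t1_1, t1_2, xs3, xs2, tot2]
                                    · have m2_24 := C24.m2 l8_24
                                      linarith only [he, hs, t1_4, g2_24, t1_1, m2_24, t2_17, t1_8, h3_24, t1_2, m1_9, xu4, tot2]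
                                  · linarith only [g1_24, g2_24]
                              · have t2_8 := C8.t2 l5_8
                                linarith only [he, hs, h3_9, xs1, xp, g2_12, m1_9, h3_5, l5_8, xs3, t2_8, tot1]
                          · linarith only [g1_5, g2_5]
                        · have g2_26 : 0 * a0 + 1 * a1 + 0 * a2 + 1 * a3 + 1 * a4 ≤ s / 2 := by linarith only [g1_5, hs]
                          rcases C26.h with h1_26 | h3_26 | ⟨g1_26, h2_26⟩
                          · linarith only [he, hs, t1_4, t1_2, m1_6, tot2, t2_10, xs0, g2_26, m1_9, h1_26]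
                          · linarith only [he, hs, t1_2, m1_6, g2_26, t2_10, h3_26, m1_9, xs0, t1_4, tot2]
                          · linarith only [g1_26, g2_26]
                      · have m2_6 := C6.m2 l8_6
                        linarith only [he, hs, m1_9, l8_6, h3_12, xs2, t1_2, g2_12, t1_4, m2_6, xs1, an0]
                    · have t2_4 := C4.t2 l5_4
                      linarith only [he, hs, l5_4, xs2, xp, xs3, tot1]
                  · have t2_2 := C2.t2 l5_2
                    linarith only [he, hs, xn0, tot1, l5_2, xs1, xs2, xs3]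
                · linarith only [g1_9, g2_9]
              · have g2_22 : 0 * a0 + 1 * a1 + 1 * a2 + 0 * a3 + 1 * a4 ≤ s / 2 := by linarith only [g1_9, hs]
                rcases C22.h with h1_22 | h3_22 | ⟨g1_22, h2_22⟩
                · linarith only [he, hs, xp, h3_12, t2_24, xs3, m1_9, tot2, t2_10, t1_1, xs2, g2_22, xs1, h1_22]
                · linarith only [he, hs, xp, h3_22, h3_12, xs2, m1_9, t2_10, t2_24, t1_1, xs1, g2_22, xs3, tot2]
                · linarith only [g1_22, g2_22]
            · have t2_1 := C1.t2 l5_1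
              linarith only [he, hs, xs0, xs1, xs2, u8_9, l5_1]
        · have m2_9 := C9.m2 l8_9
          linarith only [he, hs, xs0, l8_9, xs3, tot1, xu4, xs1]
    · linarith only [g1_12, g2_12]
  · have g2_19 : 1 * a0 + 1 * a1 + 0 * a2 + 0 * a3 + 1 * a4 ≤ s / 2 := by linarith only [g1_12, hs]
    rcases C19.h with h1_19 | h3_19 | ⟨g1_19, h2_19⟩
    · rcases le_total (1 * x0 + 0 * x1 + 1 * x2 + 0 * x3 + 1 * x4) 8 with u8_21 | l8_21
      · have m1_21 := C21.m1 u8_21
        linarith only [he, hs, u8_21, tot2, xs1, xs3, xp, xs2]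
      · have m2_21 := C21.m2 l8_21
        rcases le_total (1 * x0 + 0 * x1 + 0 * x2 + 1 * x3 + 0 * x4) 8 with u8_9 | l8_9
        · have m1_9 := C9.m1 u8_9
          rcases le_total (1 * x0 + 1 * x1 + 0 * x2 + 0 * x3 + 0 * x4) 8 with u8_3 | l8_3
          · have m1_3 := C3.m1 u8_3
            rcases le_total (0 * x0 + 0 * x1 + 0 * x2 + 1 * x3 + 1 * x4) 5 with u5_24 | l5_24
            · have t1_24 := C24.t1 u5_24
              linarith only [he, hs, xs0, xs1, xs2, xs3, l8_21, u5_24]
            · have t2_24 := C24.t2 l5_24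
              rcases le_total (1 * x0 + 0 * x1 + 0 * x2 + 0 * x3 + 0 * x4) 5 with u5_1 | l5_1
              · have t1_1 := C1.t1 u5_1
                rcases le_total (0 * x0 + 0 * x1 + 0 * x2 + 0 * x3 + 1 * x4) 5 with u5_16 | l5_16
                · have t1_16 := C16.t1 u5_16
                  linarith only [he, hs, an0, m1_9, xp, m2_21, xs2, t1_1, g2_19, h1_19, xs3, t1_16]
                · have t2_16 := C16.t2 l5_16
                  linarith only [he, hs, an0, m1_9, tot1, xp, m2_21, xs2, t1_1, g2_19, h1_19, l5_16, t2_16]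
              · have t2_1 := C1.t2 l5_1
                linarith only [he, hs, xs2, xn1, g2_19, h1_19, m2_21, u8_9, m1_9, m1_3, l5_24, t2_24, l5_1, t2_1]
          · have m2_3 := C3.m2 l8_3
            linarith only [he, hs, xs1, l8_3, xs2, tot1, xs0, xs3]
        · have m2_9 := C9.m2 l8_9
          linarith only [he, hs, xs1, xs3, xs0, tot1, xu3, l8_9]
    · rcases le_total (1 * x0 + 0 * x1 + 1 * x2 + 0 * x3 + 0 * x4) 8 with u8_5 | l8_5
      · have m1_5 := C5.m1 u8_5
        rcases le_total (1 * x0 + 0 * x1 + 1 * x2 + 1 * x3 + 0 * x4) 8 with u8_13 | l8_13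
        · have m1_13 := C13.m1 u8_13
          linarith only [he, hs, xu4, xp, xs1, xs2, u8_13, tot2]
        · have m2_13 := C13.m2 l8_13
          rcases le_total (0 * x0 + 1 * x1 + 0 * x2 + 0 * x3 + 1 * x4) 5 with u5_18 | l5_18
          · have t1_18 := C18.t1 u5_18
            linarith only [he, hs, xs0, xs2, xs3, xp, l8_13, u5_18]
          · have t2_18 := C18.t2 l5_18
            rcases le_total (0 * x0 + 1 * x1 + 1 * x2 + 1 * x3 + 0 * x4) 8 with u8_14 | l8_14
            · have m1_14 := C14.m1 u8_14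
              linarith only [he, hs, u8_14, xs0, xu4, xs2, xs1, tot2]
            · have m2_14 := C14.m2 l8_14
              rcases le_total (1 * a0 + 1 * a1 + 0 * a2 + 0 * a3 + 0 * a4) (s / 2) with g2_3 | g1_3
              · rcases C3.h with h1_3 | h3_3 | ⟨g1_3, h2_3⟩
                · rcases le_total (0 * x0 + 0 * x1 + 0 * x2 + 0 * x3 + 1 * x4) 5 with u5_16 | l5_16
                  · have t1_16 := C16.t1 u5_16
                    rcases le_total (0 * x0 + 0 * x1 + 0 * x2 + 1 * x3 + 1 * x4) 8 with u8_24 | l8_24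
                    · have m1_24 := C24.m1 u8_24
                      linarith only [he, hs, h1_3, tot2, t1_16, xs3, m2_13, m2_14, g2_19, xs2, u8_24]
                    · have m2_24 := C24.m2 l8_24
                      linarith only [he, hs, g2_19, xp, m2_24, xs3, an0, m1_5, t1_16, h1_3]
                  · have t2_16 := C16.t2 l5_16
                    linarith only [he, hs, h1_3, m2_14, m2_13, g2_19, xp, t2_16, l5_16, tot1]
                · rcases le_total (1 * x0 + 0 * x1 + 0 * x2 + 0 * x3 + 1 * x4) 5 with u5_17 | l5_17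
                  · have t1_17 := C17.t1 u5_17
                    linarith only [he, hs, h3_19, xp, h3_3, t1_17, t2_18, xs1, xs2, xs3, g2_19, m2_13, tot1]
                  · have t2_17 := C17.t2 l5_17
                    rcases le_total (0 * x0 + 0 * x1 + 1 * x2 + 1 * x3 + 0 * x4) 8 with u8_12 | l8_12
                    · have m1_12 := C12.m1 u8_12
                      linarith only [he, hs, h3_19, t2_17, m1_12, u8_12, t2_18, h3_3, xp, g2_19, tot2]
                    · have m2_12 := C12.m2 l8_12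
                      linarith only [he, hs, h3_19, xp, h3_3, m2_12, t2_18, xs3, g2_19, xs2, t2_17, tot1]
                · linarith only [g1_3, g2_3]
              · have g2_28 : 0 * a0 + 0 * a1 + 1 * a2 + 1 * a3 + 1 * a4 ≤ s / 2 := by linarith only [g1_3, hs]
                rcases C28.h with h1_28 | h3_28 | ⟨g1_28, h2_28⟩
                · linarith only [he, hs, g2_19, g2_28, xs3, xs1, t2_18, xs2, m2_14, h1_28]
                · linarith only [he, hs, g2_19, xs3, m2_14, h3_28, xs2, t2_18, kap, xs1, g2_28]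
                · linarith only [g1_28, g2_28]
      · have m2_5 := C5.m2 l8_5
        linarith only [he, hs, l8_5, tot1, xs3, xs0, xs1, xs2]
    · linarith only [g1_19, g2_19]

theorem case50 : Case 5 0 := by
  intro x a y d s κ e he0 he hx hy hxm hym hp htot hs hk hC
  have ht := abs_le.1 htot
  simp only [Fin.sum_univ_five, Fin.sum_univ_zero] at ht hs
  refine aux50 (x 0) (x 1) (x 2) (x 3) (x 4) (a 0) (a 1) (a 2) (a 3) (a 4) s κ e he
    ((hx 0).1)
    ((hx 0).2.2)
    ((hx 1).1)
    ((hx 3).2.1)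
    ((hx 4).2.1)
    (hxm (by decide))
    (hxm (by decide))
    (hxm (by decide))
    (hxm (by decide))
    ((hp 0 1 (by decide)).le)
    (by linarith [ht.2])
    (by linarith [ht.1])
    (by linarith [hs])
    he0
    hk
    ?_
  intro c0 c1 c2 c3 c4 hc0 hc1 hc2 hc3 hc4
  have h1 := coef (![c0, c1, c2, c3, c4] : Fin 5 → ℝ) (by simp [Fin.forall_fin_succ, hc0, hc1, hc2, hc3, hc4])
  have h2 := coef (![] : Fin 0 → ℝ) (by simp)
  have h3 := hC (Finset.univ.filter fun i => (![c0, c1, c2, c3, c4] : Fin 5 → ℝ) i = 1)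
    (Finset.univ.filter fun i => (![] : Fin 0 → ℝ) i = 1)
  rw [h1 x, h2 y, h1 a, h2 d] at h3
  convert h3 using 1
  · simp [Fin.sum_univ_five, Fin.sum_univ_zero]
  · simp [Fin.sum_univ_five, Fin.sum_univ_zero]

end Pool.Agent.HPZ
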