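import Pool.Agent.HPZ.CTool

/-!
# HPZ/CaseC: cases (6, 0) of the combinatorial lemma

Each case is a finite case distinction; every leaf is a linear contradiction (certificates found by a
branch and bound search with linear programs, checked here by `linarith`).
-/

namespace Pool.Agent.HPZ

set_option linter.all false

/-- `6` short and `0` long items; certificate found by linear programming -/
private theorem aux60 (x0 x1 x2 x3 x4 x5 a0 a1 a2 a3 a4 a5 s κ e : ℝ) (he : e ≤ 1 / 400)
    (xn0 : 0 ≤ x0)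
    (an0 : 0 ≤ a0)
    (xu5 : x5 ≤ 5)
    (xs0 : x0 ≤ x1)
    (xs1 : x1 ≤ x2)
    (xs2 : x2 ≤ x3)
    (xs3 : x3 ≤ x4)
    (xs4 : x4 ≤ x5)
    (xp : 5 ≤ x0 + x1)
    (tot1 : x0 + x1 + x2 + x3 + x4 + x5 ≤ 18 + e)
    (tot2 : 18 - e ≤ x0 + x1 + x2 + x3 + x4 + x5)
    (hs : s = a0 + a1 + a2 + a3 + a4 + a5)
    (he0 : 0 ≤ e)
    (kap : κ ≤ s / 2)
    (H : ∀ c0 c1 c2 c3 c4 c5 : ℝ, (c0 = 0 ∨ c0 = 1) → (c1 = 0 ∨ c1 = 1) → (c2 = 0 ∨ c2 = 1) → (c3 = 0 ∨ c3 = 1) → (c4 = 0 ∨ c4 = 1) → (c5 = 0 ∨ c5 = 1) →
      Cn s κ e (c0 * x0 + c1 * x1 + c2 * x2 + c3 * x3 + c4 * x4 + c5 * x5) (c0 * a0 + c1 * a1 + c2 * a2 + c3 * a3 + c4 * a4 + c5 * a5)) : False := by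
  have C0 := H 0 0 0 0 0 0 (Or.inl rfl) (Or.inl rfl) (Or.inl rfl) (Or.inl rfl) (Or.inl rfl) (Or.inl rfl)
  have C1 := H 1 0 0 0 0 0 (Or.inr rfl) (Or.inl rfl) (Or.inl rfl) (Or.inl rfl) (Or.inl rfl) (Or.inl rfl)
  have C2 := H 0 1 0 0 0 0 (Or.inl rfl) (Or.inr rfl) (Or.inl rfl) (Or.inl rfl) (Or.inl rfl) (Or.inl rfl)
  have C3 := H 1 1 0 0 0 0 (Or.inr rfl) (Or.inr rfl) (Or.inl rfl) (Or.inl rfl) (Or.inl rfl) (Or.inl rfl)
  have C5 := H 1 0 1 0 0 0 (Or.inr rfl) (Or.inl rfl) (Or.inr rfl) (Or.inl rfl) (Or.inl rfl) (Or.inl rfl)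
  have C7 := H 1 1 1 0 0 0 (Or.inr rfl) (Or.inr rfl) (Or.inr rfl) (Or.inl rfl) (Or.inl rfl) (Or.inl rfl)
  have C9 := H 1 0 0 1 0 0 (Or.inr rfl) (Or.inl rfl) (Or.inl rfl) (Or.inr rfl) (Or.inl rfl) (Or.inl rfl)
  have C10 := H 0 1 0 1 0 0 (Or.inl rfl) (Or.inr rfl) (Or.inl rfl) (Or.inr rfl) (Or.inl rfl) (Or.inl rfl)
  have C12 := H 0 0 1 1 0 0 (Or.inl rfl) (Or.inl rfl) (Or.inr rfl) (Or.inr rfl) (Or.inl rfl) (Or.inl rfl)
  have C15 := H 1 1 1 1 0 0 (Or.inr rfl) (Or.inr rfl) (Or.inr rfl) (Or.inr rfl) (Or.inl rfl) (Or.inl rfl)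
  have C18 := H 0 1 0 0 1 0 (Or.inl rfl) (Or.inr rfl) (Or.inl rfl) (Or.inl rfl) (Or.inr rfl) (Or.inl rfl)
  have C19 := H 1 1 0 0 1 0 (Or.inr rfl) (Or.inr rfl) (Or.inl rfl) (Or.inl rfl) (Or.inr rfl) (Or.inl rfl)
  have C20 := H 0 0 1 0 1 0 (Or.inl rfl) (Or.inl rfl) (Or.inr rfl) (Or.inl rfl) (Or.inr rfl) (Or.inl rfl)
  have C24 := H 0 0 0 1 1 0 (Or.inl rfl) (Or.inl rfl) (Or.inl rfl) (Or.inr rfl) (Or.inr rfl) (Or.inl rfl)
  have C28 := H 0 0 1 1 1 0 (Or.inl rfl) (Or.inl rfl) (Or.inr rfl) (Or.inr rfl) (Or.inr rfl) (Or.inl rfl)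
  have C29 := H 1 0 1 1 1 0 (Or.inr rfl) (Or.inl rfl) (Or.inr rfl) (Or.inr rfl) (Or.inr rfl) (Or.inl rfl)
  have C31 := H 1 1 1 1 1 0 (Or.inr rfl) (Or.inr rfl) (Or.inr rfl) (Or.inr rfl) (Or.inr rfl) (Or.inl rfl)
  have C32 := H 0 0 0 0 0 1 (Or.inl rfl) (Or.inl rfl) (Or.inl rfl) (Or.inl rfl) (Or.inl rfl) (Or.inr rfl)
  have C34 := H 0 1 0 0 0 1 (Or.inl rfl) (Or.inr rfl) (Or.inl rfl) (Or.inl rfl) (Or.inl rfl) (Or.inr rfl)
  have C35 := H 1 1 0 0 0 1 (Or.inr rfl) (Or.inr rfl) (Or.inl rfl) (Or.inl rfl) (Or.inl rfl) (Or.inr rfl)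
  have C36 := H 0 0 1 0 0 1 (Or.inl rfl) (Or.inl rfl) (Or.inr rfl) (Or.inl rfl) (Or.inl rfl) (Or.inr rfl)
  have C37 := H 1 0 1 0 0 1 (Or.inr rfl) (Or.inl rfl) (Or.inr rfl) (Or.inl rfl) (Or.inl rfl) (Or.inr rfl)
  have C38 := H 0 1 1 0 0 1 (Or.inl rfl) (Or.inr rfl) (Or.inr rfl) (Or.inl rfl) (Or.inl rfl) (Or.inr rfl)
  have C40 := H 0 0 0 1 0 1 (Or.inl rfl) (Or.inl rfl) (Or.inl rfl) (Or.inr rfl) (Or.inl rfl) (Or.inr rfl)
  have C42 := H 0 1 0 1 0 1 (Or.inl rfl) (Or.inr rfl) (Or.inl rfl) (Or.inr rfl) (Or.inl rfl) (Or.inr rfl)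
  have C44 := H 0 0 1 1 0 1 (Or.inl rfl) (Or.inl rfl) (Or.inr rfl) (Or.inr rfl) (Or.inl rfl) (Or.inr rfl)
  have C48 := H 0 0 0 0 1 1 (Or.inl rfl) (Or.inl rfl) (Or.inl rfl) (Or.inl rfl) (Or.inr rfl) (Or.inr rfl)
  have C51 := H 1 1 0 0 1 1 (Or.inr rfl) (Or.inr rfl) (Or.inl rfl) (Or.inl rfl) (Or.inr rfl) (Or.inr rfl)
  have C52 := H 0 0 1 0 1 1 (Or.inl rfl) (Or.inl rfl) (Or.inr rfl) (Or.inl rfl) (Or.inr rfl) (Or.inr rfl)
  have C53 := H 1 0 1 0 1 1 (Or.inr rfl) (Or.inl rfl) (Or.inr rfl) (Or.inl rfl) (Or.inr rfl) (Or.inr rfl)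
  have C56 := H 0 0 0 1 1 1 (Or.inl rfl) (Or.inl rfl) (Or.inl rfl) (Or.inr rfl) (Or.inr rfl) (Or.inr rfl)
  have C58 := H 0 1 0 1 1 1 (Or.inl rfl) (Or.inr rfl) (Or.inl rfl) (Or.inr rfl) (Or.inr rfl) (Or.inr rfl)
  rcases le_total (1 * a0 + 1 * a1 + 0 * a2 + 0 * a3 + 1 * a4 + 0 * a5) (s / 2) with g2_19 | g1_19
  · rcases C19.h with h1_19 | h3_19 | ⟨g1_19, h2_19⟩
    · rcases le_total (0 * x0 + 0 * x1 + 0 * x2 + 0 * x3 + 0 * x4 + 0 * x5) 5 with u5_0 | l5_0
      · have t1_0 := C0.t1 u5_0
        rcases le_total (1 * x0 + 1 * x1 + 0 * x2 + 0 * x3 + 1 * x4 + 0 * x5) 8 with u8_19 | l8_19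
        · have m1_19 := C19.m1 u8_19
          linarith only [he, hs, h1_19, t1_0, m1_19, xs2, xs3, tot2, xp, xu5]
        · have m2_19 := C19.m2 l8_19
          linarith only [he, hs, t1_0, m2_19, h1_19]
      · have t2_0 := C0.t2 l5_0
        linarith only [he, hs, l5_0]
    · rcases le_total (1 * x0 + 0 * x1 + 1 * x2 + 0 * x3 + 0 * x4 + 0 * x5) 8 with u8_5 | l8_5
      · have m1_5 := C5.m1 u8_5
        rcases le_total (0 * x0 + 1 * x1 + 0 * x2 + 0 * x3 + 0 * x4 + 1 * x5) 5 with u5_34 | l5_34
        · have t1_34 := C34.t1 u5_34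
          linarith only [he, hs, xs2, u5_34, xs0, xs3, xp, xs4, tot2]
        · have t2_34 := C34.t2 l5_34
          rcases le_total (1 * x0 + 0 * x1 + 0 * x2 + 1 * x3 + 0 * x4 + 0 * x5) 8 with u8_9 | l8_9
          · have m1_9 := C9.m1 u8_9
            rcases le_total (0 * x0 + 0 * x1 + 0 * x2 + 0 * x3 + 1 * x4 + 1 * x5) 5 with u5_48 | l5_48
            · have t1_48 := C48.t1 u5_48
              linarith only [he, hs, xs0, xs1, xs4, xs2, u5_48, xs3, tot2]
            · have t2_48 := C48.t2 l5_48
              rcases le_total (0 * x0 + 0 * x1 + 0 * x2 + 1 * x3 + 1 * x4 + 0 * x5) 5 with u5_24 | l5_24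
              · have t1_24 := C24.t1 u5_24
                linarith only [he, hs, xs2, xs0, xs1, u5_24, xs3, xu5, tot2]
              · have t2_24 := C24.t2 l5_24
                rcases le_total (1 * a0 + 0 * a1 + 1 * a2 + 0 * a3 + 0 * a4 + 0 * a5) (s / 2) with g2_5 | g1_5
                · rcases C5.h with h1_5 | h3_5 | ⟨g1_5, h2_5⟩
                  · rcases le_total (1 * x0 + 1 * x1 + 0 * x2 + 0 * x3 + 0 * x4 + 1 * x5) 8 with u8_35 | l8_35
                    · have m1_35 := C35.m1 u8_35
                      linarith only [he, hs, xp, xs2, xs3, u8_35, xs4, tot2]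
                    · have m2_35 := C35.m2 l8_35
                      rcases le_total (0 * x0 + 0 * x1 + 1 * x2 + 1 * x3 + 1 * x4 + 0 * x5) 8 with u8_28 | l8_28
                      · have m1_28 := C28.m1 u8_28
                        linarith only [he, hs, h1_5, m1_28, t2_24, t2_34, xs1, m2_35, xu5]
                      · have m2_28 := C28.m2 l8_28
                        linarith only [he, hs, h1_5, xs1, t2_34, xp, t2_24, m2_28, m2_35, tot1]
                  · rcases le_total (0 * x0 + 1 * x1 + 0 * x2 + 0 * x3 + 1 * x4 + 0 * x5) 8 with u8_18 | l8_18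
                    · have m1_18 := C18.m1 u8_18
                      rcases le_total (0 * x0 + 0 * x1 + 0 * x2 + 1 * x3 + 1 * x4 + 1 * x5) 8 with u8_56 | l8_56
                      · have m1_56 := C56.m1 u8_56
                        linarith only [he, hs, xs4, xs1, tot2, u8_56, xs2, xs0, xs3]
                      · have m2_56 := C56.m2 l8_56
                        rcases le_total (0 * x0 + 0 * x1 + 1 * x2 + 0 * x3 + 1 * x4 + 0 * x5) 5 with u5_20 | l5_20
                        · have t1_20 := C20.t1 u5_20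
                          linarith only [he, hs, xs1, xs3, xs0, xu5, l5_24, u5_20, tot2]
                        · have t2_20 := C20.t2 l5_20
                          rcases le_total (0 * x0 + 0 * x1 + 1 * x2 + 0 * x3 + 1 * x4 + 1 * x5) 8 with u8_52 | l8_52
                          · have m1_52 := C52.m1 u8_52
                            linarith only [he, hs, l8_56, xs3, xs1, u8_52, xs0, xs4, tot2]
                          · have m2_52 := C52.m2 l8_52
                            rcases le_total (0 * x0 + 1 * x1 + 1 * x2 + 0 * x3 + 0 * x4 + 1 * x5) 8 with u8_38 | l8_38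
                            · have m1_38 := C38.m1 u8_38
                              linarith only [he, hs, u8_38, xp, xs0, xs1, xs4, xs3, tot2]
                            · have m2_38 := C38.m2 l8_38
                              rcases le_total (0 * a0 + 1 * a1 + 0 * a2 + 1 * a3 + 0 * a4 + 0 * a5) (s / 2) with g2_10 | g1_10
                              · rcases C10.h with h1_10 | h3_10 | ⟨g1_10, h2_10⟩
                                · rcases le_total (0 * x0 + 0 * x1 + 1 * x2 + 1 * x3 + 1 * x4 + 0 * x5) 8 with u8_28 | l8_28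
                                  · have m1_28 := C28.m1 u8_28
                                    linarith only [he, hs, h1_10, m1_28, xs2, xs1, m1_18, t2_20, xs0, t2_24, xp]
                                  · have m2_28 := C28.m2 l8_28
                                    linarith only [he, hs, h1_10, m2_38, xs2, m2_28, m1_18, t2_20, t2_34, xp, tot1]
                                · rcases C37.h with h1_37 | h3_37 | ⟨g1_37, h2_37⟩
                                  · linarith only [he, hs, h1_37, m2_56, m1_5, xs1, t2_24, g2_19, t2_34, m2_38, m1_9, xp, t2_48, tot1]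
                                  · rcases le_total (1 * a0 + 0 * a1 + 1 * a2 + 1 * a3 + 1 * a4 + 0 * a5) (s / 2) with g2_29 | g1_29
                                    · rcases C29.h with h1_29 | h3_29 | ⟨g1_29, h2_29⟩
                                      · linarith only [he, hs, h3_5, g2_29, t2_20, t2_24, xs1, g2_19, xu5, tot1, m2_52, xs3, xs2, xp, m2_38, h1_29]
                                      · linarith only [he, hs, h3_29, t2_24, m1_18, xu5, xs1, xs2, g2_29, m2_38, h3_5, xs3, m2_52, xp, t2_20]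
                                      · linarith only [g1_29, g2_29]
                                    · have g2_34 : 0 * a0 + 1 * a1 + 0 * a2 + 0 * a3 + 0 * a4 + 1 * a5 ≤ s / 2 := by linarith only [g1_29, hs]
                                      rcases C34.h with h1_34 | h3_34 | ⟨g1_34, h2_34⟩
                                      · linarith only [he, hs, h1_34, xp, m2_52, t2_20, t2_34, m1_18, m2_38, xs2, tot1]
                                      · rcases C42.h with h1_42 | h3_42 | ⟨g1_42, h2_42⟩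
                                        · linarith only [he, hs, h1_42, t2_34, xs2, m2_56, m2_38, t2_20, t2_48, xu5, xs1, m2_52, m1_18, xp, tot1]
                                        · rcases C38.h with h1_38 | h3_38 | ⟨g1_38, h2_38⟩
                                          · linarith only [he, hs, h1_38, t2_48, xp, m2_38, xs1, m2_52, m1_18, xs2, xu5, t2_34, t2_20, tot1]
                                          · rcases le_total (1 * x0 + 1 * x1 + 1 * x2 + 0 * x3 + 0 * x4 + 0 * x5) 8 with u8_7 | l8_7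
                                            · have m1_7 := C7.m1 u8_7
                                              rcases le_total (1 * x0 + 1 * x1 + 0 * x2 + 0 * x3 + 0 * x4 + 0 * x5) 5 with u5_3 | l5_3
                                              · have t1_3 := C3.t1 u5_3
                                                linarith only [he, hs, g2_34, t2_20, m2_38, t1_3, m1_7, m2_56, xs1, h3_38, xs0, g2_19, xp, tot1]
                                              · have t2_3 := C3.t2 l5_3
                                                linarith only [he, hs, g2_19, m2_56, t2_3, m1_7, tot1, m2_38, t2_20, h3_38, xs0, xs1, xp, g2_34]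
                                            · have m2_7 := C7.m2 l8_7
                                              linarith only [he, hs, h3_19, xp, h3_42, t2_34, t2_20, m2_7, m2_56, h3_37, xs1, t2_24, xs4, l8_7, m2_52, tot1]
                                          · linarith only [he, hs, h3_19, m2_38, t2_48, t2_34, m2_56, h2_38, m2_52, h3_37, xp, t2_24, xs1, xs2, xs4, tot1]
                                        · linarith only [he, hs, h3_19, xs1, m2_56, xs4, xp, t2_20, t2_48, h3_37, t2_34, m2_52, m2_38, t2_24, h2_42, tot1]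
                                      · linarith only [g1_34, g2_34]
                                  · linarith only [he, hs, h3_19, xs2, t2_20, xp, xs0, t2_24, h3_10, h2_37, t2_34, xu5, tot2]
                                · linarith only [g1_10, g2_10]
                              · have g2_53 : 1 * a0 + 0 * a1 + 1 * a2 + 0 * a3 + 1 * a4 + 1 * a5 ≤ s / 2 := by linarith only [g1_10, hs]
                                rcases C53.h with h1_53 | h3_53 | ⟨g1_53, h2_53⟩
                                · linarith only [he, hs, g2_53, xs3, t2_48, xp, xs1, tot1, xs4, m2_38, m2_56, m1_18, h3_5, xs2, t2_20, h1_53]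
                                · linarith only [he, hs, h3_53, xs1, m2_56, xp, xs3, tot1, g2_53, m2_38, t2_48, h3_5, xs4, xs2, t2_20, m1_18]
                                · linarith only [g1_53, g2_53]
                    · have m2_18 := C18.m2 l8_18
                      linarith only [he, hs, xs1, xp, xs4, xs2, l8_18, tot1]
                  · linarith only [g1_5, g2_5]
                · have g2_58 : 0 * a0 + 1 * a1 + 0 * a2 + 1 * a3 + 1 * a4 + 1 * a5 ≤ s / 2 := by linarith only [g1_5, hs]
                  rcases C58.h with h1_58 | h3_58 | ⟨g1_58, h2_58⟩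
                  · linarith only [he, hs, m1_5, t2_34, xs1, xs2, xs4, tot2, xs3, xs0, t2_24, g2_58, h1_58]
                  · linarith only [he, hs, xs2, m1_5, xs4, h3_58, xs1, t2_24, xs3, g2_58, t2_34, xs0, tot2]
                  · linarith only [g1_58, g2_58]
          · have m2_9 := C9.m2 l8_9
            linarith only [he, hs, l8_9, xs0, xs1, xs4, xs3, tot1]
      · have m2_5 := C5.m2 l8_5
        linarith only [he, hs, l8_5, xs2, xs3, xs4, xs0, xs1, tot1]
    · linarith only [g1_19, g2_19]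
  · have g2_44 : 0 * a0 + 0 * a1 + 1 * a2 + 1 * a3 + 0 * a4 + 1 * a5 ≤ s / 2 := by linarith only [g1_19, hs]
    rcases C44.h with h1_44 | h3_44 | ⟨g1_44, h2_44⟩
    · rcases le_total (0 * x0 + 0 * x1 + 1 * x2 + 1 * x3 + 0 * x4 + 1 * x5) 8 with u8_44 | l8_44
      · have m1_44 := C44.m1 u8_44
        linarith only [he, hs, xs1, xs0, xs4, u8_44, xs2, tot2]
      · have m2_44 := C44.m2 l8_44
        rcases le_total (0 * x0 + 1 * x1 + 0 * x2 + 0 * x3 + 0 * x4 + 0 * x5) 5 with u5_2 | l5_2
        · have t1_2 := C2.t1 u5_2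
          rcases le_total (1 * x0 + 1 * x1 + 1 * x2 + 1 * x3 + 0 * x4 + 0 * x5) 8 with u8_15 | l8_15
          · have m1_15 := C15.m1 u8_15
            linarith only [he, hs, xs0, xs1, xs2, xp, u8_15]
          · have m2_15 := C15.m2 l8_15
            rcases le_total (0 * a0 + 0 * a1 + 1 * a2 + 1 * a3 + 0 * a4 + 0 * a5) (s / 2) with g2_12 | g1_12
            · rcases C12.h with h1_12 | h3_12 | ⟨g1_12, h2_12⟩
              · rcases le_total (1 * x0 + 0 * x1 + 0 * x2 + 0 * x3 + 0 * x4 + 0 * x5) 5 with u5_1 | l5_1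
                · have t1_1 := C1.t1 u5_1
                  linarith only [he, hs, h1_44, m2_15, h1_12, t1_1, t1_2, m2_44]
                · have t2_1 := C1.t2 l5_1
                  linarith only [he, hs, xs3, xs4, xs2, tot1, xs0, xs1, l5_1]
              · rcases le_total (1 * x0 + 0 * x1 + 0 * x2 + 0 * x3 + 0 * x4 + 0 * x5) 5 with u5_1 | l5_1
                · have t1_1 := C1.t1 u5_1
                  linarith only [he, hs, h1_44, m2_15, xs4, g2_44, t1_1, t1_2, h3_12, xs0, m2_44, xs1, xs2, xs3, tot2]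
                · have t2_1 := C1.t2 l5_1
                  linarith only [he, hs, l5_1, xs4, xs1, xs0, xs3, tot1, xs2]
              · linarith only [g1_12, g2_12]
            · have g2_51 : 1 * a0 + 1 * a1 + 0 * a2 + 0 * a3 + 1 * a4 + 1 * a5 ≤ s / 2 := by linarith only [g1_12, hs]
              rcases C51.h with h1_51 | h3_51 | ⟨g1_51, h2_51⟩
              · linarith only [he, hs, t1_2, xs3, xs4, xp, an0, g2_51, xs0, m2_15, xs2, h1_51]
              · linarith only [he, hs, xs2, xs0, g2_51, tot2, t1_2, an0, m2_15, kap, h3_51, g2_44, xs3, h1_44, xs4]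
              · linarith only [g1_51, g2_51]
        · have t2_2 := C2.t2 l5_2
          linarith only [he, hs, xs4, tot1, l5_2, xn0, xs3, xs2, xs1]
    · rcases le_total (1 * x0 + 1 * x1 + 0 * x2 + 0 * x3 + 1 * x4 + 1 * x5) 8 with u8_51 | l8_51
      · have m1_51 := C51.m1 u8_51
        linarith only [he, hs, xs0, xs1, xs2, xs3, xs4, xp, u8_51]
      · have m2_51 := C51.m2 l8_51
        rcases le_total (0 * x0 + 0 * x1 + 1 * x2 + 0 * x3 + 1 * x4 + 0 * x5) 8 with u8_20 | l8_20
        · have m1_20 := C20.m1 u8_20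
          rcases le_total (0 * x0 + 1 * x1 + 0 * x2 + 0 * x3 + 0 * x4 + 1 * x5) 5 with u5_34 | l5_34
          · have t1_34 := C34.t1 u5_34
            linarith only [he, hs, u5_34, xs4, xp, xs3, xs2, xs0, tot2]
          · have t2_34 := C34.t2 l5_34
            rcases le_total (0 * x0 + 0 * x1 + 1 * x2 + 0 * x3 + 0 * x4 + 1 * x5) 8 with u8_36 | l8_36
            · have m1_36 := C36.m1 u8_36
              rcases le_total (1 * x0 + 1 * x1 + 0 * x2 + 0 * x3 + 0 * x4 + 1 * x5) 8 with u8_35 | l8_35
              · have m1_35 := C35.m1 u8_35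
                linarith only [he, hs, xs4, xs3, xp, u8_35, xs2, tot2]
              · have m2_35 := C35.m2 l8_35
                rcases le_total (0 * x0 + 0 * x1 + 0 * x2 + 1 * x3 + 0 * x4 + 1 * x5) 5 with u5_40 | l5_40
                · have t1_40 := C40.t1 u5_40
                  linarith only [he, hs, xs0, xs1, xs2, xs3, xs4, l8_35, u5_40]
                · have t2_40 := C40.t2 l5_40
                  rcases le_total (1 * a0 + 1 * a1 + 1 * a2 + 1 * a3 + 1 * a4 + 0 * a5) (s / 2) with g2_31 | g1_31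
                  · rcases C31.h with h1_31 | h3_31 | ⟨g1_31, h2_31⟩
                    · linarith only [he, hs, kap, g2_44, m2_51, xu5, xs0, xs1, xp, g2_31, h1_31, xs2]
                    · linarith only [he, hs, h3_31, g2_44, xs2, xs1, xp, xs0, m2_51, g2_31, kap, xu5]
                    · linarith only [g1_31, g2_31]
                  · have g2_32 : 0 * a0 + 0 * a1 + 0 * a2 + 0 * a3 + 0 * a4 + 1 * a5 ≤ s / 2 := by linarith only [g1_31, hs]
                    rcases C32.h with h1_32 | h3_32 | ⟨g1_32, h2_32⟩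
                    · rcases le_total (1 * x0 + 0 * x1 + 1 * x2 + 0 * x3 + 0 * x4 + 0 * x5) 5 with u5_5 | l5_5
                      · have t1_5 := C5.t1 u5_5
                        linarith only [he, hs, h1_32, m1_36, xs1, m2_35, t2_34, t1_5]
                      · have t2_5 := C5.t2 l5_5
                        linarith only [he, hs, xs0, h1_32, h3_44, g2_44, xs3, t2_34, t2_40, m2_35, xs1, tot1, xs2, t2_5, m1_20, m1_36]
                    · rcases le_total (1 * x0 + 0 * x1 + 1 * x2 + 0 * x3 + 0 * x4 + 0 * x5) 5 with u5_5 | l5_5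
                      · have t1_5 := C5.t1 u5_5
                        linarith only [he, hs, xs0, t1_5, t2_34, h3_32, xp, t2_40, h3_44, xs2, m2_35, g2_44, m1_36, xs1]
                      · have t2_5 := C5.t2 l5_5
                        linarith only [he, hs, xs0, xs2, h3_44, g2_44, t2_34, xs1, m1_20, t2_40, h3_32, t2_5, m2_35, xs3, tot1, m1_36]
                    · linarith only [g1_32, g2_32]
            · have m2_36 := C36.m2 l8_36
              linarith only [he, hs, xs2, l8_36, xs3, xu5, xp, tot1]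
        · have m2_20 := C20.m2 l8_20
          linarith only [he, hs, xp, xs4, l8_20, xs2, tot1]
    · linarith only [g1_44, g2_44]

theorem case60 : Case 6 0 := by
  intro x a y d s κ e he0 he hx hy hxm hym hp htot hs hk hC
  have ht := abs_le.1 htot
  simp only [Fin.sum_univ_six, Fin.sum_univ_zero] at ht hs
  refine aux60 (x 0) (x 1) (x 2) (x 3) (x 4) (x 5) (a 0) (a 1) (a 2) (a 3) (a 4) (a 5) s κ e he
    ((hx 0).1)
    ((hx 0).2.2)
    ((hx 5).2.1)
    (hxm (by decide))
    (hxm (by decide))
    (hxm (by decide))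
    (hxm (by decide))
    (hxm (by decide))
    ((hp 0 1 (by decide)).le)
    (by linarith [ht.2])
    (by linarith [ht.1])
    (by linarith [hs])
    he0
    hk
    ?_
  intro c0 c1 c2 c3 c4 c5 hc0 hc1 hc2 hc3 hc4 hc5
  have h1 := coef (![c0, c1, c2, c3, c4, c5] : Fin 6 → ℝ) (by simp [Fin.forall_fin_succ, hc0, hc1, hc2, hc3, hc4, hc5])
  have h2 := coef (![] : Fin 0 → ℝ) (by simp)
  have h3 := hC (Finset.univ.filter fun i => (![c0, c1, c2, c3, c4, c5] : Fin 6 → ℝ) i = 1)
    (Finset.univ.filter fun i => (![] : Fin 0 → ℝ) i = 1)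
  rw [h1 x, h2 y, h1 a, h2 d] at h3
  convert h3 using 1
  · simp [Fin.sum_univ_six, Fin.sum_univ_zero]
  · simp [Fin.sum_univ_six, Fin.sum_univ_zero]

end Pool.Agent.HPZ
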