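import Pool.Agent.HPZ.CTool

/-!
# HPZ/CaseD: cases (7, 0) of the combinatorial lemma

Each case is a finite case distinction; every leaf is a linear contradiction (certificates found by a
branch and bound search with linear programs, checked here by `linarith`).
-/

namespace Pool.Agent.HPZ

set_option linter.all false

/-- `7` short and `0` long items; certificate found by linear programming -/
private theorem aux70 (x0 x1 x2 x3 x4 x5 x6 a0 a1 a2 a3 a4 a5 a6 s κ e : ℝ) (he : e ≤ 1 / 400)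
    (an0 : 0 ≤ a0)
    (an2 : 0 ≤ a2)
    (an3 : 0 ≤ a3)
    (an5 : 0 ≤ a5)
    (xu6 : x6 ≤ 5)
    (xs0 : x0 ≤ x1)
    (xs1 : x1 ≤ x2)
    (xs2 : x2 ≤ x3)
    (xs3 : x3 ≤ x4)
    (xs4 : x4 ≤ x5)
    (xs5 : x5 ≤ x6)
    (xp : 5 ≤ x0 + x1)
    (tot1 : x0 + x1 + x2 + x3 + x4 + x5 + x6 ≤ 18 + e)
    (tot2 : 18 - e ≤ x0 + x1 + x2 + x3 + x4 + x5 + x6)
    (hs : s = a0 + a1 + a2 + a3 + a4 + a5 + a6)
    (he0 : 0 ≤ e)
    (H : ∀ c0 c1 c2 c3 c4 c5 c6 : ℝ, (c0 = 0 ∨ c0 = 1) → (c1 = 0 ∨ c1 = 1) → (c2 = 0 ∨ c2 = 1) → (c3 = 0 ∨ c3 = 1) → (c4 = 0 ∨ c4 = 1) → (c5 = 0 ∨ c5 = 1) → (c6 = 0 ∨ c6 = 1) →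
      Cn s κ e (c0 * x0 + c1 * x1 + c2 * x2 + c3 * x3 + c4 * x4 + c5 * x5 + c6 * x6) (c0 * a0 + c1 * a1 + c2 * a2 + c3 * a3 + c4 * a4 + c5 * a5 + c6 * a6)) : False := by
  have C3 := H 1 1 0 0 0 0 0 (Or.inr rfl) (Or.inr rfl) (Or.inl rfl) (Or.inl rfl) (Or.inl rfl) (Or.inl rfl) (Or.inl rfl)
  have C10 := H 0 1 0 1 0 0 0 (Or.inl rfl) (Or.inr rfl) (Or.inl rfl) (Or.inr rfl) (Or.inl rfl) (Or.inl rfl) (Or.inl rfl)
  have C11 := H 1 1 0 1 0 0 0 (Or.inr rfl) (Or.inr rfl) (Or.inl rfl) (Or.inr rfl) (Or.inl rfl) (Or.inl rfl) (Or.inl rfl)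
  have C13 := H 1 0 1 1 0 0 0 (Or.inr rfl) (Or.inl rfl) (Or.inr rfl) (Or.inr rfl) (Or.inl rfl) (Or.inl rfl) (Or.inl rfl)
  have C15 := H 1 1 1 1 0 0 0 (Or.inr rfl) (Or.inr rfl) (Or.inr rfl) (Or.inr rfl) (Or.inl rfl) (Or.inl rfl) (Or.inl rfl)
  have C18 := H 0 1 0 0 1 0 0 (Or.inl rfl) (Or.inr rfl) (Or.inl rfl) (Or.inl rfl) (Or.inr rfl) (Or.inl rfl) (Or.inl rfl)
  have C19 := H 1 1 0 0 1 0 0 (Or.inr rfl) (Or.inr rfl) (Or.inl rfl) (Or.inl rfl) (Or.inr rfl) (Or.inl rfl) (Or.inl rfl)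
  have C21 := H 1 0 1 0 1 0 0 (Or.inr rfl) (Or.inl rfl) (Or.inr rfl) (Or.inl rfl) (Or.inr rfl) (Or.inl rfl) (Or.inl rfl)
  have C26 := H 0 1 0 1 1 0 0 (Or.inl rfl) (Or.inr rfl) (Or.inl rfl) (Or.inr rfl) (Or.inr rfl) (Or.inl rfl) (Or.inl rfl)
  have C28 := H 0 0 1 1 1 0 0 (Or.inl rfl) (Or.inl rfl) (Or.inr rfl) (Or.inr rfl) (Or.inr rfl) (Or.inl rfl) (Or.inl rfl)
  have C30 := H 0 1 1 1 1 0 0 (Or.inl rfl) (Or.inr rfl) (Or.inr rfl) (Or.inr rfl) (Or.inr rfl) (Or.inl rfl) (Or.inl rfl)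
  have C33 := H 1 0 0 0 0 1 0 (Or.inr rfl) (Or.inl rfl) (Or.inl rfl) (Or.inl rfl) (Or.inl rfl) (Or.inr rfl) (Or.inl rfl)
  have C34 := H 0 1 0 0 0 1 0 (Or.inl rfl) (Or.inr rfl) (Or.inl rfl) (Or.inl rfl) (Or.inl rfl) (Or.inr rfl) (Or.inl rfl)
  have C35 := H 1 1 0 0 0 1 0 (Or.inr rfl) (Or.inr rfl) (Or.inl rfl) (Or.inl rfl) (Or.inl rfl) (Or.inr rfl) (Or.inl rfl)
  have C38 := H 0 1 1 0 0 1 0 (Or.inl rfl) (Or.inr rfl) (Or.inr rfl) (Or.inl rfl) (Or.inl rfl) (Or.inr rfl) (Or.inl rfl)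
  have C41 := H 1 0 0 1 0 1 0 (Or.inr rfl) (Or.inl rfl) (Or.inl rfl) (Or.inr rfl) (Or.inl rfl) (Or.inr rfl) (Or.inl rfl)
  have C43 := H 1 1 0 1 0 1 0 (Or.inr rfl) (Or.inr rfl) (Or.inl rfl) (Or.inr rfl) (Or.inl rfl) (Or.inr rfl) (Or.inl rfl)
  have C44 := H 0 0 1 1 0 1 0 (Or.inl rfl) (Or.inl rfl) (Or.inr rfl) (Or.inr rfl) (Or.inl rfl) (Or.inr rfl) (Or.inl rfl)
  have C66 := H 0 1 0 0 0 0 1 (Or.inl rfl) (Or.inr rfl) (Or.inl rfl) (Or.inl rfl) (Or.inl rfl) (Or.inl rfl) (Or.inr rfl)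
  have C71 := H 1 1 1 0 0 0 1 (Or.inr rfl) (Or.inr rfl) (Or.inr rfl) (Or.inl rfl) (Or.inl rfl) (Or.inl rfl) (Or.inr rfl)
  have C74 := H 0 1 0 1 0 0 1 (Or.inl rfl) (Or.inr rfl) (Or.inl rfl) (Or.inr rfl) (Or.inl rfl) (Or.inl rfl) (Or.inr rfl)
  have C80 := H 0 0 0 0 1 0 1 (Or.inl rfl) (Or.inl rfl) (Or.inl rfl) (Or.inl rfl) (Or.inr rfl) (Or.inl rfl) (Or.inr rfl)
  have C97 := H 1 0 0 0 0 1 1 (Or.inr rfl) (Or.inl rfl) (Or.inl rfl) (Or.inl rfl) (Or.inl rfl) (Or.inr rfl) (Or.inr rfl)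
  have C116 := H 0 0 1 0 1 1 1 (Or.inl rfl) (Or.inl rfl) (Or.inr rfl) (Or.inl rfl) (Or.inr rfl) (Or.inr rfl) (Or.inr rfl)
  have C120 := H 0 0 0 1 1 1 1 (Or.inl rfl) (Or.inl rfl) (Or.inl rfl) (Or.inr rfl) (Or.inr rfl) (Or.inr rfl) (Or.inr rfl)
  have C124 := H 0 0 1 1 1 1 1 (Or.inl rfl) (Or.inl rfl) (Or.inr rfl) (Or.inr rfl) (Or.inr rfl) (Or.inr rfl) (Or.inr rfl)
  rcases le_total (0 * a0 + 1 * a1 + 1 * a2 + 1 * a3 + 1 * a4 + 0 * a5 + 0 * a6) (s / 2) with g2_30 | g1_30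
  · rcases C30.h with h1_30 | h3_30 | ⟨g1_30, h2_30⟩
    · rcases le_total (1 * x0 + 1 * x1 + 0 * x2 + 1 * x3 + 0 * x4 + 1 * x5 + 0 * x6) 8 with u8_43 | l8_43
      · have m1_43 := C43.m1 u8_43
        linarith only [he, hs, xs0, xs1, xs2, xs3, xs4, xp, u8_43]
      · have m2_43 := C43.m2 l8_43
        rcases le_total (1 * x0 + 1 * x1 + 1 * x2 + 0 * x3 + 0 * x4 + 0 * x5 + 1 * x6) 8 with u8_71 | l8_71
        · have m1_71 := C71.m1 u8_71
          linarith only [he, hs, xs0, xs1, xs3, xs4, xs5, xp, l8_43, u8_71]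
        · have m2_71 := C71.m2 l8_71
          rcases le_total (0 * x0 + 0 * x1 + 1 * x2 + 1 * x3 + 1 * x4 + 0 * x5 + 0 * x6) 5 with u5_28 | l5_28
          · have t1_28 := C28.t1 u5_28
            linarith only [he, hs, xs0, xs1, xs2, xs3, xp, u5_28]
          · have t2_28 := C28.t2 l5_28
            rcases le_total (0 * x0 + 1 * x1 + 0 * x2 + 0 * x3 + 0 * x4 + 0 * x5 + 1 * x6) 5 with u5_66 | l5_66
            · have t1_66 := C66.t1 u5_66
              linarith only [he, hs, xs0, tot2, xp, u5_66, xs5, xs4, xs3, xs2]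
            · have t2_66 := C66.t2 l5_66
              rcases le_total (0 * x0 + 0 * x1 + 0 * x2 + 1 * x3 + 1 * x4 + 1 * x5 + 1 * x6) 8 with u8_120 | l8_120
              · have m1_120 := C120.m1 u8_120
                linarith only [he, hs, xs1, xs2, xs3, xs4, l5_28, l5_66, u8_120]
              · have m2_120 := C120.m2 l8_120
                linarith only [he, hs, xs0, xp, xs2, tot1, t2_28, xs4, m2_71, xs3, t2_66, m2_120, xs1, g2_30, h1_30]
    · rcases le_total (1 * x0 + 1 * x1 + 0 * x2 + 0 * x3 + 0 * x4 + 1 * x5 + 0 * x6) 8 with u8_35 | l8_35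
      · have m1_35 := C35.m1 u8_35
        rcases le_total (0 * x0 + 0 * x1 + 1 * x2 + 1 * x3 + 0 * x4 + 1 * x5 + 0 * x6) 5 with u5_44 | l5_44
        · have t1_44 := C44.t1 u5_44
          linarith only [he, hs, xs0, xs1, xs2, xs3, xs4, xp, u5_44]
        · have t2_44 := C44.t2 l5_44
          rcases le_total (0 * x0 + 0 * x1 + 1 * x2 + 0 * x3 + 1 * x4 + 1 * x5 + 1 * x6) 8 with u8_116 | l8_116
          · have m1_116 := C116.m1 u8_116
            linarith only [he, hs, xs0, xs1, xs2, xs3, xs4, xs5, xp, u8_116]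
          · have m2_116 := C116.m2 l8_116
            rcases le_total (0 * x0 + 1 * x1 + 0 * x2 + 0 * x3 + 1 * x4 + 0 * x5 + 0 * x6) 5 with u5_18 | l5_18
            · have t1_18 := C18.t1 u5_18
              linarith only [he, hs, xs0, g2_30, h3_30, m1_35, tot1, an2, an5, xp, t2_44, xs3, t1_18, m2_116, xs2, xs1]
            · have t2_18 := C18.t2 l5_18
              linarith only [he, hs, xs0, xs2, h3_30, m1_35, xs3, tot1, an2, an5, t2_44, g2_30, m2_116, t2_18, xs1, xp]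
      · have m2_35 := C35.m2 l8_35
        linarith only [he, hs, xs0, xs1, xs3, l8_35, xs5, xp, xs2, tot1]
    · linarith only [g1_30, g2_30]
  · have g2_97 : 1 * a0 + 0 * a1 + 0 * a2 + 0 * a3 + 0 * a4 + 1 * a5 + 1 * a6 ≤ s / 2 := by linarith only [g1_30, hs]
    rcases C97.h with h1_97 | h3_97 | ⟨g1_97, h2_97⟩
    · rcases le_total (1 * x0 + 0 * x1 + 0 * x2 + 1 * x3 + 0 * x4 + 1 * x5 + 0 * x6) 8 with u8_41 | l8_41
      · have m1_41 := C41.m1 u8_41
        rcases le_total (1 * x0 + 0 * x1 + 1 * x2 + 0 * x3 + 1 * x4 + 0 * x5 + 0 * x6) 5 with u5_21 | l5_21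
        · have t1_21 := C21.t1 u5_21
          linarith only [he, hs, xs0, xs1, xs2, xs3, xp, u5_21]
        · have t2_21 := C21.t2 l5_21
          rcases le_total (0 * x0 + 0 * x1 + 0 * x2 + 0 * x3 + 1 * x4 + 0 * x5 + 1 * x6) 8 with u8_80 | l8_80
          · have m1_80 := C80.m1 u8_80
            rcases le_total (1 * x0 + 1 * x1 + 1 * x2 + 1 * x3 + 0 * x4 + 0 * x5 + 0 * x6) 8 with u8_15 | l8_15
            · have m1_15 := C15.m1 u8_15
              linarith only [he, hs, xs0, xs1, xs2, xp, u8_15]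
            · have m2_15 := C15.m2 l8_15
              rcases le_total (1 * x0 + 1 * x1 + 0 * x2 + 0 * x3 + 1 * x4 + 0 * x5 + 0 * x6) 8 with u8_19 | l8_19
              · have m1_19 := C19.m1 u8_19
                rcases le_total (0 * x0 + 1 * x1 + 0 * x2 + 1 * x3 + 0 * x4 + 0 * x5 + 0 * x6) 5 with u5_10 | l5_10
                · have t1_10 := C10.t1 u5_10
                  linarith only [he, hs, h1_97, t2_21, xs2, an0, tot2, m1_80, m2_15, xs0, m1_41, u5_10, m1_19, t1_10, xp, xs4, xs5]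
                · have t2_10 := C10.t2 l5_10
                  linarith only [he, hs, h1_97, xs4, xs2, t2_10, tot1, xs3, xs1, m1_19, m1_41, an0, m1_80, m2_15, xs5, t2_21, xs0]
              · have m2_19 := C19.m2 l8_19
                linarith only [he, hs, xs3, xs4, l8_19, xs0, tot1, xs2, xs5, xs1]
          · have m2_80 := C80.m2 l8_80
            linarith only [he, hs, xp, l8_80, xs2, xs1, xs0, xs4, tot1, xu6]
      · have m2_41 := C41.m2 l8_41
        linarith only [he, hs, xs5, xs3, xs0, xp, xs1, l8_41, tot1]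
    · rcases le_total (1 * x0 + 1 * x1 + 0 * x2 + 0 * x3 + 0 * x4 + 0 * x5 + 0 * x6) 8 with u8_3 | l8_3
      · have m1_3 := C3.m1 u8_3
        rcases le_total (1 * x0 + 0 * x1 + 1 * x2 + 1 * x3 + 0 * x4 + 0 * x5 + 0 * x6) 5 with u5_13 | l5_13
        · have t1_13 := C13.t1 u5_13
          linarith only [he, hs, xs0, xs1, xs2, xp, u5_13]
        · have t2_13 := C13.t2 l5_13
          rcases le_total (0 * x0 + 1 * x1 + 0 * x2 + 1 * x3 + 1 * x4 + 0 * x5 + 0 * x6) 5 with u5_26 | l5_26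
          · have t1_26 := C26.t1 u5_26
            linarith only [he, hs, xs0, xs1, xs2, xs3, xp, u5_26]
          · have t2_26 := C26.t2 l5_26
            rcases le_total (1 * x0 + 1 * x1 + 0 * x2 + 1 * x3 + 0 * x4 + 0 * x5 + 0 * x6) 8 with u8_11 | l8_11
            · have m1_11 := C11.m1 u8_11
              rcases le_total (0 * x0 + 1 * x1 + 1 * x2 + 0 * x3 + 0 * x4 + 1 * x5 + 0 * x6) 8 with u8_38 | l8_38
              · have m1_38 := C38.m1 u8_38
                rcases le_total (0 * x0 + 1 * x1 + 0 * x2 + 1 * x3 + 0 * x4 + 0 * x5 + 1 * x6) 5 with u5_74 | l5_74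
                · have t1_74 := C74.t1 u5_74
                  linarith only [he, hs, xs0, xs1, xs2, xs3, xs4, xs5, xp, u5_74]
                · have t2_74 := C74.t2 l5_74
                  rcases le_total (0 * x0 + 1 * x1 + 0 * x2 + 0 * x3 + 0 * x4 + 0 * x5 + 1 * x6) 5 with u5_66 | l5_66
                  · have t1_66 := C66.t1 u5_66
                    linarith only [he, hs, xs3, xs2, xp, xs4, xs0, u5_66, xs5, tot2]
                  · have t2_66 := C66.t2 l5_66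
                    rcases le_total (1 * a0 + 1 * a1 + 0 * a2 + 0 * a3 + 0 * a4 + 0 * a5 + 0 * a6) (s / 2) with g2_3 | g1_3
                    · rcases C3.h with h1_3 | h3_3 | ⟨g1_3, h2_3⟩
                      · rcases le_total (1 * x0 + 0 * x1 + 1 * x2 + 0 * x3 + 1 * x4 + 0 * x5 + 0 * x6) 8 with u8_21 | l8_21
                        · have m1_21 := C21.m1 u8_21
                          rcases le_total (1 * x0 + 0 * x1 + 0 * x2 + 0 * x3 + 0 * x4 + 1 * x5 + 0 * x6) 5 with u5_33 | l5_33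
                          · have t1_33 := C33.t1 u5_33
                            linarith only [he, hs, h1_3, g2_97, xs2, t2_66, xp, xs3, xs1, t1_33, t2_13, m1_21, xs4, m1_11, m1_38]
                          · have t2_33 := C33.t2 l5_33
                            linarith only [he, hs, h1_3, g2_97, t2_66, xp, t2_33, t2_13, m1_21, m1_11, m1_38]
                        · have m2_21 := C21.m2 l8_21
                          linarith only [he, hs, tot1, xs2, xs4, xs3, xs0, l8_21, xs1, xs5]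
                      · rcases le_total (0 * x0 + 1 * x1 + 0 * x2 + 0 * x3 + 0 * x4 + 1 * x5 + 0 * x6) 5 with u5_34 | l5_34
                        · have t1_34 := C34.t1 u5_34
                          linarith only [he, hs, h3_97, xs3, m1_3, m1_38, g2_97, t2_66, t2_13, xs0, xp, t1_34, m1_11, xs4, h3_3, xs1, xs2, tot2]
                        · have t2_34 := C34.t2 l5_34
                          linarith only [he, hs, h3_97, xs3, m1_3, m1_38, g2_97, xs5, t2_13, xs1, t2_66, t2_34, m1_11, xs4, h3_3, xs2, xp, tot2]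
                      · linarith only [g1_3, g2_3]
                    · have g2_124 : 0 * a0 + 0 * a1 + 1 * a2 + 1 * a3 + 1 * a4 + 1 * a5 + 1 * a6 ≤ s / 2 := by linarith only [g1_3, hs]
                      rcases C124.h with h1_124 | h3_124 | ⟨g1_124, h2_124⟩
                      · linarith only [he, hs, tot2, an3, xs3, xs1, t2_26, an5, t2_13, g2_124, m1_38, xs5, t2_74, xs4, xs0, m1_11, xs2, h1_124]
                      · linarith only [he, hs, h3_124, an5, t2_13, xs1, xs5, t2_66, an3, xs0, tot2, t2_26, xs2, m1_38, xs4, m1_11, xs3, g2_124]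
                      · linarith only [g1_124, g2_124]
              · have m2_38 := C38.m2 l8_38
                linarith only [he, hs, xs3, xs2, l8_38, xs4, tot1, xp, xs1, xs5]
            · have m2_11 := C11.m2 l8_11
              linarith only [he, hs, l8_11, xs2, xs0, xs3, xs1, xs4, xs5, tot1]
      · have m2_3 := C3.m2 l8_3
        linarith only [he, hs, xs5, xs0, xs4, xs1, l8_3, xs2, xs3, tot1]
    · linarith only [g1_97, g2_97]

theorem case70 : Case 7 0 := by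
  intro x a y d s κ e he0 he hx hy hxm hym hp htot hs hk hC
  have ht := abs_le.1 htot
  simp only [Fin.sum_univ_seven, Fin.sum_univ_zero] at ht hs
  refine aux70 (x 0) (x 1) (x 2) (x 3) (x 4) (x 5) (x 6) (a 0) (a 1) (a 2) (a 3) (a 4) (a 5) (a 6) s κ e he
    ((hx 0).2.2)
    ((hx 2).2.2)
    ((hx 3).2.2)
    ((hx 5).2.2)
    ((hx 6).2.1)
    (hxm (by decide))
    (hxm (by decide))
    (hxm (by decide))
    (hxm (by decide))
    (hxm (by decide))
    (hxm (by decide))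
    ((hp 0 1 (by decide)).le)
    (by linarith [ht.2])
    (by linarith [ht.1])
    (by linarith [hs])
    he0
    ?_
  intro c0 c1 c2 c3 c4 c5 c6 hc0 hc1 hc2 hc3 hc4 hc5 hc6
  have h1 := coef (![c0, c1, c2, c3, c4, c5, c6] : Fin 7 → ℝ) (by simp [Fin.forall_fin_succ, hc0, hc1, hc2, hc3, hc4, hc5, hc6])
  have h2 := coef (![] : Fin 0 → ℝ) (by simp)
  have h3 := hC (Finset.univ.filter fun i => (![c0, c1, c2, c3, c4, c5, c6] : Fin 7 → ℝ) i = 1)
    (Finset.univ.filter fun i => (![] : Fin 0 → ℝ) i = 1)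
  rw [h1 x, h2 y, h1 a, h2 d] at h3
  convert h3 using 1
  · simp [Fin.sum_univ_seven, Fin.sum_univ_zero]
  · simp [Fin.sum_univ_seven, Fin.sum_univ_zero]

end Pool.Agent.HPZ
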