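import Pool.Agent.HPZ.CTool

/-!
# HPZ/CaseE: cases (0, 1), (1, 1), (2, 1), (3, 1), (4, 1) of the combinatorial lemma

Each case is a finite case distinction; every leaf is a linear contradiction (certificates found by a
branch and bound search with linear programs, checked here by `linarith`).
-/

namespace Pool.Agent.HPZ

set_option linter.all false

/-- `0` short and `1` long items; certificate found by linear programming -/
private theorem aux01 (y0 d0 s κ e : ℝ) (he : e ≤ 1 / 400)
    (yf0 : (s - κ + y0 - 5) / 2 ≤ d0 + e)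
    (tot2 : 18 - e ≤ y0)
    (hs : s = d0)
    (he0 : 0 ≤ e)
    (H : ∀ c0 : ℝ, (c0 = 0 ∨ c0 = 1) →
      Cn s κ e (c0 * y0) (c0 * d0)) : False := by
  have C0 := H 0 (Or.inl rfl)
  have C1 := H 1 (Or.inr rfl)
  rcases le_total (0 * y0) 5 with u5_0 | l5_0
  · have t1_0 := C0.t1 u5_0
    rcases le_total (1 * y0) 8 with u8_1 | l8_1
    · have m1_1 := C1.m1 u8_1
      linarith only [he, hs, u8_1, tot2]
    · have m2_1 := C1.m2 l8_1
      linarith only [he, hs, yf0, m2_1, t1_0, tot2]
  · have t2_0 := C0.t2 l5_0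
    linarith only [he, hs, l5_0]

theorem case01 : Case 0 1 := by
  intro x a y d s κ e he0 he hx hy hxm hym hp htot hs hk hC
  have ht := abs_le.1 htot
  simp only [Fin.sum_univ_zero, Fin.sum_univ_one] at ht hs
  refine aux01 (y 0) (d 0) s κ e he
    ((hy 0).2.2)
    (by linarith [ht.1])
    (by linarith [hs])
    he0
    ?_
  intro c0 hc0
  have h1 := coef (![] : Fin 0 → ℝ) (by simp)
  have h2 := coef (![c0] : Fin 1 → ℝ) (by simp [Fin.forall_fin_succ, hc0])
  have h3 := hC (Finset.univ.filter fun i => (![] : Fin 0 → ℝ) i = 1)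
    (Finset.univ.filter fun i => (![c0] : Fin 1 → ℝ) i = 1)
  rw [h1 x, h2 y, h1 a, h2 d] at h3
  convert h3 using 1
  · simp [Fin.sum_univ_zero, Fin.sum_univ_one]
  · simp [Fin.sum_univ_zero, Fin.sum_univ_one]

/-- `1` short and `1` long items; certificate found by linear programming -/
private theorem aux11 (x0 y0 a0 d0 s κ e : ℝ) (he : e ≤ 1 / 400)
    (xu0 : x0 ≤ 5)
    (yf0 : (s - κ + y0 - 5) / 2 ≤ d0 + e)
    (tot2 : 18 - e ≤ x0 + y0)
    (hs : s = a0 + d0)
    (he0 : 0 ≤ e)
    (kap : κ ≤ s / 2)
    (H : ∀ c0 c1 : ℝ, (c0 = 0 ∨ c0 = 1) → (c1 = 0 ∨ c1 = 1) →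
      Cn s κ e (c0 * x0 + c1 * y0) (c0 * a0 + c1 * d0)) : False := by
  have C0 := H 0 0 (Or.inl rfl) (Or.inl rfl)
  have C2 := H 0 1 (Or.inl rfl) (Or.inr rfl)
  rcases le_total (0 * x0 + 1 * y0) 8 with u8_2 | l8_2
  · have m1_2 := C2.m1 u8_2
    linarith only [he, hs, xu0, u8_2, tot2]
  · have m2_2 := C2.m2 l8_2
    rcases le_total (0 * x0 + 0 * y0) 5 with u5_0 | l5_0
    · have t1_0 := C0.t1 u5_0
      linarith only [he, hs, m2_2, kap, yf0, t1_0]
    · have t2_0 := C0.t2 l5_0
      linarith only [he, hs, l5_0]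

theorem case11 : Case 1 1 := by
  intro x a y d s κ e he0 he hx hy hxm hym hp htot hs hk hC
  have ht := abs_le.1 htot
  simp only [Fin.sum_univ_one] at ht hs
  refine aux11 (x 0) (y 0) (a 0) (d 0) s κ e he
    ((hx 0).2.1)
    ((hy 0).2.2)
    (by linarith [ht.1])
    (by linarith [hs])
    he0
    hk
    ?_
  intro c0 c1 hc0 hc1
  have h1 := coef (![c0] : Fin 1 → ℝ) (by simp [Fin.forall_fin_succ, hc0])
  have h2 := coef (![c1] : Fin 1 → ℝ) (by simp [Fin.forall_fin_succ, hc1])
  have h3 := hC (Finset.univ.filter fun i => (![c0] : Fin 1 → ℝ) i = 1)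
    (Finset.univ.filter fun i => (![c1] : Fin 1 → ℝ) i = 1)
  rw [h1 x, h2 y, h1 a, h2 d] at h3
  convert h3 using 1
  · simp [Fin.sum_univ_one]
    try ring
  · simp [Fin.sum_univ_one]
    try ring

/-- `2` short and `1` long items; certificate found by linear programming -/
private theorem aux21 (x0 x1 y0 a0 a1 d0 s κ e : ℝ) (he : e ≤ 1 / 400)
    (xu1 : x1 ≤ 5)
    (yf0 : (s - κ + y0 - 5) / 2 ≤ d0 + e)
    (xs0 : x0 ≤ x1)
    (tot2 : 18 - e ≤ x0 + x1 + y0)
    (hs : s = a0 + a1 + d0)
    (he0 : 0 ≤ e)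
    (kap : κ ≤ s / 2)
    (H : ∀ c0 c1 c2 : ℝ, (c0 = 0 ∨ c0 = 1) → (c1 = 0 ∨ c1 = 1) → (c2 = 0 ∨ c2 = 1) →
      Cn s κ e (c0 * x0 + c1 * x1 + c2 * y0) (c0 * a0 + c1 * a1 + c2 * d0)) : False := by
  have C0 := H 0 0 0 (Or.inl rfl) (Or.inl rfl) (Or.inl rfl)
  have C4 := H 0 0 1 (Or.inl rfl) (Or.inl rfl) (Or.inr rfl)
  rcases le_total (0 * x0 + 0 * x1 + 0 * y0) 5 with u5_0 | l5_0
  · have t1_0 := C0.t1 u5_0
    rcases le_total (0 * x0 + 0 * x1 + 1 * y0) 8 with u8_4 | l8_4
    · have m1_4 := C4.m1 u8_4
      linarith only [he, hs, kap, t1_0, xs0, m1_4, yf0, xu1, tot2]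
    · have m2_4 := C4.m2 l8_4
      linarith only [he, hs, m2_4, kap, t1_0, yf0]
  · have t2_0 := C0.t2 l5_0
    linarith only [he, hs, l5_0]

theorem case21 : Case 2 1 := by
  intro x a y d s κ e he0 he hx hy hxm hym hp htot hs hk hC
  have ht := abs_le.1 htot
  simp only [Fin.sum_univ_two, Fin.sum_univ_one] at ht hs
  refine aux21 (x 0) (x 1) (y 0) (a 0) (a 1) (d 0) s κ e he
    ((hx 1).2.1)
    ((hy 0).2.2)
    (hxm (by decide))
    (by linarith [ht.1])
    (by linarith [hs])
    he0
    hk
    ?_
  intro c0 c1 c2 hc0 hc1 hc2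
  have h1 := coef (![c0, c1] : Fin 2 → ℝ) (by simp [Fin.forall_fin_succ, hc0, hc1])
  have h2 := coef (![c2] : Fin 1 → ℝ) (by simp [Fin.forall_fin_succ, hc2])
  have h3 := hC (Finset.univ.filter fun i => (![c0, c1] : Fin 2 → ℝ) i = 1)
    (Finset.univ.filter fun i => (![c2] : Fin 1 → ℝ) i = 1)
  rw [h1 x, h2 y, h1 a, h2 d] at h3
  convert h3 using 1
  · simp [Fin.sum_univ_two, Fin.sum_univ_one]
    try ring
  · simp [Fin.sum_univ_two, Fin.sum_univ_one]
    try ring

/-- `3` short and `1` long items; certificate found by linear programming -/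
private theorem aux31 (x0 x1 x2 y0 a0 a1 a2 d0 s κ e : ℝ) (he : e ≤ 1 / 400)
    (xu1 : x1 ≤ 5)
    (xu2 : x2 ≤ 5)
    (yl0 : 5 ≤ y0)
    (yf0 : (s - κ + y0 - 5) / 2 ≤ d0 + e)
    (xs0 : x0 ≤ x1)
    (xs1 : x1 ≤ x2)
    (xp : 5 ≤ x0 + x1)
    (tot1 : x0 + x1 + x2 + y0 ≤ 18 + e)
    (tot2 : 18 - e ≤ x0 + x1 + x2 + y0)
    (hs : s = a0 + a1 + a2 + d0)
    (he0 : 0 ≤ e)
    (H : ∀ c0 c1 c2 c3 : ℝ, (c0 = 0 ∨ c0 = 1) → (c1 = 0 ∨ c1 = 1) → (c2 = 0 ∨ c2 = 1) → (c3 = 0 ∨ c3 = 1) →
      Cn s κ e (c0 * x0 + c1 * x1 + c2 * x2 + c3 * y0) (c0 * a0 + c1 * a1 + c2 * a2 + c3 * d0)) : False := by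
  have C1 := H 1 0 0 0 (Or.inr rfl) (Or.inl rfl) (Or.inl rfl) (Or.inl rfl)
  have C3 := H 1 1 0 0 (Or.inr rfl) (Or.inr rfl) (Or.inl rfl) (Or.inl rfl)
  have C4 := H 0 0 1 0 (Or.inl rfl) (Or.inl rfl) (Or.inr rfl) (Or.inl rfl)
  have C9 := H 1 0 0 1 (Or.inr rfl) (Or.inl rfl) (Or.inl rfl) (Or.inr rfl)
  have C10 := H 0 1 0 1 (Or.inl rfl) (Or.inr rfl) (Or.inl rfl) (Or.inr rfl)
  have C12 := H 0 0 1 1 (Or.inl rfl) (Or.inl rfl) (Or.inr rfl) (Or.inr rfl)
  have C13 := H 1 0 1 1 (Or.inr rfl) (Or.inl rfl) (Or.inr rfl) (Or.inr rfl)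
  rcases le_total (1 * a0 + 1 * a1 + 0 * a2 + 0 * d0) (s / 2) with g2_3 | g1_3
  · rcases C3.h with h1_3 | h3_3 | ⟨g1_3, h2_3⟩
    · rcases le_total (0 * x0 + 0 * x1 + 1 * x2 + 1 * y0) 8 with u8_12 | l8_12
      · have m1_12 := C12.m1 u8_12
        linarith only [he, hs, u8_12, xs0, xs1, yl0, tot2]
      · have m2_12 := C12.m2 l8_12
        rcases le_total (0 * x0 + 0 * x1 + 1 * x2 + 0 * y0) 5 with u5_4 | l5_4
        · have t1_4 := C4.t1 u5_4
          linarith only [he, hs, t1_4, yf0, m2_12, h1_3, tot2]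
        · have t2_4 := C4.t2 l5_4
          linarith only [he, hs, xu2, m2_12, tot2, yf0, t2_4, h1_3]
    · rcases le_total (1 * x0 + 0 * x1 + 0 * x2 + 0 * y0) 5 with u5_1 | l5_1
      · have t1_1 := C1.t1 u5_1
        rcases le_total (0 * x0 + 0 * x1 + 1 * x2 + 0 * y0) 5 with u5_4 | l5_4
        · have t1_4 := C4.t1 u5_4
          rcases le_total (1 * x0 + 0 * x1 + 0 * x2 + 1 * y0) 8 with u8_9 | l8_9
          · have m1_9 := C9.m1 u8_9
            linarith only [he, hs, h3_3, yl0, t1_1, m1_9, t1_4, xu1, yf0, tot2]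
          · have m2_9 := C9.m2 l8_9
            linarith only [he, hs, h3_3, m2_9, t1_1, xs0, yf0, xs1, t1_4, yl0, tot2]
        · have t2_4 := C4.t2 l5_4
          rcases le_total (1 * x0 + 0 * x1 + 0 * x2 + 1 * y0) 8 with u8_9 | l8_9
          · have m1_9 := C9.m1 u8_9
            linarith only [he, hs, h3_3, yl0, t1_1, yf0, m1_9, xu1, t2_4, xu2, tot2]
          · have m2_9 := C9.m2 l8_9
            linarith only [he, hs, h3_3, m2_9, t1_1, xu2, yf0, t2_4, yl0, tot2]
      · have t2_1 := C1.t2 l5_1
        linarith only [he, hs, yl0, l5_1, xs0, xs1, tot1]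
    · linarith only [g1_3, g2_3]
  · have g2_12 : 0 * a0 + 0 * a1 + 1 * a2 + 1 * d0 ≤ s / 2 := by linarith only [g1_3, hs]
    rcases C12.h with h1_12 | h3_12 | ⟨g1_12, h2_12⟩
    · rcases le_total (1 * x0 + 0 * x1 + 1 * x2 + 1 * y0) 8 with u8_13 | l8_13
      · have m1_13 := C13.m1 u8_13
        linarith only [he, hs, xs1, xp, yl0, u8_13]
      · have m2_13 := C13.m2 l8_13
        rcases le_total (1 * x0 + 0 * x1 + 0 * x2 + 0 * y0) 5 with u5_1 | l5_1
        · have t1_1 := C1.t1 u5_1
          linarith only [he, hs, h1_12, m2_13, t1_1]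
        · have t2_1 := C1.t2 l5_1
          linarith only [he, hs, xs1, tot1, l5_1, xs0, yl0]
    · rcases le_total (0 * x0 + 1 * x1 + 0 * x2 + 1 * y0) 5 with u5_10 | l5_10
      · have t1_10 := C10.t1 u5_10
        linarith only [he, hs, xs0, xp, yl0, u5_10]
      · have t2_10 := C10.t2 l5_10
        rcases le_total (1 * x0 + 0 * x1 + 0 * x2 + 0 * y0) 5 with u5_1 | l5_1
        · have t1_1 := C1.t1 u5_1
          rcases le_total (1 * x0 + 0 * x1 + 0 * x2 + 1 * y0) 8 with u8_9 | l8_9
          · have m1_9 := C9.m1 u8_9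
            linarith only [he, hs, g2_12, t2_10, xu2, xu1, h3_12, t1_1, yf0, m1_9, tot2]
          · have m2_9 := C9.m2 l8_9
            linarith only [he, hs, t2_10, xs1, g2_12, h3_12, t1_1, yf0, m2_9, tot2]
        · have t2_1 := C1.t2 l5_1
          linarith only [he, hs, xs0, yl0, xs1, l5_1, tot1]
    · linarith only [g1_12, g2_12]

theorem case31 : Case 3 1 := by
  intro x a y d s κ e he0 he hx hy hxm hym hp htot hs hk hC
  have ht := abs_le.1 htot
  simp only [Fin.sum_univ_three, Fin.sum_univ_one] at ht hs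
  refine aux31 (x 0) (x 1) (x 2) (y 0) (a 0) (a 1) (a 2) (d 0) s κ e he
    ((hx 1).2.1)
    ((hx 2).2.1)
    ((hy 0).1.le)
    ((hy 0).2.2)
    (hxm (by decide))
    (hxm (by decide))
    ((hp 0 1 (by decide)).le)
    (by linarith [ht.2])
    (by linarith [ht.1])
    (by linarith [hs])
    he0
    ?_
  intro c0 c1 c2 c3 hc0 hc1 hc2 hc3
  have h1 := coef (![c0, c1, c2] : Fin 3 → ℝ) (by simp [Fin.forall_fin_succ, hc0, hc1, hc2])
  have h2 := coef (![c3] : Fin 1 → ℝ) (by simp [Fin.forall_fin_succ, hc3])
  have h3 := hC (Finset.univ.filter fun i => (![c0, c1, c2] : Fin 3 → ℝ) i = 1)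
    (Finset.univ.filter fun i => (![c3] : Fin 1 → ℝ) i = 1)
  rw [h1 x, h2 y, h1 a, h2 d] at h3
  convert h3 using 1
  · simp [Fin.sum_univ_three, Fin.sum_univ_one]
    try ring
  · simp [Fin.sum_univ_three, Fin.sum_univ_one]
    try ring

/-- `4` short and `1` long items; certificate found by linear programming -/
private theorem aux41 (x0 x1 x2 x3 y0 a0 a1 a2 a3 d0 s κ e : ℝ) (he : e ≤ 1 / 400)
    (an0 : 0 ≤ a0)
    (xn2 : 0 ≤ x2)
    (an2 : 0 ≤ a2)
    (xu3 : x3 ≤ 5)
    (an3 : 0 ≤ a3)
    (yl0 : 5 ≤ y0)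
    (yf0 : (s - κ + y0 - 5) / 2 ≤ d0 + e)
    (xs0 : x0 ≤ x1)
    (xs1 : x1 ≤ x2)
    (xs2 : x2 ≤ x3)
    (xp : 5 ≤ x0 + x1)
    (tot1 : x0 + x1 + x2 + x3 + y0 ≤ 18 + e)
    (tot2 : 18 - e ≤ x0 + x1 + x2 + x3 + y0)
    (hs : s = a0 + a1 + a2 + a3 + d0)
    (he0 : 0 ≤ e)
    (kap : κ ≤ s / 2)
    (H : ∀ c0 c1 c2 c3 c4 : ℝ, (c0 = 0 ∨ c0 = 1) → (c1 = 0 ∨ c1 = 1) → (c2 = 0 ∨ c2 = 1) → (c3 = 0 ∨ c3 = 1) → (c4 = 0 ∨ c4 = 1) →
      Cn s κ e (c0 * x0 + c1 * x1 + c2 * x2 + c3 * x3 + c4 * y0) (c0 * a0 + c1 * a1 + c2 * a2 + c3 * a3 + c4 * d0)) : False := by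
  have C1 := H 1 0 0 0 0 (Or.inr rfl) (Or.inl rfl) (Or.inl rfl) (Or.inl rfl) (Or.inl rfl)
  have C2 := H 0 1 0 0 0 (Or.inl rfl) (Or.inr rfl) (Or.inl rfl) (Or.inl rfl) (Or.inl rfl)
  have C3 := H 1 1 0 0 0 (Or.inr rfl) (Or.inr rfl) (Or.inl rfl) (Or.inl rfl) (Or.inl rfl)
  have C4 := H 0 0 1 0 0 (Or.inl rfl) (Or.inl rfl) (Or.inr rfl) (Or.inl rfl) (Or.inl rfl)
  have C5 := H 1 0 1 0 0 (Or.inr rfl) (Or.inl rfl) (Or.inr rfl) (Or.inl rfl) (Or.inl rfl)
  have C6 := H 0 1 1 0 0 (Or.inl rfl) (Or.inr rfl) (Or.inr rfl) (Or.inl rfl) (Or.inl rfl)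
  have C8 := H 0 0 0 1 0 (Or.inl rfl) (Or.inl rfl) (Or.inl rfl) (Or.inr rfl) (Or.inl rfl)
  have C9 := H 1 0 0 1 0 (Or.inr rfl) (Or.inl rfl) (Or.inl rfl) (Or.inr rfl) (Or.inl rfl)
  have C10 := H 0 1 0 1 0 (Or.inl rfl) (Or.inr rfl) (Or.inl rfl) (Or.inr rfl) (Or.inl rfl)
  have C12 := H 0 0 1 1 0 (Or.inl rfl) (Or.inl rfl) (Or.inr rfl) (Or.inr rfl) (Or.inl rfl)
  have C13 := H 1 0 1 1 0 (Or.inr rfl) (Or.inl rfl) (Or.inr rfl) (Or.inr rfl) (Or.inl rfl)
  have C14 := H 0 1 1 1 0 (Or.inl rfl) (Or.inr rfl) (Or.inr rfl) (Or.inr rfl) (Or.inl rfl)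
  have C16 := H 0 0 0 0 1 (Or.inl rfl) (Or.inl rfl) (Or.inl rfl) (Or.inl rfl) (Or.inr rfl)
  have C17 := H 1 0 0 0 1 (Or.inr rfl) (Or.inl rfl) (Or.inl rfl) (Or.inl rfl) (Or.inr rfl)
  have C18 := H 0 1 0 0 1 (Or.inl rfl) (Or.inr rfl) (Or.inl rfl) (Or.inl rfl) (Or.inr rfl)
  have C19 := H 1 1 0 0 1 (Or.inr rfl) (Or.inr rfl) (Or.inl rfl) (Or.inl rfl) (Or.inr rfl)
  have C20 := H 0 0 1 0 1 (Or.inl rfl) (Or.inl rfl) (Or.inr rfl) (Or.inl rfl) (Or.inr rfl)
  have C21 := H 1 0 1 0 1 (Or.inr rfl) (Or.inl rfl) (Or.inr rfl) (Or.inl rfl) (Or.inr rfl)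
  have C22 := H 0 1 1 0 1 (Or.inl rfl) (Or.inr rfl) (Or.inr rfl) (Or.inl rfl) (Or.inr rfl)
  have C23 := H 1 1 1 0 1 (Or.inr rfl) (Or.inr rfl) (Or.inr rfl) (Or.inl rfl) (Or.inr rfl)
  have C24 := H 0 0 0 1 1 (Or.inl rfl) (Or.inl rfl) (Or.inl rfl) (Or.inr rfl) (Or.inr rfl)
  have C25 := H 1 0 0 1 1 (Or.inr rfl) (Or.inl rfl) (Or.inl rfl) (Or.inr rfl) (Or.inr rfl)
  have C26 := H 0 1 0 1 1 (Or.inl rfl) (Or.inr rfl) (Or.inl rfl) (Or.inr rfl) (Or.inr rfl)
  have C28 := H 0 0 1 1 1 (Or.inl rfl) (Or.inl rfl) (Or.inr rfl) (Or.inr rfl) (Or.inr rfl)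
  have C29 := H 1 0 1 1 1 (Or.inr rfl) (Or.inl rfl) (Or.inr rfl) (Or.inr rfl) (Or.inr rfl)
  have C30 := H 0 1 1 1 1 (Or.inl rfl) (Or.inr rfl) (Or.inr rfl) (Or.inr rfl) (Or.inr rfl)
  rcases le_total (0 * a0 + 1 * a1 + 1 * a2 + 0 * a3 + 0 * d0) (s / 2) with g2_6 | g1_6
  · rcases C6.h with h1_6 | h3_6 | ⟨g1_6, h2_6⟩
    · rcases le_total (1 * x0 + 1 * x1 + 0 * x2 + 0 * x3 + 1 * y0) 8 with u8_19 | l8_19
      · have m1_19 := C19.m1 u8_19
        linarith only [he, hs, xp, yl0, u8_19]
      · have m2_19 := C19.m2 l8_19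
        rcases le_total (0 * a0 + 1 * a1 + 0 * a2 + 0 * a3 + 0 * d0) (s / 2) with g2_2 | g1_2
        · rcases C2.h with h1_2 | h3_2 | ⟨g1_2, h2_2⟩
          · rcases le_total (1 * a0 + 0 * a1 + 0 * a2 + 0 * a3 + 0 * d0) (s / 2) with g2_1 | g1_1
            · rcases C1.h with h1_1 | h3_1 | ⟨g1_1, h2_1⟩
              · rcases le_total (0 * x0 + 0 * x1 + 0 * x2 + 1 * x3 + 1 * y0) 8 with u8_24 | l8_24
                · have m1_24 := C24.m1 u8_24
                  linarith only [he, hs, tot2, xs0, xs1, xs2, yl0, u8_24]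
                · have m2_24 := C24.m2 l8_24
                  rcases le_total (0 * x0 + 0 * x1 + 0 * x2 + 1 * x3 + 0 * y0) 5 with u5_8 | l5_8
                  · have t1_8 := C8.t1 u5_8
                    linarith only [he, hs, h1_1, m2_24, yf0, h1_6, tot2, t1_8]
                  · have t2_8 := C8.t2 l5_8
                    linarith only [he, hs, h1_1, tot2, h1_6, m2_24, yf0, t2_8, xu3]
              · rcases le_total (0 * x0 + 0 * x1 + 0 * x2 + 1 * x3 + 1 * y0) 8 with u8_24 | l8_24
                · have m1_24 := C24.m1 u8_24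
                  linarith only [he, hs, tot2, yl0, xs1, xs0, xs2, u8_24]
                · have m2_24 := C24.m2 l8_24
                  rcases le_total (0 * x0 + 0 * x1 + 0 * x2 + 1 * x3 + 0 * y0) 5 with u5_8 | l5_8
                  · have t1_8 := C8.t1 u5_8
                    linarith only [he, hs, h1_6, t1_8, xs2, m2_24, xs0, h3_1, yl0, yf0, xs1, tot2]
                  · have t2_8 := C8.t2 l5_8
                    linarith only [he, hs, h1_6, m2_24, t2_8, xu3, h3_1, yf0, xs0, yl0, tot2, xs1]
              · linarith only [g1_1, g2_1]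
            · have g2_30 : 0 * a0 + 1 * a1 + 1 * a2 + 1 * a3 + 1 * d0 ≤ s / 2 := by linarith only [g1_1, hs]
              rcases C30.h with h1_30 | h3_30 | ⟨g1_30, h2_30⟩
              · linarith only [he, hs, xs0, h1_2, kap, g2_30, tot2, m2_19, xs2, yf0, xs1, yl0, h1_30]
              · linarith only [he, hs, m2_19, h1_2, kap, g2_30, xs1, h3_30, xs2, xs0, yf0, yl0, tot2]
              · linarith only [g1_30, g2_30]
          · rcases le_total (1 * x0 + 0 * x1 + 1 * x2 + 0 * x3 + 1 * y0) 8 with u8_21 | l8_21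
            · have m1_21 := C21.m1 u8_21
              linarith only [he, hs, xs1, xp, yl0, u8_21]
            · have m2_21 := C21.m2 l8_21
              rcases le_total (0 * x0 + 1 * x1 + 0 * x2 + 0 * x3 + 1 * y0) 5 with u5_18 | l5_18
              · have t1_18 := C18.t1 u5_18
                linarith only [he, hs, xs0, yl0, l8_19, u5_18]
              · have t2_18 := C18.t2 l5_18
                rcases le_total (1 * x0 + 0 * x1 + 0 * x2 + 0 * x3 + 1 * y0) 5 with u5_17 | l5_17
                · have t1_17 := C17.t1 u5_17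
                  linarith only [he, hs, yl0, xs2, xs1, u5_17, xp, tot1]
                · have t2_17 := C17.t2 l5_17
                  rcases le_total (0 * x0 + 1 * x1 + 1 * x2 + 0 * x3 + 0 * y0) 8 with u8_6 | l8_6
                  · have m1_6 := C6.m1 u8_6
                    rcases le_total (0 * x0 + 0 * x1 + 0 * x2 + 1 * x3 + 1 * y0) 5 with u5_24 | l5_24
                    · have t1_24 := C24.t1 u5_24
                      linarith only [he, hs, xs0, xs1, xs2, h1_6, m2_19, m2_21, t2_17, u5_24]
                    · have t2_24 := C24.t2 l5_24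
                      rcases le_total (1 * a0 + 0 * a1 + 1 * a2 + 0 * a3 + 0 * d0) (s / 2) with g2_5 | g1_5
                      · rcases C5.h with h1_5 | h3_5 | ⟨g1_5, h2_5⟩
                        · rcases le_total (0 * x0 + 0 * x1 + 0 * x2 + 0 * x3 + 1 * y0) 5 with u5_16 | l5_16
                          · have t1_16 := C16.t1 u5_16
                            linarith only [he, hs, h1_5, t1_16, m2_21]
                          · have t2_16 := C16.t2 l5_16
                            rcases le_total (1 * a0 + 0 * a1 + 0 * a2 + 1 * a3 + 0 * d0) (s / 2) with g2_9 | g1_9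
                            · rcases C9.h with h1_9 | h3_9 | ⟨g1_9, h2_9⟩
                              · rcases le_total (1 * x0 + 1 * x1 + 0 * x2 + 0 * x3 + 0 * y0) 5 with u5_3 | l5_3
                                · have t1_3 := C3.t1 u5_3
                                  linarith only [he, hs, tot2, h1_9, t1_3, h1_6, kap, m2_19, yf0]
                                · have t2_3 := C3.t2 l5_3
                                  linarith only [he, hs, xs0, yf0, h1_9, h1_6, xs1, t2_3, t2_16, m2_19, xs2]
                              · rcases le_total (1 * x0 + 1 * x1 + 0 * x2 + 0 * x3 + 0 * y0) 5 with u5_3 | l5_3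
                                · have t1_3 := C3.t1 u5_3
                                  linarith only [he, hs, h1_5, xp, xs1, t1_3, yf0, h1_6, m2_19, xs0, tot2, an3, h3_9, t2_16]
                                · have t2_3 := C3.t2 l5_3
                                  linarith only [he, hs, h1_5, t2_16, xs2, t2_3, yf0, h1_6, m2_19, xs0, tot2, an3, xs1, h3_9]
                              · linarith only [g1_9, g2_9]
                            · have g2_22 : 0 * a0 + 1 * a1 + 1 * a2 + 0 * a3 + 1 * d0 ≤ s / 2 := by linarith only [g1_9, hs]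
                              rcases C22.h with h1_22 | h3_22 | ⟨g1_22, h2_22⟩
                              · linarith only [he, hs, h1_5, t2_16, xs1, xs0, yf0, h3_2, m2_19, g2_22, h1_6, xp, h1_22]
                              · linarith only [he, hs, h1_5, xs0, h3_2, tot2, xs1, h1_6, t2_16, yf0, xu3, m2_19, xp, g2_22]
                              · linarith only [g1_22, g2_22]
                        · rcases le_total (1 * a0 + 1 * a1 + 0 * a2 + 0 * a3 + 0 * d0) (s / 2) with g2_3 | g1_3
                          · rcases C3.h with h1_3 | h3_3 | ⟨g1_3, h2_3⟩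
                            · rcases le_total (1 * x0 + 0 * x1 + 0 * x2 + 0 * x3 + 0 * y0) 5 with u5_1 | l5_1
                              · have t1_1 := C1.t1 u5_1
                                rcases le_total (0 * x0 + 0 * x1 + 0 * x2 + 1 * x3 + 0 * y0) 5 with u5_8 | l5_8
                                · have t1_8 := C8.t1 u5_8
                                  linarith only [he, hs, h1_3, yf0, t1_1, h1_6, t1_8, tot2, m2_19]
                                · have t2_8 := C8.t2 l5_8
                                  linarith only [he, hs, h1_3, tot2, h1_6, t1_1, m2_19, xu3, yf0, t2_8]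
                              · have t2_1 := C1.t2 l5_1
                                linarith only [he, hs, xs0, yf0, h3_2, m2_21, g2_5, h3_5, g2_3, h1_3, l5_1, t2_1]
                            · rcases le_total (1 * x0 + 0 * x1 + 0 * x2 + 0 * x3 + 0 * y0) 5 with u5_1 | l5_1
                              · have t1_1 := C1.t1 u5_1
                                rcases le_total (0 * x0 + 0 * x1 + 0 * x2 + 1 * x3 + 0 * y0) 5 with u5_8 | l5_8
                                · have t1_8 := C8.t1 u5_8
                                  linarith only [he, hs, h1_6, m2_21, yf0, m1_6, xs0, h3_5, h3_3, t1_1, xs1, t1_8, tot2]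
                                · have t2_8 := C8.t2 l5_8
                                  linarith only [he, hs, h1_6, t2_8, yf0, xu3, t1_1, xs0, h3_5, h3_3, yl0, m2_21, tot2]
                              · have t2_1 := C1.t2 l5_1
                                linarith only [he, hs, xs0, yf0, h3_2, m2_21, g2_5, h3_5, g2_3, h3_3, l5_1, t2_1]
                            · linarith only [g1_3, g2_3]
                          · have g2_28 : 0 * a0 + 0 * a1 + 1 * a2 + 1 * a3 + 1 * d0 ≤ s / 2 := by linarith only [g1_3, hs]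
                            rcases C28.h with h1_28 | h3_28 | ⟨g1_28, h2_28⟩
                            · linarith only [he, hs, xs0, tot1, kap, xs1, yf0, t2_17, g2_28, xs2, m2_19, t2_18, h1_28]
                            · linarith only [he, hs, h1_6, xs0, t2_24, g2_28, xs1, h3_28, m2_19, kap, h3_5, yf0, tot2]
                            · linarith only [g1_28, g2_28]
                        · linarith only [g1_5, g2_5]
                      · have g2_26 : 0 * a0 + 1 * a1 + 0 * a2 + 1 * a3 + 1 * d0 ≤ s / 2 := by linarith only [g1_5, hs]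
                        rcases C26.h with h1_26 | h3_26 | ⟨g1_26, h2_26⟩
                        · linarith only [he, hs, m2_21, yl0, t2_24, tot1, xs2, g2_26, yf0, xs0, t2_18, h1_26]
                        · linarith only [he, hs, xs2, yl0, t2_24, m2_21, h3_26, yf0, t2_18, xs0, g2_26, tot1]
                        · linarith only [g1_26, g2_26]
                  · have m2_6 := C6.m2 l8_6
                    linarith only [he, hs, xs2, t2_17, m2_21, l8_6, m2_19, tot1, h1_6, xs1]
          · linarith only [g1_2, g2_2]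
        · have g2_29 : 1 * a0 + 0 * a1 + 1 * a2 + 1 * a3 + 1 * d0 ≤ s / 2 := by linarith only [g1_2, hs]
          rcases C29.h with h1_29 | h3_29 | ⟨g1_29, h2_29⟩
          · linarith only [he, hs, kap, m2_19, xs0, g2_29, an0, xs1, tot1, yf0, yl0, xs2, h1_29]
          · linarith only [he, hs, h3_29, kap, xs0, yl0, yf0, an0, m2_19, g2_29, tot1, xs1, xs2]
          · linarith only [g1_29, g2_29]
    · rcases le_total (1 * x0 + 1 * x1 + 1 * x2 + 0 * x3 + 1 * y0) 8 with u8_23 | l8_23
      · have m1_23 := C23.m1 u8_23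
        linarith only [he, hs, xp, yl0, xn2, u8_23]
      · have m2_23 := C23.m2 l8_23
        rcases le_total (1 * x0 + 1 * x1 + 0 * x2 + 0 * x3 + 1 * y0) 8 with u8_19 | l8_19
        · have m1_19 := C19.m1 u8_19
          linarith only [he, hs, xp, yl0, u8_19]
        · have m2_19 := C19.m2 l8_19
          rcases le_total (1 * x0 + 1 * x1 + 0 * x2 + 0 * x3 + 0 * y0) 8 with u8_3 | l8_3
          · have m1_3 := C3.m1 u8_3
            rcases le_total (0 * x0 + 0 * x1 + 0 * x2 + 1 * x3 + 1 * y0) 5 with u5_24 | l5_24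
            · have t1_24 := C24.t1 u5_24
              linarith only [he, hs, xs0, xs1, xs2, yl0, l8_19, u5_24]
            · have t2_24 := C24.t2 l5_24
              rcases le_total (1 * x0 + 0 * x1 + 1 * x2 + 1 * x3 + 0 * y0) 5 with u5_13 | l5_13
              · have t1_13 := C13.t1 u5_13
                linarith only [he, hs, xs0, xs1, xs2, xp, u5_13]
              · have t2_13 := C13.t2 l5_13
                rcases le_total (1 * x0 + 0 * x1 + 0 * x2 + 0 * x3 + 1 * y0) 5 with u5_17 | l5_17
                · have t1_17 := C17.t1 u5_17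
                  linarith only [he, hs, xs1, u5_17, xp, xs2, yl0, tot1]
                · have t2_17 := C17.t2 l5_17
                  rcases le_total (1 * a0 + 1 * a1 + 0 * a2 + 0 * a3 + 0 * d0) (s / 2) with g2_3 | g1_3
                  · rcases C3.h with h1_3 | h3_3 | ⟨g1_3, h2_3⟩
                    · rcases le_total (0 * a0 + 0 * a1 + 0 * a2 + 1 * a3 + 0 * d0) (s / 2) with g2_8 | g1_8
                      · rcases C8.h with h1_8 | h3_8 | ⟨g1_8, h2_8⟩
                        · rcases le_total (0 * x0 + 0 * x1 + 0 * x2 + 0 * x3 + 1 * y0) 5 with u5_16 | l5_16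
                          · have t1_16 := C16.t1 u5_16
                            linarith only [he, hs, m2_19, t1_16, h1_3]
                          · have t2_16 := C16.t2 l5_16
                            rcases le_total (0 * x0 + 0 * x1 + 0 * x2 + 1 * x3 + 1 * y0) 8 with u8_24 | l8_24
                            · have m1_24 := C24.m1 u8_24
                              linarith only [he, hs, yl0, xs1, xs0, tot2, u8_24, xs2]
                            · have m2_24 := C24.m2 l8_24
                              rcases le_total (0 * x0 + 0 * x1 + 0 * x2 + 1 * x3 + 0 * y0) 5 with u5_8 | l5_8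
                              · have t1_8 := C8.t1 u5_8
                                linarith only [he, hs, h1_3, h3_6, h1_8, xs2, xs0, m2_24, xp, t2_16, yf0, tot2, t1_8, t2_13]
                              · have t2_8 := C8.t2 l5_8
                                linarith only [he, hs, h1_3, xp, xu3, t2_8, t2_16, an2, yf0, m2_24, h1_8]
                        · rcases le_total (0 * x0 + 0 * x1 + 0 * x2 + 0 * x3 + 1 * y0) 5 with u5_16 | l5_16
                          · have t1_16 := C16.t1 u5_16
                            linarith only [he, hs, h1_3, m2_19, t1_16]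
                          · have t2_16 := C16.t2 l5_16
                            rcases le_total (1 * a0 + 0 * a1 + 0 * a2 + 1 * a3 + 0 * d0) (s / 2) with g2_9 | g1_9
                            · rcases C9.h with h1_9 | h3_9 | ⟨g1_9, h2_9⟩
                              · rcases le_total (1 * x0 + 1 * x1 + 0 * x2 + 0 * x3 + 0 * y0) 5 with u5_3 | l5_3
                                · have t1_3 := C3.t1 u5_3
                                  linarith only [he, hs, t2_16, h3_6, t2_13, t1_3, xs0, h1_9, m2_19, xs2, xp, tot2, yf0, h3_8]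
                                · have t2_3 := C3.t2 l5_3
                                  linarith only [he, hs, h3_8, h3_6, t2_3, t2_13, yf0, xs0, h1_9, t2_16, xs1, m2_19, tot2, xs2]
                              · rcases le_total (0 * x0 + 1 * x1 + 1 * x2 + 0 * x3 + 0 * y0) 5 with u5_6 | l5_6
                                · have t1_6 := C6.t1 u5_6
                                  linarith only [he, hs, xu3, m2_23, tot2, yf0, xs0, xs1, an0, t1_6, u5_6, h3_9]
                                · have t2_6 := C6.t2 l5_6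
                                  rcases le_total (1 * x0 + 0 * x1 + 0 * x2 + 1 * x3 + 0 * y0) 5 with u5_9 | l5_9
                                  · have t1_9 := C9.t1 u5_9
                                    linarith only [he, hs, xs1, xs2, t2_16, m2_19, yf0, t1_9, t2_6, h1_3, xp]
                                  · have t2_9 := C9.t2 l5_9
                                    linarith only [he, hs, yf0, t2_9, t2_16, t2_6, h1_3, m2_19]
                              · linarith only [g1_9, g2_9]
                            · have g2_22 : 0 * a0 + 1 * a1 + 1 * a2 + 0 * a3 + 1 * d0 ≤ s / 2 := by linarith only [g1_9, hs]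
                              rcases C22.h with h1_22 | h3_22 | ⟨g1_22, h2_22⟩
                              · linarith only [he, hs, h3_6, xs1, yf0, xs0, tot2, xu3, yl0, t2_16, g2_22, h1_22]
                              · linarith only [he, hs, xs1, yf0, h3_22, xs0, t2_16, tot2, g2_22, xu3, h3_6]
                              · linarith only [g1_22, g2_22]
                        · linarith only [g1_8, g2_8]
                      · have g2_23 : 1 * a0 + 1 * a1 + 1 * a2 + 0 * a3 + 1 * d0 ≤ s / 2 := by linarith only [g1_8, hs]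
                        rcases C23.h with h1_23 | h3_23 | ⟨g1_23, h2_23⟩
                        · linarith only [he, hs, h3_6, yf0, xu3, g2_23, xs0, an0, tot2, t2_17, xs1, h1_23]
                        · linarith only [he, hs, yf0, xp, g2_23, an0, h3_23, t2_17, xs0, xu3, tot2, h3_6, xs1]
                        · linarith only [g1_23, g2_23]
                    · rcases le_total (0 * a0 + 1 * a1 + 1 * a2 + 1 * a3 + 0 * d0) (s / 2) with g2_14 | g1_14
                      · rcases C14.h with h1_14 | h3_14 | ⟨g1_14, h2_14⟩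
                        · rcases le_total (1 * x0 + 0 * x1 + 0 * x2 + 0 * x3 + 0 * y0) 5 with u5_1 | l5_1
                          · have t1_1 := C1.t1 u5_1
                            linarith only [he, hs, xp, h3_6, xs2, m2_23, tot2, yl0, yf0, t1_1, xs1, h1_14]
                          · have t2_1 := C1.t2 l5_1
                            linarith only [he, hs, xs0, u8_3, l5_1]
                        · rcases le_total (1 * x0 + 1 * x1 + 0 * x2 + 0 * x3 + 0 * y0) 5 with u5_3 | l5_3
                          · have t1_3 := C3.t1 u5_3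
                            linarith only [he, hs, t2_13, t1_3, g2_14, h3_14, xs0, kap, m2_19, yf0, tot2]
                          · have t2_3 := C3.t2 l5_3
                            rcases le_total (0 * x0 + 0 * x1 + 1 * x2 + 1 * x3 + 0 * y0) 5 with u5_12 | l5_12
                            · have t1_12 := C12.t1 u5_12
                              linarith only [he, hs, h3_3, m2_19, xs1, xs2, xs0, u5_12, t2_3, t1_12, yf0, tot2]
                            · have t2_12 := C12.t2 l5_12
                              linarith only [he, hs, yf0, g2_14, t2_12, m2_19, xs2, h3_14, xs0, t2_3, xs1, yl0, tot2]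
                        · linarith only [g1_14, g2_14]
                      · have g2_17 : 1 * a0 + 0 * a1 + 0 * a2 + 0 * a3 + 1 * d0 ≤ s / 2 := by linarith only [g1_14, hs]
                        rcases C17.h with h1_17 | h3_17 | ⟨g1_17, h2_17⟩
                        · rcases le_total (0 * x0 + 1 * x1 + 0 * x2 + 0 * x3 + 0 * y0) 5 with u5_2 | l5_2
                          · have t1_2 := C2.t1 u5_2
                            linarith only [he, hs, h1_17, m2_19, t1_2]
                          · have t2_2 := C2.t2 l5_2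
                            linarith only [he, hs, xs1, l5_17, tot1, l5_2, xs2]
                        · rcases le_total (0 * x0 + 0 * x1 + 1 * x2 + 0 * x3 + 0 * y0) 5 with u5_4 | l5_4
                          · have t1_4 := C4.t1 u5_4
                            rcases le_total (0 * a0 + 1 * a1 + 0 * a2 + 1 * a3 + 0 * d0) (s / 2) with g2_10 | g1_10
                            · rcases C10.h with h1_10 | h3_10 | ⟨g1_10, h2_10⟩
                              · rcases le_total (0 * x0 + 0 * x1 + 1 * x2 + 0 * x3 + 1 * y0) 8 with u8_20 | l8_20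
                                · have m1_20 := C20.m1 u8_20
                                  linarith only [he, hs, yl0, xu3, xs1, m1_20, h3_17, tot2, t1_4, yf0, h1_10, xs0]
                                · have m2_20 := C20.m2 l8_20
                                  linarith only [he, hs, h1_10, xs2, h3_3, t1_4, m2_20, h3_17, xs1, t2_13, yf0, xs0, tot2]
                              · rcases le_total (1 * x0 + 0 * x1 + 1 * x2 + 0 * x3 + 0 * y0) 5 with u5_5 | l5_5
                                · have t1_5 := C5.t1 u5_5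
                                  linarith only [he, hs, h3_3, m2_23, h3_10, yf0, t1_5, yl0, xp, t1_4, xs1, tot2]
                                · have t2_5 := C5.t2 l5_5
                                  rcases le_total (0 * x0 + 0 * x1 + 1 * x2 + 0 * x3 + 1 * y0) 8 with u8_20 | l8_20
                                  · have m1_20 := C20.m1 u8_20
                                    linarith only [he, hs, yl0, h3_10, yf0, m1_20, t1_4, u8_20, xs0, xs1, t2_5, tot2]
                                  · have m2_20 := C20.m2 l8_20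
                                    linarith only [he, hs, yf0, m2_20, xs0, t1_4, yl0, xs2, t2_5, h3_10, tot2]
                              · linarith only [g1_10, g2_10]
                            · have g2_21 : 1 * a0 + 0 * a1 + 1 * a2 + 0 * a3 + 1 * d0 ≤ s / 2 := by linarith only [g1_10, hs]
                              rcases C21.h with h1_21 | h3_21 | ⟨g1_21, h2_21⟩
                              · linarith only [he, hs, m2_23, h3_3, t1_4, xs1, xu3, tot2, t2_17, m2_19, yf0, g2_21, yl0, h1_21]
                              · linarith only [he, hs, h3_21, h3_17, xs1, m2_19, xu3, t2_17, yf0, h3_3, g2_21, t1_4, yl0, tot2]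
                              · linarith only [g1_21, g2_21]
                          · have t2_4 := C4.t2 l5_4
                            linarith only [he, hs, xp, l5_4, xs2, yl0, tot1]
                        · linarith only [g1_17, g2_17]
                    · linarith only [g1_3, g2_3]
                  · have g2_28 : 0 * a0 + 0 * a1 + 1 * a2 + 1 * a3 + 1 * d0 ≤ s / 2 := by linarith only [g1_3, hs]
                    rcases C28.h with h1_28 | h3_28 | ⟨g1_28, h2_28⟩
                    · linarith only [he, hs, xs0, xs1, kap, xs2, m2_19, tot1, yf0, g2_28, yl0, h1_28]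
                    · rcases le_total (0 * x0 + 0 * x1 + 1 * x2 + 0 * x3 + 0 * y0) 5 with u5_4 | l5_4
                      · have t1_4 := C4.t1 u5_4
                        linarith only [he, hs, xs0, g2_28, t2_24, m1_3, h3_28, yl0, t1_4, xs2, xs1, tot2]
                      · have t2_4 := C4.t2 l5_4
                        linarith only [he, hs, xp, tot1, yl0, xs2, l5_4]
                    · linarith only [g1_28, g2_28]
          · have m2_3 := C3.m2 l8_3
            linarith only [he, hs, xs0, xs2, xs1, l8_3, yl0, tot1]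
    · linarith only [g1_6, g2_6]
  · have g2_25 : 1 * a0 + 0 * a1 + 0 * a2 + 1 * a3 + 1 * d0 ≤ s / 2 := by linarith only [g1_6, hs]
    rcases C25.h with h1_25 | h3_25 | ⟨g1_25, h2_25⟩
    · rcases le_total (0 * a0 + 0 * a1 + 0 * a2 + 1 * a3 + 0 * d0) (s / 2) with g2_8 | g1_8
      · rcases C8.h with h1_8 | h3_8 | ⟨g1_8, h2_8⟩
        · rcases le_total (1 * x0 + 0 * x1 + 0 * x2 + 1 * x3 + 0 * y0) 5 with u5_9 | l5_9
          · have t1_9 := C9.t1 u5_9
            linarith only [he, hs, h1_8, xs2, yl0, tot2, xs1, t1_9, xp, yf0, g2_25, an0]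
          · have t2_9 := C9.t2 l5_9
            linarith only [he, hs, xs0, h1_8, xs2, yl0, tot2, t2_9, xs1, yf0, g2_25, an0]
        · rcases le_total (1 * x0 + 0 * x1 + 0 * x2 + 0 * x3 + 0 * y0) 5 with u5_1 | l5_1
          · have t1_1 := C1.t1 u5_1
            linarith only [he, hs, xp, t1_1, h3_8, yl0, tot1, xs1, xs2, yf0, g2_25, an0, h1_25]
          · have t2_1 := C1.t2 l5_1
            linarith only [he, hs, xs0, yl0, l5_1, tot1, xs1, xs2]
        · linarith only [g1_8, g2_8]
      · have g2_23 : 1 * a0 + 1 * a1 + 1 * a2 + 0 * a3 + 1 * d0 ≤ s / 2 := by linarith only [g1_8, hs]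
        rcases C23.h with h1_23 | h3_23 | ⟨g1_23, h2_23⟩
        · linarith only [he, hs, xs0, g2_23, yl0, xs1, yf0, an0, g2_25, kap, xp, h1_23]
        · linarith only [he, hs, xp, kap, yf0, yl0, g2_25, xs2, an0, g2_23, xs1, h1_25]
        · linarith only [g1_23, g2_23]
    · rcases le_total (0 * a0 + 0 * a1 + 0 * a2 + 1 * a3 + 0 * d0) (s / 2) with g2_8 | g1_8
      · rcases C8.h with h1_8 | h3_8 | ⟨g1_8, h2_8⟩
        · rcases le_total (1 * x0 + 0 * x1 + 0 * x2 + 1 * x3 + 0 * y0) 5 with u5_9 | l5_9
          · have t1_9 := C9.t1 u5_9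
            linarith only [he, hs, h1_8, xs2, yl0, yf0, xs1, tot2, g2_25, an0, t1_9, xp]
          · have t2_9 := C9.t2 l5_9
            linarith only [he, hs, h1_8, xs2, yl0, yf0, xs0, g2_25, an0, xs1, t2_9, tot2]
        · rcases le_total (1 * x0 + 0 * x1 + 0 * x2 + 1 * x3 + 0 * y0) 5 with u5_9 | l5_9
          · have t1_9 := C9.t1 u5_9
            linarith only [he, hs, h3_25, t1_9, xs2, h3_8, xp, g2_25, yl0, yf0, xs1, an0, tot2]
          · have t2_9 := C9.t2 l5_9
            linarith only [he, hs, h3_25, t2_9, xs2, h3_8, xp, g2_25, yl0, yf0, xs1, an0, tot2]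
        · linarith only [g1_8, g2_8]
      · have g2_23 : 1 * a0 + 1 * a1 + 1 * a2 + 0 * a3 + 1 * d0 ≤ s / 2 := by linarith only [g1_8, hs]
        rcases C23.h with h1_23 | h3_23 | ⟨g1_23, h2_23⟩
        · linarith only [he, hs, xs0, kap, g2_25, yl0, an0, yf0, xp, g2_23, xs1, h1_23]
        · linarith only [he, hs, h3_23, xp, yl0, xs0, yf0, g2_23, g2_25, an0, kap, xs1]
        · linarith only [g1_23, g2_23]
    · linarith only [g1_25, g2_25]

theorem case41 : Case 4 1 := by
  intro x a y d s κ e he0 he hx hy hxm hym hp htot hs hk hC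
  have ht := abs_le.1 htot
  simp only [Fin.sum_univ_four, Fin.sum_univ_one] at ht hs
  refine aux41 (x 0) (x 1) (x 2) (x 3) (y 0) (a 0) (a 1) (a 2) (a 3) (d 0) s κ e he
    ((hx 0).2.2)
    ((hx 2).1)
    ((hx 2).2.2)
    ((hx 3).2.1)
    ((hx 3).2.2)
    ((hy 0).1.le)
    ((hy 0).2.2)
    (hxm (by decide))
    (hxm (by decide))
    (hxm (by decide))
    ((hp 0 1 (by decide)).le)
    (by linarith [ht.2])
    (by linarith [ht.1])
    (by linarith [hs])
    he0
    hk
    ?_
  intro c0 c1 c2 c3 c4 hc0 hc1 hc2 hc3 hc4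
  have h1 := coef (![c0, c1, c2, c3] : Fin 4 → ℝ) (by simp [Fin.forall_fin_succ, hc0, hc1, hc2, hc3])
  have h2 := coef (![c4] : Fin 1 → ℝ) (by simp [Fin.forall_fin_succ, hc4])
  have h3 := hC (Finset.univ.filter fun i => (![c0, c1, c2, c3] : Fin 4 → ℝ) i = 1)
    (Finset.univ.filter fun i => (![c4] : Fin 1 → ℝ) i = 1)
  rw [h1 x, h2 y, h1 a, h2 d] at h3
  convert h3 using 1
  · simp [Fin.sum_univ_four, Fin.sum_univ_one]
    try ring
  · simp [Fin.sum_univ_four, Fin.sum_univ_one]
    try ring

end Pool.Agent.HPZ
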