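import Pool.Agent.HPZ.CTool

/-!
# HPZ/CaseF: cases (5, 1) of the combinatorial lemma

Each case is a finite case distinction; every leaf is a linear contradiction (certificates found by a
branch and bound search with linear programs, checked here by `linarith`).
-/

namespace Pool.Agent.HPZ

set_option linter.all false

/-- `5` short and `1` long items; certificate found by linear programming -/
private theorem aux51 (x0 x1 x2 x3 x4 y0 a0 a1 a2 a3 a4 d0 s κ e : ℝ) (he : e ≤ 1 / 400)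
    (an1 : 0 ≤ a1)
    (an2 : 0 ≤ a2)
    (xn3 : 0 ≤ x3)
    (yl0 : 5 ≤ y0)
    (an5 : 0 ≤ d0)
    (yf0 : (s - κ + y0 - 5) / 2 ≤ d0 + e)
    (xs0 : x0 ≤ x1)
    (xs1 : x1 ≤ x2)
    (xs2 : x2 ≤ x3)
    (xs3 : x3 ≤ x4)
    (xp : 5 ≤ x0 + x1)
    (tot1 : x0 + x1 + x2 + x3 + x4 + y0 ≤ 18 + e)
    (tot2 : 18 - e ≤ x0 + x1 + x2 + x3 + x4 + y0)
    (hs : s = a0 + a1 + a2 + a3 + a4 + d0)
    (he0 : 0 ≤ e)
    (kap : κ ≤ s / 2)
    (H : ∀ c0 c1 c2 c3 c4 c5 : ℝ, (c0 = 0 ∨ c0 = 1) → (c1 = 0 ∨ c1 = 1) → (c2 = 0 ∨ c2 = 1) → (c3 = 0 ∨ c3 = 1) → (c4 = 0 ∨ c4 = 1) → (c5 = 0 ∨ c5 = 1) →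
      Cn s κ e (c0 * x0 + c1 * x1 + c2 * x2 + c3 * x3 + c4 * x4 + c5 * y0) (c0 * a0 + c1 * a1 + c2 * a2 + c3 * a3 + c4 * a4 + c5 * d0)) : False := by
  have C4 := H 0 0 1 0 0 0 (Or.inl rfl) (Or.inl rfl) (Or.inr rfl) (Or.inl rfl) (Or.inl rfl) (Or.inl rfl)
  have C8 := H 0 0 0 1 0 0 (Or.inl rfl) (Or.inl rfl) (Or.inl rfl) (Or.inr rfl) (Or.inl rfl) (Or.inl rfl)
  have C10 := H 0 1 0 1 0 0 (Or.inl rfl) (Or.inr rfl) (Or.inl rfl) (Or.inr rfl) (Or.inl rfl) (Or.inl rfl)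
  have C21 := H 1 0 1 0 1 0 (Or.inr rfl) (Or.inl rfl) (Or.inr rfl) (Or.inl rfl) (Or.inr rfl) (Or.inl rfl)
  have C29 := H 1 0 1 1 1 0 (Or.inr rfl) (Or.inl rfl) (Or.inr rfl) (Or.inr rfl) (Or.inr rfl) (Or.inl rfl)
  have C34 := H 0 1 0 0 0 1 (Or.inl rfl) (Or.inr rfl) (Or.inl rfl) (Or.inl rfl) (Or.inl rfl) (Or.inr rfl)
  have C36 := H 0 0 1 0 0 1 (Or.inl rfl) (Or.inl rfl) (Or.inr rfl) (Or.inl rfl) (Or.inl rfl) (Or.inr rfl)
  have C42 := H 0 1 0 1 0 1 (Or.inl rfl) (Or.inr rfl) (Or.inl rfl) (Or.inr rfl) (Or.inl rfl) (Or.inr rfl)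
  have C46 := H 0 1 1 1 0 1 (Or.inl rfl) (Or.inr rfl) (Or.inr rfl) (Or.inr rfl) (Or.inl rfl) (Or.inr rfl)
  rcases le_total (1 * a0 + 0 * a1 + 1 * a2 + 0 * a3 + 1 * a4 + 0 * d0) (s / 2) with g2_21 | g1_21
  · rcases C21.h with h1_21 | h3_21 | ⟨g1_21, h2_21⟩
    · rcases le_total (0 * x0 + 0 * x1 + 1 * x2 + 0 * x3 + 0 * x4 + 0 * y0) 5 with u5_4 | l5_4
      · have t1_4 := C4.t1 u5_4
        rcases le_total (0 * x0 + 0 * x1 + 1 * x2 + 0 * x3 + 0 * x4 + 1 * y0) 8 with u8_36 | l8_36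
        · have m1_36 := C36.m1 u8_36
          linarith only [he, hs, h1_21, xp, yf0, kap, g2_21, xs0, t1_4, xs3, xs1, m1_36, yl0, tot2]
        · have m2_36 := C36.m2 l8_36
          linarith only [he, hs, h1_21, xp, g2_21, kap, m2_36, xs0, t1_4, xs3, xs2, xs1, yf0]
      · have t2_4 := C4.t2 l5_4
        linarith only [he, hs, xp, xs3, xs2, l5_4, yl0, tot1]
    · rcases le_total (0 * x0 + 1 * x1 + 1 * x2 + 1 * x3 + 0 * x4 + 1 * y0) 8 with u8_46 | l8_46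
      · have m1_46 := C46.m1 u8_46
        linarith only [he, hs, xs0, xs1, xp, yl0, xn3, u8_46]
      · have m2_46 := C46.m2 l8_46
        rcases le_total (0 * x0 + 1 * x1 + 0 * x2 + 1 * x3 + 0 * x4 + 0 * y0) 5 with u5_10 | l5_10
        · have t1_10 := C10.t1 u5_10
          linarith only [he, hs, h3_21, xs2, t1_10, yf0, m2_46, yl0, xp, xs0, an2, tot2]
        · have t2_10 := C10.t2 l5_10
          linarith only [he, hs, h3_21, t2_10, yf0, xs3, m2_46, yl0, xp, xs1, xs2, an2, tot1]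
    · linarith only [g1_21, g2_21]
  · have g2_42 : 0 * a0 + 1 * a1 + 0 * a2 + 1 * a3 + 0 * a4 + 1 * d0 ≤ s / 2 := by linarith only [g1_21, hs]
    rcases C42.h with h1_42 | h3_42 | ⟨g1_42, h2_42⟩
    · rcases le_total (0 * x0 + 0 * x1 + 1 * x2 + 0 * x3 + 0 * x4 + 0 * y0) 5 with u5_4 | l5_4
      · have t1_4 := C4.t1 u5_4
        rcases le_total (0 * x0 + 0 * x1 + 1 * x2 + 0 * x3 + 0 * x4 + 1 * y0) 8 with u8_36 | l8_36
        · have m1_36 := C36.m1 u8_36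
          linarith only [he, hs, g2_42, xp, kap, yl0, t1_4, xs2, yf0, xs0, xs1, h1_42, m1_36]
        · have m2_36 := C36.m2 l8_36
          linarith only [he, hs, h1_42, xp, kap, yf0, t1_4, xs0, l8_36, g2_42, xs2, m2_36]
      · have t2_4 := C4.t2 l5_4
        linarith only [he, hs, xp, xs3, tot1, xs2, yl0, l5_4]
    · rcases le_total (0 * x0 + 0 * x1 + 0 * x2 + 1 * x3 + 0 * x4 + 0 * y0) 5 with u5_8 | l5_8
      · have t1_8 := C8.t1 u5_8
        rcases le_total (1 * x0 + 0 * x1 + 1 * x2 + 1 * x3 + 1 * x4 + 0 * y0) 8 with u8_29 | l8_29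
        · have m1_29 := C29.m1 u8_29
          linarith only [he, hs, xs0, xs1, xs2, xp, yl0, an1, an5, g2_42, h3_42, t1_8, m1_29]
        · have m2_29 := C29.m2 l8_29
          rcases le_total (1 * a0 + 0 * a1 + 1 * a2 + 1 * a3 + 1 * a4 + 0 * d0) (s / 2) with g2_29 | g1_29
          · rcases C29.h with h1_29 | h3_29 | ⟨g1_29, h2_29⟩
            · linarith only [he, hs, xp, m2_29, g2_29, g2_42, xs0, t1_8, xs1, xs2, h1_29]
            · linarith only [he, hs, h3_29, g2_42, tot2, xp, h3_42, m2_29, xs0, t1_8, xs1, xs2, g2_29]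
            · linarith only [g1_29, g2_29]
          · have g2_34 : 0 * a0 + 1 * a1 + 0 * a2 + 0 * a3 + 0 * a4 + 1 * d0 ≤ s / 2 := by linarith only [g1_29, hs]
            rcases C34.h with h1_34 | h3_34 | ⟨g1_34, h2_34⟩
            · linarith only [he, hs, h1_34, xs1, g2_42, h3_42, xp, xs0, t1_8, yl0, m2_29, xs2, tot1]
            · linarith only [he, hs, xs0, xs2, h3_34, xp, t1_8, h3_42, yl0, g2_42, m2_29, xs1, tot1]
            · linarith only [g1_34, g2_34]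
      · have t2_8 := C8.t2 l5_8
        linarith only [he, hs, xs0, yl0, tot1, xs3, l5_8, xp, xs1]
    · linarith only [g1_42, g2_42]

theorem case51 : Case 5 1 := by
  intro x a y d s κ e he0 he hx hy hxm hym hp htot hs hk hC
  have ht := abs_le.1 htot
  simp only [Fin.sum_univ_five, Fin.sum_univ_one] at ht hs
  refine aux51 (x 0) (x 1) (x 2) (x 3) (x 4) (y 0) (a 0) (a 1) (a 2) (a 3) (a 4) (d 0) s κ e he
    ((hx 1).2.2)
    ((hx 2).2.2)
    ((hx 3).1)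
    ((hy 0).1.le)
    ((hy 0).2.1)
    ((hy 0).2.2)
    (hxm (by decide))
    (hxm (by decide))
    (hxm (by decide))
    (hxm (by decide))
    ((hp 0 1 (by decide)).le)
    (by linarith [ht.2])
    (by linarith [ht.1])
    (by linarith [hs])
    he0
    hk
    ?_
  intro c0 c1 c2 c3 c4 c5 hc0 hc1 hc2 hc3 hc4 hc5
  have h1 := coef (![c0, c1, c2, c3, c4] : Fin 5 → ℝ) (by simp [Fin.forall_fin_succ, hc0, hc1, hc2, hc3, hc4])
  have h2 := coef (![c5] : Fin 1 → ℝ) (by simp [Fin.forall_fin_succ, hc5])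
  have h3 := hC (Finset.univ.filter fun i => (![c0, c1, c2, c3, c4] : Fin 5 → ℝ) i = 1)
    (Finset.univ.filter fun i => (![c5] : Fin 1 → ℝ) i = 1)
  rw [h1 x, h2 y, h1 a, h2 d] at h3
  convert h3 using 1
  · simp [Fin.sum_univ_five, Fin.sum_univ_one]
    try ring
  · simp [Fin.sum_univ_five, Fin.sum_univ_one]
    try ring

end Pool.Agent.HPZ
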