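import Pool.Agent.HPZ.CTool

/-!
# HPZ/CaseG: cases (0, 2), (1, 2), (2, 2), (3, 2), (0, 3), (1, 3) of the combinatorial lemma

Each case is a finite case distinction; every leaf is a linear contradiction (certificates found by a
branch and bound search with linear programs, checked here by `linarith`).
-/

namespace Pool.Agent.HPZ

set_option linter.all false

/-- `0` short and `2` long items; certificate found by linear programming -/
private theorem aux02 (y0 y1 d0 d1 s κ e : ℝ) (he : e ≤ 1 / 400)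
    (yf0 : (s - κ + y0 - 5) / 2 ≤ d0 + e)
    (yf1 : (s - κ + y1 - 5) / 2 ≤ d1 + e)
    (tot2 : 18 - e ≤ y0 + y1)
    (hs : s = d0 + d1)
    (he0 : 0 ≤ e)
    (H : ∀ c0 c1 : ℝ, (c0 = 0 ∨ c0 = 1) → (c1 = 0 ∨ c1 = 1) →
      Cn s κ e (c0 * y0 + c1 * y1) (c0 * d0 + c1 * d1)) : False := by
  have C0 := H 0 0 (Or.inl rfl) (Or.inl rfl)
  rcases le_total (0 * y0 + 0 * y1) 5 with u5_0 | l5_0
  · have t1_0 := C0.t1 u5_0
    linarith only [he, hs, yf0, yf1, t1_0, tot2]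
  · have t2_0 := C0.t2 l5_0
    linarith only [he, hs, l5_0]

theorem case02 : Case 0 2 := by
  intro x a y d s κ e he0 he hx hy hxm hym hp htot hs hk hC
  have ht := abs_le.1 htot
  simp only [Fin.sum_univ_zero, Fin.sum_univ_two] at ht hs
  refine aux02 (y 0) (y 1) (d 0) (d 1) s κ e he
    ((hy 0).2.2)
    ((hy 1).2.2)
    (by linarith [ht.1])
    (by linarith [hs])
    he0
    ?_
  intro c0 c1 hc0 hc1
  have h1 := coef (![] : Fin 0 → ℝ) (by simp)
  have h2 := coef (![c0, c1] : Fin 2 → ℝ) (by simp [Fin.forall_fin_succ, hc0, hc1])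
  have h3 := hC (Finset.univ.filter fun i => (![] : Fin 0 → ℝ) i = 1)
    (Finset.univ.filter fun i => (![c0, c1] : Fin 2 → ℝ) i = 1)
  rw [h1 x, h2 y, h1 a, h2 d] at h3
  convert h3 using 1
  · simp [Fin.sum_univ_zero, Fin.sum_univ_two]
  · simp [Fin.sum_univ_zero, Fin.sum_univ_two]

/-- `1` short and `2` long items; certificate found by linear programming -/
private theorem aux12 (x0 y0 y1 a0 d0 d1 s κ e : ℝ) (he : e ≤ 1 / 400)
    (xu0 : x0 ≤ 5)
    (yf0 : (s - κ + y0 - 5) / 2 ≤ d0 + e)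
    (yf1 : (s - κ + y1 - 5) / 2 ≤ d1 + e)
    (tot2 : 18 - e ≤ x0 + y0 + y1)
    (hs : s = a0 + d0 + d1)
    (he0 : 0 ≤ e)
    (H : ∀ c0 c1 c2 : ℝ, (c0 = 0 ∨ c0 = 1) → (c1 = 0 ∨ c1 = 1) → (c2 = 0 ∨ c2 = 1) →
      Cn s κ e (c0 * x0 + c1 * y0 + c2 * y1) (c0 * a0 + c1 * d0 + c2 * d1)) : False := by
  have C1 := H 1 0 0 (Or.inr rfl) (Or.inl rfl) (Or.inl rfl)
  rcases le_total (1 * x0 + 0 * y0 + 0 * y1) 5 with u5_1 | l5_1
  · have t1_1 := C1.t1 u5_1
    linarith only [he, hs, t1_1, yf1, yf0, tot2]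
  · have t2_1 := C1.t2 l5_1
    linarith only [he, hs, xu0, yf0, yf1, t2_1, tot2]

theorem case12 : Case 1 2 := by
  intro x a y d s κ e he0 he hx hy hxm hym hp htot hs hk hC
  have ht := abs_le.1 htot
  simp only [Fin.sum_univ_one, Fin.sum_univ_two] at ht hs
  refine aux12 (x 0) (y 0) (y 1) (a 0) (d 0) (d 1) s κ e he
    ((hx 0).2.1)
    ((hy 0).2.2)
    ((hy 1).2.2)
    (by linarith [ht.1])
    (by linarith [hs])
    he0
    ?_
  intro c0 c1 c2 hc0 hc1 hc2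
  have h1 := coef (![c0] : Fin 1 → ℝ) (by simp [Fin.forall_fin_succ, hc0])
  have h2 := coef (![c1, c2] : Fin 2 → ℝ) (by simp [Fin.forall_fin_succ, hc1, hc2])
  have h3 := hC (Finset.univ.filter fun i => (![c0] : Fin 1 → ℝ) i = 1)
    (Finset.univ.filter fun i => (![c1, c2] : Fin 2 → ℝ) i = 1)
  rw [h1 x, h2 y, h1 a, h2 d] at h3
  convert h3 using 1
  · simp [Fin.sum_univ_one, Fin.sum_univ_two]
    try ring
  · simp [Fin.sum_univ_one, Fin.sum_univ_two]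
    try ring

/-- `2` short and `2` long items; certificate found by linear programming -/
private theorem aux22 (x0 x1 y0 y1 a0 a1 d0 d1 s κ e : ℝ) (he : e ≤ 1 / 400)
    (xn0 : 0 ≤ x0)
    (an0 : 0 ≤ a0)
    (xu1 : x1 ≤ 5)
    (yl0 : 5 ≤ y0)
    (yf0 : (s - κ + y0 - 5) / 2 ≤ d0 + e)
    (yl1 : 5 ≤ y1)
    (yf1 : (s - κ + y1 - 5) / 2 ≤ d1 + e)
    (xs0 : x0 ≤ x1)
    (ys0 : y0 ≤ y1)
    (tot1 : x0 + x1 + y0 + y1 ≤ 18 + e)
    (tot2 : 18 - e ≤ x0 + x1 + y0 + y1)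
    (hs : s = a0 + a1 + d0 + d1)
    (he0 : 0 ≤ e)
    (H : ∀ c0 c1 c2 c3 : ℝ, (c0 = 0 ∨ c0 = 1) → (c1 = 0 ∨ c1 = 1) → (c2 = 0 ∨ c2 = 1) → (c3 = 0 ∨ c3 = 1) →
      Cn s κ e (c0 * x0 + c1 * x1 + c2 * y0 + c3 * y1) (c0 * a0 + c1 * a1 + c2 * d0 + c3 * d1)) : False := by
  have C1 := H 1 0 0 0 (Or.inr rfl) (Or.inl rfl) (Or.inl rfl) (Or.inl rfl)
  have C2 := H 0 1 0 0 (Or.inl rfl) (Or.inr rfl) (Or.inl rfl) (Or.inl rfl)
  have C3 := H 1 1 0 0 (Or.inr rfl) (Or.inr rfl) (Or.inl rfl) (Or.inl rfl)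
  have C4 := H 0 0 1 0 (Or.inl rfl) (Or.inl rfl) (Or.inr rfl) (Or.inl rfl)
  have C5 := H 1 0 1 0 (Or.inr rfl) (Or.inl rfl) (Or.inr rfl) (Or.inl rfl)
  have C6 := H 0 1 1 0 (Or.inl rfl) (Or.inr rfl) (Or.inr rfl) (Or.inl rfl)
  have C9 := H 1 0 0 1 (Or.inr rfl) (Or.inl rfl) (Or.inl rfl) (Or.inr rfl)
  have C12 := H 0 0 1 1 (Or.inl rfl) (Or.inl rfl) (Or.inr rfl) (Or.inr rfl)
  have C13 := H 1 0 1 1 (Or.inr rfl) (Or.inl rfl) (Or.inr rfl) (Or.inr rfl)
  rcases le_total (0 * a0 + 1 * a1 + 1 * d0 + 0 * d1) (s / 2) with g2_6 | g1_6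
  · rcases C6.h with h1_6 | h3_6 | ⟨g1_6, h2_6⟩
    · rcases le_total (1 * x0 + 0 * x1 + 0 * y0 + 0 * y1) 5 with u5_1 | l5_1
      · have t1_1 := C1.t1 u5_1
        rcases le_total (1 * x0 + 0 * x1 + 1 * y0 + 1 * y1) 8 with u8_13 | l8_13
        · have m1_13 := C13.m1 u8_13
          linarith only [he, hs, yl0, ys0, xn0, u8_13]
        · have m2_13 := C13.m2 l8_13
          linarith only [he, hs, h1_6, t1_1, yf1, m2_13, yf0, tot2]
      · have t2_1 := C1.t2 l5_1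
        linarith only [he, hs, yl0, tot1, l5_1, yl1, xs0]
    · rcases le_total (1 * x0 + 1 * x1 + 0 * y0 + 0 * y1) 5 with u5_3 | l5_3
      · have t1_3 := C3.t1 u5_3
        linarith only [he, hs, t1_3, yf0, yf1, tot2]
      · have t2_3 := C3.t2 l5_3
        rcases le_total (1 * x0 + 0 * x1 + 0 * y0 + 0 * y1) 5 with u5_1 | l5_1
        · have t1_1 := C1.t1 u5_1
          rcases le_total (1 * x0 + 0 * x1 + 1 * y0 + 0 * y1) 8 with u8_5 | l8_5
          · have m1_5 := C5.m1 u8_5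
            linarith only [he, hs, h3_6, t2_3, t1_1, yf1, yf0, m1_5, xu1, tot2]
          · have m2_5 := C5.m2 l8_5
            linarith only [he, hs, l8_5, h3_6, yf1, t1_1, ys0, yf0, m2_5, tot2]
        · have t2_1 := C1.t2 l5_1
          linarith only [he, hs, xs0, yl0, l5_1, tot1, yl1]
    · linarith only [g1_6, g2_6]
  · have g2_9 : 1 * a0 + 0 * a1 + 0 * d0 + 1 * d1 ≤ s / 2 := by linarith only [g1_6, hs]
    rcases C9.h with h1_9 | h3_9 | ⟨g1_9, h2_9⟩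
    · rcases le_total (1 * x0 + 1 * x1 + 0 * y0 + 0 * y1) 5 with u5_3 | l5_3
      · have t1_3 := C3.t1 u5_3
        linarith only [he, hs, tot2, t1_3, yf0, yf1]
      · have t2_3 := C3.t2 l5_3
        rcases le_total (1 * x0 + 0 * x1 + 0 * y0 + 0 * y1) 5 with u5_1 | l5_1
        · have t1_1 := C1.t1 u5_1
          rcases le_total (0 * x0 + 0 * x1 + 1 * y0 + 1 * y1) 8 with u8_12 | l8_12
          · have m1_12 := C12.m1 u8_12
            linarith only [he, hs, yl0, ys0, u8_12]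
          · have m2_12 := C12.m2 l8_12
            linarith only [he, hs, h1_9, g2_9, t1_1, yf0, xu1, ys0, t2_3, m2_12, yf1, tot2]
        · have t2_1 := C1.t2 l5_1
          linarith only [he, hs, xs0, tot1, yl0, yl1, l5_1]
    · rcases le_total (1 * x0 + 0 * x1 + 0 * y0 + 0 * y1) 5 with u5_1 | l5_1
      · have t1_1 := C1.t1 u5_1
        rcases le_total (0 * x0 + 0 * x1 + 1 * y0 + 0 * y1) 5 with u5_4 | l5_4
        · have t1_4 := C4.t1 u5_4
          rcases le_total (1 * a0 + 1 * a1 + 0 * d0 + 0 * d1) (s / 2) with g2_3 | g1_3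
          · rcases C3.h with h1_3 | h3_3 | ⟨g1_3, h2_3⟩
            · linarith only [he, hs, tot2, g2_9, xu1, yf0, t1_1, u5_4, h1_3, yf1]
            · linarith only [he, hs, g2_9, h3_3, yf0, xu1, ys0, t1_1, tot2, yf1, t1_4]
            · linarith only [g1_3, g2_3]
          · have g2_12 : 0 * a0 + 0 * a1 + 1 * d0 + 1 * d1 ≤ s / 2 := by linarith only [g1_3, hs]
            rcases C12.h with h1_12 | h3_12 | ⟨g1_12, h2_12⟩
            · linarith only [he, hs, h1_12, yf1, g2_12, t1_4, yf0, ys0, yl0]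
            · linarith only [he, hs, t1_4, yf0, yl0, h3_12, g2_12, yl1, yf1]
            · linarith only [g1_12, g2_12]
        · have t2_4 := C4.t2 l5_4
          rcases le_total (0 * a0 + 1 * a1 + 0 * d0 + 0 * d1) (s / 2) with g2_2 | g1_2
          · rcases C2.h with h1_2 | h3_2 | ⟨g1_2, h2_2⟩
            · linarith only [he, hs, t1_1, tot2, yf1, yf0, h1_2]
            · rcases le_total (1 * a0 + 1 * a1 + 0 * d0 + 0 * d1) (s / 2) with g2_3 | g1_3
              · rcases C3.h with h1_3 | h3_3 | ⟨g1_3, h2_3⟩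
                · linarith only [he, hs, h1_3, h3_2, yf0, xn0, t2_4, ys0, yf1, t1_1, tot2]
                · linarith only [he, hs, h3_3, ys0, h3_2, t2_4, yf0, an0, t1_1, yf1, tot2]
                · linarith only [g1_3, g2_3]
              · have g2_12 : 0 * a0 + 0 * a1 + 1 * d0 + 1 * d1 ≤ s / 2 := by linarith only [g1_3, hs]
                rcases C12.h with h1_12 | h3_12 | ⟨g1_12, h2_12⟩
                · linarith only [he, hs, h1_12, yf0, ys0, g2_12, t2_4, yl0, yf1]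
                · linarith only [he, hs, t2_4, yl1, h3_12, g2_12, yl0, yf1, yf0]
                · linarith only [g1_12, g2_12]
            · linarith only [g1_2, g2_2]
          · have g2_13 : 1 * a0 + 0 * a1 + 1 * d0 + 1 * d1 ≤ s / 2 := by linarith only [g1_2, hs]
            rcases C13.h with h1_13 | h3_13 | ⟨g1_13, h2_13⟩
            · linarith only [he, hs, xu1, yf0, yf1, tot2, g2_13, t1_1, h1_13]
            · linarith only [he, hs, h3_13, xu1, g2_13, yf1, t2_4, yf0, an0, tot2, ys0, h3_9]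
            · linarith only [g1_13, g2_13]
      · have t2_1 := C1.t2 l5_1
        linarith only [he, hs, yl0, xs0, tot1, yl1, l5_1]
    · linarith only [g1_9, g2_9]

theorem case22 : Case 2 2 := by
  intro x a y d s κ e he0 he hx hy hxm hym hp htot hs hk hC
  have ht := abs_le.1 htot
  simp only [Fin.sum_univ_two] at ht hs
  refine aux22 (x 0) (x 1) (y 0) (y 1) (a 0) (a 1) (d 0) (d 1) s κ e he
    ((hx 0).1)
    ((hx 0).2.2)
    ((hx 1).2.1)
    ((hy 0).1.le)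
    ((hy 0).2.2)
    ((hy 1).1.le)
    ((hy 1).2.2)
    (hxm (by decide))
    (hym (by decide))
    (by linarith [ht.2])
    (by linarith [ht.1])
    (by linarith [hs])
    he0
    ?_
  intro c0 c1 c2 c3 hc0 hc1 hc2 hc3
  have h1 := coef (![c0, c1] : Fin 2 → ℝ) (by simp [Fin.forall_fin_succ, hc0, hc1])
  have h2 := coef (![c2, c3] : Fin 2 → ℝ) (by simp [Fin.forall_fin_succ, hc2, hc3])
  have h3 := hC (Finset.univ.filter fun i => (![c0, c1] : Fin 2 → ℝ) i = 1)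
    (Finset.univ.filter fun i => (![c2, c3] : Fin 2 → ℝ) i = 1)
  rw [h1 x, h2 y, h1 a, h2 d] at h3
  convert h3 using 1
  · simp [Fin.sum_univ_two]
    try ring
  · simp [Fin.sum_univ_two]
    try ring

/-- `3` short and `2` long items; certificate found by linear programming -/
private theorem aux32 (x0 x1 x2 y0 y1 a0 a1 a2 d0 d1 s κ e : ℝ) (he : e ≤ 1 / 400)
    (xn0 : 0 ≤ x0)
    (an0 : 0 ≤ a0)
    (xn1 : 0 ≤ x1)
    (yl0 : 5 ≤ y0)
    (yf0 : (s - κ + y0 - 5) / 2 ≤ d0 + e)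
    (yl1 : 5 ≤ y1)
    (yf1 : (s - κ + y1 - 5) / 2 ≤ d1 + e)
    (xs0 : x0 ≤ x1)
    (xs1 : x1 ≤ x2)
    (ys0 : y0 ≤ y1)
    (xp : 5 ≤ x0 + x1)
    (tot1 : x0 + x1 + x2 + y0 + y1 ≤ 18 + e)
    (tot2 : 18 - e ≤ x0 + x1 + x2 + y0 + y1)
    (hs : s = a0 + a1 + a2 + d0 + d1)
    (he0 : 0 ≤ e)
    (kap : κ ≤ s / 2)
    (H : ∀ c0 c1 c2 c3 c4 : ℝ, (c0 = 0 ∨ c0 = 1) → (c1 = 0 ∨ c1 = 1) → (c2 = 0 ∨ c2 = 1) → (c3 = 0 ∨ c3 = 1) → (c4 = 0 ∨ c4 = 1) →
      Cn s κ e (c0 * x0 + c1 * x1 + c2 * x2 + c3 * y0 + c4 * y1) (c0 * a0 + c1 * a1 + c2 * a2 + c3 * d0 + c4 * d1)) : False := by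
  have C1 := H 1 0 0 0 0 (Or.inr rfl) (Or.inl rfl) (Or.inl rfl) (Or.inl rfl) (Or.inl rfl)
  have C2 := H 0 1 0 0 0 (Or.inl rfl) (Or.inr rfl) (Or.inl rfl) (Or.inl rfl) (Or.inl rfl)
  have C3 := H 1 1 0 0 0 (Or.inr rfl) (Or.inr rfl) (Or.inl rfl) (Or.inl rfl) (Or.inl rfl)
  have C6 := H 0 1 1 0 0 (Or.inl rfl) (Or.inr rfl) (Or.inr rfl) (Or.inl rfl) (Or.inl rfl)
  have C12 := H 0 0 1 1 0 (Or.inl rfl) (Or.inl rfl) (Or.inr rfl) (Or.inr rfl) (Or.inl rfl)
  have C13 := H 1 0 1 1 0 (Or.inr rfl) (Or.inl rfl) (Or.inr rfl) (Or.inr rfl) (Or.inl rfl)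
  have C17 := H 1 0 0 0 1 (Or.inr rfl) (Or.inl rfl) (Or.inl rfl) (Or.inl rfl) (Or.inr rfl)
  have C18 := H 0 1 0 0 1 (Or.inl rfl) (Or.inr rfl) (Or.inl rfl) (Or.inl rfl) (Or.inr rfl)
  have C19 := H 1 1 0 0 1 (Or.inr rfl) (Or.inr rfl) (Or.inl rfl) (Or.inl rfl) (Or.inr rfl)
  have C27 := H 1 1 0 1 1 (Or.inr rfl) (Or.inr rfl) (Or.inl rfl) (Or.inr rfl) (Or.inr rfl)
  rcases le_total (1 * a0 + 0 * a1 + 1 * a2 + 1 * d0 + 0 * d1) (s / 2) with g2_13 | g1_13
  · rcases C13.h with h1_13 | h3_13 | ⟨g1_13, h2_13⟩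
    · rcases le_total (0 * x0 + 1 * x1 + 0 * x2 + 0 * y0 + 0 * y1) 5 with u5_2 | l5_2
      · have t1_2 := C2.t1 u5_2
        rcases le_total (1 * x0 + 1 * x1 + 0 * x2 + 1 * y0 + 1 * y1) 8 with u8_27 | l8_27
        · have m1_27 := C27.m1 u8_27
          linarith only [he, hs, yl0, ys0, xn0, xn1, u8_27]
        · have m2_27 := C27.m2 l8_27
          linarith only [he, hs, xs0, m2_27, xs1, an0, yl0, yf0, t1_2, tot2, yf1, ys0, h1_13]
      · have t2_2 := C2.t2 l5_2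
        linarith only [he, hs, xs1, xp, ys0, l5_2, yl0, tot1]
    · rcases le_total (0 * x0 + 0 * x1 + 1 * x2 + 1 * y0 + 0 * y1) 5 with u5_12 | l5_12
      · have t1_12 := C12.t1 u5_12
        linarith only [he, hs, xs0, xs1, xp, yl0, u5_12]
      · have t2_12 := C12.t2 l5_12
        rcases le_total (1 * x0 + 0 * x1 + 0 * x2 + 0 * y0 + 0 * y1) 5 with u5_1 | l5_1
        · have t1_1 := C1.t1 u5_1
          rcases le_total (0 * x0 + 1 * x1 + 0 * x2 + 0 * y0 + 1 * y1) 8 with u8_18 | l8_18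
          · have m1_18 := C18.m1 u8_18
            linarith only [he, hs, h3_13, g2_13, m1_18, xs1, t2_12, yl1, u8_18, t1_1, xp, yl0]
          · have m2_18 := C18.m2 l8_18
            linarith only [he, hs, h3_13, g2_13, tot1, xs1, t2_12, yl1, t1_1, m2_18, xp, yl0]
        · have t2_1 := C1.t2 l5_1
          linarith only [he, hs, yl1, xs1, xs0, l5_1, yl0, tot1]
    · linarith only [g1_13, g2_13]
  · have g2_18 : 0 * a0 + 1 * a1 + 0 * a2 + 0 * d0 + 1 * d1 ≤ s / 2 := by linarith only [g1_13, hs]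
    rcases C18.h with h1_18 | h3_18 | ⟨g1_18, h2_18⟩
    · rcases le_total (1 * x0 + 1 * x1 + 0 * x2 + 0 * y0 + 1 * y1) 8 with u8_19 | l8_19
      · have m1_19 := C19.m1 u8_19
        linarith only [he, hs, xp, yl1, u8_19]
      · have m2_19 := C19.m2 l8_19
        rcases le_total (1 * x0 + 1 * x1 + 0 * x2 + 0 * y0 + 0 * y1) 5 with u5_3 | l5_3
        · have t1_3 := C3.t1 u5_3
          linarith only [he, hs, h1_18, kap, xp, m2_19, yf1, xs0, t1_3, g2_18, yl0, ys0]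
        · have t2_3 := C3.t2 l5_3
          linarith only [he, hs, h1_18, kap, yf1, m2_19, yl0, xs0, tot1, t2_3, xs1, yl1, g2_18]
    · rcases le_total (0 * x0 + 1 * x1 + 1 * x2 + 0 * y0 + 0 * y1) 5 with u5_6 | l5_6
      · have t1_6 := C6.t1 u5_6
        linarith only [he, hs, xs0, an0, xs1, yf1, t1_6, u5_6, yf0, tot2]
      · have t2_6 := C6.t2 l5_6
        rcases le_total (1 * x0 + 0 * x1 + 0 * x2 + 0 * y0 + 1 * y1) 5 with u5_17 | l5_17
        · have t1_17 := C17.t1 u5_17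
          linarith only [he, hs, yl0, xs1, xp, u5_17, ys0, tot1]
        · have t2_17 := C17.t2 l5_17
          rcases le_total (0 * x0 + 0 * x1 + 1 * x2 + 1 * y0 + 0 * y1) 8 with u8_12 | l8_12
          · have m1_12 := C12.m1 u8_12
            linarith only [he, hs, xs0, yf0, h3_18, yl1, yf1, yl0, t2_6, t2_17, xp, m1_12, g2_18]
          · have m2_12 := C12.m2 l8_12
            linarith only [he, hs, xs0, tot1, g2_18, yf1, h3_18, yl0, t2_17, yl1, t2_6, xp, m2_12, yf0]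
    · linarith only [g1_18, g2_18]

theorem case32 : Case 3 2 := by
  intro x a y d s κ e he0 he hx hy hxm hym hp htot hs hk hC
  have ht := abs_le.1 htot
  simp only [Fin.sum_univ_three, Fin.sum_univ_two] at ht hs
  refine aux32 (x 0) (x 1) (x 2) (y 0) (y 1) (a 0) (a 1) (a 2) (d 0) (d 1) s κ e he
    ((hx 0).1)
    ((hx 0).2.2)
    ((hx 1).1)
    ((hy 0).1.le)
    ((hy 0).2.2)
    ((hy 1).1.le)
    ((hy 1).2.2)
    (hxm (by decide))
    (hxm (by decide))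
    (hym (by decide))
    ((hp 0 1 (by decide)).le)
    (by linarith [ht.2])
    (by linarith [ht.1])
    (by linarith [hs])
    he0
    hk
    ?_
  intro c0 c1 c2 c3 c4 hc0 hc1 hc2 hc3 hc4
  have h1 := coef (![c0, c1, c2] : Fin 3 → ℝ) (by simp [Fin.forall_fin_succ, hc0, hc1, hc2])
  have h2 := coef (![c3, c4] : Fin 2 → ℝ) (by simp [Fin.forall_fin_succ, hc3, hc4])
  have h3 := hC (Finset.univ.filter fun i => (![c0, c1, c2] : Fin 3 → ℝ) i = 1)
    (Finset.univ.filter fun i => (![c3, c4] : Fin 2 → ℝ) i = 1)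
  rw [h1 x, h2 y, h1 a, h2 d] at h3
  convert h3 using 1
  · simp [Fin.sum_univ_three, Fin.sum_univ_two]
    try ring
  · simp [Fin.sum_univ_three, Fin.sum_univ_two]
    try ring

/-- `0` short and `3` long items; certificate found by linear programming -/
private theorem aux03 (y0 y1 y2 d0 d1 d2 s κ e : ℝ) (he : e ≤ 1 / 400)
    (yf1 : (s - κ + y1 - 5) / 2 ≤ d1 + e)
    (yf2 : (s - κ + y2 - 5) / 2 ≤ d2 + e)
    (ys0 : y0 ≤ y1)
    (ys1 : y1 ≤ y2)
    (tot2 : 18 - e ≤ y0 + y1 + y2)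
    (hs : s = d0 + d1 + d2)
    (he0 : 0 ≤ e)
    (H : ∀ c0 c1 c2 : ℝ, (c0 = 0 ∨ c0 = 1) → (c1 = 0 ∨ c1 = 1) → (c2 = 0 ∨ c2 = 1) →
      Cn s κ e (c0 * y0 + c1 * y1 + c2 * y2) (c0 * d0 + c1 * d1 + c2 * d2)) : False := by
  have C1 := H 1 0 0 (Or.inr rfl) (Or.inl rfl) (Or.inl rfl)
  rcases le_total (1 * y0 + 0 * y1 + 0 * y2) 5 with u5_1 | l5_1
  · have t1_1 := C1.t1 u5_1
    linarith only [he, hs, t1_1, yf1, tot2, yf2]
  · have t2_1 := C1.t2 l5_1
    linarith only [he, hs, t2_1, yf2, ys1, tot2, yf1, ys0]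

theorem case03 : Case 0 3 := by
  intro x a y d s κ e he0 he hx hy hxm hym hp htot hs hk hC
  have ht := abs_le.1 htot
  simp only [Fin.sum_univ_zero, Fin.sum_univ_three] at ht hs
  refine aux03 (y 0) (y 1) (y 2) (d 0) (d 1) (d 2) s κ e he
    ((hy 1).2.2)
    ((hy 2).2.2)
    (hym (by decide))
    (hym (by decide))
    (by linarith [ht.1])
    (by linarith [hs])
    he0
    ?_
  intro c0 c1 c2 hc0 hc1 hc2
  have h1 := coef (![] : Fin 0 → ℝ) (by simp)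
  have h2 := coef (![c0, c1, c2] : Fin 3 → ℝ) (by simp [Fin.forall_fin_succ, hc0, hc1, hc2])
  have h3 := hC (Finset.univ.filter fun i => (![] : Fin 0 → ℝ) i = 1)
    (Finset.univ.filter fun i => (![c0, c1, c2] : Fin 3 → ℝ) i = 1)
  rw [h1 x, h2 y, h1 a, h2 d] at h3
  convert h3 using 1
  · simp [Fin.sum_univ_zero, Fin.sum_univ_three]
  · simp [Fin.sum_univ_zero, Fin.sum_univ_three]

/-- `1` short and `3` long items; certificate found by linear programming -/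
private theorem aux13 (x0 y0 y1 y2 a0 d0 d1 d2 s κ e : ℝ) (he : e ≤ 1 / 400)
    (yl0 : 5 ≤ y0)
    (yf0 : (s - κ + y0 - 5) / 2 ≤ d0 + e)
    (yl1 : 5 ≤ y1)
    (yf1 : (s - κ + y1 - 5) / 2 ≤ d1 + e)
    (yl2 : 5 ≤ y2)
    (yf2 : (s - κ + y2 - 5) / 2 ≤ d2 + e)
    (ys0 : y0 ≤ y1)
    (ys1 : y1 ≤ y2)
    (tot1 : x0 + y0 + y1 + y2 ≤ 18 + e)
    (tot2 : 18 - e ≤ x0 + y0 + y1 + y2)
    (hs : s = a0 + d0 + d1 + d2)
    (he0 : 0 ≤ e)
    (kap : κ ≤ s / 2)
    (H : ∀ c0 c1 c2 c3 : ℝ, (c0 = 0 ∨ c0 = 1) → (c1 = 0 ∨ c1 = 1) → (c2 = 0 ∨ c2 = 1) → (c3 = 0 ∨ c3 = 1) →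
      Cn s κ e (c0 * x0 + c1 * y0 + c2 * y1 + c3 * y2) (c0 * a0 + c1 * d0 + c2 * d1 + c3 * d2)) : False := by
  have C1 := H 1 0 0 0 (Or.inr rfl) (Or.inl rfl) (Or.inl rfl) (Or.inl rfl)
  have C2 := H 0 1 0 0 (Or.inl rfl) (Or.inr rfl) (Or.inl rfl) (Or.inl rfl)
  have C3 := H 1 1 0 0 (Or.inr rfl) (Or.inr rfl) (Or.inl rfl) (Or.inl rfl)
  have C4 := H 0 0 1 0 (Or.inl rfl) (Or.inl rfl) (Or.inr rfl) (Or.inl rfl)
  have C12 := H 0 0 1 1 (Or.inl rfl) (Or.inl rfl) (Or.inr rfl) (Or.inr rfl)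
  rcases le_total (1 * a0 + 1 * d0 + 0 * d1 + 0 * d2) (s / 2) with g2_3 | g1_3
  · rcases C3.h with h1_3 | h3_3 | ⟨g1_3, h2_3⟩
    · rcases le_total (1 * x0 + 0 * y0 + 0 * y1 + 0 * y2) 5 with u5_1 | l5_1
      · have t1_1 := C1.t1 u5_1
        linarith only [he, hs, h1_3, yf0, yf1, kap, tot2, t1_1, yf2]
      · have t2_1 := C1.t2 l5_1
        linarith only [he, hs, l5_1, tot1, yl1, yl2, yl0]
    · rcases le_total (0 * x0 + 1 * y0 + 0 * y1 + 0 * y2) 5 with u5_2 | l5_2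
      · have t1_2 := C2.t1 u5_2
        rcases le_total (1 * x0 + 0 * y0 + 0 * y1 + 0 * y2) 5 with u5_1 | l5_1
        · have t1_1 := C1.t1 u5_1
          linarith only [he, hs, h3_3, g2_3, yf1, t1_1, kap, t1_2, tot2, yf2]
        · have t2_1 := C1.t2 l5_1
          linarith only [he, hs, ys0, ys1, yl0, tot1, l5_1]
      · have t2_2 := C2.t2 l5_2
        rcases le_total (1 * x0 + 0 * y0 + 0 * y1 + 0 * y2) 5 with u5_1 | l5_1
        · have t1_1 := C1.t1 u5_1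
          linarith only [he, hs, h3_3, yf1, t1_1, kap, ys0, t2_2, tot2, yf2, ys1]
        · have t2_1 := C1.t2 l5_1
          linarith only [he, hs, ys0, ys1, yl0, tot1, l5_1]
    · linarith only [g1_3, g2_3]
  · have g2_12 : 0 * a0 + 0 * d0 + 1 * d1 + 1 * d2 ≤ s / 2 := by linarith only [g1_3, hs]
    rcases C12.h with h1_12 | h3_12 | ⟨g1_12, h2_12⟩
    · rcases le_total (0 * x0 + 0 * y0 + 1 * y1 + 0 * y2) 5 with u5_4 | l5_4
      · have t1_4 := C4.t1 u5_4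
        linarith only [he, hs, h1_12, yf2, g2_12, t1_4, yl1, yf1, yl2]
      · have t2_4 := C4.t2 l5_4
        linarith only [he, hs, h1_12, yf2, g2_12, t2_4, yl1, yl2, yf1]
    · rcases le_total (0 * x0 + 0 * y0 + 1 * y1 + 0 * y2) 5 with u5_4 | l5_4
      · have t1_4 := C4.t1 u5_4
        linarith only [he, hs, yf1, h3_12, yl1, yf2, t1_4, ys1, g2_12]
      · have t2_4 := C4.t2 l5_4
        linarith only [he, hs, yf1, h3_12, yf2, t2_4, yl1, ys1, g2_12]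
    · linarith only [g1_12, g2_12]

theorem case13 : Case 1 3 := by
  intro x a y d s κ e he0 he hx hy hxm hym hp htot hs hk hC
  have ht := abs_le.1 htot
  simp only [Fin.sum_univ_one, Fin.sum_univ_three] at ht hs
  refine aux13 (x 0) (y 0) (y 1) (y 2) (a 0) (d 0) (d 1) (d 2) s κ e he
    ((hy 0).1.le)
    ((hy 0).2.2)
    ((hy 1).1.le)
    ((hy 1).2.2)
    ((hy 2).1.le)
    ((hy 2).2.2)
    (hym (by decide))
    (hym (by decide))
    (by linarith [ht.2])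
    (by linarith [ht.1])
    (by linarith [hs])
    he0
    hk
    ?_
  intro c0 c1 c2 c3 hc0 hc1 hc2 hc3
  have h1 := coef (![c0] : Fin 1 → ℝ) (by simp [Fin.forall_fin_succ, hc0])
  have h2 := coef (![c1, c2, c3] : Fin 3 → ℝ) (by simp [Fin.forall_fin_succ, hc1, hc2, hc3])
  have h3 := hC (Finset.univ.filter fun i => (![c0] : Fin 1 → ℝ) i = 1)
    (Finset.univ.filter fun i => (![c1, c2, c3] : Fin 3 → ℝ) i = 1)
  rw [h1 x, h2 y, h1 a, h2 d] at h3
  convert h3 using 1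
  · simp [Fin.sum_univ_one, Fin.sum_univ_three]
    try ring
  · simp [Fin.sum_univ_one, Fin.sum_univ_three]
    try ring

end Pool.Agent.HPZ
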