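import Pool.Agent.HPZ.DChr
import Pool.Agent.HPZ.Iface
import Pool.Agent.HPP.DLow

/-! # HPZ/DLow: SupLowProp and VanProp -/

namespace Pool.Agent.HPZ

open Complex

open Pool.Agent.HPP (putL rlo chi_congr chi_add zeta_pow zeta_ne zeta_u_ne chi_block exists_inv inv
  inv_spec sum_inv norm_npow_le Hz Hz_nonneg geo_le sum_Hz)

variable {b p m m' i₀ l : ℕ} {F : Finset ℕ} {V : ℝ → ℝ} {χ : DirichletCharacter ℂ (b ^ m)}

/-- the summand -/
noncomputable def trm (b m : ℕ) (V : ℝ → ℝ) (χ : DirichletCharacter ℂ (b ^ m)) (t : ℝ)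
    (ω : Fin m → ℕ × ℕ) : ℂ :=
  (wt b V ω : ℂ) * (starRingEnd ℂ) (χ (lowv b ω : ZMod (b ^ m))) * (topv b ω : ℂ) ^ (-(t * I))

lemma cc_eq (t : ℝ) : cc b p F V χ t = ∑ ω ∈ RR b p m F, trm b m V χ t ω := rfl

lemma wt_putL (z : ℕ) (ω : Fin m → ℕ × ℕ) : wt b V (putL b i₀ l z ω) = wt b V ω := by
  unfold wt; rw [topv_putL]

/-- the inner sum over the block -/
lemma inner_eq (hB : Bas b p) (hm : i₀ + l ≤ m) (hi1 : 1 ≤ i₀)
    (hm' : 1 ≤ m') (h : χ.FactorsThrough (b ^ m')) (hi : m' ≤ 2 * i₀) (t : ℝ)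
    {ω : Fin m → ℕ × ℕ} (hω : ω ∈ RR b p m F) :
    ∃ A : ℂ, ((∀ y, 0 ≤ V y ∧ V y ≤ 1) → ‖A‖ ≤ 1) ∧
    ∑ z ∈ Finset.range (b ^ l), trm b m V χ t (putL b i₀ l z ω) =
      A * (starRingEnd ℂ) (∑ z ∈ Finset.range (b ^ l),
        (χ ((1 + b ^ i₀ : ℕ) : ZMod (b ^ m)) ^ inv (b ^ i₀) (rlo b i₀ ω)) ^ z) := by
  have hb : 2 ≤ b := by have := hB.two; omega
  set ζ := χ ((1 + b ^ i₀ : ℕ) : ZMod (b ^ m)) with hζ
  set r := rlo b i₀ ω with hr
  have hrc : r.Coprime b := coprime_of_mod hB (rlo_mod (by omega) hi1 hω)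
  have hn : 2 ≤ b ^ i₀ := by
    calc 2 ≤ b := hb
      _ = b ^ 1 := (pow_one b).symm
      _ ≤ b ^ i₀ := Nat.pow_le_pow_right (by omega) (by omega)
  obtain ⟨hu1, hu2⟩ := inv_spec hn (Nat.Coprime.pow_right i₀ hrc)
  set u := inv (b ^ i₀) r with hu
  obtain ⟨W, hW⟩ := lowv_split (b := b) hm ω
  rw [← hr] at hW
  refine ⟨(wt b V ω : ℂ) * (starRingEnd ℂ) (χ (r : ZMod (b ^ m)) * ζ ^ (u * W)) *
    (topv b ω : ℂ) ^ (-(t * I)), ?_, ?_⟩
  · intro hV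
    rw [norm_mul, norm_mul, RCLike.norm_conj, norm_mul, norm_pow]
    have h1 : ‖(wt b V ω : ℂ)‖ ≤ 1 := by
      rw [Complex.norm_real, Real.norm_eq_abs]
      unfold wt
      rw [abs_of_nonneg (hV _).1]
      exact (hV _).2
    have h2 : ‖χ (r : ZMod (b ^ m))‖ ≤ 1 := DirichletCharacter.norm_le_one _ _
    have h3 : ‖ζ‖ ≤ 1 := DirichletCharacter.norm_le_one _ _
    have h4 := norm_npow_le (topv b ω) t
    have h5 : ‖ζ‖ ^ (u * W) ≤ 1 := pow_le_one₀ (norm_nonneg _) h3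
    calc ‖(wt b V ω : ℂ)‖ * (‖χ (r : ZMod (b ^ m))‖ * ‖ζ‖ ^ (u * W)) *
          ‖(topv b ω : ℂ) ^ (-(t * I))‖ ≤ 1 * (1 * 1) * 1 := by gcongr
      _ = 1 := by norm_num
  · have hz : ∀ z ∈ Finset.range (b ^ l), trm b m V χ t (putL b i₀ l z ω) =
        (wt b V ω : ℂ) * (starRingEnd ℂ) (χ (r : ZMod (b ^ m)) * ζ ^ (u * W)) *
          (topv b ω : ℂ) ^ (-(t * I)) * (starRingEnd ℂ) ((ζ ^ u) ^ z) := by
      intro z hz
      rw [Finset.mem_range] at hz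
      unfold trm
      rw [wt_putL, topv_putL, lowv_putL hm hz, hW]
      have e : r + b ^ i₀ * W + b ^ i₀ * z = r + b ^ i₀ * (W + z) := by ring
      rw [e, chi_block hb hm' h hi hu2 (W + z), ← hζ]
      have e2 : χ (r : ZMod (b ^ m)) * ζ ^ (u * (W + z)) =
          χ (r : ZMod (b ^ m)) * ζ ^ (u * W) * (ζ ^ u) ^ z := by
        rw [mul_add, pow_add, ← pow_mul]; ring
      rw [e2, map_mul]
      ring
    rw [Finset.sum_congr rfl hz, ← Finset.mul_sum, map_sum]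

theorem supLow : SupLowProp := by
  refine ⟨1, by norm_num, ?_⟩
  intro b p m m' i₀ l F V hB hF hV hi1 hi2 hi3 hm hl hlF χ h1 h2 t
  have hb : 2 ≤ b := by have := hB.two; omega
  have hb' : (0 : ℝ) < b := by exact_mod_cast (by omega : 0 < b)
  set ζ := χ ((1 + b ^ i₀ : ℕ) : ZMod (b ^ m)) with hζ
  have hn : 2 ≤ b ^ i₀ := by
    calc 2 ≤ b := hb
      _ = b ^ 1 := (pow_one b).symm
      _ ≤ b ^ i₀ := Nat.pow_le_pow_right (by omega) (by omega)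
  -- the averaged sum
  have hav : ((b : ℝ) ^ l) * ‖cc b p F V χ t‖ ≤
      ∑ ω ∈ RR b p m F, Hz (ζ ^ inv (b ^ i₀) (rlo b i₀ ω)) := by
    have e := avgL (m := m) (F := F) hB hi1 hl hlF (fun ω => trm b m V χ t ω)
    rw [← cc_eq, nsmul_eq_mul] at e
    have e2 : ((b : ℝ) ^ l) * ‖cc b p F V χ t‖ = ‖((b ^ l : ℕ) : ℂ) * cc b p F V χ t‖ := by
      rw [norm_mul, Complex.norm_natCast]; push_cast; rfl
    rw [e2, ← e]
    refine (norm_sum_le _ _).trans (Finset.sum_le_sum fun ω hω => ?_)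
    obtain ⟨A, hA, hs⟩ := inner_eq (V := V) hB hl hi1 (by omega) h1 hi3 t hω
    rw [hs, norm_mul, RCLike.norm_conj]
    have hrc : (rlo b i₀ ω).Coprime b := coprime_of_mod hB (rlo_mod (by omega) hi1 hω)
    obtain ⟨hu1, hu2⟩ := inv_spec hn (Nat.Coprime.pow_right i₀ hrc)
    have huc : (inv (b ^ i₀) (rlo b i₀ ω)).Coprime b := by
      have h3 : (inv (b ^ i₀) (rlo b i₀ ω) * rlo b i₀ ω).gcd (b ^ i₀) = 1 := by
        rw [Nat.ModEq.gcd_eq hu2]; simp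
      have h4 : (inv (b ^ i₀) (rlo b i₀ ω)).Coprime (b ^ i₀) :=
        Nat.Coprime.coprime_mul_right h3
      exact h4.coprime_dvd_right (dvd_pow_self b (by omega))
    have hne := zeta_u_ne hb (by omega) h1 hi3 hi2 h2 huc
    have hle : ‖ζ ^ inv (b ^ i₀) (rlo b i₀ ω)‖ ≤ 1 := by
      rw [norm_pow]; exact pow_le_one₀ (norm_nonneg _) (DirichletCharacter.norm_le_one _ _)
    calc ‖A‖ * _ ≤ 1 * Hz (ζ ^ inv (b ^ i₀) (rlo b i₀ ω)) := by
          gcongr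
          · exact hA hV
          · exact geo_le hle hne _
      _ = _ := one_mul _
  have hfib := sum_fibL (F := F) (m := m) (i₀ := i₀) hB (by omega)
    (fun r => Hz (ζ ^ inv (b ^ i₀) r)) (fun r => Hz_nonneg _)
    ((Finset.range (b ^ i₀)).filter fun r => r.Coprime (b ^ i₀)) (by
      intro ω hω
      rw [Finset.mem_filter, Finset.mem_range]
      exact ⟨rlo_lt hB hω _, Nat.Coprime.pow_right i₀
        (coprime_of_mod hB (rlo_mod (by omega) hi1 hω))⟩)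
  have hz1 : ζ ^ (b ^ i₀) = 1 := by
    apply zeta_pow hb (by omega) h1 hi3
    rw [← pow_add]
    exact pow_dvd_pow b (by omega)
  have hs := sum_inv hn hz1
  have hRR : (0 : ℝ) ≤ (RR b p m F).card := Nat.cast_nonneg _
  have hlog : (0 : ℝ) ≤ Real.log b := Real.log_nonneg (by exact_mod_cast (by omega : 1 ≤ b))
  have hpow : (0 : ℝ) < (b : ℝ) ^ i₀ := by positivity
  -- combine
  have h5 : (∑ ω ∈ RR b p m F, Hz (ζ ^ inv (b ^ i₀) (rlo b i₀ ω))) ≤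
      b * (RR b p m F).card * (1 + i₀ * Real.log b) := by
    have h6 : (∑ ω ∈ RR b p m F, Hz (ζ ^ inv (b ^ i₀) (rlo b i₀ ω))) * (b : ℝ) ^ i₀ ≤
        b * (RR b p m F).card * ((b : ℝ) ^ i₀ * (1 + i₀ * Real.log b)) := by
      refine hfib.trans ?_
      have h7 : ((b ^ i₀ : ℕ) : ℝ) * (1 + Real.log ((b ^ i₀ : ℕ) : ℝ)) =
          (b : ℝ) ^ i₀ * (1 + i₀ * Real.log b) := by
        push_cast; rw [Real.log_pow]
      rw [h7] at hs
      exact mul_le_mul_of_nonneg_left hs (by positivity)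
    have h8 : b * ((RR b p m F).card : ℝ) * ((b : ℝ) ^ i₀ * (1 + i₀ * Real.log b)) =
        b * (RR b p m F).card * (1 + i₀ * Real.log b) * (b : ℝ) ^ i₀ := by ring
    rw [h8] at h6
    exact le_of_mul_le_mul_right h6 hpow
  have h9 : ((b : ℝ) ^ l) * ‖cc b p F V χ t‖ ≤
      (b : ℝ) ^ 2 * (RR b p m F).card * (m * Real.log b + 1) := by
    refine hav.trans (h5.trans ?_)
    have him : (i₀ : ℝ) ≤ m := by exact_mod_cast (by omega : i₀ ≤ m)
    have h10 : (1 : ℝ) + i₀ * Real.log b ≤ m * Real.log b + 1 := by nlinarith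
    have h11 : (b : ℝ) ≤ (b : ℝ) ^ 2 := by
      have : (1 : ℝ) ≤ b := by exact_mod_cast (by omega : 1 ≤ b)
      nlinarith
    gcongr
  have hbl : (0 : ℝ) < (b : ℝ) ^ l := by positivity
  rw [mul_comm, ← le_div_iff₀ hbl] at h9
  refine h9.trans (le_of_eq ?_)
  rw [div_eq_mul_inv]
  ring

theorem van : VanProp := by
  intro b p m m' F V hB hF hm2 hmm hmF χ h1 h2 t
  have hb : 2 ≤ b := by have := hB.two; omega
  obtain ⟨i₀, rfl⟩ : ∃ i₀, m' = i₀ + 1 := ⟨m' - 1, by omega⟩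
  have hi1 : 1 ≤ i₀ := by omega
  have hn : 2 ≤ b ^ i₀ := by
    calc 2 ≤ b := hb
      _ = b ^ 1 := (pow_one b).symm
      _ ≤ b ^ i₀ := Nat.pow_le_pow_right (by omega) (by omega)
  have e := avgL (m := m) (F := F) (l := 1) hB hi1 hmm
    ((Finset.Ico_subset_Ico_left hi1).trans hmF) (fun ω => trm b m V χ t ω)
  rw [← cc_eq, nsmul_eq_mul] at e
  have h0 : ∀ ω ∈ RR b p m F, ∑ z ∈ Finset.range (b ^ 1), trm b m V χ t (putL b i₀ 1 z ω) = 0 := by
    intro ω hω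
    obtain ⟨A, hA, hs⟩ := inner_eq (V := V) (l := 1) hB hmm hi1 (by omega) h1 (by omega) t hω
    rw [hs]
    have hrc : (rlo b i₀ ω).Coprime b := coprime_of_mod hB (rlo_mod (by omega) hi1 hω)
    obtain ⟨hu1, hu2⟩ := inv_spec hn (Nat.Coprime.pow_right i₀ hrc)
    have huc : (inv (b ^ i₀) (rlo b i₀ ω)).Coprime b := by
      have h3 : (inv (b ^ i₀) (rlo b i₀ ω) * rlo b i₀ ω).gcd (b ^ i₀) = 1 := by
        rw [Nat.ModEq.gcd_eq hu2]; simp
      have h4 : (inv (b ^ i₀) (rlo b i₀ ω)).Coprime (b ^ i₀) :=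
        Nat.Coprime.coprime_mul_right h3
      exact h4.coprime_dvd_right (dvd_pow_self b (by omega))
    have hne := zeta_u_ne (i₀ := i₀) hb (by omega) h1 (by omega) (by omega) h2 huc
    rw [geom_sum_eq hne, pow_one, ← pow_mul, mul_comm _ b, pow_mul,
      zeta_pow hb (by omega) h1 (by omega) (by rw [← pow_succ]), one_pow, sub_self, zero_div,
      map_zero, mul_zero]
  rw [Finset.sum_congr rfl h0, Finset.sum_const_zero] at e
  have : ((b ^ 1 : ℕ) : ℂ) ≠ 0 := by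
    rw [Nat.cast_ne_zero]; positivity
  exact (mul_eq_zero.1 e.symm).resolve_left this

end Pool.Agent.HPZ
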