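import Pool.Agent.HPZ.Defs
import Pool.Agent.HPP.DPut

/-! # HPZ/DPut: resampling the digits of a block (port of `HPP/DPut` to full digit sets) -/

namespace Pool.Agent.HPZ

open Pool.Agent.HPP (dg_sum dg_lt dg_get sum_split sum_blk sum_blk_rev putL putT blkL blkT ext1 ext2
  ext1_fin ext2_fin blkL_eq blkT_eq blkL_put blkT_put rlo rhi)

variable {b p m i₀ l : ℕ} {F : Finset ℕ}

lemma mem_RR {ω : Fin m → ℕ × ℕ} : ω ∈ RR b p m F ↔ ∀ i : Fin m, ω i ∈ Sd b p F i := by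
  simp [RR, Fintype.mem_piFinset]

lemma Sd_lt (hB : Bas b p) {i : ℕ} {s : ℕ × ℕ} (h : s ∈ Sd b p F i) : s.1 < b ∧ s.2 < b := by
  unfold Sd at h
  split_ifs at h with h0 h1
  · rw [Finset.mem_singleton] at h
    subst h
    exact ⟨hB.lt, hB.lt⟩
  · simpa using h
  · simp only [Finset.mem_image, Finset.mem_range] at h
    obtain ⟨d, hd, rfl⟩ := h
    exact ⟨by simp; omega, by simp; omega⟩

lemma ext1_lt (hB : Bas b p) {ω : Fin m → ℕ × ℕ} (h : ω ∈ RR b p m F) (i : ℕ) :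
    ext1 ω i < b := by
  unfold ext1
  split_ifs with h'
  · exact (Sd_lt hB (mem_RR.1 h ⟨i, h'⟩)).1
  · have := hB.two; omega

lemma ext2_lt (hB : Bas b p) {ω : Fin m → ℕ × ℕ} (h : ω ∈ RR b p m F) (i : ℕ) :
    ext2 ω i < b := by
  unfold ext2
  split_ifs with h'
  · exact (Sd_lt hB (mem_RR.1 h ⟨i, h'⟩)).2
  · have := hB.two; omega

lemma Sd_free {i : ℕ} (hi : 1 ≤ i) (hF : i ∈ F) :
    Sd b p F i = Finset.range b ×ˢ Finset.range b := by
  unfold Sd; rw [if_neg (by omega), if_pos hF]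

lemma blkL_lt (hB : Bas b p) (h : i₀ + l ≤ m) {ω : Fin m → ℕ × ℕ} (hω : ω ∈ RR b p m F) :
    blkL b i₀ l ω < b ^ l := by
  rw [blkL_eq h]
  exact dg_lt _ _ fun s _ => ext1_lt hB hω _

lemma blkT_lt (hB : Bas b p) (h : i₀ + l ≤ m) {ω : Fin m → ℕ × ℕ} (hω : ω ∈ RR b p m F) :
    blkT b i₀ l ω < b ^ l := by
  rw [blkT_eq h]
  exact dg_lt (fun s => ext2 ω (i₀ + l - 1 - s)) _ fun s _ => ext2_lt hB hω _

lemma putL_mem (hB : Bas b p) (hi : 1 ≤ i₀) (hF : Finset.Ico i₀ (i₀ + l) ⊆ F) (z : ℕ)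
    {ω : Fin m → ℕ × ℕ} (hω : ω ∈ RR b p m F) : putL b i₀ l z ω ∈ RR b p m F := by
  rw [mem_RR] at hω ⊢
  intro i
  unfold putL
  split_ifs with h
  · rw [Sd_free (by omega) (hF (Finset.mem_Ico.2 h))]
    have := (Sd_lt hB (hω i)).2
    have hb : 0 < b := by have := hB.two; omega
    simp [Nat.mod_lt _ hb, this]
  · exact hω i

lemma putT_mem (hB : Bas b p) (hi : 1 ≤ i₀) (hF : Finset.Ico i₀ (i₀ + l) ⊆ F) (z : ℕ)
    {ω : Fin m → ℕ × ℕ} (hω : ω ∈ RR b p m F) : putT b i₀ l z ω ∈ RR b p m F := by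
  rw [mem_RR] at hω ⊢
  intro i
  unfold putT
  split_ifs with h
  · rw [Sd_free (by omega) (hF (Finset.mem_Ico.2 h))]
    have := (Sd_lt hB (hω i)).1
    have hb : 0 < b := by have := hB.two; omega
    simp [Nat.mod_lt _ hb, this]
  · exact hω i

lemma putL_put (hB : Bas b p) (h : i₀ + l ≤ m) (z : ℕ) {ω : Fin m → ℕ × ℕ}
    (hω : ω ∈ RR b p m F) : putL b i₀ l (blkL b i₀ l ω) (putL b i₀ l z ω) = ω := by
  funext i
  by_cases h1 : i₀ ≤ (i : ℕ) ∧ (i : ℕ) < i₀ + l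
  · have hb : 0 < b := by have := hB.two; omega
    have := dg_get hb (fun s => ext1 ω (i₀ + s)) l (fun s _ => ext1_lt hB hω _)
      ((i : ℕ) - i₀) (by omega)
    have e : i₀ + ((i : ℕ) - i₀) = i := by omega
    simp only [e, ext1_fin] at this
    simp only [putL, h1, and_self, if_true, blkL_eq h]
    ext
    · exact this
    · rfl
  · simp [putL, h1]

lemma putT_put (hB : Bas b p) (h : i₀ + l ≤ m) (z : ℕ) {ω : Fin m → ℕ × ℕ}
    (hω : ω ∈ RR b p m F) : putT b i₀ l (blkT b i₀ l ω) (putT b i₀ l z ω) = ω := by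
  funext i
  by_cases h1 : i₀ ≤ (i : ℕ) ∧ (i : ℕ) < i₀ + l
  · have hb : 0 < b := by have := hB.two; omega
    have := dg_get hb (fun s => ext2 ω (i₀ + l - 1 - s)) l (fun s _ => ext2_lt hB hω _)
      (i₀ + l - 1 - (i : ℕ)) (by omega)
    have e : i₀ + l - 1 - (i₀ + l - 1 - (i : ℕ)) = i := by omega
    simp only [e, ext2_fin] at this
    simp only [putT, h1, and_self, if_true, blkT_eq h]
    ext
    · rfl
    · exact this
  · simp [putT, h1]

/-- averaging over the low digits of a free block -/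
theorem avgL {M : Type*} [AddCommMonoid M] (hB : Bas b p) (hi : 1 ≤ i₀) (h : i₀ + l ≤ m)
    (hF : Finset.Ico i₀ (i₀ + l) ⊆ F) (f : (Fin m → ℕ × ℕ) → M) :
    ∑ ω ∈ RR b p m F, ∑ z ∈ Finset.range (b ^ l), f (putL b i₀ l z ω) =
      b ^ l • ∑ ω ∈ RR b p m F, f ω := by
  have e : b ^ l • ∑ ω ∈ RR b p m F, f ω =
      ∑ ω ∈ RR b p m F, ∑ _z ∈ Finset.range (b ^ l), f ω := by
    simp [Finset.sum_const, Finset.smul_sum]
  rw [e, ← Finset.sum_product', ← Finset.sum_product']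
  refine Finset.sum_nbij' (fun x => (putL b i₀ l x.2 x.1, blkL b i₀ l x.1))
    (fun x => (putL b i₀ l x.2 x.1, blkL b i₀ l x.1)) ?_ ?_ ?_ ?_ ?_
  · rintro ⟨ω, z⟩ hx
    rw [Finset.mem_product, Finset.mem_range] at hx ⊢
    exact ⟨putL_mem hB hi hF _ hx.1, blkL_lt hB h hx.1⟩
  · rintro ⟨ω, z⟩ hx
    rw [Finset.mem_product, Finset.mem_range] at hx ⊢
    exact ⟨putL_mem hB hi hF _ hx.1, blkL_lt hB h hx.1⟩
  · rintro ⟨ω, z⟩ hx
    rw [Finset.mem_product, Finset.mem_range] at hx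
    simp only
    rw [putL_put hB h _ hx.1, blkL_put h hx.2]
  · rintro ⟨ω, z⟩ hx
    rw [Finset.mem_product, Finset.mem_range] at hx
    simp only
    rw [putL_put hB h _ hx.1, blkL_put h hx.2]
  · rintro ⟨ω, z⟩ _
    rfl

/-- averaging over the top digits of a free block -/
theorem avgT {M : Type*} [AddCommMonoid M] (hB : Bas b p) (hi : 1 ≤ i₀) (h : i₀ + l ≤ m)
    (hF : Finset.Ico i₀ (i₀ + l) ⊆ F) (f : (Fin m → ℕ × ℕ) → M) :
    ∑ ω ∈ RR b p m F, ∑ z ∈ Finset.range (b ^ l), f (putT b i₀ l z ω) =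
      b ^ l • ∑ ω ∈ RR b p m F, f ω := by
  have e : b ^ l • ∑ ω ∈ RR b p m F, f ω =
      ∑ ω ∈ RR b p m F, ∑ _z ∈ Finset.range (b ^ l), f ω := by
    simp [Finset.sum_const, Finset.smul_sum]
  rw [e, ← Finset.sum_product', ← Finset.sum_product']
  refine Finset.sum_nbij' (fun x => (putT b i₀ l x.2 x.1, blkT b i₀ l x.1))
    (fun x => (putT b i₀ l x.2 x.1, blkT b i₀ l x.1)) ?_ ?_ ?_ ?_ ?_
  · rintro ⟨ω, z⟩ hx
    rw [Finset.mem_product, Finset.mem_range] at hx ⊢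
    exact ⟨putT_mem hB hi hF _ hx.1, blkT_lt hB h hx.1⟩
  · rintro ⟨ω, z⟩ hx
    rw [Finset.mem_product, Finset.mem_range] at hx ⊢
    exact ⟨putT_mem hB hi hF _ hx.1, blkT_lt hB h hx.1⟩
  · rintro ⟨ω, z⟩ hx
    rw [Finset.mem_product, Finset.mem_range] at hx
    simp only
    rw [putT_put hB h _ hx.1, blkT_put h hx.2]
  · rintro ⟨ω, z⟩ hx
    rw [Finset.mem_product, Finset.mem_range] at hx
    simp only
    rw [putT_put hB h _ hx.1, blkT_put h hx.2]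
  · rintro ⟨ω, z⟩ _
    rfl

/-- the low value after resampling -/
lemma lowv_putL (h : i₀ + l ≤ m) {z : ℕ} (hz : z < b ^ l) (ω : Fin m → ℕ × ℕ) :
    lowv b (putL b i₀ l z ω) = lowv b (putL b i₀ l 0 ω) + b ^ i₀ * z := by
  unfold lowv
  have e : b ^ i₀ * z = ∑ i : Fin m, if i₀ ≤ (i : ℕ) ∧ (i : ℕ) < i₀ + l then
      z / b ^ ((i : ℕ) - i₀) % b * b ^ (i : ℕ) else 0 := by
    rw [sum_blk h fun i => z / b ^ (i - i₀) % b * b ^ i]
    simp only [Nat.add_sub_cancel_left]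
    have : ∀ s ∈ Finset.range l, z / b ^ s % b * b ^ (i₀ + s) =
        b ^ i₀ * (z / b ^ s % b * b ^ s) := fun s _ => by rw [pow_add]; ring
    rw [Finset.sum_congr rfl this, ← Finset.mul_sum, dg_sum, Nat.mod_eq_of_lt hz]
  rw [e, ← Finset.sum_add_distrib]
  refine Finset.sum_congr rfl fun i _ => ?_
  by_cases h1 : i₀ ≤ (i : ℕ) ∧ (i : ℕ) < i₀ + l
  · simp [putL, h1]
  · simp [putL, h1]

/-- the top value after resampling -/
lemma topv_putT (h : i₀ + l ≤ m) {z : ℕ} (hz : z < b ^ l) (ω : Fin m → ℕ × ℕ) :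
    topv b (putT b i₀ l z ω) = topv b (putT b i₀ l 0 ω) + b ^ (m - i₀ - l) * z := by
  unfold topv
  have e : b ^ (m - i₀ - l) * z = ∑ i : Fin m, if i₀ ≤ (i : ℕ) ∧ (i : ℕ) < i₀ + l then
      z / b ^ (i₀ + l - 1 - (i : ℕ)) % b * b ^ (m - 1 - (i : ℕ)) else 0 := by
    rw [sum_blk_rev h fun i => z / b ^ (i₀ + l - 1 - i) % b * b ^ (m - 1 - i)]
    have : ∀ s ∈ Finset.range l, z / b ^ (i₀ + l - 1 - (i₀ + l - 1 - s)) % b *
        b ^ (m - 1 - (i₀ + l - 1 - s)) = b ^ (m - i₀ - l) * (z / b ^ s % b * b ^ s) := by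
      intro s hs
      rw [Finset.mem_range] at hs
      have e1 : i₀ + l - 1 - (i₀ + l - 1 - s) = s := by omega
      have e2 : m - 1 - (i₀ + l - 1 - s) = (m - i₀ - l) + s := by omega
      rw [e1, e2, pow_add]; ring
    rw [Finset.sum_congr rfl this, ← Finset.mul_sum, dg_sum, Nat.mod_eq_of_lt hz]
  rw [e, ← Finset.sum_add_distrib]
  refine Finset.sum_congr rfl fun i _ => ?_
  by_cases h1 : i₀ ≤ (i : ℕ) ∧ (i : ℕ) < i₀ + l
  · simp [putT, h1]
  · simp [putT, h1]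

lemma topv_putL (z : ℕ) (ω : Fin m → ℕ × ℕ) : topv b (putL b i₀ l z ω) = topv b ω := by
  unfold topv
  refine Finset.sum_congr rfl fun i _ => ?_
  unfold putL
  split_ifs <;> rfl

lemma lowv_putT (z : ℕ) (ω : Fin m → ℕ × ℕ) : lowv b (putT b i₀ l z ω) = lowv b ω := by
  unfold lowv
  refine Finset.sum_congr rfl fun i _ => ?_
  unfold putT
  split_ifs <;> rfl

lemma lowv_eq (ω : Fin m → ℕ × ℕ) : lowv b ω = ∑ s ∈ Finset.range m, ext1 ω s * b ^ s := by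
  unfold lowv
  rw [← Fin.sum_univ_eq_sum_range (fun s => ext1 ω s * b ^ s) m]
  simp [ext1_fin]

lemma topv_eq (ω : Fin m → ℕ × ℕ) :
    topv b ω = ∑ s ∈ Finset.range m, ext2 ω s * b ^ (m - 1 - s) := by
  unfold topv
  rw [← Fin.sum_univ_eq_sum_range (fun s => ext2 ω s * b ^ (m - 1 - s)) m]
  simp [ext2_fin]

lemma rlo_lt (hB : Bas b p) {ω : Fin m → ℕ × ℕ} (hω : ω ∈ RR b p m F) (i₀ : ℕ) :
    rlo b i₀ ω < b ^ i₀ := dg_lt _ _ fun _ _ => ext1_lt hB hω _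

lemma rhi_lt (hB : Bas b p) {ω : Fin m → ℕ × ℕ} (hω : ω ∈ RR b p m F) (i₀ : ℕ) :
    rhi b i₀ ω < b ^ i₀ := dg_lt (fun s => ext2 ω (i₀ - 1 - s)) _ fun _ _ => ext2_lt hB hω _

/-- the low value with the block cleared -/
lemma lowv_split (h : i₀ + l ≤ m) (ω : Fin m → ℕ × ℕ) :
    ∃ W, lowv b (putL b i₀ l 0 ω) = rlo b i₀ ω + b ^ i₀ * W := by
  rw [lowv_eq]
  refine ⟨∑ s ∈ Finset.range (m - i₀), ext1 (putL b i₀ l 0 ω) (i₀ + s) * b ^ s, ?_⟩
  rw [sum_split (show i₀ ≤ m by omega)]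
  congr 1
  · unfold rlo
    refine Finset.sum_congr rfl fun s hs => ?_
    rw [Finset.mem_range] at hs
    congr 1
    unfold ext1 putL
    split_ifs with h1 h2
    · simp only at h2; omega
    · rfl
    · rfl
  · rw [Finset.mul_sum]
    refine Finset.sum_congr rfl fun s _ => ?_
    rw [pow_add]; ring

/-- the top value with the block cleared -/
lemma topv_split (hB : Bas b p) (h : i₀ + l ≤ m) {ω : Fin m → ℕ × ℕ} (hω : ω ∈ RR b p m F) :
    ∃ W, W < b ^ (m - i₀ - l) ∧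
      topv b (putT b i₀ l 0 ω) = rhi b i₀ ω * b ^ (m - i₀) + W := by
  rw [topv_eq]
  refine ⟨∑ s ∈ Finset.range (m - i₀ - l), ext2 ω (m - 1 - s) * b ^ s,
    dg_lt (fun s => ext2 ω (m - 1 - s)) _ fun s _ => ext2_lt hB hω _, ?_⟩
  rw [sum_split (show i₀ ≤ m by omega), sum_split (show l ≤ m - i₀ by omega)]
  have z1 : ∀ s ∈ Finset.range l, ext2 (putT b i₀ l 0 ω) (i₀ + s) * b ^ (m - 1 - (i₀ + s)) = 0 := by
    intro s hs
    rw [Finset.mem_range] at hs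
    have : ext2 (putT b i₀ l 0 ω) (i₀ + s) = 0 := by
      unfold ext2 putT
      rw [dif_pos (show i₀ + s < m by omega)]
      simp only
      rw [if_pos ⟨by omega, by omega⟩]
      simp
    rw [this, zero_mul]
  rw [Finset.sum_eq_zero z1, zero_add]
  congr 1
  · unfold rhi
    rw [Finset.sum_mul, ← Finset.sum_range_reflect]
    refine Finset.sum_congr rfl fun s hs => ?_
    rw [Finset.mem_range] at hs
    have e1 : m - 1 - (i₀ - 1 - s) = s + (m - i₀) := by omega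
    rw [e1, pow_add, ← mul_assoc]
    congr 2
    unfold ext2 putT
    split_ifs with h1 h2
    · simp only at h2; omega
    · rfl
    · rfl
  · rw [← Finset.sum_range_reflect]
    refine Finset.sum_congr rfl fun s hs => ?_
    rw [Finset.mem_range] at hs
    have e1 : i₀ + (l + (m - i₀ - l - 1 - s)) = m - 1 - s := by omega
    have e2 : m - 1 - (m - 1 - s) = s := by omega
    rw [e1, e2]
    congr 1
    unfold ext2 putT
    split_ifs with h1 h2
    · simp only at h2; omega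
    · rfl
    · rfl

/-- the low value is `p` modulo `b` -/
lemma ext1_zero (hm : 0 < m) {ω : Fin m → ℕ × ℕ} (hω : ω ∈ RR b p m F) : ext1 ω 0 = p := by
  have := mem_RR.1 hω ⟨0, hm⟩
  unfold Sd at this
  simp only [if_true, Finset.mem_singleton] at this
  simp [ext1, hm, this]

lemma ext2_zero (hm : 0 < m) {ω : Fin m → ℕ × ℕ} (hω : ω ∈ RR b p m F) : ext2 ω 0 = p := by
  have := mem_RR.1 hω ⟨0, hm⟩
  unfold Sd at this
  simp only [if_true, Finset.mem_singleton] at this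
  simp [ext2, hm, this]

lemma rlo_mod (hm : 0 < m) (hi : 1 ≤ i₀) {ω : Fin m → ℕ × ℕ} (hω : ω ∈ RR b p m F) :
    rlo b i₀ ω ≡ p [MOD b] := by
  unfold rlo
  obtain ⟨j, rfl⟩ : ∃ j, i₀ = 1 + j := ⟨i₀ - 1, by omega⟩
  rw [Finset.sum_range_add]
  simp only [Finset.range_one, Finset.sum_singleton, pow_zero, mul_one, ext1_zero hm hω]
  have : ∑ x ∈ Finset.range j, ext1 ω (1 + x) * b ^ (1 + x) =
      b * ∑ x ∈ Finset.range j, ext1 ω (1 + x) * b ^ x := by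
    rw [Finset.mul_sum]
    refine Finset.sum_congr rfl fun x _ => ?_
    rw [pow_add]; ring
  rw [this]
  simp [Nat.ModEq]

end Pool.Agent.HPZ
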