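import Pool.Agent.HPZ.DLow
import Pool.Agent.HPP.DSm

/-! # HPZ/DSm: SmProp (full digit sets) -/

namespace Pool.Agent.HPZ

open Complex MeasureTheory
open Pool.Agent.HPP (gg gg_lip riem rlo rhi ext2 chi_congr norm_npow_le putT)

variable {b p m m' i₀ l : ℕ} {F : Finset ℕ} {V : ℝ → ℝ} {χ : DirichletCharacter ℂ (b ^ m)}

lemma lowv_mod (hm : 1 ≤ m) {ω : Fin m → ℕ × ℕ} (hω : ω ∈ RR b p m F) :
    lowv b ω ≡ p [MOD b] := by
  have := rlo_mod (i₀ := m) (by omega) hm hω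
  rwa [rlo, ← lowv_eq] at this

lemma chi_low (hb : 2 ≤ b) (hm : 1 ≤ m) (h : χ.FactorsThrough b) {ω : Fin m → ℕ × ℕ}
    (hω : ω ∈ RR b p m F) : χ (lowv b ω : ZMod (b ^ m)) = χ (p : ZMod (b ^ m)) := by
  have h' : χ.FactorsThrough (b ^ 1) := by rwa [pow_one]
  exact chi_congr hb le_rfl h' (by rw [pow_one]; exact lowv_mod hm hω)

/-- the summand, for characters modulo `b` -/
lemma trm_gg (hb : 2 ≤ b) (hm : 1 ≤ m) (h : χ.FactorsThrough b) (t : ℝ) {ω : Fin m → ℕ × ℕ}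
    (hω : ω ∈ RR b p m F) : trm b m V χ t ω =
      (starRingEnd ℂ) (χ (p : ZMod (b ^ m))) * ((b : ℂ) ^ (m - 1)) ^ (-(t * I)) *
        gg V t ((topv b ω : ℝ) / (b : ℝ) ^ (m - 1)) := by
  unfold trm gg wt
  rw [chi_low hb hm h hω]
  have hbr : (0 : ℝ) < (b : ℝ) ^ (m - 1) := by
    have : (0 : ℝ) < b := by exact_mod_cast (by omega : 0 < b)
    positivity
  have e : ((topv b ω : ℕ) : ℂ) = (((b : ℝ) ^ (m - 1) : ℝ) : ℂ) *
      (((topv b ω : ℝ) / (b : ℝ) ^ (m - 1) : ℝ) : ℂ) := by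
    rw [← Complex.ofReal_mul]
    rw [mul_div_cancel₀ _ hbr.ne']
    simp
  rw [e, Complex.mul_cpow_ofReal_nonneg hbr.le (by positivity)]
  push_cast
  ring

lemma topv_ge (hm : 1 ≤ m) {ω : Fin m → ℕ × ℕ} (hω : ω ∈ RR b p m F) :
    p * b ^ (m - 1) ≤ topv b ω := by
  rw [topv_eq, ← ext2_zero (by omega) hω]
  have := Finset.single_le_sum (f := fun s => ext2 ω s * b ^ (m - 1 - s)) (fun i _ => Nat.zero_le _)
    (Finset.mem_range.2 (by omega : 0 < m))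
  simpa using this

theorem sm : SmProp := by
  refine ⟨1, le_rfl, ?_⟩
  intro b p m w F V K hB hF hV hK0 hK hw hwm hwF χ h t
  have hb : 2 ≤ b := by have := hB.two; omega
  have hb' : (0 : ℝ) < b := by exact_mod_cast (by omega : 0 < b)
  have hm : 1 ≤ m := by omega
  obtain ⟨l, rfl⟩ : ∃ l, w = 1 + l := ⟨w - 1, by omega⟩
  set P := (starRingEnd ℂ) (χ (p : ZMod (b ^ m))) * ((b : ℂ) ^ (m - 1)) ^ (-(t * I)) with hP
  have hPn : ‖P‖ ≤ 1 := by
    rw [hP, norm_mul, RCLike.norm_conj]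
    have h1 : ‖χ (p : ZMod (b ^ m))‖ ≤ 1 := DirichletCharacter.norm_le_one _ _
    have h2 := norm_npow_le (b ^ (m - 1)) t
    push_cast at h2
    calc ‖χ (p : ZMod (b ^ m))‖ * ‖((b : ℂ) ^ (m - 1)) ^ (-(t * I))‖ ≤ 1 * 1 := by gcongr
      _ = 1 := by norm_num
  set J := ∫ y in (p : ℝ)..(p + 1 : ℝ), (V y : ℂ) * (y : ℂ) ^ (-(t * I)) with hJ
  have hp1 : (1 : ℝ) ≤ p := by exact_mod_cast hB.pos
  -- main estimate
  have hav : ((b : ℝ) ^ l) * ‖∑ ω ∈ RR b p m F, gg V t ((topv b ω : ℝ) / (b : ℝ) ^ (m - 1)) -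
      (RR b p m F).card * J‖ ≤ (RR b p m F).card * (K + |t|) := by
    have e := avgT (m := m) (F := F) hB le_rfl hwm hwF
      (fun ω => gg V t ((topv b ω : ℝ) / (b : ℝ) ^ (m - 1)))
    rw [nsmul_eq_mul] at e
    have e2 : ((b : ℝ) ^ l) * ‖∑ ω ∈ RR b p m F, gg V t ((topv b ω : ℝ) / (b : ℝ) ^ (m - 1)) -
        (RR b p m F).card * J‖ =
        ‖((b ^ l : ℕ) : ℂ) * ∑ ω ∈ RR b p m F, gg V t ((topv b ω : ℝ) / (b : ℝ) ^ (m - 1)) -
          ((b ^ l : ℕ) : ℂ) * ((RR b p m F).card * J)‖ := by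
      rw [← mul_sub, norm_mul, Complex.norm_natCast]; push_cast; rfl
    have e3 : ((b ^ l : ℕ) : ℂ) * ((RR b p m F).card * J) =
        ∑ ω ∈ RR b p m F, ((b ^ l : ℕ) : ℂ) * J := by
      rw [Finset.sum_const, nsmul_eq_mul]; ring
    have e8 : ((RR b p m F).card : ℝ) * (K + |t|) = ∑ _ω ∈ RR b p m F, (K + |t|) := by
      rw [Finset.sum_const, nsmul_eq_mul]
    rw [e2, ← e, e3, ← Finset.sum_sub_distrib, e8]
    refine (norm_sum_le _ _).trans (Finset.sum_le_sum fun ω hω => ?_)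
    obtain ⟨W, hW1, hW2⟩ := topv_split hB hwm hω
    have hrhi : rhi b 1 ω = p := by
      unfold rhi; simp [ext2_zero (by omega) hω]
    rw [hrhi] at hW2
    have hN : 1 ≤ b ^ l := Nat.one_le_pow _ _ (by omega)
    have hθ0 : (0 : ℝ) ≤ (W : ℝ) / (b : ℝ) ^ (m - 1 - l) := by positivity
    have hθ1 : (W : ℝ) / (b : ℝ) ^ (m - 1 - l) ≤ 1 := by
      rw [div_le_one (by positivity)]
      exact_mod_cast hW1.le
    have hr := riem (g := gg V t) (L := K + |t|) (a := p) (by positivity)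
      (fun y hy z hz => gg_lip hV hK t (hp1.trans hy.1) (hp1.trans hz.1)) hθ0 hθ1 hN
    have e4 : ∀ z ∈ Finset.range (b ^ l), gg V t ((topv b (putT b 1 l z ω) : ℝ) /
        (b : ℝ) ^ (m - 1)) = gg V t (p + (z + (W : ℝ) / (b : ℝ) ^ (m - 1 - l)) / ((b ^ l : ℕ) : ℝ)) := by
      intro z hz
      rw [Finset.mem_range] at hz
      rw [topv_putT hwm hz, hW2]
      congr 1
      have e5 : (b : ℝ) ^ (m - 1) = (b : ℝ) ^ (m - 1 - l) * (b : ℝ) ^ l := by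
        rw [← pow_add]; congr 1; omega
      have h6 : (b : ℝ) ^ (m - 1 - l) ≠ 0 := by positivity
      have h7 : (b : ℝ) ^ l ≠ 0 := by positivity
      push_cast
      rw [e5]
      field_simp
      ring
    rw [Finset.sum_congr rfl e4]
    exact hr
  have e6 : cc b p F V χ t - P * (RR b p m F).card * J =
      P * (∑ ω ∈ RR b p m F, gg V t ((topv b ω : ℝ) / (b : ℝ) ^ (m - 1)) -
        (RR b p m F).card * J) := by
    rw [cc_eq, Finset.sum_congr rfl fun ω hω => trm_gg hb hm h t hω, ← Finset.mul_sum]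
    ring
  rw [e6, norm_mul]
  have hbl : (0 : ℝ) < (b : ℝ) ^ l := by positivity
  have h7 : ‖∑ ω ∈ RR b p m F, gg V t ((topv b ω : ℝ) / (b : ℝ) ^ (m - 1)) -
      (RR b p m F).card * J‖ ≤ (RR b p m F).card * (K + |t|) / (b : ℝ) ^ l := by
    rw [le_div_iff₀ hbl, mul_comm]; exact hav
  have h8 : K + |t| ≤ (1 + K) * (1 + |t|) := by nlinarith [abs_nonneg t]
  have hb1 : (1 : ℝ) ≤ b := by exact_mod_cast (by omega : 1 ≤ b)
  calc ‖P‖ * _ ≤ 1 * ((RR b p m F).card * (K + |t|) / (b : ℝ) ^ l) := by gcongr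
    _ ≤ 1 * ((RR b p m F).card * ((1 + K) * (1 + |t|)) / (b : ℝ) ^ l) := by gcongr
    _ = (1 + K) * (1 + |t|) * (b : ℝ) * ((b : ℝ) ^ (1 + l))⁻¹ * (RR b p m F).card := by
      rw [pow_add, pow_one]; field_simp
    _ ≤ (1 + K) * (1 + |t|) * (b : ℝ) ^ 2 * ((b : ℝ) ^ (1 + l))⁻¹ * (RR b p m F).card := by
      gcongr
      nlinarith
    _ = _ := by ring

end Pool.Agent.HPZ
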