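import Pool.Agent.HPP.ADefs

/-!
# HPZ/Defs: primes whose outer digits are palindromic, EVERY base (MP_e8d2ce_nt)

Target `FinalZ`: for every base `b ≥ 2`, every `ε > 0` and all large `k` there is a set `M` of at least
`(5/18 - ε) k` positions `i < 5 k / 18` such that `≥ c b^(k - #M) / k` primes with exactly `k` digits have
`d_i = d_(k-1-i)` for all `i ∈ M`.

As `HPP/Defs`, but with FULL digit sets at the matched positions and `p` any digit prime to `b` (`p = 1` in
the application). `PP, Gt, SS, gw, Bk, Fr, Bp, eh, GG, II, uw, pc, DP, nt, LM, fac, VV, gk, tyf, Sm` are those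
of `HPP` (open the namespace `Pool.Agent.HPP` but use the definitions `Sd, RR, lowv, topv, wt, cc, Bas` of THIS
file: they have the same names, write `HPZ.RR` etc. if Lean complains, or do not open `Pool.Agent.HPP` for them).
-/

namespace Pool.Agent.HPZ

open Complex MeasureTheory

/-- base hypotheses: `1 ≤ p < b` a digit prime to `b` -/
structure Bas (b p : ℕ) : Prop where
  two : 2 ≤ b
  pos : 1 ≤ p
  lt : p < b
  cop : p.Coprime b

/-- admissible pairs (low digit, top digit) at position `i`; `F` = set of free positions -/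
def Sd (b p : ℕ) (F : Finset ℕ) (i : ℕ) : Finset (ℕ × ℕ) :=
  if i = 0 then {(p, p)}
  else if i ∈ F then Finset.range b ×ˢ Finset.range b
  else (Finset.range b).image fun d => (d, d)

/-- the set of patterns -/
def RR (b p m : ℕ) (F : Finset ℕ) : Finset (Fin m → ℕ × ℕ) :=
  Fintype.piFinset fun i => Sd b p F i

/-- the last `m` digits, as a number `< b ^ m` -/
def lowv (b : ℕ) {m : ℕ} (ω : Fin m → ℕ × ℕ) : ℕ := ∑ i, (ω i).1 * b ^ (i : ℕ)

/-- the first `m` digits, as a number in `[b ^ (m - 1), b ^ m)` -/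
def topv (b : ℕ) {m : ℕ} (ω : Fin m → ℕ × ℕ) : ℕ := ∑ i, (ω i).2 * b ^ (m - 1 - (i : ℕ))

/-- the weight of a pattern: `V` of the real number `d₀.d₁d₂...` formed by the first digits -/
noncomputable def wt (b : ℕ) (V : ℝ → ℝ) {m : ℕ} (ω : Fin m → ℕ × ℕ) : ℝ :=
  V ((topv b ω : ℝ) / (b : ℝ) ^ (m - 1))

/-- the sum `c(χ, t) = ∑_ω wt(ω) conj χ(low) top^(-it)` -/
noncomputable def cc (b p : ℕ) {m : ℕ} (F : Finset ℕ) (V : ℝ → ℝ)
    (χ : DirichletCharacter ℂ (b ^ m)) (t : ℝ) : ℂ :=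
  ∑ ω ∈ RR b p m F, (wt b V ω : ℂ) * (starRingEnd ℂ) (χ (lowv b ω : ZMod (b ^ m))) *
    (topv b ω : ℂ) ^ (-(t * I))

/-- the weight of `n`: patterns `ω` with `n ≡ low mod b^m` and `n` just above `h top` -/
noncomputable def nw (b p m k : ℕ) (F : Finset ℕ) (V η : ℝ → ℝ) (n : ℕ) : ℝ :=
  ∑ ω ∈ RR b p m F, wt b V ω * (if n ≡ lowv b ω [MOD b ^ m] then
    η ((b : ℝ) ^ m * (Real.log n - Real.log ((b : ℝ) ^ (k - m) * topv b ω))) else 0)

/-- the weighted sum over prime powers -/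
noncomputable def SSum (b p m k : ℕ) (F : Finset ℕ) (V η : ℝ → ℝ) : ℝ :=
  ∑' n : ℕ, ArithmeticFunction.vonMangoldt n *
    Real.exp (-(Real.log (n / (b : ℝ) ^ (k - 1))) ^ 2) * nw b p m k F V η n

/-- the range of `t` in the error terms: `|t| ≤ T`, and `κ ≤ |t|` if `χ` is a character mod `b` -/
def Es {b m : ℕ} (χ : DirichletCharacter ℂ (b ^ m)) (κ T : ℝ) : Set ℝ :=
  {t | |t| ≤ T ∧ (χ.FactorsThrough b → κ ≤ |t|)}

/-- error terms: characters not defined mod `b`, and characters mod `b` with `|t| ≥ b^(w/3)` -/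
noncomputable def Err (b p J w k : ℕ) (V : ℝ → ℝ) : ℝ :=
  ∑ χ : DirichletCharacter ℂ (b ^ (2 ^ J * w)),
    ∫ t in Es χ ((b : ℝ) ^ ((w : ℝ) / 3)) ((b : ℝ) ^ (2 ^ J * w + w / 4)),
      ‖cc b p (HPP.Fr J w) V χ t‖ * ‖HPP.PP χ t ((b : ℝ) ^ (k - 1))‖

end Pool.Agent.HPZ
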