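import Pool.Agent.HPZ.Iface
import Pool.Agent.HPZ.EBas
import Pool.Agent.HPP.AFin

/-!
# HPZ/RErr: all error terms (`ErrZ`)

`x = b^(k-1)`, `m = 2^J w`, `T = b^(m + w/4)` (natural division), `K = b^(w/3)`, `F = Fr J w`, `#F ≤ 3 J w` (`HPP.Fr_card`),
`s = b^(-w/24)` (`SupE`). `2 m + w ≤ (5/9)(k-1)` gives `b^m T ≤ x^(5/9)`. `k ≤ A w` gives `b^w ≥ x^(1/A)`, so `κ = 1 / (3 A)`
works for `K` and `T`. `PrimeProp` (its `δ` is absolute) with `ε' = 1 / (48 A)` : `x^(ε') ≤ b^(w/48)`. So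
`Err ≤ #RR x b^(w/48) (b^(-w/24) + Λ^(1/2) x^(-δ) + x^(-1/4))`, `Λ = (T / b^m) b^(3#F) ≤ b^(w/4 + 9Jw)`,
`Λ^(1/2) ≤ b^(5Jw)`; `x^δ ≥ b^(δ (9/5) 2^(J+1) w)`: choose `J₀` with `δ (9/5) 2^(J+1) ≥ 5 J + 1` for `J ≥ J₀ ≥ 5`, so
`Λ^(1/2) x^(-δ) ≤ b^(-w)`, `x^(-1/4) ≤ b^(-w)`. Total `≤ #RR x b^(-w/48) * 3 ≤ ε #RR x` for `w ≥ w₀`.
-/

namespace Pool.Agent.HPZ

open Complex MeasureTheory Filter

theorem Es_measurable {b m : ℕ} (χ : DirichletCharacter ℂ (b ^ m)) (κ T : ℝ) :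
    MeasurableSet (Es χ κ T) := by
  unfold Es
  by_cases h : χ.FactorsThrough b
  · have : {t : ℝ | |t| ≤ T ∧ (χ.FactorsThrough b → κ ≤ |t|)} =
        {t : ℝ | |t| ≤ T} ∩ {t : ℝ | κ ≤ |t|} := by
      ext t; simp [h]
    rw [this]
    exact (measurableSet_le measurable_id.abs measurable_const).inter
      (measurableSet_le measurable_const measurable_id.abs)
  · have : {t : ℝ | |t| ≤ T ∧ (χ.FactorsThrough b → κ ≤ |t|)} = {t : ℝ | |t| ≤ T} := by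
      ext t; simp [h]
    rw [this]
    exact measurableSet_le measurable_id.abs measurable_const

theorem Es_sub_Gt {b m : ℕ} (hm : 1 ≤ m) (χ : DirichletCharacter ℂ (b ^ m)) (κ T : ℝ) :
    Es χ κ T ⊆ HPP.Gt χ κ T := by
  intro t ht
  refine ⟨ht.1, fun h1 => ht.2 ?_⟩
  have hd : b ∣ b ^ m := dvd_pow_self b (by omega)
  refine ⟨hd, 1, ?_⟩
  rw [h1, DirichletCharacter.changeLevel_one]

private theorem RErr_J (δ : ℝ) (hδ : 0 < δ) : ∃ J₀ : ℕ, ∀ J : ℕ, J₀ ≤ J → 5 ≤ J ∧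
    5 * (J : ℝ) + 1 ≤ δ * (9 / 5) * (2 * 2 ^ J) := by
  have h1 : Tendsto (fun n : ℕ => (1 / 2 : ℝ) ^ n) atTop (nhds 0) :=
    tendsto_pow_atTop_nhds_zero_of_lt_one (by norm_num) (by norm_num)
  have h2 : Tendsto (fun n : ℕ => (n : ℝ) * (1 / 2 : ℝ) ^ n) atTop (nhds 0) :=
    tendsto_self_mul_const_pow_of_lt_one (by norm_num) (by norm_num)
  have e1 := h1.eventually (gt_mem_nhds (show (0 : ℝ) < δ by positivity))
  have e2 := h2.eventually (gt_mem_nhds (show (0 : ℝ) < δ / 5 by positivity))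
  obtain ⟨J₀, hJ₀⟩ := eventually_atTop.mp ((e1.and e2).and (eventually_ge_atTop 5))
  refine ⟨J₀, fun J hJ => ?_⟩
  obtain ⟨⟨a1, a2⟩, a3⟩ := hJ₀ J hJ
  refine ⟨a3, ?_⟩
  have hP : (0 : ℝ) < 2 ^ J := by positivity
  have hu : (1 / 2 : ℝ) ^ J * 2 ^ J = 1 := by
    rw [← mul_pow]; norm_num
  have b1 : 1 ≤ δ * 2 ^ J := by
    have := mul_le_mul_of_nonneg_right a1.le hP.le
    rwa [hu] at this
  have b2 : 5 * (J : ℝ) ≤ δ * 2 ^ J := by
    have := mul_le_mul_of_nonneg_right a2.le hP.le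
    rw [mul_assoc, hu, mul_one] at this
    linarith
  linarith

theorem errZ (h1 : PrimeProp) (h2 : SupE) : ErrZ := by
  intro V₀ η hB
  obtain ⟨δ, hδ, H1⟩ := h1
  obtain ⟨J₀, hJ₀⟩ := RErr_J δ hδ
  refine ⟨J₀, fun J hJ b p hbp A hA ε hε => ?_⟩
  obtain ⟨hJ5, hJδ⟩ := hJ₀ J hJ
  have hb2 : 2 ≤ b := hbp.two
  have hb2r : (2 : ℝ) ≤ b := by exact_mod_cast hb2
  have hb0 : (0 : ℝ) < b := by linarith
  have hb1 : (1 : ℝ) < b := by linarith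
  obtain ⟨x₀, hx₀⟩ := H1 b hb2 (1 / (48 * A)) (by positivity) (1 / (3 * A)) (by positivity)
  obtain ⟨w₁, hw₁⟩ := h2 V₀ η hB J hJ5 b p hbp
  -- the final smallness
  have hpow : Tendsto (fun w : ℕ => 3 * (b : ℝ) ^ (-(w : ℝ) / 48)) atTop (nhds (3 * 0)) := by
    refine Tendsto.const_mul 3 ?_
    have h1 : Tendsto (fun w : ℕ => (w : ℝ) / 48) atTop atTop :=
      Tendsto.atTop_div_const (by norm_num) tendsto_natCast_atTop_atTop
    have h2 : Tendsto (fun w : ℕ => Real.exp (-(Real.log b * ((w : ℝ) / 48)))) atTop (nhds 0) :=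
      Real.tendsto_exp_neg_atTop_nhds_zero.comp (Tendsto.const_mul_atTop (Real.log_pos hb1) h1)
    refine h2.congr fun w => ?_
    rw [Real.rpow_def_of_pos hb0]
    congr 1
    ring
  rw [mul_zero] at hpow
  obtain ⟨w₂, hw₂⟩ := eventually_atTop.mp (hpow.eventually (gt_mem_nhds hε))
  refine ⟨max 1 (max w₁ (max w₂ ⌈x₀⌉₊)), fun w hw k hk1 hk2 => ?_⟩
  have hw1 : 1 ≤ w := (le_max_left _ _).trans hw
  have hww₁ : w₁ ≤ w := ((le_max_left _ _).trans (le_max_right _ _)).trans hw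
  have hww₂ : w₂ ≤ w :=
    ((le_max_left _ _).trans ((le_max_right _ _).trans (le_max_right _ _))).trans hw
  have hwx : ⌈x₀⌉₊ ≤ w :=
    ((le_max_right _ _).trans ((le_max_right _ _).trans (le_max_right _ _))).trans hw
  set m : ℕ := 2 ^ J * w with hm
  set W : ℝ := (w : ℝ) with hW
  have hW1 : (1 : ℝ) ≤ W := by rw [hW]; exact_mod_cast hw1
  have hW0 : (0 : ℝ) < W := by linarith
  have hP : (1 : ℝ) ≤ 2 ^ J := one_le_pow₀ (by norm_num)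
  have hmr : (m : ℝ) = 2 ^ J * W := by rw [hm]; push_cast; ring
  have hPW : W ≤ 2 ^ J * W := by nlinarith
  have hm1 : 1 ≤ m := by
    have : (1 : ℝ) ≤ m := by rw [hmr]; linarith
    exact_mod_cast this
  have hkW : 9 * W ≤ 5 * ((k : ℝ) - 1) := by linarith
  have hk1' : 1 ≤ k := by
    have : (1 : ℝ) ≤ k := by linarith
    exact_mod_cast this
  have hkr : ((k - 1 : ℕ) : ℝ) = (k : ℝ) - 1 := by
    rw [Nat.cast_sub hk1']; norm_num
  -- `x` as a real power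
  set x : ℝ := (b : ℝ) ^ (k - 1) with hx
  have hxr : x = (b : ℝ) ^ ((k : ℝ) - 1) := by
    rw [hx, ← Real.rpow_natCast, hkr]
  have hx0 : 0 < x := by rw [hx]; positivity
  have hxp : ∀ y : ℝ, x ^ y = (b : ℝ) ^ (((k : ℝ) - 1) * y) := by
    intro y; rw [hxr, ← Real.rpow_mul hb0.le]
  have hmono : ∀ {u v : ℝ}, u ≤ v → (b : ℝ) ^ u ≤ (b : ℝ) ^ v :=
    fun h => Real.rpow_le_rpow_of_exponent_le hb1.le h
  have hwk : w ≤ k - 1 := by
    have : (w : ℝ) ≤ ((k - 1 : ℕ) : ℝ) := by rw [hkr]; linarith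
    exact_mod_cast this
  have hxx₀ : x₀ ≤ x := by
    have e1 : x₀ ≤ (w : ℝ) := Nat.ceil_le.mp hwx
    have e2 : w ≤ b ^ w := (Nat.lt_pow_self (by omega)).le
    have e3 : b ^ w ≤ b ^ (k - 1) := Nat.pow_le_pow_right (by omega) hwk
    have e4 : ((w : ℕ) : ℝ) ≤ ((b ^ (k - 1) : ℕ) : ℝ) := by exact_mod_cast e2.trans e3
    push_cast at e4
    exact e1.trans e4
  set T : ℝ := (b : ℝ) ^ (m + w / 4) with hT
  set K : ℝ := (b : ℝ) ^ (W / 3) with hK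
  set s : ℝ := (b : ℝ) ^ (-W / 24) with hs
  set F : Finset ℕ := HPP.Fr J w with hF
  set R : ℝ := ((RR b p m F).card : ℝ) with hR
  have hR0 : 0 ≤ R := Nat.cast_nonneg _
  have hd4 : ((w / 4 : ℕ) : ℝ) ≤ W / 4 := Nat.cast_div_le
  have hTr : T = (b : ℝ) ^ ((m : ℝ) + ((w / 4 : ℕ) : ℝ)) := by
    rw [hT, ← Real.rpow_natCast]; push_cast; rfl
  have hmT : (b : ℝ) ^ m ≤ T := by
    rw [hT]; exact pow_le_pow_right₀ hb1.le (by omega)
  have hmT2 : (b : ℝ) ^ m * T ≤ x ^ (5 / 9 : ℝ) := by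
    rw [hTr, ← Real.rpow_natCast b m, ← Real.rpow_add hb0, hxp]
    apply hmono
    rw [hmr]
    linarith
  have hkA : ((k : ℝ) - 1) ≤ A * W := by linarith
  have hκ : ((k : ℝ) - 1) * (1 / (3 * A)) ≤ W / 3 := by
    rw [mul_one_div, div_le_iff₀ (by positivity)]
    nlinarith
  have hε' : ((k : ℝ) - 1) * (1 / (48 * A)) ≤ W / 48 := by
    rw [mul_one_div, div_le_iff₀ (by positivity)]
    nlinarith
  have hxK : x ^ (1 / (3 * A)) ≤ K := by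
    rw [hxp, hK]; exact hmono hκ
  have hxT : x ^ (1 / (3 * A)) ≤ T := by
    rw [hxp, hTr]
    apply hmono
    rw [hmr]
    have : (0 : ℝ) ≤ ((w / 4 : ℕ) : ℝ) := Nat.cast_nonneg _
    linarith
  have hs0 : 0 ≤ s := by rw [hs]; positivity
  have key := hx₀ x hxx₀ p m F (fun y => V₀ (y - p)) T K s hbp hm1 (HPP.Fr_subset J w)
    (fun y => hB.V_range _) hmT hmT2 hxK hxT hs0 (fun χ => Es χ K T)
    (fun χ => Es_measurable χ K T) (fun χ => Es_sub_Gt hm1 χ K T)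
    (fun χ t ht => hw₁ w hww₁ χ t ht)
  have hErr : Err b p J w k (fun y => V₀ (y - p)) = ∑ χ : DirichletCharacter ℂ (b ^ m),
      ∫ t in Es χ K T, ‖cc b p F (fun y => V₀ (y - p)) χ t‖ * ‖HPP.PP χ t x‖ := rfl
  rw [hErr]
  refine key.trans ?_
  -- the three terms
  have hΛ : ((T / (b : ℝ) ^ m) * (b : ℝ) ^ (3 * F.card)) ^ (1 / 2 : ℝ) ≤ (b : ℝ) ^ (5 * J * W) := by
    have e1 : T / (b : ℝ) ^ m = (b : ℝ) ^ ((w / 4 : ℕ) : ℝ) := by
      rw [hT, pow_add, mul_div_cancel_left₀ _ (by positivity), Real.rpow_natCast]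
    have e2 : (b : ℝ) ^ (3 * F.card) = (b : ℝ) ^ (3 * (F.card : ℝ)) := by
      rw [← Real.rpow_natCast]; push_cast; rfl
    have e3 : (F.card : ℝ) ≤ 3 * J * W := by
      have := HPP.Fr_card J w (by omega)
      rw [← hF] at this
      rw [hW]
      exact_mod_cast this
    rw [e1, e2, ← Real.rpow_add hb0, ← Real.rpow_mul hb0.le]
    apply hmono
    have hJ1 : (5 : ℝ) ≤ J := by exact_mod_cast hJ5
    nlinarith
  have hxδ : x ^ (-δ) ≤ (b : ℝ) ^ (-(5 * J + 1) * W) := by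
    rw [hxp]
    apply hmono
    have e1 : (9 / 5) * (2 * 2 ^ J) * W ≤ (k : ℝ) - 1 := by nlinarith
    have e2 : (5 * (J : ℝ) + 1) * W ≤ δ * (9 / 5) * (2 * 2 ^ J) * W :=
      mul_le_mul_of_nonneg_right hJδ hW0.le
    have e3 : δ * ((9 / 5) * (2 * 2 ^ J) * W) ≤ δ * ((k : ℝ) - 1) :=
      mul_le_mul_of_nonneg_left e1 hδ.le
    linarith
  have hT2 : ((T / (b : ℝ) ^ m) * (b : ℝ) ^ (3 * F.card)) ^ (1 / 2 : ℝ) * x ^ (-δ) ≤
      (b : ℝ) ^ (-W / 24) := by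
    calc ((T / (b : ℝ) ^ m) * (b : ℝ) ^ (3 * F.card)) ^ (1 / 2 : ℝ) * x ^ (-δ)
        ≤ (b : ℝ) ^ (5 * J * W) * (b : ℝ) ^ (-(5 * J + 1) * W) :=
          mul_le_mul hΛ hxδ (by positivity) (by positivity)
      _ = (b : ℝ) ^ (-W) := by rw [← Real.rpow_add hb0]; congr 1; ring
      _ ≤ (b : ℝ) ^ (-W / 24) := hmono (by linarith)
  have hT3 : x ^ (-(1 / 4) : ℝ) ≤ (b : ℝ) ^ (-W / 24) := by
    rw [hxp]; apply hmono; linarith
  have hx1 : x ^ (1 + 1 / (48 * A)) ≤ x * (b : ℝ) ^ (W / 48) := by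
    rw [Real.rpow_add hx0, Real.rpow_one]
    refine mul_le_mul_of_nonneg_left ?_ hx0.le
    rw [hxp]; exact hmono hε'
  have hlast := hw₂ w hww₂
  calc R * x ^ (1 + 1 / (48 * A)) * (s + ((T / (b : ℝ) ^ m) * (b : ℝ) ^ (3 * F.card)) ^ (1 / 2 : ℝ) *
        x ^ (-δ) + x ^ (-(1 / 4) : ℝ))
      ≤ R * (x * (b : ℝ) ^ (W / 48)) * ((b : ℝ) ^ (-W / 24) + (b : ℝ) ^ (-W / 24) +
        (b : ℝ) ^ (-W / 24)) := by
        refine mul_le_mul (mul_le_mul_of_nonneg_left hx1 hR0) (add_le_add (add_le_add le_rfl hT2) hT3)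
          (by positivity) (by positivity)
    _ = (3 * ((b : ℝ) ^ (W / 48) * (b : ℝ) ^ (-W / 24))) * R * x := by ring
    _ = (3 * (b : ℝ) ^ (-W / 48)) * R * x := by
        rw [← Real.rpow_add hb0]
        congr 4
        ring
    _ ≤ ε * R * x := by
        refine mul_le_mul_of_nonneg_right (mul_le_mul_of_nonneg_right hlast.le hR0) hx0.le

end Pool.Agent.HPZ
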