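import Pool.Agent.HPZ.Iface
import Pool.Agent.HPZ.EBas
import Pool.Agent.HPP.AErr

/-!
# HPZ/RSup: sup bound on the region of the error terms (`SupE`), as in `HPP/AErr`

`m = 2^J w`, `F = Fr J w`. The free units `i / w` are `0`, `2^l` (`l < J`) and `[2^(J-1), 2^(J-1) + 2J)`.
`V y = V₀ (y - p)` has values in `[0,1]` and is Lipschitz (`HPP.lip`). `lv χ` = exact level (`HPP/ALev`: `lv_spec`).
* level `m' ≥ 2`, `m' ≤ w`: `VanProp`, `cc = 0`.
* `2^l w < m' ≤ 2^(l+1) w`, `l < J`: `SupLowProp` with `i₀ = 2^l w`, block length `w`: `≤ C (m log b + 1) b² b^(-w) #RR`.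
* `χ` factors through `b`: then `b^(w/3) ≤ |t| ≤ b^(m + w/4)`; `HPP.ae_find` (same combinatorics) finds `i` with a
  free block `[i, i + l)`, `l = w / 12` (natural division), `b^(i+l) ≤ |t| ≤ b^(2i)`, `i + l ≤ m`: `SupTopProp`:
  `≤ C (1 + K) (m log b + 1) b³ b^(-w/12) #RR`.
For `w ≥ w₀(b, J)` both are `≤ b^(-w/24) #RR`. (Level `0` or `1`: `χ` factors through `b`.)
-/

namespace Pool.Agent.HPZ

open Complex MeasureTheory

theorem supE (h1 : SupLowProp) (h2 : VanProp) (h3 : SupTopProp) : SupE := by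
  classical
  obtain ⟨CL, hCL1, hL⟩ := h1
  obtain ⟨CT, hCT1, hT⟩ := h3
  intro V₀ η hBp J hJ5 b p hbas
  -- Lipschitz constant
  obtain ⟨K, hK0, hK⟩ : ∃ K : ℝ, 0 ≤ K ∧ ∀ y z, |V₀ y - V₀ z| ≤ K * |y - z| := by
    have hcs : HasCompactSupport V₀ := by
      refine HasCompactSupport.intro (K := Set.Icc 0 1) isCompact_Icc fun y hy => ?_
      by_contra h
      have h1 : y ∈ tsupport V₀ := subset_tsupport _ (Function.mem_support.2 h)
      exact hy (Set.Ioo_subset_Icc_self (hBp.V_supp h1))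
    obtain ⟨K, hK⟩ := (hBp.V_smooth 1).lipschitzWith_of_hasCompactSupport hcs (by norm_num)
    refine ⟨K, K.2, fun y z => ?_⟩
    have := hK.dist_le_mul y z
    rwa [Real.dist_eq, Real.dist_eq] at this
  have hb2 : 2 ≤ b := hbas.two
  have hβ : (1 : ℝ) < b := by exact_mod_cast (by omega : 1 < b)
  have hβ0 : (0 : ℝ) < b := by linarith
  have hb1 : (1 : ℝ) ≤ b := hβ.le
  set C' : ℝ := CL + CT * (1 + K) with hC'
  have hCTK : 0 ≤ CT * (1 + K) := mul_nonneg (by linarith) (by linarith)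
  have hC'L : CL ≤ C' := by linarith
  have hC'T : CT * (1 + K) ≤ C' := by linarith
  have e1 := HPP.ae_lin_exp hβ (by norm_num : (0 : ℝ) < 1 / 24)
    (C' * (2 ^ J * Real.log b) * b ^ 4) (C' * b ^ 4)
  have e5 : ∀ᶠ w : ℕ in Filter.atTop, 12 ≤ w := Filter.eventually_ge_atTop 12
  obtain ⟨w₀, hw₀⟩ := Filter.eventually_atTop.1 (e1.and e5)
  refine ⟨w₀, fun w hw χ t ht => ?_⟩
  obtain ⟨g1, hw12⟩ := hw₀ w hw
  have hW : (12 : ℝ) ≤ w := by exact_mod_cast hw12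
  set W : ℝ := (w : ℝ) with hWdef
  have hW0 : 0 ≤ W := by linarith
  have h2J : 1 ≤ 2 ^ J := Nat.one_le_two_pow
  have hwm : w ≤ 2 ^ J * w := by nlinarith
  have hm1 : 1 ≤ 2 ^ J * w := by omega
  have hmr : ((2 ^ J * w : ℕ) : ℝ) = 2 ^ J * W := by push_cast; rfl
  have hlogb : 0 ≤ Real.log b := Real.log_nonneg hβ.le
  have hr : ∀ a : ℝ, 0 < (b : ℝ) ^ a := fun a => Real.rpow_pos_of_pos hβ0 a
  have hmono : ∀ a c : ℝ, a ≤ c → (b : ℝ) ^ a ≤ (b : ℝ) ^ c := fun a c h =>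
    Real.rpow_le_rpow_of_exponent_le hβ.le h
  have hlogm : 0 ≤ ((2 ^ J * w : ℕ) : ℝ) * Real.log b + 1 := by positivity
  have hFs : HPP.Fr J w ⊆ Finset.Ico 1 (2 ^ J * w) := HPP.ae_Fr_sub J w
  have hVr : ∀ y, 0 ≤ (fun y => V₀ (y - p)) y ∧ (fun y => V₀ (y - p)) y ≤ 1 :=
    fun y => hBp.V_range _
  have hVK : ∀ y z, |(fun y => V₀ (y - p)) y - (fun y => V₀ (y - p)) z| ≤ K * |y - z| := by
    intro y z
    have := hK (y - p) (z - p)
    rwa [sub_sub_sub_cancel_right] at this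
  have hR0 : (0 : ℝ) ≤ (RR b p (2 ^ J * w) (HPP.Fr J w)).card := by positivity
  -- the basic inequality
  have hg : C' * (((2 ^ J * w : ℕ) : ℝ) * Real.log b + 1) * (b : ℝ) ^ 4 ≤ (b : ℝ) ^ (1 / 24 * W) := by
    refine le_trans (le_of_eq ?_) g1
    rw [hmr]; ring
  have hC0 : 0 ≤ C' := by linarith
  have hb4 : (b : ℝ) ^ 2 ≤ (b : ℝ) ^ 4 := pow_le_pow_right₀ hb1 (by norm_num)
  by_cases hχ : χ.FactorsThrough b
  · -- characters mod `b`
    obtain ⟨ht2, ht1⟩ := ht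
    have ht1 := ht1 hχ
    obtain ⟨i, i1, i2, i3, i4, i5⟩ := HPP.ae_find (J := J) hb2 hw12 ht1 ht2
    refine (hT b p (2 ^ J * w) i (w / 12) (HPP.Fr J w) (fun y => V₀ (y - p)) K hbas hFs hVr hK0 hVK
      i1 i2 i3 χ hχ t i4 i5).trans ?_
    refine mul_le_mul_of_nonneg_right ?_ hR0
    have h2 : ((b : ℝ) ^ (w / 12))⁻¹ ≤ b * (b : ℝ) ^ (-(1 / 12) * W) := by
      have h3 : (b : ℝ) ^ (1 : ℝ) = b := Real.rpow_one _
      have h4 : W / 12 ≤ ((w / 12 : ℕ) : ℝ) + 1 := by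
        rw [div_le_iff₀ (by norm_num)]
        have h := (Nat.cast_le (α := ℝ)).2 (by omega : w ≤ (w / 12 + 1) * 12)
        push_cast at h
        exact h
      have h5 : ((b : ℝ) ^ (w / 12))⁻¹ = (b : ℝ) ^ (-((w / 12 : ℕ) : ℝ)) := by
        rw [Real.rpow_neg hβ0.le, Real.rpow_natCast]
      rw [h5]
      calc (b : ℝ) ^ (-((w / 12 : ℕ) : ℝ)) ≤ (b : ℝ) ^ (1 + -(1 / 12) * W) :=
            hmono _ _ (by linarith)
        _ = b * (b : ℝ) ^ (-(1 / 12) * W) := by rw [Real.rpow_add hβ0, h3]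
    calc CT * (1 + K) * (((2 ^ J * w : ℕ) : ℝ) * Real.log b + 1) * (b : ℝ) ^ 3 *
          ((b : ℝ) ^ (w / 12))⁻¹ ≤
        CT * (1 + K) * (((2 ^ J * w : ℕ) : ℝ) * Real.log b + 1) * (b : ℝ) ^ 3 *
          (b * (b : ℝ) ^ (-(1 / 12) * W)) := by
          refine mul_le_mul_of_nonneg_left h2 ?_
          exact mul_nonneg (mul_nonneg hCTK hlogm) (by positivity)
      _ = (CT * (1 + K)) * ((((2 ^ J * w : ℕ) : ℝ) * Real.log b + 1) * (b : ℝ) ^ 4) *
          (b : ℝ) ^ (-(1 / 12) * W) := by ring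
      _ ≤ C' * ((((2 ^ J * w : ℕ) : ℝ) * Real.log b + 1) * (b : ℝ) ^ 4) *
          (b : ℝ) ^ (-(1 / 12) * W) := by
          refine mul_le_mul_of_nonneg_right (mul_le_mul_of_nonneg_right hC'T ?_) (hr _).le
          exact mul_nonneg hlogm (by positivity)
      _ = (C' * (((2 ^ J * w : ℕ) : ℝ) * Real.log b + 1) * (b : ℝ) ^ 4) *
          (b : ℝ) ^ (-(1 / 12) * W) := by ring
      _ ≤ (b : ℝ) ^ (1 / 24 * W) * (b : ℝ) ^ (-(1 / 12) * W) :=
          mul_le_mul_of_nonneg_right hg (hr _).le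
      _ = (b : ℝ) ^ (-W / 24) := by
          rw [← Real.rpow_add hβ0]; ring_nf
  · obtain ⟨q1, q2, q3, q4⟩ := HPP.lv_spec hb2 hm1 χ hχ
    set m' : ℕ := HPP.lv χ with hm'def
    have hres0 : 0 ≤ (b : ℝ) ^ (-W / 24) * (RR b p (2 ^ J * w) (HPP.Fr J w)).card :=
      mul_nonneg (hr _).le hR0
    rcases le_or_gt m' w with hcase | hcase
    · -- level at most `w`: zero
      have hsub : Finset.Ico 1 m' ⊆ HPP.Fr J w := by
        intro j hj
        rw [Finset.mem_Ico] at hj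
        have := HPP.ae_block (J := J) (w := w) (u := 0) (i := 1) (l := m' - 1) (by omega)
          (by unfold HPP.Bk; simp) (le_refl _) (by omega) (by omega) (by omega)
        exact this (Finset.mem_Ico.2 ⟨hj.1, by omega⟩)
      have h4 : cc b p (HPP.Fr J w) (fun y => V₀ (y - p)) χ t = 0 :=
        h2 b p (2 ^ J * w) m' (HPP.Fr J w) (fun y => V₀ (y - p)) hbas hFs q1 q2 hsub χ q3 q4 t
      rw [h4, norm_zero]
      exact hres0
    · obtain ⟨l, hlJ, hl1, hl2⟩ := HPP.ae_pow hcase q2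
      have hll : 1 ≤ 2 ^ l := Nat.one_le_two_pow
      have hlw : w ≤ 2 ^ l * w := by nlinarith
      have h2l : 2 ^ (l + 1) * w = 2 * (2 ^ l * w) := by ring
      have hlm : 2 ^ l * w + w ≤ 2 ^ J * w := by
        have h5 : 2 ^ (l + 1) ≤ 2 ^ J := Nat.pow_le_pow_right (by norm_num) hlJ
        have h6 : 2 ^ (l + 1) * w ≤ 2 ^ J * w := Nat.mul_le_mul_right _ h5
        omega
      have hsub : Finset.Ico (2 ^ l * w) (2 ^ l * w + w) ⊆ HPP.Fr J w := by
        refine HPP.ae_block (u := 2 ^ l) (by omega) ?_ (by omega) (le_refl _) ?_ hlm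
        · unfold HPP.Bk
          rw [Finset.mem_union, Finset.mem_union]
          exact Or.inl (Or.inr (Finset.mem_image.2 ⟨l, Finset.mem_range.2 (by omega), rfl⟩))
        · have : (2 ^ l + 1) * w = 2 ^ l * w + w := by ring
          omega
      refine (hL b p (2 ^ J * w) m' (2 ^ l * w) w (HPP.Fr J w) (fun y => V₀ (y - p)) hbas hFs hVr
        (by omega) hl1 (by omega) q2 hlm hsub χ q3 q4 t).trans ?_
      refine mul_le_mul_of_nonneg_right ?_ hR0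
      have h2 : ((b : ℝ) ^ w)⁻¹ = (b : ℝ) ^ (-W) := by
        rw [Real.rpow_neg hβ0.le, Real.rpow_natCast]
      rw [h2]
      calc CL * (((2 ^ J * w : ℕ) : ℝ) * Real.log b + 1) * (b : ℝ) ^ 2 * (b : ℝ) ^ (-W) ≤
          C' * (((2 ^ J * w : ℕ) : ℝ) * Real.log b + 1) * (b : ℝ) ^ 4 * (b : ℝ) ^ (-W) := by
            refine mul_le_mul_of_nonneg_right ?_ (hr _).le
            refine mul_le_mul (mul_le_mul_of_nonneg_right hC'L hlogm) hb4 (by positivity) ?_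
            exact mul_nonneg hC0 hlogm
        _ ≤ (b : ℝ) ^ (1 / 24 * W) * (b : ℝ) ^ (-W) :=
            mul_le_mul_of_nonneg_right hg (hr _).le
        _ = (b : ℝ) ^ (1 / 24 * W + -W) := by rw [← Real.rpow_add hβ0]
        _ ≤ (b : ℝ) ^ (-W / 24) := hmono _ _ (by linarith)

end Pool.Agent.HPZ
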