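import Pool.Agent.HPZ.Prime
import Pool.Agent.HPZ.DLow
import Pool.Agent.HPZ.DTop
import Pool.Agent.HPZ.DSm
import Pool.Agent.HPZ.AMP
import Pool.Agent.HPZ.ACount
import Pool.Agent.HPZ.AFin
import Pool.Agent.HPZ.RSup
import Pool.Agent.HPZ.RErr

/-!
# HPZ/Fin: the final statement (every base, exceptional positions allowed)
-/

namespace Pool.Agent.HPZ

theorem finZ : FinalZ := assemblyZ (mainZ sm) countZ (errZ primeP (supE supLow van supTop))

end Pool.Agent.HPZ
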