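import Pool.Agent.HPZ.LDefs

/-!
# HPZ/LCa: from the primitive count to `MixCount`, note 1864 (2a)

`n = g n1`, `n' = g n1'`, `g = gcd`, `g` prime to `b` (and `g ≤ H`), so the congruence divides by `g`, and
`|n1 top' - n1' top| ≤ H / g`, hence `≤ ⌊H / g⌋`. So the count is `≤ ∑_(g ≤ H) prm ⌊H / g⌋`,
`prm K ≤ 21 b^(2#F) (K^2 + K b^m)` in both cases, `∑_g (H/g)^2 ≤ H^2 (1 + log H)`, `∑_g H/g ≤ H (1 + log H)`
(`harmonic_le_one_add_log`).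
-/

namespace Pool.Agent.HPZ

open Complex MeasureTheory

private theorem prm_le (h1 : PrmBig) (h2 : PrmSmall) {b p m : ℕ} {F : Finset ℕ} (hb : Bas b p)
    (hm : 1 ≤ m) (hF : F ⊆ Finset.Ico 1 m) {K : ℕ} (hK : 1 ≤ K) :
    (prm b p m F K : ℝ) ≤ 21 * (b : ℝ) ^ (2 * F.card) * ((K : ℝ) ^ 2 + K * (b : ℝ) ^ m) := by
  have hb0 : (0 : ℝ) ≤ (b : ℝ) := Nat.cast_nonneg b
  have hK0 : (0 : ℝ) ≤ (K : ℝ) := Nat.cast_nonneg K
  have e1 : (0 : ℝ) ≤ 21 * (b : ℝ) ^ (2 * F.card) * (K : ℝ) ^ 2 := by positivity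
  have e2 : (0 : ℝ) ≤ 21 * (b : ℝ) ^ (2 * F.card) * K * (b : ℝ) ^ m := by positivity
  rcases le_or_gt (b ^ m) K with h | h
  · have := h1 b p m F hb hm hF K h
    nlinarith
  · have := h2 b p m F hb hm hF K hK h
    nlinarith

/-- reduction to coprime pairs -/
private theorem count_le (b p m : ℕ) (F : Finset ℕ) (H : ℕ) :
    (((RR b p m F ×ˢ RR b p m F) ×ˢ (Finset.Icc 1 H ×ˢ Finset.Icc 1 H)).filter fun z =>
      z.2.1.Coprime b ∧ z.2.2.Coprime b ∧ z.2.1 * lowv b z.1.2 ≡ z.2.2 * lowv b z.1.1 [MOD b ^ m] ∧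
      |((z.2.1 : ℤ) * topv b z.1.2 - (z.2.2 : ℤ) * topv b z.1.1)| ≤ H).card ≤
    ∑ g ∈ Finset.Icc 1 H, prm b p m F (H / g) := by
  classical
  unfold prm
  rw [← Finset.card_sigma]
  refine Finset.card_le_card_of_injOn
    (fun z => ⟨z.2.1.gcd z.2.2, (z.1, (z.2.1 / z.2.1.gcd z.2.2, z.2.2 / z.2.1.gcd z.2.2))⟩) ?_ ?_
  · rintro ⟨⟨w, w'⟩, ⟨n, n'⟩⟩ hz
    simp only [Finset.coe_filter, Finset.mem_product, Finset.mem_Icc, Set.mem_ofPred_eq] at hz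
    obtain ⟨⟨⟨hw, hw'⟩, ⟨hn1, hnH⟩, ⟨hn'1, hn'H⟩⟩, hc, hc', hmod, habs⟩ := hz
    simp only [Finset.coe_sigma, Set.mem_sigma_iff, Finset.coe_filter, Finset.mem_product,
      Finset.mem_Icc, Set.mem_ofPred_eq, Finset.mem_coe]
    set g := n.gcd n' with hg
    have hg0 : 0 < g := Nat.gcd_pos_of_pos_left _ hn1
    obtain ⟨a, ha⟩ : g ∣ n := Nat.gcd_dvd_left _ _
    obtain ⟨a', ha'⟩ : g ∣ n' := Nat.gcd_dvd_right _ _
    have hda : n / g = a := by rw [ha]; exact Nat.mul_div_cancel_left _ hg0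
    have hda' : n' / g = a' := by rw [ha']; exact Nat.mul_div_cancel_left _ hg0
    rw [hda, hda']
    have ha0 : 1 ≤ a := by
      rcases Nat.eq_zero_or_pos a with h | h
      · rw [h] at ha; omega
      · exact h
    have ha'0 : 1 ≤ a' := by
      rcases Nat.eq_zero_or_pos a' with h | h
      · rw [h] at ha'; omega
      · exact h
    have hgn : g ≤ n := Nat.le_of_dvd hn1 ⟨a, ha⟩
    have hcop : a.Coprime a' := by
      have := Nat.coprime_div_gcd_div_gcd (m := n) (n := n') hg0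
      rwa [← hg, hda, hda'] at this
    have hcg : g.Coprime b := Nat.Coprime.coprime_dvd_left ⟨a, ha⟩ hc
    have hca : a.Coprime b := Nat.Coprime.coprime_dvd_left ⟨g, by rw [ha, mul_comm]⟩ hc
    have hca' : a'.Coprime b := Nat.Coprime.coprime_dvd_left ⟨g, by rw [ha', mul_comm]⟩ hc'
    refine ⟨⟨hg0, hgn.trans hnH⟩, ⟨⟨⟨hw, hw'⟩, ⟨ha0, ?_⟩, ⟨ha'0, ?_⟩⟩, hcop, hca, hca', ?_, ?_⟩⟩
    · rw [Nat.le_div_iff_mul_le hg0]; rw [ha, mul_comm] at hnH; exact hnH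
    · rw [Nat.le_div_iff_mul_le hg0]; rw [ha', mul_comm] at hn'H; exact hn'H
    · have hcbm : Nat.gcd (b ^ m) g = 1 := (Nat.Coprime.pow_right m hcg).symm
      refine Nat.ModEq.cancel_left_of_coprime hcbm ?_
      have h3 := hmod
      rw [ha, ha', mul_assoc, mul_assoc] at h3
      exact h3
    · have h3 := habs
      have h4 : ((n : ℤ) * topv b w' - (n' : ℤ) * topv b w) =
          (g : ℤ) * ((a : ℤ) * topv b w' - (a' : ℤ) * topv b w) := by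
        rw [ha, ha']; push_cast; ring
      rw [h4, abs_mul, Nat.abs_cast] at h3
      have h5 : (g : ℤ) * ((a : ℤ) * topv b w' - (a' : ℤ) * topv b w).natAbs ≤ H := by
        rw [Int.natCast_natAbs]; exact h3
      have h6 : g * ((a : ℤ) * topv b w' - (a' : ℤ) * topv b w).natAbs ≤ H := by exact_mod_cast h5
      have h7 : ((a : ℤ) * topv b w' - (a' : ℤ) * topv b w).natAbs ≤ H / g := by
        rw [Nat.le_div_iff_mul_le hg0, mul_comm]; exact h6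
      have h8 : ((((a : ℤ) * topv b w' - (a' : ℤ) * topv b w).natAbs : ℕ) : ℤ) ≤ ((H / g : ℕ) : ℤ) := by
        exact_mod_cast h7
      rw [Int.natCast_natAbs] at h8
      exact h8
  · rintro ⟨⟨w, w'⟩, ⟨n, n'⟩⟩ _ ⟨⟨v, v'⟩, ⟨l, l'⟩⟩ _ h
    simp only [Sigma.mk.injEq, heq_eq_eq, Prod.mk.injEq] at h
    obtain ⟨h1, ⟨h2, h3⟩, h4, h5⟩ := h
    have e1 : n = l := by
      have a1 := Nat.div_mul_cancel (Nat.gcd_dvd_left n n')
      have a2 := Nat.div_mul_cancel (Nat.gcd_dvd_left l l')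
      rw [← a1, ← a2, h4, h1]
    have e2 : n' = l' := by
      have a1 := Nat.div_mul_cancel (Nat.gcd_dvd_right n n')
      have a2 := Nat.div_mul_cancel (Nat.gcd_dvd_right l l')
      rw [← a1, ← a2, h5, h1]
    subst h2; subst h3; subst e1; subst e2; rfl

private theorem sum_inv_le (H : ℕ) : ∑ g ∈ Finset.Icc 1 H, ((g : ℝ))⁻¹ ≤ 1 + Real.log H := by
  have h := harmonic_le_one_add_log H
  have e : ((harmonic H : ℚ) : ℝ) = ∑ g ∈ Finset.Icc 1 H, ((g : ℝ))⁻¹ := by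
    rw [harmonic_eq_sum_Icc]; push_cast; rfl
  rw [← e]; exact h

theorem mixCount_of (h1 : PrmBig) (h2 : PrmSmall) : MixCount := by
  intro b hb2
  refine ⟨21, by norm_num, ?_⟩
  intro p m F hB hm hF H hH
  have hc := count_le b p m F H
  have hc' : ((((RR b p m F ×ˢ RR b p m F) ×ˢ (Finset.Icc 1 H ×ˢ Finset.Icc 1 H)).filter fun z =>
      z.2.1.Coprime b ∧ z.2.2.Coprime b ∧ z.2.1 * lowv b z.1.2 ≡ z.2.2 * lowv b z.1.1 [MOD b ^ m] ∧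
      |((z.2.1 : ℤ) * topv b z.1.2 - (z.2.2 : ℤ) * topv b z.1.1)| ≤ H).card : ℝ) ≤
      ∑ g ∈ Finset.Icc 1 H, (prm b p m F (H / g) : ℝ) := by
    exact_mod_cast hc
  refine hc'.trans ?_
  have hb1 : (1 : ℝ) ≤ (b : ℝ) := by exact_mod_cast (by omega : 1 ≤ b)
  have hb0 : (0 : ℝ) ≤ (b : ℝ) := by linarith
  have hH0 : (0 : ℝ) ≤ (H : ℝ) := Nat.cast_nonneg H
  have hterm : ∀ g ∈ Finset.Icc 1 H, (prm b p m F (H / g) : ℝ) ≤
      21 * (b : ℝ) ^ (3 * F.card) * ((H : ℝ) ^ 2 + H * (b : ℝ) ^ m) * ((g : ℝ))⁻¹ := by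
    intro g hg
    rw [Finset.mem_Icc] at hg
    have hg1 : (1 : ℝ) ≤ (g : ℝ) := by exact_mod_cast hg.1
    have hg0 : (0 : ℝ) < (g : ℝ) := by linarith
    have hK : 1 ≤ H / g := by
      rw [Nat.le_div_iff_mul_le (by omega)]; omega
    have h3 := prm_le h1 h2 hB hm hF hK
    have hKle : (((H / g : ℕ)) : ℝ) ≤ (H : ℝ) * ((g : ℝ))⁻¹ := by
      rw [← div_eq_mul_inv]; exact Nat.cast_div_le
    have hK0 : (0 : ℝ) ≤ (((H / g : ℕ)) : ℝ) := Nat.cast_nonneg _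
    have hinv0 : (0 : ℝ) ≤ ((g : ℝ))⁻¹ := by positivity
    have hinv1 : ((g : ℝ))⁻¹ ≤ 1 := inv_le_one_of_one_le₀ hg1
    have hKH : (((H / g : ℕ)) : ℝ) ≤ (H : ℝ) := by
      calc (((H / g : ℕ)) : ℝ) ≤ (H : ℝ) * ((g : ℝ))⁻¹ := hKle
        _ ≤ (H : ℝ) * 1 := by gcongr
        _ = H := mul_one _
    have hsq : (((H / g : ℕ)) : ℝ) ^ 2 ≤ (H : ℝ) ^ 2 * ((g : ℝ))⁻¹ := by
      calc (((H / g : ℕ)) : ℝ) ^ 2 = (((H / g : ℕ)) : ℝ) * (((H / g : ℕ)) : ℝ) := sq _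
        _ ≤ (H : ℝ) * ((H : ℝ) * ((g : ℝ))⁻¹) := by gcongr
        _ = (H : ℝ) ^ 2 * ((g : ℝ))⁻¹ := by ring
    have hpow : (b : ℝ) ^ (2 * F.card) ≤ (b : ℝ) ^ (3 * F.card) :=
      pow_le_pow_right₀ hb1 (by omega)
    have hbm : (0 : ℝ) ≤ (b : ℝ) ^ m := by positivity
    calc (prm b p m F (H / g) : ℝ)
        ≤ 21 * (b : ℝ) ^ (2 * F.card) *
          ((((H / g : ℕ)) : ℝ) ^ 2 + (((H / g : ℕ)) : ℝ) * (b : ℝ) ^ m) := h3
      _ ≤ 21 * (b : ℝ) ^ (3 * F.card) *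
          ((H : ℝ) ^ 2 * ((g : ℝ))⁻¹ + ((H : ℝ) * ((g : ℝ))⁻¹) * (b : ℝ) ^ m) := by gcongr
      _ = 21 * (b : ℝ) ^ (3 * F.card) * ((H : ℝ) ^ 2 + H * (b : ℝ) ^ m) * ((g : ℝ))⁻¹ := by ring
  refine (Finset.sum_le_sum hterm).trans ?_
  rw [← Finset.mul_sum]
  have hs := sum_inv_le H
  have hX : (0 : ℝ) ≤ 21 * (b : ℝ) ^ (3 * F.card) * ((H : ℝ) ^ 2 + H * (b : ℝ) ^ m) := by positivity
  calc 21 * (b : ℝ) ^ (3 * F.card) * ((H : ℝ) ^ 2 + H * (b : ℝ) ^ m) *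
        ∑ g ∈ Finset.Icc 1 H, ((g : ℝ))⁻¹
      ≤ 21 * (b : ℝ) ^ (3 * F.card) * ((H : ℝ) ^ 2 + H * (b : ℝ) ^ m) * (1 + Real.log H) := by
        gcongr
    _ = 21 * (1 + Real.log H) * (b : ℝ) ^ (3 * F.card) * ((H : ℝ) ^ 2 + H * (b : ℝ) ^ m) := by ring

end Pool.Agent.HPZ
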