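import Pool.Agent.HPZ.LDefs

/-!
# HPZ/LCb: primitive count, `K ≥ b^m`, note 1864 (2b)

For each pair `(ω, ω')` (there are `b^(2(m-1) + 2#F)`, `card_RR`) `LatProp` with `q = b^m`, `W = K`, `s = top ω`,
`s' = top ω'` (`≥ b^(m-1)`, `top_bounds`), `r = low ω`, `r' = low ω'` gives at most `1 + 20 b K^2 / b^(2m)` pairs.
-/

namespace Pool.Agent.HPZ

open Complex MeasureTheory

theorem prmBig (h : LatProp) : PrmBig := by
  intro b p m F hB hm hF K hK
  classical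
  have hb2 : 2 ≤ b := hB.two
  have hb0 : (0 : ℝ) < b := by exact_mod_cast (by omega : 0 < b)
  have hb1 : (1 : ℝ) ≤ b := by exact_mod_cast (by omega : 1 ≤ b)
  have hq1 : 1 ≤ b ^ m := Nat.one_le_pow _ _ (by omega)
  have hK1 : 1 ≤ K := hq1.trans hK
  have hsuc : b ^ m = b * b ^ (m - 1) := by
    obtain ⟨n, rfl⟩ : ∃ n, m = n + 1 := ⟨m - 1, by omega⟩
    rw [pow_succ]; simp [mul_comm]
  have htop : ∀ ω ∈ RR b p m F, b ^ m ≤ b * topv b ω := by
    intro ω hω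
    have h1 := (top_bounds hB hm hω).1
    rw [hsuc]
    apply Nat.mul_le_mul_left
    calc b ^ (m - 1) = 1 * b ^ (m - 1) := (one_mul _).symm
      _ ≤ p * b ^ (m - 1) := Nat.mul_le_mul_right _ hB.pos
      _ ≤ _ := h1
  have hlow : ∀ ω ∈ RR b p m F, (lowv b ω).Coprime (b ^ m) := by
    intro ω hω
    exact Nat.Coprime.pow_right m (low_coprime hB hm hω)
  have key : ∀ ω ∈ RR b p m F ×ˢ RR b p m F,
      (((Finset.Icc 1 K ×ˢ Finset.Icc 1 K).filter fun z : ℕ × ℕ =>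
        z.1.Coprime z.2 ∧ z.1.Coprime b ∧ z.2.Coprime b ∧
        z.1 * lowv b ω.2 ≡ z.2 * lowv b ω.1 [MOD b ^ m] ∧
        |((z.1 : ℤ) * topv b ω.2 - (z.2 : ℤ) * topv b ω.1)| ≤ K).card : ℝ) ≤
      1 + 20 * b * K * K / ((b ^ m : ℕ) : ℝ) ^ 2 := by
    intro ω hω
    rw [Finset.mem_product] at hω
    refine le_trans ?_ (h (b ^ m) b K K (topv b ω.1) (topv b ω.2) (lowv b ω.1) (lowv b ω.2)
      hq1 (by omega) hK1 hK1 (htop _ hω.1) (htop _ hω.2) (hlow _ hω.1) (hlow _ hω.2))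
    exact_mod_cast Finset.card_le_card (by
      intro z hz
      simp only [Finset.mem_filter] at hz ⊢
      tauto)
  have hsum : (prm b p m F K : ℝ) = ∑ ω ∈ RR b p m F ×ˢ RR b p m F,
      (((Finset.Icc 1 K ×ˢ Finset.Icc 1 K).filter fun z : ℕ × ℕ =>
        z.1.Coprime z.2 ∧ z.1.Coprime b ∧ z.2.Coprime b ∧
        z.1 * lowv b ω.2 ≡ z.2 * lowv b ω.1 [MOD b ^ m] ∧
        |((z.1 : ℤ) * topv b ω.2 - (z.2 : ℤ) * topv b ω.1)| ≤ K).card : ℝ) := by
    unfold prm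
    rw [Finset.card_filter, Finset.sum_product]
    push_cast
    refine Finset.sum_congr rfl fun ω _ => ?_
    rw [Finset.card_filter]
    push_cast
    rfl
  have hcard : ((RR b p m F ×ˢ RR b p m F).card : ℝ) = ((b : ℝ) ^ (m - 1 + F.card)) ^ 2 := by
    rw [Finset.card_product, card_RR hm hF]
    push_cast
    ring
  have hKR : (b : ℝ) ^ m ≤ K := by exact_mod_cast hK
  have hKR0 : (0 : ℝ) < K := by exact_mod_cast (by omega : 0 < K)
  have hsucR : (b : ℝ) ^ m = b * (b : ℝ) ^ (m - 1) := by exact_mod_cast hsuc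
  set B : ℝ := (b : ℝ) ^ (m - 1) with hBdef
  have hB0 : 0 < B := by positivity
  have hBK : B ≤ K := by
    have : B ≤ b * B := by nlinarith
    linarith
  calc (prm b p m F K : ℝ) ≤ ∑ ω ∈ RR b p m F ×ˢ RR b p m F,
        (1 + 20 * b * K * K / ((b ^ m : ℕ) : ℝ) ^ 2) := by
          rw [hsum]; exact Finset.sum_le_sum key
    _ = (B * (b : ℝ) ^ F.card) ^ 2 * (1 + 20 * b * K * K / (b * B) ^ 2) := by
          rw [Finset.sum_const, nsmul_eq_mul, hcard, pow_add, Nat.cast_pow, hsucR]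
    _ = (b : ℝ) ^ (2 * F.card) * (B ^ 2 + 20 * K ^ 2 / b) := by
          have : (b : ℝ) ^ (2 * F.card) = ((b : ℝ) ^ F.card) ^ 2 := by rw [← pow_mul, mul_comm]
          rw [this]
          field_simp
    _ ≤ (b : ℝ) ^ (2 * F.card) * (K ^ 2 + 20 * K ^ 2) := by
          apply mul_le_mul_of_nonneg_left _ (by positivity)
          have h1 : B ^ 2 ≤ (K : ℝ) ^ 2 := pow_le_pow_left₀ hB0.le hBK 2
          have h2 : 20 * (K : ℝ) ^ 2 / b ≤ 20 * K ^ 2 := div_le_self (by positivity) hb1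
          linarith
    _ = 21 * (b : ℝ) ^ (2 * F.card) * (K : ℝ) ^ 2 := by ring

end Pool.Agent.HPZ
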