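import Pool.Agent.HPZ.LDefs

/-!
# HPZ/LCc: primitive count, `K < b^m`, note 1864 (2c)

`b^(h-1) ≤ K < b^h`, `1 ≤ h ≤ m` (`Nat.log`). Truncate: `ω_h = (ω_i)_(i < h)`, a pattern of `RR b p h (F ∩ [0,h))`;
`low = low_h mod b^h`, `top = b^(m-h) top_h + ρ`, `0 ≤ ρ < b^(m-h)`. So `n low_h' ≡ n' low_h mod b^h` and
`b^(m-h) |n top_h' - n' top_h| ≤ K + max (n ρ', n' ρ) ≤ K + K (b^(m-h) - 1) = K b^(m-h)`. For each pair `(ω_h, ω_h')`
`LatProp` with `q = b^h`, `W = K` gives `≤ 1 + 20 b K^2 / b^(2h) ≤ 1 + 20 b` pairs `(n, n')`. Given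
`(ω_h, ω_h', n, n')` choose the extension `ω'` of `ω_h'`: `b^((m-h) + #F^h)` ways, `F^h = F ∩ [h, m)`; then
`low ω ≡ n'^(-1) n low ω' mod b^m` is determined (`low_lt`), hence (`low_inj`) all low digits of `ω`; the top digits are
equal to them at the matched positions and given by `ω_h` for `i < h`: `≤ b^(#F^h)` choices. Total
`≤ b^(2(h-1) + 2#F_h) (1 + 20 b) b^(m-h+#F^h) b^(#F^h) = (1 + 20 b) b^(h+m-2+2#F) ≤ 21 K b^m b^(2#F)`.
-/

namespace Pool.Agent.HPZ

open Complex MeasureTheory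

/-- head of a pattern -/
private def hd81 {h l : ℕ} (ω : Fin (h + l) → ℕ × ℕ) : Fin h → ℕ × ℕ := fun i => ω (Fin.castAdd l i)

/-- tail of a pattern -/
private def tl81 {h l : ℕ} (ω : Fin (h + l) → ℕ × ℕ) : Fin l → ℕ × ℕ := fun j => ω (Fin.natAdd h j)

/-- top digits of the tail at the free positions -/
private def tp81 {h l : ℕ} (F : Finset ℕ) (ω : Fin (h + l) → ℕ × ℕ) : Fin l → ℕ :=
  fun j => if h + (j : ℕ) ∈ F then (ω (Fin.natAdd h j)).2 else 0

private theorem ext81 {h l : ℕ} {ω ω' : Fin (h + l) → ℕ × ℕ} (h1 : hd81 ω = hd81 ω')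
    (h2 : tl81 ω = tl81 ω') : ω = ω' := by
  funext i
  refine Fin.addCases (fun j => ?_) (fun j => ?_) i
  · exact congrFun h1 j
  · exact congrFun h2 j

private theorem hd_mem81 {b p h l : ℕ} {F : Finset ℕ} {ω : Fin (h + l) → ℕ × ℕ}
    (hω : ω ∈ RR b p (h + l) F) : hd81 ω ∈ RR b p h F := by
  unfold RR at hω ⊢
  rw [Fintype.mem_piFinset] at hω ⊢
  intro i
  have := hω (Fin.castAdd l i)
  simpa [hd81] using this

private theorem tl_mem81 {b p h l : ℕ} {F : Finset ℕ} {ω : Fin (h + l) → ℕ × ℕ}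
    (hω : ω ∈ RR b p (h + l) F) :
    tl81 ω ∈ Fintype.piFinset fun j : Fin l => Sd b p F (h + (j : ℕ)) := by
  unfold RR at hω
  rw [Fintype.mem_piFinset] at hω ⊢
  intro i
  have := hω (Fin.natAdd h i)
  simpa [tl81] using this

private theorem tp_mem81 {b p h l : ℕ} {F : Finset ℕ} (hb : Bas b p) {ω : Fin (h + l) → ℕ × ℕ}
    (hω : ω ∈ RR b p (h + l) F) :
    tp81 F ω ∈ Fintype.piFinset fun j : Fin l =>
      (if h + (j : ℕ) ∈ F then Finset.range b else ({0} : Finset ℕ)) := by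
  rw [Fintype.mem_piFinset]
  intro j
  unfold tp81
  split_ifs with h1
  · exact Finset.mem_range.2 (digit_lt hb hω _).2
  · exact Finset.mem_singleton_self _

private theorem low_hd81 {b h l : ℕ} (ω : Fin (h + l) → ℕ × ℕ) :
    lowv b ω ≡ lowv b (hd81 ω) [MOD b ^ h] := by
  unfold lowv
  rw [Fin.sum_univ_add]
  have h1 : ∑ j : Fin l, (ω (Fin.natAdd h j)).1 * b ^ ((Fin.natAdd h j : Fin (h + l)) : ℕ) =
      b ^ h * ∑ j : Fin l, (ω (Fin.natAdd h j)).1 * b ^ (j : ℕ) := by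
    rw [Finset.mul_sum]
    refine Finset.sum_congr rfl fun j _ => ?_
    rw [Fin.val_natAdd, pow_add]
    ring
  rw [h1]
  unfold Nat.ModEq
  rw [Nat.add_mul_mod_self_left]
  rfl

private theorem top_hd81 {b h l : ℕ} (ω : Fin (h + l) → ℕ × ℕ) :
    topv b ω = b ^ l * topv b (hd81 ω) + topv b (tl81 ω) := by
  unfold topv
  rw [Fin.sum_univ_add, Finset.mul_sum]
  congr 1
  · refine Finset.sum_congr rfl fun i _ => ?_
    have hi := i.isLt
    have e : h + l - 1 - ((Fin.castAdd l i : Fin (h + l)) : ℕ) = l + (h - 1 - (i : ℕ)) := by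
      rw [Fin.val_castAdd]; omega
    rw [e, pow_add]
    unfold hd81
    ring
  · refine Finset.sum_congr rfl fun j _ => ?_
    have hj := j.isLt
    have e : h + l - 1 - ((Fin.natAdd h j : Fin (h + l)) : ℕ) = l - 1 - (j : ℕ) := by
      rw [Fin.val_natAdd]; omega
    rw [e]
    rfl

private theorem top_lt81 {b : ℕ} (hb : 1 ≤ b) : ∀ {l : ℕ} (ω : Fin l → ℕ × ℕ),
    (∀ j, (ω j).2 < b) → topv b ω < b ^ l := by
  intro l
  induction l with
  | zero => intro ω _; simp [topv]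
  | succ n ih =>
    intro ω hω
    have h1 := ih (fun j => ω (Fin.succ j)) (fun j => hω _)
    unfold topv at h1 ⊢
    rw [Fin.sum_univ_succ]
    have h2 : ∑ i : Fin n, (ω (Fin.succ i)).2 * b ^ (n + 1 - 1 - ((Fin.succ i : Fin (n + 1)) : ℕ)) =
        ∑ i : Fin n, (ω (Fin.succ i)).2 * b ^ (n - 1 - (i : ℕ)) := by
      refine Finset.sum_congr rfl fun i _ => ?_
      have e : n + 1 - 1 - ((Fin.succ i : Fin (n + 1)) : ℕ) = n - 1 - (i : ℕ) := by
        rw [Fin.val_succ]; omega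
      rw [e]
    rw [h2]
    have h3 : (ω 0).2 + 1 ≤ b := hω 0
    have h4 : n + 1 - 1 - ((0 : Fin (n + 1)) : ℕ) = n := by simp
    rw [h4]
    have h5 : ((ω 0).2 + 1) * b ^ n ≤ b * b ^ n := Nat.mul_le_mul_right _ h3
    have h6 : b * b ^ n = b ^ (n + 1) := by ring
    have h7 : ((ω 0).2 + 1) * b ^ n = (ω 0).2 * b ^ n + b ^ n := by ring
    have h8 : ∑ i : Fin n, (ω (Fin.succ i)).2 * b ^ (n - 1 - (i : ℕ)) < b ^ n := h1
    omega

private theorem RR_filter81 (b p h : ℕ) (F : Finset ℕ) :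
    RR b p h F = RR b p h (F.filter fun i => i < h) := by
  unfold RR
  congr 1
  funext i
  unfold Sd
  have h1 : (i : ℕ) ∈ F.filter (fun i => i < h) ↔ (i : ℕ) ∈ F := by
    rw [Finset.mem_filter]
    exact ⟨fun h => h.1, fun h => ⟨h, i.isLt⟩⟩
  simp only [h1]

private theorem prod81 (b h l : ℕ) (F : Finset ℕ) (hF : F ⊆ Finset.Ico 1 (h + l)) :
    ∏ j : Fin l, (if h + (j : ℕ) ∈ F then b else 1) = b ^ (F.filter fun i => h ≤ i).card := by
  rw [Fin.prod_univ_eq_prod_range (fun j => if h + j ∈ F then b else 1) l, Finset.prod_ite,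
    Finset.prod_const_one, mul_one, Finset.prod_const]
  congr 1
  refine Finset.card_bij (fun i _ => h + i) (fun i hi => ?_)
    (fun i _ j _ h => by omega) fun k hk => ?_
  · rw [Finset.mem_filter] at hi ⊢
    exact ⟨hi.2, by omega⟩
  · rw [Finset.mem_filter] at hk
    have h3 := Finset.mem_Ico.1 (hF hk.1)
    refine ⟨k - h, ?_, by omega⟩
    rw [Finset.mem_filter, Finset.mem_range]
    refine ⟨by omega, ?_⟩
    have : h + (k - h) = k := by omega
    rw [this]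
    exact hk.1

private theorem card_tl81 (b p h l : ℕ) (F : Finset ℕ) (hh : 1 ≤ h) (hF : F ⊆ Finset.Ico 1 (h + l)) :
    (Fintype.piFinset fun j : Fin l => Sd b p F (h + (j : ℕ))).card =
      b ^ (l + (F.filter fun i => h ≤ i).card) := by
  rw [Fintype.card_piFinset]
  rw [Finset.prod_congr rfl fun (j : Fin l) _ => card_Sd (b := b) (p := p) (F := F)
    (i := h + (j : ℕ)) (by omega)]
  rw [Finset.prod_mul_distrib, Finset.prod_const, Finset.card_univ, Fintype.card_fin,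
    prod81 b h l F hF, ← pow_add]

private theorem card_tp81 (b h l : ℕ) (F : Finset ℕ) (hF : F ⊆ Finset.Ico 1 (h + l)) :
    (Fintype.piFinset fun j : Fin l =>
      (if h + (j : ℕ) ∈ F then Finset.range b else ({0} : Finset ℕ))).card =
      b ^ (F.filter fun i => h ≤ i).card := by
  rw [Fintype.card_piFinset, ← prod81 b h l F hF]
  refine Finset.prod_congr rfl fun j _ => ?_
  split_ifs
  · exact Finset.card_range b
  · exact Finset.card_singleton _

/-- the truncated set -/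
private noncomputable def AA81 (b p h : ℕ) (F : Finset ℕ) (K : ℕ) :
    Finset (((Fin h → ℕ × ℕ) × (Fin h → ℕ × ℕ)) × (ℕ × ℕ)) :=
  ((RR b p h F ×ˢ RR b p h F) ×ˢ (Finset.Icc 1 K ×ˢ Finset.Icc 1 K)).filter fun z =>
    z.2.1.Coprime z.2.2 ∧ z.2.1 * lowv b z.1.2 ≡ z.2.2 * lowv b z.1.1 [MOD b ^ h] ∧
    |((z.2.1 : ℤ) * topv b z.1.2 - (z.2.2 : ℤ) * topv b z.1.1)| ≤ K

private theorem card_AA81 (hL : LatProp) {b p h K : ℕ} {F : Finset ℕ} (hb : Bas b p) (hh : 1 ≤ h)
    (hK : 1 ≤ K) (hKh : K < b ^ h) :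
    ((AA81 b p h F K).card : ℝ) ≤ ((RR b p h F).card : ℝ) ^ 2 * (1 + 20 * b) := by
  classical
  have hb2 := hb.two
  have h1 : (AA81 b p h F K).card = ∑ t ∈ RR b p h F ×ˢ RR b p h F,
      ((AA81 b p h F K).filter fun z => z.1 = t).card := by
    refine Finset.card_eq_sum_card_fiberwise fun z hz => ?_
    have hz' := (Finset.mem_filter.1 (Finset.mem_coe.1 hz)).1
    exact Finset.mem_coe.2 (Finset.mem_product.1 hz').1
  have h2 : ∀ t ∈ RR b p h F ×ˢ RR b p h F,
      (((AA81 b p h F K).filter fun z => z.1 = t).card : ℝ) ≤ 1 + 20 * b := by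
    rintro ⟨τ, τ'⟩ ht
    rw [Finset.mem_product] at ht
    have ht1 := top_bounds hb hh ht.1
    have ht2 := top_bounds hb hh ht.2
    have hp := hb.pos
    have hs1 : b ^ h ≤ b * topv b τ := by
      have e : b ^ h = b * b ^ (h - 1) := by
        rw [← pow_succ']; congr 1; omega
      rw [e]
      refine Nat.mul_le_mul_left _ (le_trans ?_ ht1.1)
      exact Nat.le_mul_of_pos_left _ hp
    have hs2 : b ^ h ≤ b * topv b τ' := by
      have e : b ^ h = b * b ^ (h - 1) := by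
        rw [← pow_succ']; congr 1; omega
      rw [e]
      refine Nat.mul_le_mul_left _ (le_trans ?_ ht2.1)
      exact Nat.le_mul_of_pos_left _ hp
    have h3 := hL (b ^ h) b K K (topv b τ) (topv b τ') (lowv b τ) (lowv b τ')
      (Nat.one_le_pow _ _ (by omega)) (by omega) hK hK hs1 hs2
      (Nat.Coprime.pow_right _ (low_coprime hb hh ht.1))
      (Nat.Coprime.pow_right _ (low_coprime hb hh ht.2))
    have h4 : ((AA81 b p h F K).filter fun z => z.1 = (τ, τ')).card ≤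
        (((Finset.Icc 1 K) ×ˢ (Finset.Icc 1 K)).filter fun z => z.1.Coprime z.2 ∧
          z.1 * lowv b τ' ≡ z.2 * lowv b τ [MOD b ^ h] ∧
          |((z.1 : ℤ) * topv b τ' - (z.2 : ℤ) * topv b τ)| ≤ K).card := by
      refine Finset.card_le_card_of_injOn Prod.snd ?_ ?_
      · rintro ⟨⟨w, w'⟩, ⟨n, n'⟩⟩ hz
        simp only [AA81, Finset.coe_filter, Finset.mem_filter, Finset.mem_product,
          Set.mem_ofPred_eq, Prod.mk.injEq] at hz ⊢
        obtain ⟨⟨⟨_, hn⟩, hc, hmod, habs⟩, rfl, rfl⟩ := hz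
        exact ⟨hn, hc, hmod, habs⟩
      · rintro ⟨⟨w, w'⟩, ⟨n, n'⟩⟩ hz ⟨⟨v, v'⟩, ⟨k, k'⟩⟩ hz' he
        simp only [AA81, Finset.coe_filter, Finset.mem_filter, Finset.mem_product,
          Set.mem_ofPred_eq, Prod.mk.injEq] at hz hz' he ⊢
        obtain ⟨_, rfl, rfl⟩ := hz
        obtain ⟨_, rfl, rfl⟩ := hz'
        exact ⟨⟨rfl, rfl⟩, he⟩
    have h5 : (((AA81 b p h F K).filter fun z => z.1 = (τ, τ')).card : ℝ) ≤
        1 + 20 * b * K * K / ((b ^ h : ℕ) : ℝ) ^ 2 := le_trans (by exact_mod_cast h4) h3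
    refine h5.trans ?_
    have h6 : (0 : ℝ) < ((b ^ h : ℕ) : ℝ) := by
      have : 0 < b ^ h := Nat.pow_pos (by omega)
      exact_mod_cast this
    have h7 : (K : ℝ) ≤ ((b ^ h : ℕ) : ℝ) := by exact_mod_cast hKh.le
    have h8 : (0 : ℝ) ≤ (K : ℝ) := Nat.cast_nonneg K
    have h9 : 20 * (b : ℝ) * K * K / ((b ^ h : ℕ) : ℝ) ^ 2 ≤ 20 * b := by
      rw [div_le_iff₀ (by positivity)]
      have h10 : (K : ℝ) * K ≤ ((b ^ h : ℕ) : ℝ) ^ 2 := by
        rw [sq]; exact mul_le_mul h7 h7 h8 h6.le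
      have hb0 : (0 : ℝ) ≤ 20 * (b : ℝ) := by positivity
      calc 20 * (b : ℝ) * K * K = 20 * b * (K * K) := by ring
        _ ≤ 20 * b * ((b ^ h : ℕ) : ℝ) ^ 2 := mul_le_mul_of_nonneg_left h10 hb0
    linarith
  rw [h1]
  push_cast
  refine (Finset.sum_le_sum h2).trans ?_
  rw [Finset.sum_const, Finset.card_product, nsmul_eq_mul]
  push_cast
  rw [sq]

private theorem prm_le_AA81 {b p h l K : ℕ} {F : Finset ℕ} (hb : Bas b p) (hh : 1 ≤ h)
    (hF : F ⊆ Finset.Ico 1 (h + l)) :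
    prm b p (h + l) F K ≤ (AA81 b p h F K).card * b ^ (l + (F.filter fun i => h ≤ i).card) *
      b ^ (F.filter fun i => h ≤ i).card := by
  classical
  have hb2 := hb.two
  rw [← card_tl81 b p h l F hh hF, ← card_tp81 b h l F hF, ← Finset.card_product,
    ← Finset.card_product]
  unfold prm
  refine Finset.card_le_card_of_injOn
    (fun z => ((((hd81 z.1.1, hd81 z.1.2), z.2), tl81 z.1.2), tp81 F z.1.1)) ?_ ?_
  · rintro ⟨⟨w, w'⟩, ⟨n, n'⟩⟩ hz
    simp only [Finset.coe_filter, Finset.mem_product, Finset.mem_Icc, Set.mem_ofPred_eq] at hz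
    obtain ⟨⟨⟨hw, hw'⟩, ⟨hn1, hnK⟩, ⟨hn'1, hn'K⟩⟩, hc, hcb, hcb', hmod, habs⟩ := hz
    rw [Finset.mem_coe]
    refine Finset.mem_product.2 ⟨Finset.mem_product.2 ⟨?_, tl_mem81 hw'⟩, tp_mem81 hb hw⟩
    unfold AA81
    refine Finset.mem_filter.2 ⟨Finset.mem_product.2 ⟨Finset.mem_product.2 ⟨hd_mem81 hw,
      hd_mem81 hw'⟩, Finset.mem_product.2 ⟨Finset.mem_Icc.2 ⟨hn1, hnK⟩,
      Finset.mem_Icc.2 ⟨hn'1, hn'K⟩⟩⟩, hc, ?_, ?_⟩
    · have e1 : n * lowv b w' ≡ n' * lowv b w [MOD b ^ h] :=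
        Nat.ModEq.of_dvd (pow_dvd_pow b (by omega : h ≤ h + l)) hmod
      have e2 : n * lowv b (hd81 w') ≡ n * lowv b w' [MOD b ^ h] :=
        (low_hd81 w').symm.mul_left n
      have e3 : n' * lowv b w ≡ n' * lowv b (hd81 w) [MOD b ^ h] := (low_hd81 w).mul_left n'
      exact (e2.trans e1).trans e3
    · have r1 : topv b (tl81 w) < b ^ l := top_lt81 (by omega) _ fun j => (digit_lt hb hw _).2
      have r2 : topv b (tl81 w') < b ^ l := top_lt81 (by omega) _ fun j => (digit_lt hb hw' _).2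
      rw [top_hd81 w, top_hd81 w'] at habs
      push_cast at habs
      set B : ℤ := (b : ℤ) ^ l with hB
      set x : ℤ := (topv b (hd81 w) : ℤ) with hx
      set x' : ℤ := (topv b (hd81 w') : ℤ) with hx'
      set r : ℤ := (topv b (tl81 w) : ℤ) with hr
      set r' : ℤ := (topv b (tl81 w') : ℤ) with hr'
      have hB1 : (1 : ℤ) ≤ B := by
        rw [hB]
        have : 1 ≤ b ^ l := Nat.one_le_pow _ _ (by omega)
        exact_mod_cast this
      have q1 : r + 1 ≤ B := by rw [hr, hB]; exact_mod_cast r1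
      have q2 : r' + 1 ≤ B := by rw [hr', hB]; exact_mod_cast r2
      have q3 : 0 ≤ r := by rw [hr]; exact Int.natCast_nonneg _
      have q4 : 0 ≤ r' := by rw [hr']; exact Int.natCast_nonneg _
      have n1 : (1 : ℤ) ≤ n := by exact_mod_cast hn1
      have n2 : (n : ℤ) ≤ K := by exact_mod_cast hnK
      have n3 : (1 : ℤ) ≤ n' := by exact_mod_cast hn'1
      have n4 : (n' : ℤ) ≤ K := by exact_mod_cast hn'K
      rw [abs_le] at habs ⊢
      have u1 : (n : ℤ) * r' ≤ K * (B - 1) :=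
        mul_le_mul n2 (by linarith) q4 (by linarith)
      have u2 : (n' : ℤ) * r ≤ K * (B - 1) :=
        mul_le_mul n4 (by linarith) q3 (by linarith)
      have u3 : 0 ≤ (n : ℤ) * r' := mul_nonneg (by linarith) q4
      have u4 : 0 ≤ (n' : ℤ) * r := mul_nonneg (by linarith) q3
      have v1 : B * ((n : ℤ) * x' - n' * x) ≤ B * K := by
        have := habs.2
        nlinarith
      have v2 : B * (-(K : ℤ)) ≤ B * ((n : ℤ) * x' - n' * x) := by
        have := habs.1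
        nlinarith
      exact ⟨le_of_mul_le_mul_left v2 (by linarith), le_of_mul_le_mul_left v1 (by linarith)⟩
  · rintro ⟨⟨w, w'⟩, ⟨n, n'⟩⟩ hz ⟨⟨v, v'⟩, ⟨k, k'⟩⟩ hz' he
    simp only [Finset.coe_filter, Finset.mem_product, Finset.mem_Icc, Set.mem_ofPred_eq] at hz hz'
    obtain ⟨⟨⟨hw, hw'⟩, _⟩, _, _, hcb', hmod, _⟩ := hz
    obtain ⟨⟨⟨hv, hv'⟩, _⟩, _, _, hcv', hmodv, _⟩ := hz'
    simp only [Prod.mk.injEq] at he
    obtain ⟨⟨⟨⟨h1, h2⟩, h3, h4⟩, h5⟩, h6⟩ := he
    subst h3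
    subst h4
    have e1 : w' = v' := ext81 h2 h5
    subst e1
    have e2 : n' * lowv b w ≡ n' * lowv b v [MOD b ^ (h + l)] := hmod.symm.trans hmodv
    have e3 : lowv b w ≡ lowv b v [MOD b ^ (h + l)] :=
      Nat.ModEq.cancel_left_of_coprime (Nat.Coprime.pow_right _ hcb').symm e2
    have e4 : lowv b w = lowv b v :=
      Nat.ModEq.eq_of_lt_of_lt e3 (low_lt hb hw) (low_lt hb hv)
    have e5 := low_inj hb hw hv e4
    have e6 : tl81 w = tl81 v := by
      funext j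
      refine Prod.ext (e5 _) ?_
      by_cases hj : h + (j : ℕ) ∈ F
      · have := congrFun h6 j
        unfold tp81 at this
        rw [if_pos hj, if_pos hj] at this
        exact this
      · have m1 : w (Fin.natAdd h j) ∈ Sd b p F ((Fin.natAdd h j : Fin (h + l)) : ℕ) :=
          (Fintype.mem_piFinset.mp hw) _
        have m2 : v (Fin.natAdd h j) ∈ Sd b p F ((Fin.natAdd h j : Fin (h + l)) : ℕ) :=
          (Fintype.mem_piFinset.mp hv) _
        have hne : ¬ (((Fin.natAdd h j : Fin (h + l)) : ℕ) = 0) := by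
          rw [Fin.val_natAdd]; omega
        have hnF : ¬ (((Fin.natAdd h j : Fin (h + l)) : ℕ) ∈ F) := by
          rw [Fin.val_natAdd]; exact hj
        unfold Sd at m1 m2
        rw [if_neg hne, if_neg hnF, Finset.mem_image] at m1 m2
        obtain ⟨d, _, hd⟩ := m1
        obtain ⟨d', _, hd'⟩ := m2
        have e7 := e5 (Fin.natAdd h j)
        rw [← hd, ← hd'] at e7
        change (w (Fin.natAdd h j)).2 = (v (Fin.natAdd h j)).2
        rw [← hd, ← hd']
        exact e7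
    have e7 : w = v := ext81 h1 e6
    subst e7
    rfl

theorem prmSmall (h : LatProp) : PrmSmall := by
  intro b p m F hb hm hF K hK hKm
  have hb2 := hb.two
  obtain ⟨g, hg⟩ : ∃ g, g = Nat.log b K := ⟨_, rfl⟩
  have hg1 : b ^ g ≤ K := by rw [hg]; exact Nat.pow_log_le_self b (by omega)
  have hg2 : K < b ^ (g + 1) := by rw [hg]; exact Nat.lt_pow_succ_log_self (by omega) K
  have hg3 : g < m := by
    by_contra hcon
    have : b ^ m ≤ b ^ g := Nat.pow_le_pow_right (by omega) (by omega)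
    omega
  obtain ⟨l, rfl⟩ : ∃ l, m = (g + 1) + l := ⟨m - (g + 1), by omega⟩
  have h1 := prm_le_AA81 (K := K) hb (by omega : 1 ≤ g + 1) hF
  have h2 := card_AA81 h (F := F) hb (by omega : 1 ≤ g + 1) hK hg2
  have h3 : (RR b p (g + 1) F).card = b ^ (g + (F.filter fun i => i < g + 1).card) := by
    rw [RR_filter81]
    have := card_RR (b := b) (p := p) (m := g + 1) (F := F.filter fun i => i < g + 1) (by omega)
      (fun i hi => by
        rw [Finset.mem_filter] at hi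
        have := Finset.mem_Ico.1 (hF hi.1)
        exact Finset.mem_Ico.2 ⟨this.1, hi.2⟩)
    simpa using this
  set f1 := (F.filter fun i => i < g + 1).card with hf1
  set f2 := (F.filter fun i => g + 1 ≤ i).card with hf2
  have hf : f1 + f2 = F.card := by
    rw [hf1, hf2]
    have e : (F.filter fun i => g + 1 ≤ i) = F.filter fun i => ¬ (i < g + 1) := by
      refine Finset.filter_congr fun i _ => ?_
      omega
    rw [e]
    exact Finset.card_filter_add_card_filter_not _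
  have hbR : (2 : ℝ) ≤ (b : ℝ) := by exact_mod_cast hb2
  have hb0 : (0 : ℝ) ≤ (b : ℝ) := by linarith
  have h4 : (prm b p (g + 1 + l) F K : ℝ) ≤
      ((AA81 b p (g + 1) F K).card : ℝ) * (b : ℝ) ^ (l + f2) * (b : ℝ) ^ f2 := by
    exact_mod_cast h1
  rw [h3] at h2
  push_cast at h2
  have h5 : ((b : ℝ) ^ (g + f1)) ^ 2 * (1 + 20 * b) ≤ ((b : ℝ) ^ (g + f1)) ^ 2 * (21 * b) := by
    refine mul_le_mul_of_nonneg_left ?_ (by positivity)
    linarith
  have hgK : (b : ℝ) ^ g ≤ (K : ℝ) := by exact_mod_cast hg1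
  calc (prm b p (g + 1 + l) F K : ℝ)
      ≤ ((AA81 b p (g + 1) F K).card : ℝ) * (b : ℝ) ^ (l + f2) * (b : ℝ) ^ f2 := h4
    _ ≤ (((b : ℝ) ^ (g + f1)) ^ 2 * (21 * b)) * (b : ℝ) ^ (l + f2) * (b : ℝ) ^ f2 := by
        have := h2.trans h5
        gcongr
    _ = 21 * (b : ℝ) ^ (2 * (f1 + f2)) * (b : ℝ) ^ g * (b : ℝ) ^ (g + 1 + l) := by
        rw [← pow_mul]
        have e : ∀ x : ℝ, (x ^ ((g + f1) * 2) * (21 * x)) * x ^ (l + f2) * x ^ f2 =
            21 * x ^ (2 * (f1 + f2)) * x ^ g * x ^ (g + 1 + l) := fun x => by ring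
        exact e b
    _ = 21 * (b : ℝ) ^ (2 * F.card) * (b : ℝ) ^ g * (b : ℝ) ^ (g + 1 + l) := by rw [hf]
    _ ≤ 21 * (b : ℝ) ^ (2 * F.card) * K * (b : ℝ) ^ (g + 1 + l) := by gcongr

end Pool.Agent.HPZ
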