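import Pool.Agent.HPZ.Iface
import Pool.Agent.HPZ.EBas

/-!
# HPZ/LDefs: definitions for the count of part L (note 1864)
-/

namespace Pool.Agent.HPZ

open Complex MeasureTheory

/-- the primitive count: `n, n' ≤ K` coprime to each other and to `b` -/
noncomputable def prm (b p m : ℕ) (F : Finset ℕ) (K : ℕ) : ℕ :=
  (((RR b p m F ×ˢ RR b p m F) ×ˢ (Finset.Icc 1 K ×ˢ Finset.Icc 1 K)).filter fun z =>
    z.2.1.Coprime z.2.2 ∧ z.2.1.Coprime b ∧ z.2.2.Coprime b ∧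
    z.2.1 * lowv b z.1.2 ≡ z.2.2 * lowv b z.1.1 [MOD b ^ m] ∧
    |((z.2.1 : ℤ) * topv b z.1.2 - (z.2.2 : ℤ) * topv b z.1.1)| ≤ K).card

/-- (2b) -/
def PrmBig : Prop := ∀ (b p m : ℕ) (F : Finset ℕ), Bas b p → 1 ≤ m → F ⊆ Finset.Ico 1 m →
  ∀ K : ℕ, b ^ m ≤ K → (prm b p m F K : ℝ) ≤ 21 * (b : ℝ) ^ (2 * F.card) * (K : ℝ) ^ 2

/-- (2c) -/
def PrmSmall : Prop := ∀ (b p m : ℕ) (F : Finset ℕ), Bas b p → 1 ≤ m → F ⊆ Finset.Ico 1 m →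
  ∀ K : ℕ, 1 ≤ K → K < b ^ m → (prm b p m F K : ℝ) ≤ 21 * (b : ℝ) ^ (2 * F.card) * K * (b : ℝ) ^ m

end Pool.Agent.HPZ
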