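import Pool.Agent.HPZ.Iface

/-!
# HPZ/LLat: lattice points (`LatProp`), note 1864 (3)

For `P = (n, n')` put `w P = n s' - n' s` (in `ℤ`). For two solutions `P1 ≠ P2` let `D = n1 n2' - n2 n1'`.
(i) `r D = n1 (n2' r) - n2 (n1' r) ≡ n1 n2 r' - n2 n1 r' = 0 mod q`, so `q ∣ D` (`r` is prime to `q`), and `D ≠ 0` as
both are coprime pairs of positive integers. (ii) `D s = n2 w1 - n1 w2`. Put `μ P = max (n W) (K |w P|) ≤ K W`;
`|D| s ≤ n2 |w1| + n1 |w2| ≤ 2 μ P1`. (iii) Fix a solution `P1` (if there is none the count is `0`). The other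
solutions have `D (P1, .)` a nonzero multiple of `q`, of absolute value `≤ 2 μ1 b / q`: at most `4 μ1 b / q^2` values.
(iv) Solutions `P2, P3` with the same `D`: `n1 (n3' - n2') = n1' (n3 - n2)`, so `P3 = P2 + t P1`, `t ∈ ℤ`;
`|t| n1 ≤ K` and `|t| |w1| ≤ 2 W`, hence `|t| ≤ 2 K W / μ1`: at most `1 + 4 K W / μ1 ≤ 5 K W / μ1` solutions per value
of `D`. (v) Total `≤ 1 + (4 μ1 b / q^2) (5 K W / μ1) = 1 + 20 b K W / q^2`.
-/

namespace Pool.Agent.HPZ

open Complex MeasureTheory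

/-- two coprime pairs of positive integers with the same ratio are equal -/
private theorem pair_eq {a a' c c' : ℕ} (ha : 1 ≤ a) (h1 : a.Coprime a') (h2 : c.Coprime c')
    (h : (a : ℤ) * c' - (c : ℤ) * a' = 0) : c = a ∧ c' = a' := by
  have h3 : a * c' = c * a' := by
    have : (a : ℤ) * c' = (c : ℤ) * a' := by linarith
    exact_mod_cast this
  have h4 : a ∣ c := by
    have : a ∣ c * a' := ⟨c', h3.symm⟩
    exact h1.dvd_of_dvd_mul_right this
  have h5 : c ∣ a := by
    have : c ∣ a * c' := ⟨a', h3⟩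
    exact h2.dvd_of_dvd_mul_right this
  have h6 : c = a := Nat.dvd_antisymm h5 h4
  refine ⟨h6, ?_⟩
  rw [h6] at h3
  exact Nat.eq_of_mul_eq_mul_left (by omega) h3

/-- `q` divides the determinant of two solutions -/
private theorem dvd_det {q r r' a a' c c' : ℕ} (hr : r.Coprime q) (h1 : a * r' ≡ a' * r [MOD q])
    (h2 : c * r' ≡ c' * r [MOD q]) : (q : ℤ) ∣ (a : ℤ) * c' - (c : ℤ) * a' := by
  have e1 : (q : ℤ) ∣ (a' : ℤ) * r - (a : ℤ) * r' := by
    have := (Nat.modEq_iff_dvd).1 h1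
    push_cast at this
    exact this
  have e2 : (q : ℤ) ∣ (c' : ℤ) * r - (c : ℤ) * r' := by
    have := (Nat.modEq_iff_dvd).1 h2
    push_cast at this
    exact this
  have e3 : (q : ℤ) ∣ ((a : ℤ) * c' - (c : ℤ) * a') * r := by
    have : ((a : ℤ) * c' - (c : ℤ) * a') * r =
        (a : ℤ) * ((c' : ℤ) * r - (c : ℤ) * r') - (c : ℤ) * ((a' : ℤ) * r - (a : ℤ) * r') := by ring
    rw [this]
    exact dvd_sub (e2.mul_left _) (e1.mul_left _)
  have e4 : IsCoprime (q : ℤ) (r : ℤ) := by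
    exact_mod_cast (Nat.isCoprime_iff_coprime.2 hr).symm
  exact e4.dvd_of_dvd_mul_right e3

theorem latProp : LatProp := by
  intro q b K W s s' r r' hq hb hK hW hs hs' hr hr'
  classical
  set S := ((Finset.Icc 1 K) ×ˢ (Finset.Icc 1 K)).filter fun z : ℕ × ℕ => z.1.Coprime z.2 ∧
    z.1 * r' ≡ z.2 * r [MOD q] ∧ |((z.1 : ℤ) * s' - (z.2 : ℤ) * s)| ≤ W with hS
  have hqR : (0 : ℝ) < q := by exact_mod_cast hq
  rcases S.eq_empty_or_nonempty with h0 | ⟨P, hP⟩
  · rw [h0]
    simp only [Finset.card_empty, Nat.cast_zero]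
    positivity
  have hmem : ∀ z ∈ S, (1 ≤ z.1 ∧ z.1 ≤ K) ∧ (1 ≤ z.2 ∧ z.2 ≤ K) ∧ z.1.Coprime z.2 ∧
      z.1 * r' ≡ z.2 * r [MOD q] ∧ |((z.1 : ℤ) * s' - (z.2 : ℤ) * s)| ≤ W := by
    intro z hz
    simp only [hS, Finset.mem_filter, Finset.mem_product, Finset.mem_Icc] at hz
    tauto
  obtain ⟨⟨hP1, hP1K⟩, ⟨hP2, hP2K⟩, hPc, hPm, hPw⟩ := hmem P hP
  obtain ⟨n, n'⟩ := P
  simp only at hP1 hP1K hP2 hP2K hPc hPm hPw
  -- `w1`, `μ`
  set w1 : ℤ := (n : ℤ) * s' - (n' : ℤ) * s with hw1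
  set μ : ℤ := max ((n : ℤ) * W) (K * |w1|) with hμ
  have hμ1 : (n : ℤ) * W ≤ μ := le_max_left _ _
  have hμ2 : (K : ℤ) * |w1| ≤ μ := le_max_right _ _
  have hμpos : 1 ≤ μ := by
    have : (1 : ℤ) ≤ (n : ℤ) * W := by exact_mod_cast Nat.mul_pos hP1 hW
    linarith
  have hμKW : μ ≤ (K : ℤ) * W := by
    apply max_le
    · have : (n : ℤ) ≤ K := by exact_mod_cast hP1K
      have : (0 : ℤ) ≤ W := by positivity
      nlinarith
    · have : (0 : ℤ) ≤ K := by positivity
      nlinarith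
  set D : ℕ × ℕ → ℤ := fun z => (n : ℤ) * z.2 - (z.1 : ℤ) * n' with hD
  have hDdvd : ∀ z ∈ S, (q : ℤ) ∣ D z := by
    intro z hz
    obtain ⟨_, _, _, hm, _⟩ := hmem z hz
    exact dvd_det hr hPm hm
  have hDbd : ∀ z ∈ S, |D z| * s ≤ 2 * μ := by
    intro z hz
    obtain ⟨⟨h1, h2⟩, ⟨h3, h4⟩, hc, hm, hw⟩ := hmem z hz
    have e : D z * s = (z.1 : ℤ) * w1 - (n : ℤ) * ((z.1 : ℤ) * s' - (z.2 : ℤ) * s) := by
      simp only [hD, hw1]; ring
    have e2 : |D z| * s = |D z * s| := by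
      rw [abs_mul, Nat.abs_cast]
    rw [e2, e]
    have e3 : |(z.1 : ℤ) * w1| ≤ K * |w1| := by
      rw [abs_mul, Nat.abs_cast]
      have : (z.1 : ℤ) ≤ K := by exact_mod_cast h2
      exact mul_le_mul_of_nonneg_right this (abs_nonneg _)
    have e4 : |(n : ℤ) * ((z.1 : ℤ) * s' - (z.2 : ℤ) * s)| ≤ (n : ℤ) * W := by
      rw [abs_mul, Nat.abs_cast]
      exact mul_le_mul_of_nonneg_left hw (by positivity)
    calc _ ≤ |(z.1 : ℤ) * w1| + |(n : ℤ) * ((z.1 : ℤ) * s' - (z.2 : ℤ) * s)| := abs_sub _ _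
      _ ≤ _ := by linarith
  have hDq : ∀ z ∈ S, |D z| * q ≤ 2 * μ * b := by
    intro z hz
    have h1 := hDbd z hz
    have h2 : (q : ℤ) ≤ b * s := by exact_mod_cast hs
    have h3 : (0 : ℤ) ≤ |D z| := abs_nonneg _
    have h4 : (0 : ℤ) ≤ b := by positivity
    calc |D z| * q ≤ |D z| * (b * s) := mul_le_mul_of_nonneg_left h2 h3
      _ = (|D z| * s) * b := by ring
      _ ≤ _ := mul_le_mul_of_nonneg_right h1 h4
  have hq0 : (0 : ℤ) < q := by exact_mod_cast hq
  set J : ℤ := (2 * μ * b) / (q : ℤ) ^ 2 with hJ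
  set L : ℤ := (2 * K * W) / μ with hL
  have hJ0 : 0 ≤ J := Int.ediv_nonneg (by positivity) (by positivity)
  have hL0 : 0 ≤ L := Int.ediv_nonneg (by positivity) (by linarith)
  set f : ℕ × ℕ → ℤ := fun z => D z / q with hf
  have hDf : ∀ z ∈ S, D z = q * f z := fun z hz => (Int.mul_ediv_cancel' (hDdvd z hz)).symm
  -- the image
  have himg : (S.erase (n, n')).image f ⊆ (Finset.Icc (-J) J).erase 0 := by
    intro j hj
    obtain ⟨z, hz, rfl⟩ := Finset.mem_image.1 hj
    obtain ⟨hzne, hz⟩ := Finset.mem_erase.1 hz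
    have hz0 : f z ≠ 0 := by
      intro h0
      have hD0 : D z = 0 := by rw [hDf z hz, h0, mul_zero]
      obtain ⟨_, _, hc, _, _⟩ := hmem z hz
      obtain ⟨e1, e2⟩ := pair_eq hP1 hPc hc hD0
      exact hzne (Prod.ext e1 e2)
    refine Finset.mem_erase.2 ⟨hz0, ?_⟩
    have h1 := hDq z hz
    rw [hDf z hz, abs_mul, Nat.abs_cast] at h1
    have h2 : |f z| * (q : ℤ) ^ 2 ≤ 2 * μ * b := by nlinarith
    have h3 : |f z| ≤ J := (Int.le_ediv_iff_mul_le (by positivity)).2 h2
    rw [Finset.mem_Icc]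
    exact abs_le.1 h3
  have hcardimg : (((S.erase (n, n')).image f).card : ℤ) ≤ 2 * J := by
    have h1 := Finset.card_le_card himg
    have h2 : ((Finset.Icc (-J) J).erase 0).card = (Finset.Icc (-J) J).card - 1 :=
      Finset.card_erase_of_mem (by rw [Finset.mem_Icc]; constructor <;> linarith)
    rw [h2, Int.card_Icc] at h1
    omega
  -- the fibres
  have hfib : ∀ a ∈ (S.erase (n, n')).image f,
      ((S.erase (n, n')).filter fun z => f z = a).card ≤ (2 * L + 1).toNat := by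
    intro a ha
    obtain ⟨z0, hz0, hz0a⟩ := Finset.mem_image.1 ha
    have hz0S := (Finset.mem_erase.1 hz0).2
    have hkey : ∀ z ∈ (S.erase (n, n')).filter (fun z => f z = a),
        ∃ t : ℤ, (z.1 : ℤ) = z0.1 + n * t ∧ (z.2 : ℤ) = z0.2 + n' * t ∧ |t| ≤ L := by
      intro z hz
      obtain ⟨hz, hza⟩ := Finset.mem_filter.1 hz
      have hzS := (Finset.mem_erase.1 hz).2
      have hDD : D z = D z0 := by rw [hDf z hzS, hDf z0 hz0S, hza, hz0a]
      have hrel : (n : ℤ) * ((z.2 : ℤ) - z0.2) = ((z.1 : ℤ) - z0.1) * n' := by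
        simp only [hD] at hDD
        linarith
      have hcop : IsCoprime (n : ℤ) (n' : ℤ) := Nat.isCoprime_iff_coprime.2 hPc
      have hdv : (n : ℤ) ∣ (z.1 : ℤ) - z0.1 := hcop.dvd_of_dvd_mul_right ⟨_, hrel.symm⟩
      obtain ⟨t, ht⟩ := hdv
      have hn0 : (n : ℤ) ≠ 0 := by
        have : (1 : ℤ) ≤ n := by exact_mod_cast hP1
        omega
      have ht2 : (z.2 : ℤ) - z0.2 = n' * t := by
        have : (n : ℤ) * ((z.2 : ℤ) - z0.2) = n * (n' * t) := by rw [hrel, ht]; ring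
        exact mul_left_cancel₀ hn0 this
      refine ⟨t, by linarith, by linarith, ?_⟩
      obtain ⟨⟨a1, a2⟩, ⟨a3, a4⟩, _, _, a5⟩ := hmem z hzS
      obtain ⟨⟨b1, b2⟩, ⟨b3, b4⟩, _, _, b5⟩ := hmem z0 hz0S
      have c1 : |t| * (n : ℤ) ≤ K := by
        have : |t| * (n : ℤ) = |(z.1 : ℤ) - z0.1| := by
          rw [ht, abs_mul, Nat.abs_cast]; ring
        rw [this, abs_le]
        constructor <;> omega
      have c2 : |t| * |w1| ≤ 2 * W := by
        have : |t| * |w1| = |((z.1 : ℤ) * s' - (z.2 : ℤ) * s) - ((z0.1 : ℤ) * s' - (z0.2 : ℤ) * s)| := by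
          rw [← abs_mul]
          congr 1
          have e1 : (z.1 : ℤ) = z0.1 + n * t := by linarith
          have e2 : (z.2 : ℤ) = z0.2 + n' * t := by linarith
          rw [e1, e2, hw1]
          ring
        rw [this]
        calc _ ≤ |(z.1 : ℤ) * s' - (z.2 : ℤ) * s| + |(z0.1 : ℤ) * s' - (z0.2 : ℤ) * s| := abs_sub _ _
          _ ≤ _ := by linarith
      have c3 : |t| * μ ≤ 2 * K * W := by
        rw [hμ]
        have ht0 : 0 ≤ |t| := abs_nonneg t
        have hK0 : (0 : ℤ) ≤ K := by positivity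
        have hW0 : (0 : ℤ) ≤ W := by positivity
        rcases le_total ((n : ℤ) * W) (K * |w1|) with h | h
        · rw [max_eq_right h]
          calc |t| * (K * |w1|) = K * (|t| * |w1|) := by ring
            _ ≤ K * (2 * W) := mul_le_mul_of_nonneg_left c2 hK0
            _ = _ := by ring
        · rw [max_eq_left h]
          calc |t| * ((n : ℤ) * W) = (|t| * n) * W := by ring
            _ ≤ K * W := mul_le_mul_of_nonneg_right c1 hW0
            _ ≤ _ := by nlinarith [mul_nonneg hK0 hW0]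
      exact (Int.le_ediv_iff_mul_le (by linarith)).2 c3
    have hinj : ((S.erase (n, n')).filter fun z => f z = a).card ≤ (Finset.Icc (-L) L).card := by
      apply Finset.card_le_card_of_injOn (fun z => ((z.1 : ℤ) - z0.1) / n)
      · intro z hz
        obtain ⟨t, h1, h2, h3⟩ := hkey z hz
        have hn0 : (n : ℤ) ≠ 0 := by
          have : (1 : ℤ) ≤ n := by exact_mod_cast hP1
          omega
        have : ((z.1 : ℤ) - z0.1) / n = t := by
          rw [h1]
          rw [show (z0.1 : ℤ) + n * t - z0.1 = n * t by ring]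
          exact Int.mul_ediv_cancel_left _ hn0
        simp only [this, Finset.coe_Icc, Set.mem_Icc]
        exact abs_le.1 h3
      · intro z hz z' hz' hzz
        obtain ⟨t, h1, h2, h3⟩ := hkey z hz
        obtain ⟨t', h1', h2', h3'⟩ := hkey z' hz'
        have hn0 : (n : ℤ) ≠ 0 := by
          have : (1 : ℤ) ≤ n := by exact_mod_cast hP1
          omega
        have e1 : ((z.1 : ℤ) - z0.1) / n = t := by
          rw [h1]
          rw [show (z0.1 : ℤ) + n * t - z0.1 = n * t by ring]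
          exact Int.mul_ediv_cancel_left _ hn0
        have e2 : ((z'.1 : ℤ) - z0.1) / n = t' := by
          rw [h1']
          rw [show (z0.1 : ℤ) + n * t' - z0.1 = n * t' by ring]
          exact Int.mul_ediv_cancel_left _ hn0
        have htt : t = t' := by
          rw [← e1, ← e2]; exact hzz
        apply Prod.ext
        · have : (z.1 : ℤ) = z'.1 := by rw [h1, h1', htt]
          exact_mod_cast this
        · have : (z.2 : ℤ) = z'.2 := by rw [h2, h2', htt]
          exact_mod_cast this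
    rw [Int.card_Icc] at hinj
    have : (L + 1 - -L) = 2 * L + 1 := by ring
    rw [this] at hinj
    exact hinj
  have hcard := Finset.card_le_mul_card_image (S.erase (n, n')) _ hfib
  have hScard : S.card = (S.erase (n, n')).card + 1 := by
    rw [Finset.card_erase_of_mem hP]
    have : 0 < S.card := Finset.card_pos.2 ⟨_, hP⟩
    omega
  -- real numbers
  have hμR : (0 : ℝ) < μ := by exact_mod_cast (by linarith : (0 : ℤ) < μ)
  have hμKWR : (μ : ℝ) ≤ K * W := by exact_mod_cast hμKW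
  have hJR : (J : ℝ) ≤ 2 * μ * b / (q : ℝ) ^ 2 := by
    rw [le_div_iff₀ (by positivity)]
    have : J * (q : ℤ) ^ 2 ≤ 2 * μ * b := Int.ediv_mul_le _ (by positivity)
    exact_mod_cast this
  have hLR : (L : ℝ) ≤ 2 * K * W / μ := by
    rw [le_div_iff₀ hμR]
    have : L * μ ≤ 2 * K * W := Int.ediv_mul_le _ (by linarith)
    exact_mod_cast this
  have hLR2 : (2 * L + 1 : ℝ) ≤ 5 * K * W / μ := by
    have h1 : (1 : ℝ) ≤ K * W / μ := by rwa [le_div_iff₀ hμR, one_mul]
    have h2 : 5 * (K : ℝ) * W / μ = 2 * (2 * K * W / μ) + K * W / μ := by ring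
    rw [h2]
    linarith
  have hcardR : ((S.erase (n, n')).card : ℝ) ≤ (2 * L + 1) * (2 * J) := by
    have h1 : ((S.erase (n, n')).card : ℤ) ≤ (2 * L + 1) * (2 * J) := by
      have h2 : ((S.erase (n, n')).card : ℤ) ≤ ((2 * L + 1).toNat : ℤ) *
          (((S.erase (n, n')).image f).card : ℤ) := by exact_mod_cast hcard
      have h3 : ((2 * L + 1).toNat : ℤ) = 2 * L + 1 := Int.toNat_of_nonneg (by linarith)
      rw [h3] at h2
      exact h2.trans (mul_le_mul_of_nonneg_left hcardimg (by linarith))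
    exact_mod_cast h1
  have hJR0 : (0 : ℝ) ≤ J := by exact_mod_cast hJ0
  rw [hScard]
  push_cast
  have hfin : (2 * (L : ℝ) + 1) * (2 * J) ≤ 20 * b * K * W / (q : ℝ) ^ 2 := by
    calc (2 * (L : ℝ) + 1) * (2 * J) ≤ (5 * K * W / μ) * (2 * (2 * μ * b / (q : ℝ) ^ 2)) := by
          apply mul_le_mul hLR2 _ (by positivity) (by positivity)
          linarith
      _ = _ := by
          field_simp
          ring
  linarith

end Pool.Agent.HPZ
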