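import Pool.Agent.HPZ.LDefs
import Pool.Agent.HPZ.APP

/-!
# HPZ/LMix: the mixed lemma (`MixProp`), note 1864 (1)

`cc * A = ∑_(ω, n) wt(ω) a_n conj χ(low) χ(n) (n / top)^(it)`; only `n` prime to `b` count. `SecondProp` with
`ι = (Fin m → ℕ × ℕ) × ℕ`, `S = RR ×ˢ (n ≤ H prime to b)`, `u (ω, n) = n * (low ω)⁻¹` (a unit of `ZMod (b^m)`,
`conj χ(low) = χ(low⁻¹)`, as in `HPP.ax_conj`), `Y = log n - log top`, `c = wt(ω) a_n`. `u = u'` gives
`n low' ≡ n' low mod b^m`; `|Y - Y'| ≤ 1 / T ≤ b^(-m)` gives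
`|n top' - n' top| ≤ max (n top', n' top) |log (n top') - log (n' top)| ≤ H b^m b^(-m) = H`; `φ(b^m) ≤ b^m`.
-/

namespace Pool.Agent.HPZ

open Complex MeasureTheory

private theorem lmix_conj {q : ℕ} [NeZero q] (χ : DirichletCharacter ℂ q) {a : ZMod q} (ha : IsUnit a) :
    (starRingEnd ℂ) (χ a) = χ (a⁻¹) := by
  obtain ⟨v, rfl⟩ := ha
  have hv : ((v : ZMod q))⁻¹ = ((v⁻¹ : (ZMod q)ˣ) : ZMod q) := ZMod.inv_coe_unit v
  rw [hv]
  have h1 : χ (v : ZMod q) * χ ((v⁻¹ : (ZMod q)ˣ) : ZMod q) = 1 := by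
    rw [← map_mul, Units.mul_inv, map_one]
  have h2 : ‖χ (v : ZMod q)‖ = 1 := DirichletCharacter.unit_norm_eq_one χ v
  have h3 : (starRingEnd ℂ) (χ (v : ZMod q)) * χ (v : ZMod q) = 1 := by
    rw [← Complex.normSq_eq_conj_mul_self, Complex.normSq_eq_norm_sq, h2]
    simp
  have h4 : χ (v : ZMod q) ≠ 0 := by
    intro h
    rw [h, norm_zero] at h2
    exact zero_ne_one h2
  apply mul_right_cancel₀ h4
  rw [h3, mul_comm, h1]

private theorem lmix_cpow {n : ℕ} (hn : 0 < n) (s : ℂ) :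
    (n : ℂ) ^ s = cexp ((Real.log n : ℂ) * s) := by
  rw [Complex.cpow_def_of_ne_zero (by exact_mod_cast hn.ne'), Complex.natCast_log]

private theorem lmix_log {A B M e : ℝ} (hA : 0 < A) (hB : 0 < B) (hAM : A ≤ M) (hBM : B ≤ M)
    (h : |Real.log A - Real.log B| ≤ e) : |A - B| ≤ M * e := by
  have key : ∀ {A B : ℝ}, 0 < A → 0 < B → A ≤ M → |Real.log A - Real.log B| ≤ e →
      A - B ≤ M * e := by
    intro A B hA hB hAM h
    have h1 : Real.log (B / A) ≤ B / A - 1 := Real.log_le_sub_one_of_pos (div_pos hB hA)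
    rw [Real.log_div hB.ne' hA.ne'] at h1
    have h2 := (abs_le.1 h).2
    have h3 : 1 - B / A ≤ e := by linarith
    have he : 0 ≤ e := (abs_nonneg _).trans h
    calc A - B = A * (1 - B / A) := by field_simp
      _ ≤ A * e := mul_le_mul_of_nonneg_left h3 hA.le
      _ ≤ M * e := mul_le_mul_of_nonneg_right hAM he
  rw [abs_le]
  constructor
  · have := key hB hA hBM (by rwa [abs_sub_comm])
    linarith
  · exact key hA hB hAM h

theorem mixProp (h1 : SecondProp) (h2 : MixCount) : MixProp := by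
  obtain ⟨C1, hC1, h1⟩ := h1
  intro b hb2
  obtain ⟨C2, hC2, h2⟩ := h2 b hb2
  refine ⟨C1 * C2, by nlinarith, ?_⟩
  intro p m F V hb hm hF hV H a D hH hD ha T hT
  have hbm : 0 < b ^ m := pow_pos (by omega) m
  have : NeZero (b ^ m) := ⟨hbm.ne'⟩
  have hT0 : 0 < T := lt_of_lt_of_le (by positivity) hT
  set S : Finset ((Fin m → ℕ × ℕ) × ℕ) :=
    RR b p m F ×ˢ (Finset.Icc 1 H).filter (fun n => n.Coprime b) with hS
  let u : (Fin m → ℕ × ℕ) × ℕ → ZMod (b ^ m) :=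
    fun x => (x.2 : ZMod (b ^ m)) * ((lowv b x.1 : ZMod (b ^ m)))⁻¹
  let Y : (Fin m → ℕ × ℕ) × ℕ → ℝ := fun x => Real.log x.2 - Real.log (topv b x.1)
  let c : (Fin m → ℕ × ℕ) × ℕ → ℂ := fun x => (wt b V x.1 : ℂ) * a x.2
  have hlow : ∀ ω ∈ RR b p m F, IsUnit (lowv b ω : ZMod (b ^ m)) := by
    intro ω hω
    rw [ZMod.isUnit_iff_coprime]
    exact (low_coprime hb hm hω).pow_right m
  have htop : ∀ ω ∈ RR b p m F, 0 < topv b ω := by
    intro ω hω
    have h := (top_bounds hb hm hω).1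
    exact lt_of_lt_of_le (Nat.mul_pos hb.pos (pow_pos (by omega) _)) h
  have hmem : ∀ x ∈ S, x.1 ∈ RR b p m F ∧ 1 ≤ x.2 ∧ x.2 ≤ H ∧ x.2.Coprime b := by
    intro x hx
    rw [hS, Finset.mem_product, Finset.mem_filter, Finset.mem_Icc] at hx
    exact ⟨hx.1, hx.2.1.1, hx.2.1.2, hx.2.2⟩
  have hu : ∀ x ∈ S, IsUnit (u x) := by
    intro x hx
    obtain ⟨h3, _, _, h4⟩ := hmem x hx
    refine IsUnit.mul ?_ ?_
    · rw [ZMod.isUnit_iff_coprime]
      exact h4.pow_right m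
    · obtain ⟨v, hv⟩ := hlow x.1 h3
      rw [← hv, ZMod.inv_coe_unit]
      exact Units.isUnit _
  have hc : ∀ x ∈ S, ‖c x‖ ≤ D := by
    intro x _
    show ‖(wt b V x.1 : ℂ) * a x.2‖ ≤ D
    rw [norm_mul, Complex.norm_real, Real.norm_eq_abs]
    unfold wt
    rw [abs_of_nonneg (hV _).1]
    calc _ ≤ 1 * D := mul_le_mul (hV _).2 (ha _) (norm_nonneg _) zero_le_one
      _ = D := one_mul D
  have key : ∀ (χ : DirichletCharacter ℂ (b ^ m)) (t : ℝ), cc b p F V χ t *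
      ∑ n ∈ Finset.Icc 1 H, a n * χ (n : ZMod (b ^ m)) * (n : ℂ) ^ (t * I) =
      ∑ x ∈ S, c x * χ (u x) * cexp (t * Y x * I) := by
    intro χ t
    have e1 : ∑ n ∈ Finset.Icc 1 H, a n * χ (n : ZMod (b ^ m)) * (n : ℂ) ^ (t * I) =
        ∑ n ∈ (Finset.Icc 1 H).filter (fun n => n.Coprime b),
          a n * χ (n : ZMod (b ^ m)) * (n : ℂ) ^ (t * I) := by
      symm
      apply Finset.sum_filter_of_ne
      intro n hn hne
      by_contra hcop
      apply hne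
      have : ¬ IsUnit (n : ZMod (b ^ m)) := by
        rw [ZMod.isUnit_iff_coprime]
        intro h
        exact hcop (Nat.Coprime.coprime_dvd_right (dvd_pow_self b (by omega)) h)
      rw [MulChar.map_nonunit χ this]
      simp
    rw [e1]
    unfold cc
    rw [Finset.sum_mul_sum, hS, Finset.sum_product]
    refine Finset.sum_congr rfl fun ω hω => Finset.sum_congr rfl fun n hn => ?_
    rw [Finset.mem_filter, Finset.mem_Icc] at hn
    have h3 := lmix_conj χ (hlow ω hω)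
    rw [h3]
    show _ = (wt b V ω : ℂ) * a n * χ ((n : ZMod (b ^ m)) * ((lowv b ω : ZMod (b ^ m)))⁻¹) *
      cexp (t * ((Real.log n - Real.log (topv b ω) : ℝ) : ℂ) * I)
    rw [map_mul, lmix_cpow (htop ω hω), lmix_cpow (by omega : 0 < n)]
    have h4 : cexp (t * ((Real.log n - Real.log (topv b ω) : ℝ) : ℂ) * I) =
        cexp ((Real.log (topv b ω) : ℂ) * (-(t * I))) * cexp ((Real.log n : ℂ) * (t * I)) := by
      rw [← Complex.exp_add]
      congr 1
      push_cast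
      ring
    rw [h4]
    ring
  have hL : ∑ χ : DirichletCharacter ℂ (b ^ m), ∫ t in (-T)..T, ‖cc b p F V χ t‖ ^ 2 *
      ‖∑ n ∈ Finset.Icc 1 H, a n * χ (n : ZMod (b ^ m)) * (n : ℂ) ^ (t * I)‖ ^ 2 =
      ∑ χ : DirichletCharacter ℂ (b ^ m), ∫ t in (-T)..T,
        ‖∑ x ∈ S, c x * χ (u x) * cexp (t * Y x * I)‖ ^ 2 := by
    refine Finset.sum_congr rfl fun χ _ => ?_
    congr 1
    funext t
    rw [← key χ t, norm_mul, mul_pow]
  rw [hL]
  refine (h1 (b ^ m) S u Y c D hD hu hc T hT0).trans ?_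
  -- the count
  have hcard : (((S ×ˢ S).filter fun z => u z.1 = u z.2 ∧ |Y z.1 - Y z.2| ≤ 1 / T).card : ℝ) ≤
      C2 * (1 + Real.log H) * (b : ℝ) ^ (3 * F.card) * ((H : ℝ) ^ 2 + H * (b : ℝ) ^ m) := by
    refine le_trans ?_ (h2 p m F hb hm hF H hH)
    refine Nat.cast_le.2 ?_
    refine Finset.card_le_card_of_injOn (fun z => ((z.1.1, z.2.1), (z.1.2, z.2.2))) ?_ ?_
    · intro z hz
      rw [Finset.coe_filter, Set.mem_setOf_eq, Finset.mem_product] at hz
      obtain ⟨⟨hz1, hz2⟩, hz3, hz4⟩ := hz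
      obtain ⟨g1, g2, g3, g4⟩ := hmem _ hz1
      obtain ⟨k1, k2, k3, k4⟩ := hmem _ hz2
      rw [Finset.coe_filter, Set.mem_setOf_eq]
      refine ⟨?_, g4, k4, ?_, ?_⟩
      · simp only [Finset.mem_product, Finset.mem_Icc]
        exact ⟨⟨g1, k1⟩, ⟨g2, g3⟩, ⟨k2, k3⟩⟩
      · rw [← ZMod.natCast_eq_natCast_iff]
        push_cast
        have hz3' : (z.1.2 : ZMod (b ^ m)) * ((lowv b z.1.1 : ZMod (b ^ m)))⁻¹ =
            (z.2.2 : ZMod (b ^ m)) * ((lowv b z.2.1 : ZMod (b ^ m)))⁻¹ := hz3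
        have i1 : (lowv b z.1.1 : ZMod (b ^ m)) * (lowv b z.1.1 : ZMod (b ^ m))⁻¹ = 1 :=
          ZMod.mul_inv_of_unit _ (hlow _ g1)
        have i2 : (lowv b z.2.1 : ZMod (b ^ m)) * (lowv b z.2.1 : ZMod (b ^ m))⁻¹ = 1 :=
          ZMod.mul_inv_of_unit _ (hlow _ k1)
        calc (z.1.2 : ZMod (b ^ m)) * (lowv b z.2.1 : ZMod (b ^ m))
            = ((z.1.2 : ZMod (b ^ m)) * ((lowv b z.1.1 : ZMod (b ^ m)))⁻¹) *
              (lowv b z.1.1 : ZMod (b ^ m)) * (lowv b z.2.1 : ZMod (b ^ m)) := by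
              rw [mul_assoc (z.1.2 : ZMod (b ^ m)), mul_comm ((lowv b z.1.1 : ZMod (b ^ m)))⁻¹, i1,
                mul_one]
          _ = ((z.2.2 : ZMod (b ^ m)) * ((lowv b z.2.1 : ZMod (b ^ m)))⁻¹) *
              (lowv b z.1.1 : ZMod (b ^ m)) * (lowv b z.2.1 : ZMod (b ^ m)) := by rw [hz3']
          _ = (z.2.2 : ZMod (b ^ m)) * (lowv b z.1.1 : ZMod (b ^ m)) *
              ((lowv b z.2.1 : ZMod (b ^ m)) * (lowv b z.2.1 : ZMod (b ^ m))⁻¹) := by ring
          _ = (z.2.2 : ZMod (b ^ m)) * (lowv b z.1.1 : ZMod (b ^ m)) := by rw [i2, mul_one]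
      · have t1 := htop _ g1
        have t2 := htop _ k1
        have b1 := (top_bounds hb hm g1).2.2
        have b2 := (top_bounds hb hm k1).2.2
        have n1 : (0 : ℝ) < z.1.2 := by exact_mod_cast g2
        have n2 : (0 : ℝ) < z.2.2 := by exact_mod_cast k2
        have t1' : (0 : ℝ) < topv b z.1.1 := by exact_mod_cast t1
        have t2' : (0 : ℝ) < topv b z.2.1 := by exact_mod_cast t2
        have b1' : (topv b z.1.1 : ℝ) ≤ (b : ℝ) ^ m := by exact_mod_cast b1.le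
        have b2' : (topv b z.2.1 : ℝ) ≤ (b : ℝ) ^ m := by exact_mod_cast b2.le
        have g3' : (z.1.2 : ℝ) ≤ H := by exact_mod_cast g3
        have k3' : (z.2.2 : ℝ) ≤ H := by exact_mod_cast k3
        have hH0 : (0 : ℝ) ≤ H := Nat.cast_nonneg _
        have hY : |(Real.log z.1.2 - Real.log (topv b z.1.1)) -
            (Real.log z.2.2 - Real.log (topv b z.2.1))| ≤ 1 / T := hz4
        have hlog : |Real.log ((z.1.2 : ℝ) * topv b z.2.1) - Real.log ((z.2.2 : ℝ) * topv b z.1.1)| ≤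
            1 / T := by
          rw [Real.log_mul n1.ne' t2'.ne', Real.log_mul n2.ne' t1'.ne']
          refine le_trans (le_of_eq ?_) hY
          congr 1
          ring
        have hfin := lmix_log (M := H * (b : ℝ) ^ m) (mul_pos n1 t2') (mul_pos n2 t1')
          (mul_le_mul g3' b2' t2'.le hH0) (mul_le_mul k3' b1' t1'.le hH0) hlog
        have hbmr : (0 : ℝ) < (b : ℝ) ^ m := by exact_mod_cast hbm
        have hle : (H : ℝ) * (b : ℝ) ^ m * (1 / T) ≤ H := by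
          rw [mul_one_div, div_le_iff₀ hT0]
          exact mul_le_mul_of_nonneg_left hT hH0
        have := hfin.trans hle
        exact_mod_cast this
    · intro x _ y _ hxy
      simp only [Prod.mk.injEq] at hxy
      obtain ⟨⟨e1, e2⟩, e3, e4⟩ := hxy
      exact Prod.ext (Prod.ext e1 e3) (Prod.ext e2 e4)
  have hphi : ((b ^ m).totient : ℝ) ≤ (b : ℝ) ^ m := by
    have := Nat.totient_le (b ^ m)
    exact_mod_cast this
  have hC1' : 0 ≤ C1 * D ^ 2 * T := by positivity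
  calc C1 * D ^ 2 * T * (b ^ m).totient *
        (((S ×ˢ S).filter fun z => u z.1 = u z.2 ∧ |Y z.1 - Y z.2| ≤ 1 / T).card : ℝ)
      ≤ C1 * D ^ 2 * T * (b : ℝ) ^ m *
        (C2 * (1 + Real.log H) * (b : ℝ) ^ (3 * F.card) * ((H : ℝ) ^ 2 + H * (b : ℝ) ^ m)) := by
        refine mul_le_mul (mul_le_mul_of_nonneg_left hphi hC1') hcard (Nat.cast_nonneg _) ?_
        positivity
    _ = _ := by ring

end Pool.Agent.HPZ
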