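import Pool.Agent.HPZ.Iface
import Pool.Agent.PNT.Ker

/-!
# HPZ/LSec: second moment (`SecondProp`)

Copy of the private theorem `second` of `HPP/EGen` (or of `HPP/VMean`), with complex coefficients `c`, units `u i` and
real phases `Y i`: Fejer kernel `fk` of `Pool/Agent/PNT/Ker`, expansion of the square, orthogonality of the characters
(`∑_χ χ(u) conj χ(u') = φ(q)` if `u = u'`, else `0`), the transform of `fk (t / T)` is supported in `|u| ≤ 1 / T`.
`‖c i conj c j‖ ≤ D^2`.
-/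

namespace Pool.Agent.HPZ

open Complex MeasureTheory
open scoped FourierTransform
open Pool.Agent.PNT (fk fk_nonneg fk_le fk_meas fk_int fk_fourier)

/-- the triangle function -/
private noncomputable def tri (u : ℝ) : ℝ := max 0 (1 - |u|)

private theorem tri_cont : Continuous tri := by
  unfold tri; fun_prop

private theorem tri_zero {u : ℝ} (h : 1 < |u|) : tri u = 0 := by
  unfold tri; rw [max_eq_left]; linarith

private theorem tri_nonneg (u : ℝ) : 0 ≤ tri u := le_max_left _ _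

private theorem tri_le (u : ℝ) : tri u ≤ 1 := by
  unfold tri
  apply max_le zero_le_one
  linarith [abs_nonneg u]

private theorem fk_even (v : ℝ) : fk (-v) = fk v := by
  unfold fk
  simp

private theorem tri_int (g : ℝ → ℂ) : ∫ y : ℝ, ((tri y : ℝ) : ℂ) * g y =
    ∫ y in (-1 : ℝ)..1, ((1 - |y| / 1 : ℝ) : ℂ) * g y := by
  rw [intervalIntegral.integral_of_le (by norm_num), ← integral_indicator measurableSet_Ioc]
  congr 1
  ext y
  by_cases hy : y ∈ Set.Ioc (-1 : ℝ) 1
  · rw [Set.indicator_of_mem hy]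
    have : |y| ≤ 1 := abs_le.2 ⟨hy.1.le, hy.2⟩
    unfold tri
    rw [max_eq_right (by linarith)]
    simp
  · rw [Set.indicator_of_notMem hy]
    have : 1 ≤ |y| := by
      by_contra h
      push Not at h
      exact hy ⟨(abs_lt.1 h).1, (abs_lt.1 h).2.le⟩
    unfold tri
    rw [max_eq_left (by linarith)]
    simp

private theorem tri_four : 𝓕 (fun y : ℝ => ((tri y : ℝ) : ℂ)) =
    fun ξ : ℝ => ((fk (2 * Real.pi * ξ) : ℝ) : ℂ) := by
  ext ξ
  rw [Real.fourier_real_eq_integral_exp_smul]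
  have h := fk_fourier (l := 1) one_pos (-(2 * Real.pi * ξ))
  have h2 := tri_int (fun y => Complex.exp (Complex.I * (y * ((-(2 * Real.pi * ξ) : ℝ) : ℂ))))
  rw [h] at h2
  rw [one_mul, one_mul, fk_even] at h2
  rw [← h2]
  congr 1
  ext y
  rw [smul_eq_mul, mul_comm]
  congr 2
  push_cast
  ring

private theorem tri_integrable : Integrable (fun y : ℝ => ((tri y : ℝ) : ℂ)) := by
  apply Continuous.integrable_of_hasCompactSupport
  · exact continuous_ofReal.comp tri_cont
  · apply HasCompactSupport.intro (isCompact_Icc (a := (-1 : ℝ)) (b := 1))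
    intro y hy
    have : 1 < |y| := by
      by_contra h
      push Not at h
      exact hy ⟨(abs_le.1 h).1, (abs_le.1 h).2⟩
    rw [tri_zero this]
    simp

private theorem fk_hat (u : ℝ) : ∫ t : ℝ, ((fk t : ℝ) : ℂ) * Complex.exp (-(t * u) * I) =
    ((2 * Real.pi * tri u : ℝ) : ℂ) := by
  have hpi : (0 : ℝ) < 2 * Real.pi := by positivity
  have h := Continuous.fourierInv_fourier_eq (continuous_ofReal.comp tri_cont) tri_integrable
    (by
      rw [show (ofReal ∘ tri : ℝ → ℂ) = fun y : ℝ => ((tri y : ℝ) : ℂ) from rfl, tri_four]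
      exact ((fk_int.comp_mul_left' hpi.ne').ofReal))
  rw [show (ofReal ∘ tri : ℝ → ℂ) = fun y : ℝ => ((tri y : ℝ) : ℂ) from rfl, tri_four] at h
  have h1 := congrFun h (-u)
  rw [Real.fourierInv_eq'] at h1
  have h2 : ∀ v : ℝ, cexp (↑(2 * Real.pi * inner ℝ v (-u)) * I) • ((fk (2 * Real.pi * v) : ℝ) : ℂ) =
      (fun t : ℝ => ((fk t : ℝ) : ℂ) * Complex.exp (-(t * u) * I)) (2 * Real.pi * v) := by
    intro v
    simp only [smul_eq_mul]
    rw [mul_comm]
    congr 2
    simp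
    ring
  rw [integral_congr_ae (Filter.Eventually.of_forall h2),
    Measure.integral_comp_mul_left (fun t : ℝ => ((fk t : ℝ) : ℂ) * Complex.exp (-(t * u) * I))] at h1
  have h3 : tri (-u) = tri u := by unfold tri; simp
  rw [h3] at h1
  rw [abs_of_pos (by positivity)] at h1
  rw [ofReal_mul, ← h1, real_smul, ← mul_assoc, ← ofReal_mul, mul_inv_cancel₀ hpi.ne']
  simp

private theorem fk_hat' (T : ℝ) (hT : 0 < T) (u : ℝ) :
    ∫ t : ℝ, ((fk (t / T) : ℝ) : ℂ) * Complex.exp (-(t * u) * I) =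
    ((2 * Real.pi * T * tri (T * u) : ℝ) : ℂ) := by
  have h1 := fk_hat (T * u)
  have h2 : ∀ t : ℝ, ((fk (t / T) : ℝ) : ℂ) * Complex.exp (-(t * u) * I) =
      (fun t : ℝ => ((fk t : ℝ) : ℂ) * Complex.exp (-(t * ((T * u : ℝ) : ℂ)) * I)) (t / T) := by
    intro t
    simp only
    congr 2
    have : (T : ℂ) ≠ 0 := by exact_mod_cast hT.ne'
    push_cast
    field_simp
  rw [integral_congr_ae (Filter.Eventually.of_forall h2),
    Measure.integral_comp_div (fun t : ℝ => ((fk t : ℝ) : ℂ) *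
      Complex.exp (-(t * ((T * u : ℝ) : ℂ)) * I)), h1, abs_of_pos hT, real_smul, ← ofReal_mul]
  congr 1
  ring

private theorem fk_ge {v : ℝ} (hv : |v| ≤ 1) : 4 / Real.pi ^ 2 ≤ fk v := by
  have hpi := Real.pi_gt_three
  unfold fk
  split_ifs with h
  · rw [div_le_one (by positivity)]
    nlinarith
  · have hv2 : 0 < v ^ 2 := by positivity
    have := Real.cos_le_one_sub_mul_cos_sq (x := v) (by linarith)
    rw [le_div_iff₀ hv2]
    have e : 4 / Real.pi ^ 2 * v ^ 2 = 2 * (2 / Real.pi ^ 2 * v ^ 2) := by ring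
    rw [e]
    linarith

private theorem fkT_int (T : ℝ) (hT : 0 < T) : Integrable (fun t : ℝ => fk (t / T)) := by
  simp_rw [div_eq_inv_mul]
  exact fk_int.comp_mul_left' (inv_pos.2 hT).ne'

private theorem fkT_exp_int (T : ℝ) (hT : 0 < T) (u : ℝ) :
    Integrable (fun t : ℝ => ((fk (t / T) : ℝ) : ℂ) * Complex.exp (-(t * u) * I)) := by
  have h := (fkT_int T hT).ofReal (𝕜 := ℂ)
  refine h.mul_bdd (c := 1) ?_ ?_
  · apply Continuous.aestronglyMeasurable; fun_prop
  · refine Filter.Eventually.of_forall fun t => ?_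
    rw [show (-(t * u) * I : ℂ) = ((-(t * u) : ℝ) : ℂ) * I by push_cast; ring,
      Complex.norm_exp_ofReal_mul_I]

/-- the general second moment -/
private theorem secondZ (q : ℕ) [NeZero q] {κ : Type} [DecidableEq κ] (S : Finset κ)
    (u : κ → ZMod q) (Y : κ → ℝ) (a : κ → ℂ) (D : ℝ) (hD : 0 ≤ D) (hu : ∀ i ∈ S, IsUnit (u i))
    (ha : ∀ i ∈ S, ‖a i‖ ≤ D) (T : ℝ) (hT : 0 < T) :
    ∑ χ : DirichletCharacter ℂ q, ∫ t in (-T)..T,
      ‖∑ i ∈ S, a i * χ (u i) * cexp (t * Y i * I)‖ ^ 2 ≤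
    (Real.pi ^ 3 / 2) * D ^ 2 * T * q.totient * ((S ×ˢ S).filter fun z =>
      u z.1 = u z.2 ∧ |Y z.1 - Y z.2| ≤ 1 / T).card := by
  classical
  set F : DirichletCharacter ℂ q → ℝ → ℂ := fun χ t =>
    ∑ i ∈ S, a i * χ (u i) * cexp (t * Y i * I) with hF
  have hFc : ∀ χ, Continuous (F χ) := by
    intro χ
    simp only [hF]
    fun_prop
  -- expansion
  have hexp : ∀ χ t, ((‖F χ t‖ ^ 2 : ℝ) : ℂ) = ∑ z ∈ S ×ˢ S,
      (a z.2 * (starRingEnd ℂ) (a z.1)) *
      ((starRingEnd ℂ) (χ (u z.1)) * χ (u z.2)) *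
        cexp (-(t * ((Y z.1 - Y z.2 : ℝ) : ℂ)) * I) := by
    intro χ t
    rw [ofReal_pow, ← Complex.mul_conj', hF]
    simp only
    rw [map_sum, Finset.sum_mul_sum, Finset.sum_product_right]
    refine Finset.sum_congr rfl fun i _ => Finset.sum_congr rfl fun j _ => ?_
    simp only [map_mul, Complex.conj_ofReal, ← Complex.exp_conj, Complex.conj_I]
    rw [show (-((t : ℂ) * ((Y j - Y i : ℝ) : ℂ)) * I) = (t * Y i * I) + (t * Y j * -I) by
      push_cast; ring, Complex.exp_add]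
    ring
  -- the weighted integral of one character
  have hint : ∀ χ, Integrable (fun t : ℝ => fk (t / T) * ‖F χ t‖ ^ 2) := by
    intro χ
    refine (fkT_int T hT).mul_bdd (c := (∑ i ∈ S, ‖a i * χ (u i)‖) ^ 2)
      ?_ ?_
    · exact ((hFc χ).norm.pow 2).aestronglyMeasurable
    · refine Filter.Eventually.of_forall fun t => ?_
      rw [Real.norm_of_nonneg (by positivity)]
      apply pow_le_pow_left₀ (norm_nonneg _)
      rw [hF]
      simp only
      refine (norm_sum_le _ _).trans (Finset.sum_le_sum fun i _ => ?_)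
      rw [norm_mul, show (t * Y i * I : ℂ) = ((t * Y i : ℝ) : ℂ) * I by push_cast; ring,
        Complex.norm_exp_ofReal_mul_I, mul_one]
  have hmaj : ∀ χ, ∫ t in (-T)..T, ‖F χ t‖ ^ 2 ≤
      (Real.pi ^ 2 / 4) * ∫ t : ℝ, fk (t / T) * ‖F χ t‖ ^ 2 := by
    intro χ
    rw [← integral_const_mul, intervalIntegral.integral_of_le (by linarith)]
    have hI : Integrable (fun t : ℝ => Real.pi ^ 2 / 4 * (fk (t / T) * ‖F χ t‖ ^ 2)) :=
      (hint χ).const_mul _
    refine (setIntegral_mono_on ?_ hI.integrableOn measurableSet_Ioc ?_).trans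
      (setIntegral_le_integral hI ?_)
    · exact (((hFc χ).norm.pow 2).integrableOn_Icc).mono_set Set.Ioc_subset_Icc_self
    · intro t ht
      have h1 : |t / T| ≤ 1 := by
        rw [abs_div, abs_of_pos hT, div_le_one hT]
        exact abs_le.2 ⟨ht.1.le, ht.2⟩
      have h2 := fk_ge h1
      have h3 : 1 ≤ Real.pi ^ 2 / 4 * fk (t / T) := by
        calc (1 : ℝ) = Real.pi ^ 2 / 4 * (4 / Real.pi ^ 2) := by
              field_simp
          _ ≤ _ := by
              apply mul_le_mul_of_nonneg_left h2; positivity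
      calc ‖F χ t‖ ^ 2 = 1 * ‖F χ t‖ ^ 2 := (one_mul _).symm
        _ ≤ (Real.pi ^ 2 / 4 * fk (t / T)) * ‖F χ t‖ ^ 2 :=
            mul_le_mul_of_nonneg_right h3 (by positivity)
        _ = _ := by ring
    · refine Filter.Eventually.of_forall fun t => ?_
      have := fk_nonneg (t / T)
      positivity
  have hval : ((∑ χ : DirichletCharacter ℂ q, ∫ t : ℝ, fk (t / T) * ‖F χ t‖ ^ 2 : ℝ) : ℂ) =
      ∑ z ∈ S ×ˢ S, (a z.2 * (starRingEnd ℂ) (a z.1)) *
        (∑ χ : DirichletCharacter ℂ q, (starRingEnd ℂ) (χ (u z.1)) * χ (u z.2)) *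
          ((2 * Real.pi * T * tri (T * (Y z.1 - Y z.2)) : ℝ) : ℂ) := by
    rw [ofReal_sum]
    have h1 : ∀ χ : DirichletCharacter ℂ q, ((∫ t : ℝ, fk (t / T) * ‖F χ t‖ ^ 2 : ℝ) : ℂ) =
        ∑ z ∈ S ×ˢ S, (a z.2 * (starRingEnd ℂ) (a z.1)) *
          ((starRingEnd ℂ) (χ (u z.1)) * χ (u z.2)) *
            ((2 * Real.pi * T * tri (T * (Y z.1 - Y z.2)) : ℝ) : ℂ) := by
      intro χ
      rw [← integral_complex_ofReal]
      have h2 : ∀ t : ℝ, ((fk (t / T) * ‖F χ t‖ ^ 2 : ℝ) : ℂ) = ∑ z ∈ S ×ˢ S,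
          ((a z.2 * (starRingEnd ℂ) (a z.1)) *
          ((starRingEnd ℂ) (χ (u z.1)) * χ (u z.2))) *
          (((fk (t / T) : ℝ) : ℂ) * cexp (-(t * ((Y z.1 - Y z.2 : ℝ) : ℂ)) * I)) := by
        intro t
        rw [ofReal_mul, hexp, Finset.mul_sum]
        refine Finset.sum_congr rfl fun z _ => ?_
        ring
      rw [integral_congr_ae (Filter.Eventually.of_forall h2), integral_finsetSum]
      · refine Finset.sum_congr rfl fun z _ => ?_
        rw [integral_const_mul, fk_hat' T hT]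
      · intro z _
        exact (fkT_exp_int T hT _).const_mul _
    rw [Finset.sum_congr rfl fun χ _ => h1 χ, Finset.sum_comm]
    refine Finset.sum_congr rfl fun z _ => ?_
    rw [Finset.mul_sum, Finset.sum_mul]
  have horth : ∀ z ∈ S ×ˢ S,
      (∑ χ : DirichletCharacter ℂ q, (starRingEnd ℂ) (χ (u z.1)) * χ (u z.2)) =
        if u z.1 = u z.2 then (q.totient : ℂ) else 0 := by
    intro z hz
    have hu1 : IsUnit (u z.1) := hu _ (Finset.mem_product.1 hz).1
    have h := DirichletCharacter.sum_char_inv_mul_char_eq ℂ hu1 (u z.2)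
    have h' : ∀ χ : DirichletCharacter ℂ q, (starRingEnd ℂ) (χ (u z.1)) =
        χ (u z.1)⁻¹ := by
      intro χ
      obtain ⟨w, hw⟩ := hu1
      rw [starRingEnd_apply, MulChar.star_apply', MulChar.inv_apply, ← hw, Ring.inverse_unit,
        ZMod.inv_coe_unit]
    rw [Finset.sum_congr rfl fun χ _ => by rw [h' χ], h]
  have hbd : (∑ χ : DirichletCharacter ℂ q, ∫ t : ℝ, fk (t / T) * ‖F χ t‖ ^ 2) ≤
      D ^ 2 * (q.totient : ℝ) * (2 * Real.pi * T) * ((S ×ˢ S).filter fun z =>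
      u z.1 = u z.2 ∧ |Y z.1 - Y z.2| ≤ 1 / T).card := by
    have hpi := Real.pi_pos
    have h0 : 0 ≤ ∑ χ : DirichletCharacter ℂ q, ∫ t : ℝ, fk (t / T) * ‖F χ t‖ ^ 2 := by
      refine Finset.sum_nonneg fun χ _ => integral_nonneg fun t => ?_
      have := fk_nonneg (t / T)
      positivity
    have hn : (∑ χ : DirichletCharacter ℂ q, ∫ t : ℝ, fk (t / T) * ‖F χ t‖ ^ 2) =
        ‖((∑ χ : DirichletCharacter ℂ q, ∫ t : ℝ, fk (t / T) * ‖F χ t‖ ^ 2 : ℝ) : ℂ)‖ := by
      rw [Complex.norm_real, Real.norm_of_nonneg h0]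
    rw [hn, hval, Finset.card_filter, Nat.cast_sum, Finset.mul_sum]
    refine (norm_sum_le _ _).trans (Finset.sum_le_sum fun z hz => ?_)
    rw [horth z hz]
    have h1 := ha _ (Finset.mem_product.1 hz).1
    have h2 := ha _ (Finset.mem_product.1 hz).2
    by_cases hc : u z.1 = u z.2
    · by_cases hd : |Y z.1 - Y z.2| ≤ 1 / T
      · rw [if_pos hc, if_pos ⟨hc, hd⟩]
        have h5 := tri_le (T * (Y z.1 - Y z.2))
        have h6 := tri_nonneg (T * (Y z.1 - Y z.2))
        rw [norm_mul, norm_mul, norm_mul, RCLike.norm_conj, Complex.norm_real, Complex.norm_natCast,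
          Real.norm_of_nonneg (by positivity)]
        calc ‖a z.2‖ * ‖a z.1‖ * q.totient * (2 * Real.pi * T * tri (T * (Y z.1 - Y z.2)))
            ≤ D * D * q.totient * (2 * Real.pi * T * 1) := by gcongr
          _ = _ := by push_cast; ring
      · have h5 : tri (T * (Y z.1 - Y z.2)) = 0 := by
          apply tri_zero
          rw [abs_mul, abs_of_pos hT]
          push Not at hd
          rw [div_lt_iff₀ hT] at hd
          linarith
        rw [h5]
        simp only [mul_zero, Complex.ofReal_zero, norm_zero]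
        positivity
    · rw [if_neg hc]
      simp only [mul_zero, zero_mul, norm_zero]
      positivity
  calc ∑ χ : DirichletCharacter ℂ q, ∫ t in (-T)..T, ‖F χ t‖ ^ 2
      ≤ ∑ χ : DirichletCharacter ℂ q, (Real.pi ^ 2 / 4) * ∫ t : ℝ, fk (t / T) * ‖F χ t‖ ^ 2 :=
        Finset.sum_le_sum fun χ _ => hmaj χ
    _ = (Real.pi ^ 2 / 4) * ∑ χ : DirichletCharacter ℂ q, ∫ t : ℝ, fk (t / T) * ‖F χ t‖ ^ 2 := by
        rw [Finset.mul_sum]
    _ ≤ (Real.pi ^ 2 / 4) * (D ^ 2 * (q.totient : ℝ) * (2 * Real.pi * T) *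
        ((S ×ˢ S).filter fun z => u z.1 = u z.2 ∧ |Y z.1 - Y z.2| ≤ 1 / T).card) := by
        apply mul_le_mul_of_nonneg_left hbd; positivity
    _ = _ := by ring

theorem secondProp : SecondProp := by
  refine ⟨Real.pi ^ 3 / 2, ?_, ?_⟩
  · have h := Real.pi_gt_three
    have : (3 : ℝ) ^ 3 ≤ Real.pi ^ 3 := pow_le_pow_left₀ (by norm_num) h.le 3
    linarith
  · intro q _ ι _ S u Y c D hD hu hc T hT
    convert secondZ q S u Y c D hD hu hc T hT using 2

end Pool.Agent.HPZ
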