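import Pool.Agent.HPZ.VClD
import Pool.Agent.HPP.VAux

/-!
# HPZ/VClA: constraints on the measure of a class (`ClAProp`)

`L = log x`, `B = L²`, `μ = muK > 0`, `μ = x^R`. On the class `np f v A χ (t+ξ) ≥ ∏_(i ∈ A) (B / e) exp (-k i) ≥ exp (-∑_A k)
= x^(-σ_A)` (`L² ≥ e`), `f i = tyf (x^(1/20)) (fac j i)` (`HPP.tyf_sm`). `∑ v i ≤ (1 + 1/1000) L` by `VV`, so
`exp (ε₁ sv) ≤ x^(2 ε₁)`. Take `ε₁` small against `η` and absorb constants.
* `MvProp` (`t₀ = ξ`, `T`; `E ⊆ [-T, T]`): `x^R x^(-2σ_A) ≤ C x^(2ε₁) (1 + b^m T exp (-sv_A)) ≤ x^(η) x^(max 0 (5/9 - α_A))`.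
* `HuxProp` with `ε = η / 2`, level `σ = σ_A`; `σ_A ≤ 3` follows from `4 σ ≤ 2 α ≤ 3`; `t + ξ ∈ [-3T, 3T]` as
  `|ξ| ≤ log x ≤ x^κ ≤ T` for large `x`; the measure of the class is `≤ LM (Icc (-3T) (3T)) np (x^(-σ_A))` by
  translation invariance.
* `FoProp` for `i` with `v i ≥ L / 4`: the type `fac j i` is not `2` (for `k = 2` the factor vanishes identically when
  `v > L / 20 + 1`: `pc (mz Z) v = 0`, and then the class is empty, `μ = 0`), so
  `x^R x^(-4 a i) ≤ ∫ nt^4 ≤ x^(ε₁) b^m T exp (-2 v i)`.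
-/

namespace Pool.Agent.HPZ

open Complex MeasureTheory

private theorem Kl_sub41 {b m : ℕ} (E : DirichletCharacter ℂ (b ^ m) → Set ℝ) (x ξ : ℝ) (j : ℕ)
    (v k : Fin (2 * j) → ℕ) (χ : DirichletCharacter ℂ (b ^ m)) : Kl E x ξ j v k χ ⊆ E χ :=
  Set.inter_subset_left

private theorem Kl_meas41 {b m : ℕ} {E : DirichletCharacter ℂ (b ^ m) → Set ℝ}
    (hE : ∀ χ, MeasurableSet (E χ)) (x ξ : ℝ) (j : ℕ) (v k : Fin (2 * j) → ℕ)
    (χ : DirichletCharacter ℂ (b ^ m)) : MeasurableSet (Kl E x ξ j v k χ) := by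
  refine (hE χ).inter ?_
  rw [Set.ofPred_forall]
  refine MeasurableSet.iInter fun i => ?_
  have hc : Continuous fun t : ℝ =>
      HPP.nt (HPP.tyf (x ^ (1 / 20 : ℝ)) (HPP.fac j i)) (v i) χ (t + ξ) :=
    (HPP.nt_continuous _ _ χ).comp (continuous_id.add continuous_const)
  exact (measurableSet_lt measurable_const hc.measurable).inter
    (measurableSet_le hc.measurable measurable_const)

private theorem np_cont41 {j : ℕ} (f : Fin j → ArithmeticFunction ℝ) (v : Fin j → ℕ)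
    (A : Finset (Fin j)) {Q : ℕ} (χ : DirichletCharacter ℂ Q) : Continuous fun t => np f v A χ t := by
  unfold np
  exact continuous_finsetProd _ fun i _ => HPP.nt_continuous _ _ χ

private theorem np_nonneg41 {j : ℕ} (f : Fin j → ArithmeticFunction ℝ) (v : Fin j → ℕ)
    (A : Finset (Fin j)) {Q : ℕ} (χ : DirichletCharacter ℂ Q) (t : ℝ) : 0 ≤ np f v A χ t :=
  Finset.prod_nonneg fun _ _ => HPP.nt_nonneg _ _ χ t

private theorem lower41 {Q : ℕ} {S G : DirichletCharacter ℂ Q → Set ℝ}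
    {f : DirichletCharacter ℂ Q → ℝ → ℝ} {c T : ℝ} (hS : ∀ χ, MeasurableSet (S χ))
    (hSG : ∀ χ, S χ ⊆ G χ) (hGT : ∀ χ, G χ ⊆ Set.Icc (-T) T)
    (hf : ∀ χ, Continuous (f χ)) (hf0 : ∀ χ t, 0 ≤ f χ t) (hc : ∀ χ, ∀ t ∈ S χ, c ≤ f χ t) :
    c * ∑ χ, volume.real (S χ) ≤ ∑ χ, ∫ t in G χ, f χ t := by
  rw [Finset.mul_sum]
  refine Finset.sum_le_sum fun χ _ => ?_
  have hint : IntegrableOn (f χ) (G χ) :=
    ((hf χ).continuousOn.integrableOn_Icc (a := -T) (b := T)).mono_set (hGT χ)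
  have hfin : volume (S χ) ≠ ⊤ := by
    refine ne_top_of_le_ne_top ?_ (measure_mono ((hSG χ).trans (hGT χ)))
    rw [Real.volume_Icc]
    exact ENNReal.ofReal_ne_top
  have h1 : c * volume.real (S χ) ≤ ∫ t in S χ, f χ t :=
    setIntegral_ge_of_const_le_real (hS χ) hfin (hc χ) (hint.mono_set (hSG χ))
  exact h1.trans (setIntegral_mono_set hint (Filter.Eventually.of_forall (hf0 χ))
    (hSG χ).eventuallyLE)

/-- from `μ ≤ exp y` to `log μ / L ≤ y / L` -/
private theorem log41 {μ y L : ℝ} (hμ : 0 < μ) (hL : 0 < L) (h : μ ≤ Real.exp y) :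
    Real.log μ / L ≤ y / L := by
  refine div_le_div_of_nonneg_right ?_ hL.le
  have := Real.log_le_log hμ h
  rwa [Real.log_exp] at this

theorem clA (hMv : MvProp) (hH : HuxProp) (hF : FoProp) : ClAProp := by
  intro b hb η hη κ hκ
  obtain ⟨C, hC1, hC⟩ := hMv (η / 4) (by positivity)
  obtain ⟨x₁, hx₁⟩ := hH b hb (η / 2) (by positivity)
  obtain ⟨x₂, hx₂⟩ := hF b hb (η / 2) (by positivity) κ hκ
  have hev : ∀ᶠ x : ℝ in Filter.atTop, x₁ ≤ x ∧ x₂ ≤ x ∧ 5 ≤ Real.log x ∧
      Real.log (2 * C) ≤ η / 2 * Real.log x ∧ Real.log x ≤ x ^ κ ∧ 1 < x := by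
    have e1 := Filter.eventually_ge_atTop x₁
    have e2 := Filter.eventually_ge_atTop x₂
    have e3 := Real.tendsto_log_atTop.eventually_ge_atTop 5
    have e4 := Real.tendsto_log_atTop.eventually_ge_atTop (Real.log (2 * C) / (η / 2))
    have e5 := (isLittleO_log_rpow_atTop hκ).bound one_pos
    have e6 := Filter.eventually_gt_atTop (1 : ℝ)
    filter_upwards [e1, e2, e3, e4, e5, e6] with x h1 h2 h3 h4 h5 h6
    refine ⟨h1, h2, h3, ?_, ?_, h6⟩
    · rw [div_le_iff₀ (by positivity)] at h4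
      linarith
    · rw [one_mul, Real.norm_eq_abs, Real.norm_eq_abs, abs_of_nonneg (by linarith),
        abs_of_nonneg (Real.rpow_nonneg (by linarith) _)] at h5
      exact h5
  obtain ⟨x₀, hx₀⟩ := Filter.eventually_atTop.1 hev
  refine ⟨x₀, fun x hx m T K hbT hQT hK hT E hEm hEG j hj v hv ξ hξ k hk hμ => ?_⟩
  obtain ⟨hx1, hx2, hL5, hLC, hLκ, hx1'⟩ := hx₀ x hx
  set L := Real.log x with hLdef
  set μ := muK E x ξ j v k with hμdef
  have hL0 : 0 < L := by linarith
  have hx0 : 0 < x := by linarith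
  have hj80 : 2 * j ≤ 80 := by
    rw [Finset.mem_Icc] at hj
    omega
  have hQ1 : 1 ≤ b ^ m := Nat.one_le_pow _ _ (by omega)
  have hQ1' : (1 : ℝ) ≤ (b : ℝ) ^ m := by exact_mod_cast hQ1
  have hT1 : 1 ≤ T := hQ1'.trans hbT
  have hLT : L ≤ T := hLκ.trans hT
  set f : Fin (2 * j) → ArithmeticFunction ℝ :=
    fun i => HPP.tyf (x ^ (1 / 20 : ℝ)) (HPP.fac j i) with hfdef
  have hfSm : ∀ i, HPP.Sm (f i) := fun i => HPP.tyf_sm _ _
  -- total length
  have hvsum : (∑ i, (v i : ℝ)) ≤ 2 * L := by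
    have h1 := (Finset.mem_filter.1 hv).2
    rw [abs_le] at h1
    linarith [h1.2]
  have hsv : ∀ A : Finset (Fin (2 * j)), sv v A ≤ 2 * L := fun A =>
    (Finset.sum_le_univ_sum_of_nonneg fun i => Nat.cast_nonneg _).trans hvsum
  have hvi : ∀ i, (v i : ℝ) ≤ 2 * L := fun i =>
    (Finset.single_le_sum (f := fun i => (v i : ℝ)) (fun i _ => Nat.cast_nonneg _)
      (Finset.mem_univ i)).trans hvsum
  have hsv0 : ∀ A : Finset (Fin (2 * j)), 0 ≤ sv v A := fun A =>
    Finset.sum_nonneg fun i _ => Nat.cast_nonneg _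
  have hk0 : ∀ A : Finset (Fin (2 * j)), 0 ≤ ∑ i ∈ A, (k i : ℝ) := fun A =>
    Finset.sum_nonneg fun i _ => Nat.cast_nonneg _
  -- lower bounds on the class
  have hlow : ∀ (χ : DirichletCharacter ℂ (b ^ m)) (t : ℝ), t ∈ Kl E x ξ j v k χ → ∀ i,
      Real.exp (-(k i : ℝ)) ≤ HPP.nt (f i) (v i) χ (t + ξ) := by
    intro χ t ht i
    have h1 := (ht.2 i).1
    refine le_trans ?_ h1.le
    have h2 : Real.exp (-(k i : ℝ) - 1) = Real.exp (-(k i : ℝ)) * Real.exp (-1) := by
      rw [← Real.exp_add]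
      congr 1
    rw [h2]
    have h3 : 1 ≤ L ^ 2 * Real.exp (-1) := by
      have h4 : Real.exp 1 < 3 := Real.exp_one_lt_three
      have h5 : Real.exp 1 * Real.exp (-1) = 1 := by
        rw [← Real.exp_add]; simp
      have h6 : Real.exp 1 ≤ L ^ 2 := by nlinarith
      calc (1 : ℝ) = Real.exp 1 * Real.exp (-1) := h5.symm
        _ ≤ L ^ 2 * Real.exp (-1) := mul_le_mul_of_nonneg_right h6 (Real.exp_pos _).le
    calc Real.exp (-(k i : ℝ)) = Real.exp (-(k i : ℝ)) * 1 := by ring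
      _ ≤ Real.exp (-(k i : ℝ)) * (L ^ 2 * Real.exp (-1)) :=
          mul_le_mul_of_nonneg_left h3 (Real.exp_pos _).le
      _ = L ^ 2 * (Real.exp (-(k i : ℝ)) * Real.exp (-1)) := by ring
  have hlowA : ∀ (A : Finset (Fin (2 * j))) (χ : DirichletCharacter ℂ (b ^ m)) (t : ℝ),
      t ∈ Kl E x ξ j v k χ → Real.exp (-∑ i ∈ A, (k i : ℝ)) ≤ np f v A χ (t + ξ) := by
    intro A χ t ht
    rw [← Finset.sum_neg_distrib, Real.exp_sum]
    exact Finset.prod_le_prod (fun i _ => (Real.exp_pos _).le) fun i _ => hlow χ t ht i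
  refine ⟨fun A => ?_, fun A hA => ?_, fun i hi => ?_⟩
  · -- mean value
    have h1 : Real.exp (-∑ i ∈ A, (k i : ℝ)) ^ 2 * μ ≤
        ∑ χ : DirichletCharacter ℂ (b ^ m), ∫ t in Set.Ioc (-T) T, np f v A χ (t + ξ) ^ 2 := by
      have h2 := lower41 (S := fun χ : DirichletCharacter ℂ (b ^ m) => Kl E x ξ j v k χ)
        (G := fun _ => Set.Icc (-T) T) (f := fun χ t => np f v A χ (t + ξ) ^ 2) (T := T)
        (c := Real.exp (-∑ i ∈ A, (k i : ℝ)) ^ 2)
        (fun χ => Kl_meas41 hEm x ξ j v k χ)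
        (fun χ => ((Kl_sub41 E x ξ j v k χ).trans (hEG χ)).trans (HPP.Gt_sub χ K T)) (fun χ => subset_rfl)
        (fun χ => ((np_cont41 f v A χ).comp (continuous_id.add continuous_const)).pow 2)
        (fun χ t => sq_nonneg _)
        (fun χ t ht => pow_le_pow_left₀ (Real.exp_pos _).le (hlowA A χ t ht) 2)
      refine h2.trans (le_of_eq ?_)
      refine Finset.sum_congr rfl fun χ _ => ?_
      exact integral_Icc_eq_integral_Ioc
    have h3 : ∑ χ : DirichletCharacter ℂ (b ^ m), ∫ t in Set.Ioc (-T) T, np f v A χ (t + ξ) ^ 2 =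
        ∑ χ : DirichletCharacter ℂ (b ^ m), ∫ t in (ξ - T)..(ξ + T), np f v A χ t ^ 2 := by
      refine Finset.sum_congr rfl fun χ _ => ?_
      rw [← intervalIntegral.integral_of_le (by linarith : -T ≤ T),
        intervalIntegral.integral_comp_add_right (fun t => np f v A χ t ^ 2) ξ]
      congr 1 <;> ring
    have h4 := hC (b ^ m) hQ1 (2 * j) hj80 f v hfSm A ξ T hT1
    rw [h3] at h1
    have h5 := h1.trans h4
    have hc0 : 0 < Real.exp (-∑ i ∈ A, (k i : ℝ)) ^ 2 := by positivity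
    set M := max 0 (5 / 9 - ∑ i ∈ A, (v i : ℝ) / L) with hM
    have hM0 : 0 ≤ M := le_max_left _ _
    have hsvL : ∑ i ∈ A, (v i : ℝ) / L = sv v A / L := by
      rw [sv, Finset.sum_div]
    have h6 : 1 + ((b ^ m : ℕ) : ℝ) * T * Real.exp (-sv v A) ≤ 2 * Real.exp (L * M) := by
      have h7 : (1 : ℝ) ≤ Real.exp (L * M) := Real.one_le_exp (by positivity)
      have h8 : ((b ^ m : ℕ) : ℝ) * T * Real.exp (-sv v A) ≤ Real.exp (L * M) := by
        have h9 : x ^ (5 / 9 : ℝ) = Real.exp (5 / 9 * L) := by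
          rw [Real.rpow_def_of_pos hx0, mul_comm]
        push_cast
        calc (b : ℝ) ^ m * T * Real.exp (-sv v A) ≤ x ^ (5 / 9 : ℝ) * Real.exp (-sv v A) :=
              mul_le_mul_of_nonneg_right hQT (Real.exp_pos _).le
          _ = Real.exp (5 / 9 * L - sv v A) := by rw [h9, ← Real.exp_add]; congr 1
          _ ≤ Real.exp (L * M) := by
              rw [Real.exp_le_exp]
              have h10 : 5 / 9 - ∑ i ∈ A, (v i : ℝ) / L ≤ M := le_max_right _ _
              rw [hsvL] at h10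
              have h11 := mul_le_mul_of_nonneg_left h10 hL0.le
              have h12 : L * (5 / 9 - sv v A / L) = 5 / 9 * L - sv v A := by
                field_simp
              linarith
      linarith
    have h13 : μ ≤ Real.exp (Real.log (2 * C) + η / 4 * sv v A + L * M +
        2 * ∑ i ∈ A, (k i : ℝ)) := by
      have h14 : μ ≤ C * Real.exp (η / 4 * sv v A) * (2 * Real.exp (L * M)) *
          Real.exp (2 * ∑ i ∈ A, (k i : ℝ)) := by
        have h15 : Real.exp (-∑ i ∈ A, (k i : ℝ)) ^ 2 * Real.exp (2 * ∑ i ∈ A, (k i : ℝ)) = 1 := by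
          rw [← Real.exp_nat_mul, ← Real.exp_add]
          norm_num
        calc μ = (Real.exp (-∑ i ∈ A, (k i : ℝ)) ^ 2 * Real.exp (2 * ∑ i ∈ A, (k i : ℝ))) * μ := by
              rw [h15, one_mul]
          _ = (Real.exp (-∑ i ∈ A, (k i : ℝ)) ^ 2 * μ) * Real.exp (2 * ∑ i ∈ A, (k i : ℝ)) := by
              ring
          _ ≤ (C * Real.exp (η / 4 * sv v A) *
                (1 + ((b ^ m : ℕ) : ℝ) * T * Real.exp (-sv v A))) *
                Real.exp (2 * ∑ i ∈ A, (k i : ℝ)) :=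
              mul_le_mul_of_nonneg_right h5 (Real.exp_pos _).le
          _ ≤ _ := by
              refine mul_le_mul_of_nonneg_right ?_ (Real.exp_pos _).le
              exact mul_le_mul_of_nonneg_left h6 (by positivity)
      refine h14.trans (le_of_eq ?_)
      rw [Real.exp_add, Real.exp_add, Real.exp_add, Real.exp_log (by positivity)]
      ring
    refine (log41 hμ hL0 h13).trans ?_
    rw [div_le_iff₀ hL0]
    have hkL : (∑ i ∈ A, (k i : ℝ) / L) * L = ∑ i ∈ A, (k i : ℝ) := by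
      rw [← Finset.sum_div, div_mul_cancel₀ _ hL0.ne']
    have h16 := hsv A
    nlinarith [hkL, hLC, mul_le_mul_of_nonneg_left h16 hη.le]
  · -- Huxley
    have hsvL : ∑ i ∈ A, (v i : ℝ) / L = sv v A / L := by
      rw [sv, Finset.sum_div]
    set σ := ∑ i ∈ A, (k i : ℝ) / L with hσ
    have hσ0 : 0 ≤ σ := Finset.sum_nonneg fun i _ => by positivity
    have hkL : σ * L = ∑ i ∈ A, (k i : ℝ) := by
      rw [hσ, ← Finset.sum_div, div_mul_cancel₀ _ hL0.ne']
    have hα : sv v A / L ≤ 2 := by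
      rw [div_le_iff₀ hL0]
      exact hsv A
    rw [hsvL] at hA ⊢
    have hσ3 : σ ≤ 3 := by linarith
    have h1 := hx₁ x hx1 m T hbT hQT (2 * j) hj80 f v hfSm
      (fun i => (hvi i).trans (by linarith)) A σ hσ0 hσ3 (by linarith)
    have h2 : μ ≤ HPP.LM (fun _ : DirichletCharacter ℂ (b ^ m) => Set.Icc (-(3 * T)) (3 * T))
        (fun χ t => np f v A χ t) (x ^ (-σ)) := by
      refine Finset.sum_le_sum fun χ _ => ?_
      have h3 : Kl E x ξ j v k χ ⊆ (fun t => t + ξ) ⁻¹' (Set.Icc (-(3 * T)) (3 * T) ∩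
          {t | x ^ (-σ) ≤ np f v A χ t}) := by
        intro t ht
        have h4 := HPP.Gt_sub χ K T (hEG χ (Kl_sub41 E x ξ j v k χ ht))
        rw [abs_le] at hξ
        refine ⟨⟨?_, ?_⟩, ?_⟩
        · show -(3 * T) ≤ t + ξ
          linarith [h4.1, hξ.1]
        · show t + ξ ≤ 3 * T
          linarith [h4.2, hξ.2]
        · show x ^ (-σ) ≤ np f v A χ (t + ξ)
          refine le_trans (le_of_eq ?_) (hlowA A χ t ht)
          rw [Real.rpow_def_of_pos hx0, ← hkL]
          congr 1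
          rw [← hLdef]
          ring
      have h5 : volume ((fun t => t + ξ) ⁻¹' (Set.Icc (-(3 * T)) (3 * T) ∩
          {t | x ^ (-σ) ≤ np f v A χ t})) = volume (Set.Icc (-(3 * T)) (3 * T) ∩
          {t | x ^ (-σ) ≤ np f v A χ t}) := measure_preimage_add_right _ _ _
      have h6 : volume.real (Set.Icc (-(3 * T)) (3 * T) ∩
          {t | x ^ (-σ) ≤ np f v A χ t}) = volume.real ((fun t => t + ξ) ⁻¹'
          (Set.Icc (-(3 * T)) (3 * T) ∩ {t | x ^ (-σ) ≤ np f v A χ t})) := by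
        rw [measureReal_def, measureReal_def, h5]
      rw [h6]
      refine measureReal_mono h3 ?_
      rw [h5]
      refine ne_top_of_le_ne_top ?_ (measure_mono Set.inter_subset_left)
      rw [Real.volume_Icc]
      exact ENNReal.ofReal_ne_top
    have h7 := h2.trans h1
    set M := max (2 * σ) (5 / 9 - 2 * (sv v A / L) + 6 * σ) with hM
    have h8 : x ^ (η / 2) * max (x ^ (2 * σ)) (x ^ (5 / 9 - 2 * (sv v A / L) + 6 * σ)) ≤
        Real.exp (η / 2 * L + M * L) := by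
      rw [Real.exp_add]
      refine mul_le_mul (le_of_eq ?_) (max_le ?_ ?_) (by positivity) (Real.exp_pos _).le
      · rw [Real.rpow_def_of_pos hx0, mul_comm]
      · rw [Real.rpow_def_of_pos hx0, Real.exp_le_exp, mul_comm]
        exact mul_le_mul_of_nonneg_right (le_max_left _ _) hL0.le
      · rw [Real.rpow_def_of_pos hx0, Real.exp_le_exp, mul_comm]
        exact mul_le_mul_of_nonneg_right (le_max_right _ _) hL0.le
    refine (log41 hμ hL0 (h7.trans h8)).trans ?_
    rw [div_le_iff₀ hL0]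
    nlinarith
  · -- fourth moment
    have hvL : L / 4 ≤ v i := by
      rw [le_div_iff₀ hL0] at hi
      linarith
    have hfac : HPP.fac j i ≠ 2 := by
      intro hfac
      have h1 : HPP.pc (f i) (v i) = 0 := by
        rw [hfdef]
        show HPP.pc (HPP.tyf (x ^ (1 / 20 : ℝ)) (HPP.fac j i)) (v i) = 0
        rw [hfac]
        refine HPP.pc_mz_zero ?_
        rw [Real.rpow_def_of_pos hx0, Real.exp_le_exp]
        linarith
      have h2 : μ = 0 := by
        refine Finset.sum_eq_zero fun χ _ => ?_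
        have h3 : Kl E x ξ j v k χ = ∅ := by
          rw [Set.eq_empty_iff_forall_notMem]
          intro t ht
          have h4 := hlow χ t ht i
          rw [HPP.nt_zero_of h1] at h4
          exact absurd h4 (not_le.2 (Real.exp_pos _))
        rw [h3, measureReal_empty]
      linarith
    have h1 := hx₂ x hx2 m T K hbT hQT hK (HPP.fac j i) (x ^ (1 / 20 : ℝ)) hfac (v i)
      ((hvi i).trans (by linarith)) ξ hξ
    have h2 := lower41 (S := fun χ : DirichletCharacter ℂ (b ^ m) => Kl E x ξ j v k χ)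
        (G := fun χ => HPP.Gt χ K T) (f := fun χ t => HPP.nt (f i) (v i) χ (t + ξ) ^ 4) (T := T)
        (c := Real.exp (-(k i : ℝ)) ^ 4)
        (fun χ => Kl_meas41 hEm x ξ j v k χ)
        (fun χ => (Kl_sub41 E x ξ j v k χ).trans (hEG χ)) (fun χ => HPP.Gt_sub χ K T)
        (fun χ => ((HPP.nt_continuous _ _ χ).comp (continuous_id.add continuous_const)).pow 4)
        (fun χ t => by positivity)
        (fun χ t ht => pow_le_pow_left₀ (Real.exp_pos _).le (hlow χ t ht i) 4)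
    have h3 : Real.exp (-(k i : ℝ)) ^ 4 * μ ≤
        x ^ (η / 2) * ((b : ℝ) ^ m * T) * Real.exp (-(2 * v i)) := h2.trans h1
    have h4 : μ ≤ Real.exp (η / 2 * L + 5 / 9 * L - 2 * v i + 4 * k i) := by
      have h5 : Real.exp (-(k i : ℝ)) ^ 4 * Real.exp (4 * k i) = 1 := by
        rw [← Real.exp_nat_mul, ← Real.exp_add]
        norm_num
      calc μ = (Real.exp (-(k i : ℝ)) ^ 4 * Real.exp (4 * k i)) * μ := by rw [h5, one_mul]
        _ = (Real.exp (-(k i : ℝ)) ^ 4 * μ) * Real.exp (4 * k i) := by ring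
        _ ≤ (x ^ (η / 2) * ((b : ℝ) ^ m * T) * Real.exp (-(2 * v i))) * Real.exp (4 * k i) :=
            mul_le_mul_of_nonneg_right h3 (Real.exp_pos _).le
        _ ≤ (x ^ (η / 2) * x ^ (5 / 9 : ℝ) * Real.exp (-(2 * v i))) * Real.exp (4 * k i) := by
            refine mul_le_mul_of_nonneg_right ?_ (Real.exp_pos _).le
            refine mul_le_mul_of_nonneg_right ?_ (Real.exp_pos _).le
            exact mul_le_mul_of_nonneg_left hQT (Real.rpow_nonneg hx0.le _)
        _ = _ := by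
            rw [Real.rpow_def_of_pos hx0, Real.rpow_def_of_pos hx0, ← Real.exp_add,
              ← Real.exp_add, ← Real.exp_add]
            congr 1
            rw [← hLdef]
            ring
    refine (log41 hμ hL0 h4).trans (le_of_eq_of_le ?_ (by linarith : 5 / 9 - 2 * ((v i : ℝ) / L) +
      4 * ((k i : ℝ) / L) + η / 2 ≤ _))
    field_simp
    ring

end Pool.Agent.HPZ
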