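import Pool.Agent.HPZ.VClD
import Pool.Agent.HPZ.APP
import Pool.Agent.HPP.VPow

/-!
# HPZ/VClB: Cauchy-Schwarz for a class (`ClBProp`)

On the class `np f v A χ (t+ξ) ≥ exp (-∑_A k)` (see `VClA`), so `1 ≤ exp (2 ∑_A k) np²`. Cauchy-Schwarz (sum over `χ`
and integral): `∑ ∫_class ‖cc‖ ≤ μ^(1/2) (∑ ∫_class ‖cc‖²)^(1/2)` and
`∑ ∫_class ‖cc‖² ≤ exp (2 ∑_A k) ∑ ∫_(-T..T) ‖cc‖² np² ≤ exp (2 ∑_A k) x^ε Λ #RR² (1 + b^m exp (-sv_A))` (`T1Prop`),
`Λ = (T / b^m) b^(3#F)`; `b^m ≤ x^(5/18)` (`b^(2m) ≤ b^m T ≤ x^(5/9)`), `exp (-sv_A) = x^(-α_A)`, so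
`1 + b^m exp (-sv_A) ≤ 2 x^(max 0 (5/18 - α_A))`, and `2 ≤ x^ε`.
-/

namespace Pool.Agent.HPZ

open Complex MeasureTheory

theorem clb_nt_cont {Q : ℕ} (F : ArithmeticFunction ℝ) (v : ℕ) (χ : DirichletCharacter ℂ Q) :
    Continuous fun t => HPP.nt F v χ t := by
  unfold HPP.nt
  exact continuous_const.mul (HPP.dp_continuous (HPP.pc_fin F v) χ).norm

theorem clb_np_cont {j : ℕ} (f : Fin j → ArithmeticFunction ℝ) (v : Fin j → ℕ) (A : Finset (Fin j))
    {Q : ℕ} (χ : DirichletCharacter ℂ Q) : Continuous fun t => np f v A χ t := by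
  unfold np
  exact continuous_finsetProd _ fun i _ => clb_nt_cont _ _ _

theorem clb_Kl_meas {b m : ℕ} (E : DirichletCharacter ℂ (b ^ m) → Set ℝ)
    (hE : ∀ χ, MeasurableSet (E χ)) (x ξ : ℝ) (j : ℕ) (v k : Fin (2 * j) → ℕ)
    (χ : DirichletCharacter ℂ (b ^ m)) : MeasurableSet (Kl E x ξ j v k χ) := by
  unfold Kl
  refine (hE χ).inter ?_
  rw [Set.ofPred_forall]
  refine MeasurableSet.iInter fun i => ?_
  have hc : Continuous fun t : ℝ =>
      HPP.nt (HPP.tyf (x ^ (1 / 20 : ℝ)) (HPP.fac j i)) (v i) χ (t + ξ) :=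
    (clb_nt_cont _ _ _).comp (continuous_id.add continuous_const)
  exact (measurableSet_lt measurable_const hc.measurable).inter
    (measurableSet_le hc.measurable measurable_const)

/-- Cauchy-Schwarz for sums of set integrals, in the form we need -/
theorem clb_cs {X : Type} [Fintype X] (K : X → Set ℝ) (T : ℝ) (c g : X → ℝ → ℝ) (B M : ℝ)
    (hK : ∀ χ, MeasurableSet (K χ)) (hKT : ∀ χ, K χ ⊆ Set.Icc (-T) T)
    (hc : ∀ χ, Continuous (c χ)) (hg : ∀ χ, Continuous (g χ)) (hT : 0 ≤ T) (hM : 0 < M)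
    (hgK : ∀ χ, ∀ t ∈ K χ, 1 ≤ M * (g χ t) ^ 2) (hB : 0 < B)
    (hb : ∑ χ, ∫ t in (-T)..T, (c χ t) ^ 2 * (g χ t) ^ 2 ≤ B) :
    ∑ χ, ∫ t in K χ, c χ t ≤ Real.sqrt ((∑ χ, volume.real (K χ)) * (M * B)) := by
  have hint : ∀ χ, ∀ h : ℝ → ℝ, Continuous h → IntegrableOn h (K χ) := fun χ h hh =>
    (hh.continuousOn.integrableOn_compact isCompact_Icc).mono_set (hKT χ)
  have hfin : ∀ χ, volume (K χ) ≠ ⊤ := fun χ =>
    ne_top_of_le_ne_top (by rw [Real.volume_Icc]; exact ENNReal.ofReal_ne_top)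
      (measure_mono (hKT χ))
  set μ : ℝ := ∑ χ, volume.real (K χ) with hμ
  have hμ0 : 0 ≤ μ := Finset.sum_nonneg fun χ _ => measureReal_nonneg
  have hMB : 0 < M * B := mul_pos hM hB
  -- second moment on the class
  have h2 : ∀ χ, ∫ t in K χ, (c χ t) ^ 2 ≤ M * ∫ t in (-T)..T, (c χ t) ^ 2 * (g χ t) ^ 2 := by
    intro χ
    have e1 : ∫ t in K χ, (c χ t) ^ 2 ≤ ∫ t in K χ, M * ((c χ t) ^ 2 * (g χ t) ^ 2) := by
      refine setIntegral_mono_on (hint χ _ ((hc χ).pow 2))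
        (hint χ _ (continuous_const.mul (((hc χ).pow 2).mul ((hg χ).pow 2)))) (hK χ) ?_
      intro t ht
      have := hgK χ t ht
      have h0 := sq_nonneg (c χ t)
      nlinarith
    have e2 : ∫ t in K χ, M * ((c χ t) ^ 2 * (g χ t) ^ 2) ≤
        ∫ t in Set.Icc (-T) T, M * ((c χ t) ^ 2 * (g χ t) ^ 2) := by
      refine setIntegral_mono_set ?_ ?_ ?_
      · exact (continuous_const.mul (((hc χ).pow 2).mul ((hg χ).pow 2))).continuousOn.integrableOn_compact
          isCompact_Icc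
      · exact Filter.Eventually.of_forall fun t =>
          mul_nonneg hM.le (mul_nonneg (sq_nonneg _) (sq_nonneg _))
      · exact Filter.Eventually.of_forall (hKT χ)
    refine (e1.trans e2).trans (le_of_eq ?_)
    rw [integral_const_mul, integral_Icc_eq_integral_Ioc, intervalIntegral.integral_of_le (by linarith)]
  have h3 : ∑ χ, ∫ t in K χ, (c χ t) ^ 2 ≤ M * B := by
    calc ∑ χ, ∫ t in K χ, (c χ t) ^ 2 ≤ ∑ χ, M * ∫ t in (-T)..T, (c χ t) ^ 2 * (g χ t) ^ 2 :=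
          Finset.sum_le_sum fun χ _ => h2 χ
      _ = M * ∑ χ, ∫ t in (-T)..T, (c χ t) ^ 2 * (g χ t) ^ 2 := by rw [Finset.mul_sum]
      _ ≤ M * B := mul_le_mul_of_nonneg_left hb hM.le
  -- the arithmetic-geometric mean inequality with a parameter
  have h4 : ∀ a : ℝ, 0 < a → ∑ χ, ∫ t in K χ, c χ t ≤ (a * μ + M * B / a) / 2 := by
    intro a ha
    have e1 : ∀ χ, ∫ t in K χ, c χ t ≤
        (a * volume.real (K χ) + (∫ t in K χ, (c χ t) ^ 2) / a) / 2 := by
      intro χ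
      have e2 : ∫ t in K χ, c χ t ≤ ∫ t in K χ, (a / 2 + (1 / (2 * a)) * (c χ t) ^ 2) := by
        refine setIntegral_mono_on (hint χ _ (hc χ))
          (hint χ _ (continuous_const.add (continuous_const.mul ((hc χ).pow 2)))) (hK χ) ?_
        intro t _
        have h5 : 0 ≤ (1 / (2 * a)) * (c χ t - a) ^ 2 := by positivity
        have h6 : (1 / (2 * a)) * (c χ t - a) ^ 2 =
            a / 2 + (1 / (2 * a)) * (c χ t) ^ 2 - c χ t := by
          field_simp
          ring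
        linarith
      refine e2.trans (le_of_eq ?_)
      have i1 : Integrable (fun _ : ℝ => a / 2) (volume.restrict (K χ)) :=
        hint χ _ continuous_const
      have i2 : Integrable (fun t : ℝ => (1 / (2 * a)) * (c χ t) ^ 2) (volume.restrict (K χ)) :=
        hint χ _ (continuous_const.mul ((hc χ).pow 2))
      rw [integral_add i1 i2, setIntegral_const, integral_const_mul, smul_eq_mul]
      field_simp
    calc ∑ χ, ∫ t in K χ, c χ t ≤
          ∑ χ, (a * volume.real (K χ) + (∫ t in K χ, (c χ t) ^ 2) / a) / 2 :=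
          Finset.sum_le_sum fun χ _ => e1 χ
      _ = (a * μ + (∑ χ, ∫ t in K χ, (c χ t) ^ 2) / a) / 2 := by
          rw [← Finset.sum_div, Finset.sum_add_distrib, ← Finset.mul_sum, ← Finset.sum_div]
      _ ≤ (a * μ + M * B / a) / 2 := by
          have := div_le_div_of_nonneg_right h3 ha.le
          linarith
  rcases hμ0.eq_or_lt with h0 | h0
  · -- measure zero
    have hz : ∀ χ, volume (K χ) = 0 := by
      intro χ
      have h7 : volume.real (K χ) = 0 :=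
        (Finset.sum_eq_zero_iff_of_nonneg fun χ _ => measureReal_nonneg).1 h0.symm χ
          (Finset.mem_univ χ)
      exact (measureReal_eq_zero_iff (hfin χ)).1 h7
    have : ∑ χ, ∫ t in K χ, c χ t = 0 :=
      Finset.sum_eq_zero fun χ _ => setIntegral_measure_zero _ (hz χ)
    rw [this]
    exact Real.sqrt_nonneg _
  · have hs1 : 0 < Real.sqrt μ := Real.sqrt_pos.2 h0
    have hs2 : 0 < Real.sqrt (M * B) := Real.sqrt_pos.2 hMB
    have h9 := h4 (Real.sqrt (M * B) / Real.sqrt μ) (div_pos hs2 hs1)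
    refine h9.trans (le_of_eq ?_)
    rw [Real.sqrt_mul hμ0]
    have q1 : Real.sqrt μ * Real.sqrt μ = μ := Real.mul_self_sqrt hμ0
    have q2 : Real.sqrt (M * B) * Real.sqrt (M * B) = M * B := Real.mul_self_sqrt hMB.le
    have r1 : Real.sqrt (M * B) / Real.sqrt μ * μ = Real.sqrt μ * Real.sqrt (M * B) := by
      rw [div_mul_eq_mul_div, div_eq_iff hs1.ne']
      linear_combination (-Real.sqrt (M * B)) * q1
    have r2 : M * B / (Real.sqrt (M * B) / Real.sqrt μ) = Real.sqrt μ * Real.sqrt (M * B) := by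
      rw [div_div_eq_mul_div, div_eq_iff hs2.ne']
      linear_combination (-Real.sqrt μ) * q2
    rw [r1, r2]
    ring

theorem clB (hT : T1Prop) : ClBProp := by
  intro b hb ε hε
  obtain ⟨x₁, h₁⟩ := hT b hb ε hε
  refine ⟨max (max x₁ (Real.exp 2)) ((2 : ℝ) ^ (1 / ε)), ?_⟩
  intro x hx p m F V T hbas hm hF hV hbT hbTx E hEm hET j hj v hv ξ k A
  have hx1 : x₁ ≤ x := (le_max_left _ _).trans ((le_max_left _ _).trans hx)
  have hx2 : Real.exp 2 ≤ x := (le_max_right _ _).trans ((le_max_left _ _).trans hx)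
  have hx3 : (2 : ℝ) ^ (1 / ε) ≤ x := (le_max_right _ _).trans hx
  have hx0 : 0 < x := (Real.exp_pos 2).trans_le hx2
  have hlog : 2 ≤ Real.log x := (Real.le_log_iff_exp_le hx0).2 hx2
  have hx1' : 1 ≤ x := by
    have : (1 : ℝ) ≤ Real.exp 2 := Real.one_le_exp (by norm_num)
    linarith
  have hlog0 : 0 < Real.log x := by linarith
  have hxe : 2 ≤ x ^ ε := by
    have h1 := Real.rpow_le_rpow (by positivity) hx3 hε.le
    rwa [← Real.rpow_mul (by norm_num), one_div_mul_cancel hε.ne', Real.rpow_one] at h1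
  have hb0 : (0 : ℝ) < b := by exact_mod_cast (by omega : 0 < b)
  have hbm : (0 : ℝ) < (b : ℝ) ^ m := by positivity
  have hT0 : 0 < T := hbm.trans_le hbT
  have hj40 : j ≤ 40 := (Finset.mem_Icc.1 hj).2
  have hv3 : ∀ i, (v i : ℝ) ≤ 3 * Real.log x := by
    intro i
    have h1 := (Finset.mem_filter.1 hv).1
    have h2 := Finset.mem_range.1 (Fintype.mem_piFinset.1 h1 i)
    have h3 : v i ≤ ⌊2 * Real.log x⌋₊ + 2 := by omega
    have h4 : ((⌊2 * Real.log x⌋₊ : ℕ) : ℝ) ≤ 2 * Real.log x := Nat.floor_le (by linarith)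
    have h5 : (v i : ℝ) ≤ (⌊2 * Real.log x⌋₊ : ℝ) + 2 := by exact_mod_cast h3
    linarith
  set f : Fin (2 * j) → ArithmeticFunction ℝ := fun i =>
    HPP.tyf (x ^ (1 / 20 : ℝ)) (HPP.fac j i) with hf
  have key := h₁ x hx1 p m F V T hbas hm hF hV hbT hbTx (2 * j) (by omega) f v
    (fun i => HPP.tyf_sm _ _) hv3 A ξ
  have hRR : (0 : ℝ) < ((RR b p m F).card : ℝ) ∨ ((RR b p m F).card : ℝ) = 0 := by
    rcases (Nat.cast_nonneg (α := ℝ) (RR b p m F).card).eq_or_lt with h | h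
    · exact Or.inr h.symm
    · exact Or.inl h
  set R : ℝ := ((RR b p m F).card : ℝ) with hR
  set L : ℝ := (T / (b : ℝ) ^ m) * (b : ℝ) ^ (3 * F.card) with hL
  have hL0 : 0 < L := by positivity
  set α : ℝ := ∑ i ∈ A, (v i : ℝ) / Real.log x with hα
  have hαs : sv v A = α * Real.log x := by
    rw [hα, ← Finset.sum_div, div_mul_cancel₀ _ hlog0.ne']
    rfl
  set M : ℝ := Real.exp (2 * ∑ i ∈ A, (k i : ℝ)) with hMdef
  have hM0 : 0 < M := Real.exp_pos _
  -- the elementary bound of the last factor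
  have hbm18 : (b : ℝ) ^ m ≤ x ^ (5 / 18 : ℝ) := by
    have h1 : ((b : ℝ) ^ m) * ((b : ℝ) ^ m) ≤ x ^ (5 / 9 : ℝ) :=
      (mul_le_mul_of_nonneg_left hbT hbm.le).trans hbTx
    have h2 : x ^ (5 / 9 : ℝ) = x ^ (5 / 18 : ℝ) * x ^ (5 / 18 : ℝ) := by
      rw [← Real.rpow_add hx0]
      norm_num
    rw [h2] at h1
    have h3 : 0 ≤ x ^ (5 / 18 : ℝ) := by positivity
    by_contra h4
    rw [not_le] at h4
    nlinarith
  have hlast : 1 + (b : ℝ) ^ m * Real.exp (-sv v A) ≤ 2 * x ^ (max 0 (5 / 18 - α)) := by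
    have h1 : Real.exp (-sv v A) = x ^ (-α) := by
      rw [hαs, Real.rpow_def_of_pos hx0]
      congr 1
      ring
    have h2 : (b : ℝ) ^ m * Real.exp (-sv v A) ≤ x ^ (5 / 18 - α) := by
      rw [h1, sub_eq_add_neg, Real.rpow_add hx0]
      exact mul_le_mul_of_nonneg_right hbm18 (Real.rpow_nonneg hx0.le _)
    have h3 : x ^ (5 / 18 - α) ≤ x ^ (max 0 (5 / 18 - α)) :=
      Real.rpow_le_rpow_of_exponent_le hx1' (le_max_right _ _)
    have h4 : (1 : ℝ) ≤ x ^ (max 0 (5 / 18 - α)) := Real.one_le_rpow hx1' (le_max_left _ _)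
    linarith
  -- positivity of the bound
  have hx9 : 0 < x ^ ε := Real.rpow_pos_of_pos hx0 _
  have hxm : 0 < x ^ (max 0 (5 / 18 - α)) := Real.rpow_pos_of_pos hx0 _
  have hcls : ∀ χ : DirichletCharacter ℂ (b ^ m), ∀ t ∈ Kl E x ξ j v k χ,
      1 ≤ M * (np f v A χ (t + ξ)) ^ 2 := by
    intro χ t ht
    have h1 : ∀ i ∈ A, Real.exp (-(k i : ℝ)) ≤ HPP.nt (f i) (v i) χ (t + ξ) := by
      intro i _
      have h2 := (ht.2 i).1
      have h3 : Real.exp (-(k i : ℝ)) ≤ (Real.log x) ^ 2 * Real.exp (-(k i : ℝ) - 1) := by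
        have h4 : Real.exp 1 ≤ (Real.log x) ^ 2 := by
          have := Real.exp_one_lt_d9
          nlinarith
        have h5 : Real.exp (-(k i : ℝ)) = Real.exp 1 * Real.exp (-(k i : ℝ) - 1) := by
          rw [← Real.exp_add]
          congr 1
          ring
        rw [h5]
        exact mul_le_mul_of_nonneg_right h4 (Real.exp_pos _).le
      exact h3.trans h2.le
    have h2 : Real.exp (-∑ i ∈ A, (k i : ℝ)) ≤ np f v A χ (t + ξ) := by
      rw [← Finset.sum_neg_distrib, Real.exp_sum]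
      exact Finset.prod_le_prod (fun i _ => (Real.exp_pos _).le) h1
    have h3 : M = (Real.exp (∑ i ∈ A, (k i : ℝ))) ^ 2 := by
      rw [hMdef, ← Real.exp_nat_mul]
      norm_num
    have h4 : 1 ≤ Real.exp (∑ i ∈ A, (k i : ℝ)) * np f v A χ (t + ξ) := by
      have h5 : Real.exp (∑ i ∈ A, (k i : ℝ)) * Real.exp (-∑ i ∈ A, (k i : ℝ)) = 1 := by
        rw [← Real.exp_add]
        simp
      rw [← h5]
      exact mul_le_mul_of_nonneg_left h2 (Real.exp_pos _).le
    rw [h3, ← mul_pow]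
    exact one_le_pow₀ h4
  have hKsub : ∀ χ, Kl E x ξ j v k χ ⊆ Set.Icc (-T) T := fun χ =>
    Set.inter_subset_left.trans (hET χ)
  rcases hRR with hRp | hRz
  · have hBpos : 0 < x ^ ε * L * R ^ 2 * (2 * x ^ (max 0 (5 / 18 - α))) := by positivity
    have hsum : ∑ χ : DirichletCharacter ℂ (b ^ m), ∫ t in (-T)..T,
        ‖cc b p F V χ t‖ ^ 2 * (np f v A χ (t + ξ)) ^ 2 ≤
        x ^ ε * L * R ^ 2 * (2 * x ^ (max 0 (5 / 18 - α))) := by
      refine key.trans ?_
      have h1 : x ^ ε * (T / (b : ℝ) ^ m) * (b : ℝ) ^ (3 * F.card) * R ^ 2 *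
          (1 + (b : ℝ) ^ m * Real.exp (-sv v A)) =
          x ^ ε * L * R ^ 2 * (1 + (b : ℝ) ^ m * Real.exp (-sv v A)) := by
        rw [hL]
        ring
      rw [h1]
      exact mul_le_mul_of_nonneg_left hlast (by positivity)
    have main := clb_cs (fun χ => Kl E x ξ j v k χ) T (fun χ t => ‖cc b p F V χ t‖)
      (fun χ t => np f v A χ (t + ξ)) _ M (clb_Kl_meas E hEm x ξ j v k) hKsub
      (fun χ => (cc_continuous hbas hm F V χ).norm)
      (fun χ => (clb_np_cont f v A χ).comp (continuous_id.add continuous_const)) hT0.le hM0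
      hcls hBpos hsum
    refine main.trans ?_
    have hmu : (∑ χ : DirichletCharacter ℂ (b ^ m), volume.real (Kl E x ξ j v k χ)) =
        muK E x ξ j v k := rfl
    rw [hmu]
    have hmu0 : 0 ≤ muK E x ξ j v k := Finset.sum_nonneg fun χ _ => measureReal_nonneg
    set μ := muK E x ξ j v k with hμ
    have hle : μ * (M * (x ^ ε * L * R ^ 2 * (2 * x ^ (max 0 (5 / 18 - α))))) ≤
        (R * x ^ ε) ^ 2 * (μ * L * M * x ^ (max 0 (5 / 18 - α))) := by
      have h1 : μ * (M * (x ^ ε * L * R ^ 2 * (2 * x ^ (max 0 (5 / 18 - α))))) =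
          (x ^ ε * 2) * (R ^ 2 * (μ * L * M * x ^ (max 0 (5 / 18 - α)))) := by ring
      have h2 : (R * x ^ ε) ^ 2 * (μ * L * M * x ^ (max 0 (5 / 18 - α))) =
          (x ^ ε * x ^ ε) * (R ^ 2 * (μ * L * M * x ^ (max 0 (5 / 18 - α)))) := by ring
      rw [h1, h2]
      exact mul_le_mul_of_nonneg_right (mul_le_mul_of_nonneg_left hxe hx9.le) (by positivity)
    calc Real.sqrt (μ * (M * (x ^ ε * L * R ^ 2 * (2 * x ^ (max 0 (5 / 18 - α)))))) ≤
          Real.sqrt ((R * x ^ ε) ^ 2 * (μ * L * M * x ^ (max 0 (5 / 18 - α)))) :=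
          Real.sqrt_le_sqrt hle
      _ = R * x ^ ε * Real.sqrt (μ * L * M * x ^ (max 0 (5 / 18 - α))) := by
          rw [Real.sqrt_mul (sq_nonneg _), Real.sqrt_sq (by positivity)]
      _ = R * x ^ ε * (μ * L * M * x ^ (max 0 (5 / 18 - α))) ^ (1 / 2 : ℝ) := by
          rw [Real.sqrt_eq_rpow]
  · -- no patterns (does not occur)
    have hz : ∀ χ : DirichletCharacter ℂ (b ^ m), ∀ t, ‖cc b p F V χ t‖ = 0 := fun χ t =>
      le_antisymm ((cc_le hbas hm F hV χ t).trans hRz.le) (norm_nonneg _)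
    simp only [hz, hRz]
    simp

end Pool.Agent.HPZ
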