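import Pool.Agent.HPZ.VClD
import Pool.Agent.HPZ.APP

/-!
# HPZ/VCls: one class (`ClsProp`) from `ClAProp`, `ClBProp` and `CombProp`

`δ_C` from `CombProp` (`≤ 1/1000`), `δ := δ_C / 2`, `L = log x`, `a i = k i / L`, `ν i = v i / L`, `s' = ∑ a i`,
`μ = muK`. `VV δ x j ⊆ VV (1/1000) x j`. If `μ = 0` the integral is `0` (all classes are null sets). Else `R = log μ / L`,
`μ = x^R`; `ClAProp` with `η = min (ε / 2) δ_C` and `|∑ ν i - 1| ≤ δ` are the hypotheses of `CombProp` with `n = 2 j`.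
Either `R ≤ s' + η`: the integral is `≤ s #RR μ ≤ #RR x^ε s exp (∑ k i)` (`x^(s') = exp (∑ k i)`, sup bound on `Es`).
Or `R ≤ 2 (s' - σ_A) - max 0 (5/18 - α_A) - δ_C` for some `A`: `ClBProp` gives
`≤ #RR x^ε (Λ x^(2 s' - δ_C))^(1/2) = #RR x^ε Λ^(1/2) exp (∑ k i) x^(-δ)`.
-/

namespace Pool.Agent.HPZ

open Complex MeasureTheory

private theorem vcls_Es_sub {b m : ℕ} (χ : DirichletCharacter ℂ (b ^ m)) (K T : ℝ) :
    HPP.Gt χ K T ⊆ Set.Icc (-T) T := fun _ ht => abs_le.1 ht.1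

/-- the trivial bound on one class -/
private theorem vcls_triv {b p m : ℕ} {F : Finset ℕ} {V : ℝ → ℝ} {x ξ K T s : ℝ} {j : ℕ}
    {v k : Fin (2 * j) → ℕ} {E : DirichletCharacter ℂ (b ^ m) → Set ℝ}
    (hE : ∀ χ, E χ ⊆ HPP.Gt χ K T)
    (hs : ∀ χ, ∀ t ∈ E χ, ‖cc b p F V χ t‖ ≤ s * (RR b p m F).card) :
    ∑ χ : DirichletCharacter ℂ (b ^ m), ∫ t in Kl E x ξ j v k χ, ‖cc b p F V χ t‖ ≤
      s * (RR b p m F).card * muK E x ξ j v k := by
  unfold muK
  rw [Finset.mul_sum]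
  refine Finset.sum_le_sum fun χ _ => ?_
  have hfin : volume (Kl E x ξ j v k χ) < ⊤ := by
    refine lt_of_le_of_lt (measure_mono (Set.inter_subset_left.trans ((hE χ).trans (vcls_Es_sub χ K T)))) ?_
    rw [Real.volume_Icc]
    exact ENNReal.ofReal_lt_top
  refine (le_abs_self _).trans ?_
  rw [← Real.norm_eq_abs]
  refine norm_setIntegral_le_of_norm_le_const hfin fun t ht => ?_
  rw [norm_norm]
  exact hs χ t ht.1

private theorem vcls_mu_nonneg {b m : ℕ} (E : DirichletCharacter ℂ (b ^ m) → Set ℝ) (x ξ : ℝ)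
    (j : ℕ) (v k : Fin (2 * j) → ℕ) :
    0 ≤ muK E x ξ j v k := Finset.sum_nonneg fun _ _ => measureReal_nonneg

private theorem vcls_exp {x : ℝ} (hx : 1 < x) (y : ℝ) : x ^ (y / Real.log x) = Real.exp y := by
  have hL : 0 < Real.log x := Real.log_pos hx
  rw [Real.rpow_def_of_pos (by linarith)]
  congr 1
  field_simp

theorem clsProp (hC : CombProp) (hA : ClAProp) (hB : ClBProp) : ClsProp := by
  obtain ⟨δC, hδ0, hδ1, hcomb⟩ := hC
  refine ⟨δC / 2, by positivity, by linarith, fun b hb ε hε κ hκ => ?_⟩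
  set η : ℝ := min (ε / 2) δC with hη
  have hη0 : 0 < η := lt_min (by linarith) hδ0
  have hηδ : η ≤ δC := min_le_right _ _
  have hηε : η ≤ ε := (min_le_left _ _).trans (by linarith)
  obtain ⟨x1, hx1⟩ := hA b hb η hη0 κ hκ
  obtain ⟨x2, hx2⟩ := hB b hb ε hε
  refine ⟨max 2 (max x1 x2), fun x hx p m F V T K s hbp hm hF hV hT hD hK hT' hs0 E
    hEm hE hs j hj v hv ξ hξ k hk => ?_⟩
  have hx2' : 2 ≤ x := (le_max_left _ _).trans hx
  have hxx1 : x1 ≤ x := (le_max_left _ _).trans ((le_max_right _ _).trans hx)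
  have hxx2 : x2 ≤ x := (le_max_right _ _).trans ((le_max_right _ _).trans hx)
  have hx0 : 0 < x := by linarith
  have hx1' : 1 < x := by linarith
  have hL : 0 < Real.log x := Real.log_pos hx1'
  have hvv : |(∑ i, (v i : ℝ)) - Real.log x| ≤ δC / 2 * Real.log x := (Finset.mem_filter.1 hv).2
  have hv' : v ∈ HPP.VV (1 / 1000) x j := by
    refine Finset.mem_filter.2 ⟨(Finset.mem_filter.1 hv).1, hvv.trans ?_⟩
    exact mul_le_mul_of_nonneg_right (by linarith) hL.le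
  -- fold the class
  change ∑ χ : DirichletCharacter ℂ (b ^ m), ∫ t in Kl E x ξ j v k χ, ‖cc b p F V χ t‖ ≤ _
  set Λ : ℝ := (T / (b : ℝ) ^ m) * (b : ℝ) ^ (3 * F.card) with hΛ
  have hb0 : (0 : ℝ) < b := by
    have : 0 < b := by omega
    exact_mod_cast this
  have hT0 : 0 < T := lt_of_lt_of_le (by positivity) hT
  have hΛ0 : 0 < Λ := by positivity
  have hR0 : (0 : ℝ) ≤ (RR b p m F).card := by positivity
  have htriv := vcls_triv (x := x) (ξ := ξ) (v := v) (k := k) hE hs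
  set μ : ℝ := muK E x ξ j v k with hμ
  have hexp0 : 0 < Real.exp (∑ i, (k i : ℝ)) := Real.exp_pos _
  rcases (vcls_mu_nonneg E x ξ j v k).eq_or_lt with h0 | h0
  · -- null class
    rw [← hμ] at h0
    rw [← h0, mul_zero] at htriv
    refine htriv.trans ?_
    positivity
  rw [← hμ] at h0
  obtain ⟨hA1, hA2, hA3⟩ := hx1 x hxx1 m T K hT hD hK hT' E hEm hE j hj v hv' ξ hξ k hk h0
  rw [← hμ] at hA1 hA2 hA3
  set R : ℝ := Real.log μ / Real.log x with hR
  have hμR : μ = x ^ R := by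
    rw [hR, vcls_exp hx1', Real.exp_log h0]
  have hkx : Real.exp (∑ i, (k i : ℝ)) = x ^ (∑ i, (k i : ℝ) / Real.log x) := by
    rw [← Finset.sum_div, vcls_exp hx1']
  rcases hcomb (2 * j) (fun i => (v i : ℝ) / Real.log x) (fun i => (k i : ℝ) / Real.log x) R η
    (fun i => by positivity) (fun i => by positivity) (by
      rw [← Finset.sum_div, div_sub_one hL.ne', abs_div, abs_of_pos hL, div_le_iff₀ hL]
      refine hvv.trans ?_
      exact mul_le_mul_of_nonneg_right (by linarith) hL.le) hη0.le hηδ hA1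
    (fun A hA => hA2 A (by linarith)) hA3 with h | ⟨A, h⟩
  · -- sup bound
    refine htriv.trans ?_
    have h1 : μ ≤ x ^ ε * Real.exp (∑ i, (k i : ℝ)) := by
      rw [hμR, hkx, ← Real.rpow_add hx0]
      exact Real.rpow_le_rpow_of_exponent_le hx1'.le (by linarith)
    calc s * (RR b p m F).card * μ ≤ s * (RR b p m F).card * (x ^ ε * Real.exp (∑ i, (k i : ℝ))) :=
          mul_le_mul_of_nonneg_left h1 (mul_nonneg hs0 hR0)
      _ = (RR b p m F).card * x ^ ε * s * Real.exp (∑ i, (k i : ℝ)) := by ring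
      _ ≤ _ := by
          refine mul_le_mul_of_nonneg_right ?_ hexp0.le
          refine mul_le_mul_of_nonneg_left ?_ (mul_nonneg hR0 (Real.rpow_nonneg hx0.le _))
          have : 0 ≤ Λ ^ (1 / 2 : ℝ) * x ^ (-(δC / 2)) := by positivity
          linarith
  · -- Cauchy-Schwarz
    have h2 := hx2 x hxx2 p m F V T hbp hm hF hV hT hD E hEm
      (fun χ => (hE χ).trans (vcls_Es_sub χ K T)) j hj v hv' ξ k A
    rw [← hμ, ← hΛ] at h2
    refine h2.trans ?_
    have h3 : Real.exp (2 * ∑ i ∈ A, (k i : ℝ)) = x ^ (2 * ∑ i ∈ A, (k i : ℝ) / Real.log x) := by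
      rw [← Finset.sum_div, ← mul_div_assoc, vcls_exp hx1']
    have h4 : (μ * Λ * Real.exp (2 * ∑ i ∈ A, (k i : ℝ)) *
        x ^ (max 0 (5 / 18 - ∑ i ∈ A, (v i : ℝ) / Real.log x))) ^ (1 / 2 : ℝ) ≤
        Λ ^ (1 / 2 : ℝ) * x ^ (-(δC / 2)) * Real.exp (∑ i, (k i : ℝ)) := by
      have h5 : μ * Λ * Real.exp (2 * ∑ i ∈ A, (k i : ℝ)) *
          x ^ (max 0 (5 / 18 - ∑ i ∈ A, (v i : ℝ) / Real.log x)) ≤
          Λ * x ^ (2 * (∑ i, (k i : ℝ) / Real.log x) - δC) := by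
        have h6 : μ * Real.exp (2 * ∑ i ∈ A, (k i : ℝ)) *
            x ^ (max 0 (5 / 18 - ∑ i ∈ A, (v i : ℝ) / Real.log x)) ≤
            x ^ (2 * (∑ i, (k i : ℝ) / Real.log x) - δC) := by
          rw [h3, hμR, ← Real.rpow_add hx0, ← Real.rpow_add hx0]
          refine Real.rpow_le_rpow_of_exponent_le hx1'.le ?_
          linarith
        calc _ = Λ * (μ * Real.exp (2 * ∑ i ∈ A, (k i : ℝ)) *
            x ^ (max 0 (5 / 18 - ∑ i ∈ A, (v i : ℝ) / Real.log x))) := by ring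
          _ ≤ _ := mul_le_mul_of_nonneg_left h6 hΛ0.le
      refine (Real.rpow_le_rpow (by positivity) h5 (by norm_num)).trans (le_of_eq ?_)
      rw [Real.mul_rpow hΛ0.le (by positivity), ← Real.rpow_mul hx0.le, hkx, mul_assoc,
        ← Real.rpow_add hx0]
      congr 2
      ring
    calc (RR b p m F).card * x ^ ε * _ ≤ (RR b p m F).card * x ^ ε *
          (Λ ^ (1 / 2 : ℝ) * x ^ (-(δC / 2)) * Real.exp (∑ i, (k i : ℝ))) :=
          mul_le_mul_of_nonneg_left h4 (mul_nonneg hR0 (Real.rpow_nonneg hx0.le _))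
      _ = (RR b p m F).card * x ^ ε * (Λ ^ (1 / 2 : ℝ) * x ^ (-(δC / 2))) *
          Real.exp (∑ i, (k i : ℝ)) := by ring
      _ ≤ _ := by
          refine mul_le_mul_of_nonneg_right ?_ hexp0.le
          refine mul_le_mul_of_nonneg_left ?_ (mul_nonneg hR0 (Real.rpow_nonneg hx0.le _))
          linarith

end Pool.Agent.HPZ
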