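import Pool.Agent.HPZ.Iface
import Pool.Agent.HPP.VHBa

/-!
# HPZ/VCo: products of factors: coefficients, support, normalised product (`CoProp`)

Induction on `A` as in `HPP/VPow` (`vp_pw_aux`, `pw_supp`, `pw_bd`: there for powers), `HPP.prod_supp`,
`HPP.dp_prod`, `HPP.vp_pc_abs`, `HPP.pc_supp`, `Pool.Agent.Pal.card_divisors_le_rpow`. `|PG n| ≤ C ∏ (v i + 2) n^δ`,
`n ≤ exp (sv + 80)`, `∏_(i ∈ A) (v i + 2) ≤ (sv + 2)^80 ≤ C exp (ε sv / 2)`; `PG ∅ = 1` (value `1` at `n = 1`).
-/

namespace Pool.Agent.HPZ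

open Complex MeasureTheory

theorem vco_aux (k : ℕ) : ∀ δ : ℝ, 0 < δ → ∃ C : ℝ, 1 ≤ C ∧
    ∀ (j : ℕ) (f : Fin j → ArithmeticFunction ℝ) (v : Fin j → ℕ), (∀ i, HPP.Sm (f i)) →
    ∀ A : Finset (Fin j), A.card ≤ k → ∀ n : ℕ,
      |PG f v A n| ≤ C * (∏ i ∈ A, ((v i : ℝ) + 2)) * (n : ℝ) ^ δ := by
  have h0 : ∀ δ : ℝ, 0 < δ → ∀ C : ℝ, 1 ≤ C → ∀ (j : ℕ) (f : Fin j → ArithmeticFunction ℝ)
      (v : Fin j → ℕ) (n : ℕ),
      |PG f v ∅ n| ≤ C * (∏ i ∈ (∅ : Finset (Fin j)), ((v i : ℝ) + 2)) * (n : ℝ) ^ δ := by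
    intro δ hδ C hC j f v n
    unfold PG
    rw [Finset.prod_empty, Finset.prod_empty, mul_one]
    by_cases h : n = 1
    · subst h
      simpa using hC
    · rw [ArithmeticFunction.one_apply_ne h, abs_zero]
      positivity
  induction k with
  | zero =>
    intro δ hδ
    refine ⟨1, le_rfl, fun j f v _ A hA n => ?_⟩
    have hA' : A = ∅ := Finset.card_eq_zero.1 (by omega)
    subst hA'
    exact h0 δ hδ 1 le_rfl j f v n
  | succ k ih =>
    intro δ hδ
    obtain ⟨C, hC, hC'⟩ := ih (δ / 2) (by linarith)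
    obtain ⟨D, hD, hD'⟩ := Pool.Agent.Pal.card_divisors_le_rpow (η := δ / 2) (by linarith)
    have hDC : 1 ≤ D * C := by nlinarith
    refine ⟨D * C, hDC, fun j f v hf A hA n => ?_⟩
    rcases Finset.eq_empty_or_nonempty A with hA0 | ⟨a, ha⟩
    · subst hA0
      exact h0 δ hδ _ hDC j f v n
    obtain ⟨s, hs, rfl⟩ : ∃ s : Finset (Fin j), a ∉ s ∧ insert a s = A :=
      ⟨A.erase a, Finset.notMem_erase a A, Finset.insert_erase ha⟩
    rw [Finset.card_insert_of_notMem hs] at hA
    have hs1 : s.card ≤ k := by omega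
    have hP : (0 : ℝ) < ∏ i ∈ s, ((v i : ℝ) + 2) := Finset.prod_pos fun i _ => by positivity
    have hv : (0 : ℝ) < (v a : ℝ) + 2 := by positivity
    rcases Nat.eq_zero_or_pos n with h1 | h1
    · subst h1
      rw [ArithmeticFunction.map_zero, abs_zero]
      have : (0 : ℝ) < ∏ i ∈ insert a s, ((v i : ℝ) + 2) := Finset.prod_pos fun i _ => by positivity
      positivity
    have e0 : PG f v (insert a s) = HPP.pc (f a) (v a) * PG f v s := by
      unfold PG
      rw [Finset.prod_insert hs]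
    rw [e0, ArithmeticFunction.mul_apply, Finset.prod_insert hs]
    refine (Finset.abs_sum_le_sum_abs _ _).trans ?_
    have h2 : ∀ p ∈ n.divisorsAntidiagonal, |HPP.pc (f a) (v a) p.1 * PG f v s p.2| ≤
        ((v a : ℝ) + 2) * (C * (∏ i ∈ s, ((v i : ℝ) + 2)) * (n : ℝ) ^ (δ / 2)) := by
      intro p hp
      rw [Nat.mem_divisorsAntidiagonal] at hp
      rw [abs_mul]
      refine mul_le_mul (HPP.vp_pc_abs (hf a) (v a) p.1) ((hC' j f v hf s hs1 p.2).trans ?_)
        (abs_nonneg _) hv.le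
      refine mul_le_mul_of_nonneg_left ?_ (by positivity)
      refine Real.rpow_le_rpow (by positivity) ?_ (by linarith)
      have h3 : p.2 ≤ n := Nat.le_of_dvd h1 ⟨p.1, by rw [mul_comm]; exact hp.1.symm⟩
      exact_mod_cast h3
    refine (Finset.sum_le_sum h2).trans ?_
    rw [Finset.sum_const, nsmul_eq_mul]
    have h3 : ((n.divisorsAntidiagonal).card : ℝ) ≤ D * (n : ℝ) ^ (δ / 2) := by
      have h4 : (n.divisorsAntidiagonal).card = n.divisors.card := by
        rw [← Nat.map_div_right_divisors, Finset.card_map]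
      rw [h4]
      exact hD' n h1
    have h5 : (n : ℝ) ^ δ = (n : ℝ) ^ (δ / 2) * (n : ℝ) ^ (δ / 2) := by
      rw [← Real.rpow_add (by exact_mod_cast h1)]
      congr 1
      ring
    calc ((n.divisorsAntidiagonal).card : ℝ) *
          (((v a : ℝ) + 2) * (C * (∏ i ∈ s, ((v i : ℝ) + 2)) * (n : ℝ) ^ (δ / 2))) ≤
          (D * (n : ℝ) ^ (δ / 2)) *
            (((v a : ℝ) + 2) * (C * (∏ i ∈ s, ((v i : ℝ) + 2)) * (n : ℝ) ^ (δ / 2))) :=
          mul_le_mul_of_nonneg_right h3 (by positivity)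
      _ = D * C * (((v a : ℝ) + 2) * ∏ i ∈ s, ((v i : ℝ) + 2)) * (n : ℝ) ^ δ := by
          rw [h5]
          ring

theorem coProp : CoProp := by
  intro ε hε
  obtain ⟨C, hC, hC'⟩ := vco_aux 80 (ε / 4) (by linarith)
  set D : ℝ := (Nat.factorial 80 : ℝ) * (2 / ε) ^ 80 * Real.exp ε with hD
  have hDp : 0 < D := by positivity
  refine ⟨max 1 (C * D * Real.exp (20 * ε)), le_max_left _ _, fun j hj f v hf A => ?_⟩
  have hcard : A.card ≤ 80 := by
    have := Finset.card_le_univ A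
    rw [Fintype.card_fin] at this
    omega
  have hS : ∀ n, PG f v A n ≠ 0 → 1 ≤ n ∧ |Real.log n - sv v A| ≤ 80 := by
    intro n hn
    obtain ⟨h1, h2⟩ := HPP.prod_supp A f v hn
    refine ⟨h1, h2.trans ?_⟩
    exact_mod_cast hcard
  have hsv : 0 ≤ sv v A := by
    unfold sv
    exact Finset.sum_nonneg fun i _ => Nat.cast_nonneg _
  refine ⟨fun n => ?_, hS, fun Q χ t => ?_⟩
  · by_cases h : PG f v A n = 0
    · rw [h, abs_zero]
      positivity
    obtain ⟨hn1, hn2⟩ := hS n h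
    have hn' : (0 : ℝ) < n := by exact_mod_cast hn1
    have h1 : (n : ℝ) ^ (ε / 4) ≤ Real.exp (20 * ε) * Real.exp (ε * sv v A / 4) := by
      have h2 : (n : ℝ) ≤ Real.exp (sv v A + 80) := by
        rw [← Real.log_le_iff_le_exp hn']
        rw [abs_le] at hn2
        linarith [hn2.2]
      calc (n : ℝ) ^ (ε / 4) ≤ (Real.exp (sv v A + 80)) ^ (ε / 4) :=
            Real.rpow_le_rpow hn'.le h2 (by positivity)
        _ = Real.exp (20 * ε) * Real.exp (ε * sv v A / 4) := by
            rw [← Real.exp_mul, ← Real.exp_add]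
            congr 1
            ring
    have h2 : (∏ i ∈ A, ((v i : ℝ) + 2)) ≤ (sv v A + 2) ^ 80 := by
      calc (∏ i ∈ A, ((v i : ℝ) + 2)) ≤ ∏ i ∈ A, (sv v A + 2) := by
            refine Finset.prod_le_prod (fun i _ => by positivity) fun i hi => ?_
            have : (v i : ℝ) ≤ sv v A := by
              unfold sv
              exact Finset.single_le_sum (f := fun i => (v i : ℝ)) (fun i _ => Nat.cast_nonneg _) hi
            linarith
        _ = (sv v A + 2) ^ A.card := by rw [Finset.prod_const]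
        _ ≤ (sv v A + 2) ^ 80 := pow_le_pow_right₀ (by linarith) hcard
    have h3 : (sv v A + 2) ^ 80 ≤ D * Real.exp (ε * sv v A / 2) := by
      have h3 := Real.pow_div_factorial_le_exp (ε / 2 * (sv v A + 2)) (by positivity) 80
      rw [div_le_iff₀ (by positivity), mul_pow] at h3
      have h4 : Real.exp (ε / 2 * (sv v A + 2)) = Real.exp ε * Real.exp (ε * sv v A / 2) := by
        rw [← Real.exp_add]
        congr 1
        ring
      rw [h4] at h3
      have h5 : (2 / ε) ^ 80 * ((ε / 2) ^ 80 * (sv v A + 2) ^ 80) = (sv v A + 2) ^ 80 := by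
        rw [← mul_assoc, ← mul_pow]
        have : 2 / ε * (ε / 2) = 1 := by field_simp
        rw [this, one_pow, one_mul]
      calc (sv v A + 2) ^ 80 = (2 / ε) ^ 80 * ((ε / 2) ^ 80 * (sv v A + 2) ^ 80) := h5.symm
        _ ≤ (2 / ε) ^ 80 * (Real.exp ε * Real.exp (ε * sv v A / 2) * (Nat.factorial 80 : ℝ)) :=
            mul_le_mul_of_nonneg_left h3 (by positivity)
        _ = D * Real.exp (ε * sv v A / 2) := by rw [hD]; ring
    have hP : (0 : ℝ) < ∏ i ∈ A, ((v i : ℝ) + 2) := Finset.prod_pos fun i _ => by positivity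
    calc |PG f v A n| ≤ C * (∏ i ∈ A, ((v i : ℝ) + 2)) * (n : ℝ) ^ (ε / 4) :=
          hC' j f v hf A hcard n
      _ ≤ C * (D * Real.exp (ε * sv v A / 2)) * (Real.exp (20 * ε) * Real.exp (ε * sv v A / 4)) := by
          refine mul_le_mul (mul_le_mul_of_nonneg_left (h2.trans h3) (by linarith)) h1
            (by positivity) (by positivity)
      _ = C * D * Real.exp (20 * ε) * (Real.exp (ε * sv v A / 2) * Real.exp (ε * sv v A / 4)) := by
          ring
      _ ≤ C * D * Real.exp (20 * ε) * Real.exp (ε * sv v A) := by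
          refine mul_le_mul_of_nonneg_left ?_ (by positivity)
          rw [← Real.exp_add]
          refine Real.exp_le_exp.2 ?_
          have : (0 : ℝ) ≤ ε * sv v A := by positivity
          linarith
      _ ≤ max 1 (C * D * Real.exp (20 * ε)) * Real.exp (ε * sv v A) :=
          mul_le_mul_of_nonneg_right (le_max_right _ _) (Real.exp_pos _).le
  · unfold np PG sv HPP.nt
    rw [(HPP.dp_prod A (F := fun i => HPP.pc (f i) (v i)) (fun i _ => HPP.pc_fin (f i) (v i)) χ t).2,
      norm_prod, Finset.prod_mul_distrib, ← Finset.sum_neg_distrib, Real.exp_sum]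

end Pool.Agent.HPZ
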