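import Pool.Agent.HPZ.Iface
import Pool.Agent.HPP.VLHm
import Pool.Agent.HPP.VHBa

/-!
# HPZ/VHm: Halasz-Montgomery for products (`HmProp`)

Copy the proof of `HPP.ls_hm` (file `HPP/VLHm`; its lemmas in `HPP.LHm` are public) with `G = PG f v A` in place of
`pc F v ^ j`, `sv v A` in place of `j v`, `U` in place of `V ^ j` (so `V ^ (2 j)` becomes `U²`), the weight
`gw 1 (sv v A) n = exp (-(log n - sv)²) ≥ exp (-6400)` on the support (`CoProp`: `|log n - sv| ≤ 80`), and
`|G n| ≤ C exp (ε sv)`.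
-/

namespace Pool.Agent.HPZ

open Complex MeasureTheory

open HPP.LHm in
/-- the abstract form: any finitely supported `G` -/
private theorem hm_gen (hPV : HPP.PVProp) {b : ℕ} (hb : 2 ≤ b) {ε : ℝ} (hε : 0 < ε) {C₂ : ℝ}
    (hC₂ : 1 ≤ C₂) :
    ∃ C : ℝ, 1 ≤ C ∧ ∀ (m : ℕ) (G : ArithmeticFunction ℝ) (x : ℝ), 0 ≤ x →
    (∀ n, |G n| ≤ C₂ * Real.exp (ε / 4 * x)) →
    (∀ n, G n ≠ 0 → 1 ≤ n ∧ |Real.log n - x| ≤ 80) →
    ∀ (P : DirichletCharacter ℂ (b ^ m) → ℝ → ℝ),
    (∀ χ t, P χ t = Real.exp (-x) * ‖HPP.DP G χ t‖) →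
    ∀ (t₀ T U : ℝ), 1 ≤ T → 0 < U →
    C * Real.exp (ε * x) * Real.sqrt ((b : ℝ) ^ m * T) * Real.log ((b : ℝ) ^ m * (2 + T)) ≤
      U ^ 2 * Real.exp x →
    HPP.LM (fun _ : DirichletCharacter ℂ (b ^ m) => Set.Icc t₀ (t₀ + T)) P U ≤
      C * Real.exp (ε * x) * (U ^ 2)⁻¹ := by
  obtain ⟨C₁, hC₁, hpv⟩ := hPV b hb 1 le_rfl
  set K₁ : ℝ := C₂ ^ 2 * Real.exp 6400 * (2 * Real.exp 80) with hK₁
  set K₃ : ℝ := 1 + 2 / ε with hK₃
  set K : ℝ := K₁ * C₁ * K₃ * (3 + Real.sqrt (Real.pi * C₁)) with hK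
  have hC₁0 : 0 < C₁ := by linarith
  have hC₂0 : 0 < C₂ := by linarith
  have hK₁0 : 0 < K₁ := by positivity
  have hK₃0 : 0 < K₃ := by positivity
  have hK0 : 0 < K := by positivity
  refine ⟨2 * K + 1, by linarith, ?_⟩
  intro m G x hx hbd hsupp P hP t₀ T V hT hV hyp
  have : NeZero (b ^ m) := ⟨pow_ne_zero _ (by omega)⟩
  set Q : ℝ := (b : ℝ) ^ m with hQ
  have hQ1 : 1 ≤ Q := one_le_pow₀ (by exact_mod_cast (by omega : 1 ≤ b))
  -- the finite support
  set N₁ : ℕ := ⌈Real.exp (x + 80)⌉₊ + 1 with hN₁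
  set s : Finset ℕ := (Finset.range N₁).filter fun n => G n ≠ 0 with hs
  have hsm : ∀ n, G n ≠ 0 → n ∈ s := by
    intro n hn
    rw [hs, Finset.mem_filter, Finset.mem_range]
    refine ⟨?_, hn⟩
    obtain ⟨h1, h2⟩ := hsupp n hn
    have hnp : (0 : ℝ) < n := by exact_mod_cast h1
    have h3 : (n : ℝ) ≤ Real.exp (x + 80) := by
      rw [← Real.log_le_iff_le_exp hnp]
      have := (abs_le.1 h2).2
      linarith
    have h4 : (n : ℝ) ≤ (⌈Real.exp (x + 80)⌉₊ : ℝ) := h3.trans (Nat.le_ceil _)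
    have h5 : n ≤ ⌈Real.exp (x + 80)⌉₊ := by exact_mod_cast h4
    omega
  have hGf : (Function.support G).Finite := by
    refine (Finset.finite_toSet s).subset ?_
    intro n hn
    exact hsm n hn
  have hPc : ∀ χ, Continuous (P χ) := by
    intro χ
    have e : P χ = fun t => Real.exp (-x) * ‖HPP.DP G χ t‖ := funext fun t => hP χ t
    rw [e]
    exact continuous_const.mul (HPP.dp_continuous hGf χ).norm
  set E : DirichletCharacter ℂ (b ^ m) → Set ℝ :=
    fun χ => Set.Icc t₀ (t₀ + T) ∩ {t | V ≤ P χ t} with hEdef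
  set M : ℝ := ∑ χ, volume.real (E χ) with hM
  have hLM : HPP.LM (fun _ : DirichletCharacter ℂ (b ^ m) => Set.Icc t₀ (t₀ + T)) P V = M := rfl
  have hM0 : 0 ≤ M := Finset.sum_nonneg fun χ _ => measureReal_nonneg
  have hEm : ∀ χ, MeasurableSet (E χ) := fun χ =>
    measurableSet_Icc.inter (measurableSet_le measurable_const (hPc χ).measurable)
  have hE : ∀ χ, IsFiniteMeasure (volume.restrict (E χ)) := by
    intro χ
    refine ⟨?_⟩
    rw [Measure.restrict_apply_univ]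
    exact (measure_mono Set.inter_subset_left).trans_lt (by
      rw [Real.volume_Icc]; exact ENNReal.ofReal_lt_top)
  have hcard : (s.card : ℝ) ≤ 2 * Real.exp 80 * Real.exp x := by
    have h1 : (s.card : ℝ) ≤ N₁ := by
      exact_mod_cast (Finset.card_filter_le _ _).trans (by simp)
    have h2 : (⌈Real.exp (x + 80)⌉₊ : ℝ) < Real.exp (x + 80) + 1 :=
      Nat.ceil_lt_add_one (by positivity)
    have h3 : 81 ≤ Real.exp (x + 80) := by
      have := Real.add_one_le_exp (x + 80)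
      linarith
    have h4 : Real.exp (x + 80) = Real.exp 80 * Real.exp x := by
      rw [← Real.exp_add]; congr 1; ring
    have h5 : (N₁ : ℝ) = (⌈Real.exp (x + 80)⌉₊ : ℝ) + 1 := by
      rw [hN₁]; push_cast; ring
    rw [h5] at h1
    rw [mul_assoc, ← h4]
    linarith
  -- the weights on the support
  have hW : ∀ n ∈ s, Real.exp (-6400) ≤ HPP.gw 1 x n := by
    intro n hn
    have hn' := (Finset.mem_filter.1 hn).2
    obtain ⟨h1, h2⟩ := hsupp n hn'
    have hn0 : n ≠ 0 := by omega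
    unfold HPP.gw
    rw [if_neg hn0]
    apply Real.exp_le_exp.2
    rw [div_one]
    apply neg_le_neg
    have := sq_le_sq' (abs_le.1 h2).1 (abs_le.1 h2).2
    linarith
  -- the first factor
  have hfirst : ∑ n ∈ s, (G n) ^ 2 / HPP.gw 1 x n ≤
      K₁ * Real.exp (ε * x / 2) * Real.exp x := by
    have h1 : ∀ n ∈ s, (G n) ^ 2 / HPP.gw 1 x n ≤
        C₂ ^ 2 * Real.exp (ε * x / 2) * Real.exp 6400 := by
      intro n hn
      have h2 := hW n hn
      have h3 := hbd n
      have h4 : (G n) ^ 2 ≤ C₂ ^ 2 * Real.exp (ε * x / 2) := by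
        rw [← sq_abs]
        calc |G n| ^ 2 ≤ (C₂ * Real.exp (ε / 4 * x)) ^ 2 := by
              apply pow_le_pow_left₀ (abs_nonneg _) h3
          _ = C₂ ^ 2 * Real.exp (ε * x / 2) := by
              rw [mul_pow, ← Real.exp_nat_mul]
              congr 2
              push_cast
              ring
      have h5 : 0 < Real.exp (-6400) := Real.exp_pos _
      rw [div_le_iff₀ (h5.trans_le h2)]
      have h6 : Real.exp 6400 * Real.exp (-6400) = 1 := by
        rw [← Real.exp_add]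
        norm_num
      calc (G n) ^ 2 ≤ C₂ ^ 2 * Real.exp (ε * x / 2) := h4
        _ = C₂ ^ 2 * Real.exp (ε * x / 2) * (Real.exp 6400 * Real.exp (-6400)) := by
            rw [h6, mul_one]
        _ = C₂ ^ 2 * Real.exp (ε * x / 2) * Real.exp 6400 * Real.exp (-6400) := by ring
        _ ≤ _ := by gcongr
    calc ∑ n ∈ s, (G n) ^ 2 / HPP.gw 1 x n
        ≤ s.card • (C₂ ^ 2 * Real.exp (ε * x / 2) * Real.exp 6400) :=
          Finset.sum_le_card_nsmul _ _ _ h1
      _ = s.card * (C₂ ^ 2 * Real.exp (ε * x / 2) * Real.exp 6400) := by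
          rw [nsmul_eq_mul]
      _ ≤ (2 * Real.exp 80 * Real.exp x) *
            (C₂ ^ 2 * Real.exp (ε * x / 2) * Real.exp 6400) := by gcongr
      _ = _ := by rw [hK₁]; ring
  -- the second factor
  set R : ℝ := Real.sqrt (Q * T) * Real.log (Q * (2 + T)) with hR
  have hR1 : 1 ≤ R := by
    have h1 : 1 ≤ Real.sqrt (Q * T) := by
      rw [Real.one_le_sqrt]
      exact one_le_mul_of_one_le_of_one_le hQ1 hT
    have h2 : 1 ≤ Real.log (Q * (2 + T)) := by
      rw [Real.le_log_iff_exp_le (by positivity)]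
      have h3 := Real.exp_one_lt_d9
      calc Real.exp 1 ≤ 1 * (2 + T) := by linarith
        _ ≤ Q * (2 + T) := mul_le_mul_of_nonneg_right hQ1 (by linarith)
    rw [hR]
    exact one_le_mul_of_one_le_of_one_le h1 h2
  set κ : ℝ := C₁ * (1 + x) * (Real.sqrt 2 * R) with hκ
  have hs2 : 1 ≤ Real.sqrt 2 := by rw [Real.one_le_sqrt]; norm_num
  have hκ1 : 1 ≤ κ := by
    have h1 : 1 ≤ C₁ * (1 + x) :=
      one_le_mul_of_one_le_of_one_le hC₁ (by linarith)
    have h2 : 1 ≤ Real.sqrt 2 * R := one_le_mul_of_one_le_of_one_le hs2 hR1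
    rw [hκ]
    exact one_le_mul_of_one_le_of_one_le h1 h2
  obtain ⟨N, hNN, hN⟩ : ∃ N, N₁ ≤ N ∧ ∑' n, HPP.gw 1 x (n + N) ≤ κ := by
    have h := tendsto_sum_nat_add (HPP.gw 1 x)
    have h1 := (h.eventually (gt_mem_nhds (show (0 : ℝ) < 1 by norm_num))).and
      (Filter.eventually_ge_atTop N₁)
    obtain ⟨N, h2, h3⟩ := h1.exists
    exact ⟨N, h3, h2.le.trans hκ1⟩
  have hS : ∀ χ χ' : DirichletCharacter ℂ (b ^ m), ∀ t ∈ E χ, ∀ t' ∈ E χ',
      ‖HPP.SS (fun n => ((HPP.gw 1 x n : ℝ) : ℂ)) (χ * χ'⁻¹) (t - t')‖ ≤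
        κ + (if χ = χ' then 1 else 0) *
          (C₁ * (1 + x) * Real.exp x * Real.exp (-(t - t') ^ 2 / C₁)) := by
    intro χ χ' t ht t' ht'
    have h1 := hpv m 0 (by norm_num) (χ * χ'⁻¹) (t - t') x hx
    simp only [pow_zero, one_mul] at h1
    have habs : |t - t'| ≤ T := by
      have h2 := ht.1
      have h3 := ht'.1
      rw [Set.mem_Icc] at h2 h3
      rw [abs_le]
      constructor <;> linarith
    have h4 : Real.sqrt (Q * (1 + |t - t'|)) ≤ Real.sqrt 2 * Real.sqrt (Q * T) := by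
      rw [← Real.sqrt_mul (by norm_num)]
      apply Real.sqrt_le_sqrt
      calc Q * (1 + |t - t'|) ≤ Q * (2 * T) :=
            mul_le_mul_of_nonneg_left (by linarith) (by linarith)
        _ = 2 * (Q * T) := by ring
    have h5 : Real.log (Q * (2 + |t - t'|)) ≤ Real.log (Q * (2 + T)) := by
      apply Real.log_le_log
      · positivity
      · gcongr
    have h5' : 0 ≤ Real.log (Q * (2 + |t - t'|)) := by
      apply Real.log_nonneg
      exact one_le_mul_of_one_le_of_one_le hQ1 (by linarith [abs_nonneg (t - t')])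
    have h6 : Real.sqrt (Q * (1 + |t - t'|)) * Real.log (Q * (2 + |t - t'|)) ≤ Real.sqrt 2 * R := by
      calc _ ≤ Real.sqrt 2 * Real.sqrt (Q * T) * Real.log (Q * (2 + T)) :=
            mul_le_mul h4 h5 h5' (by positivity)
        _ = _ := by rw [hR]; ring
    have h7 : C₁ * (1 + x) * (Real.sqrt (Q * (1 + |t - t'|)) *
        Real.log (Q * (2 + |t - t'|))) ≤ κ := by
      rw [hκ]; gcongr
    refine h1.trans ?_
    rw [mul_add]
    refine add_le_add h7 ?_
    rcases eq_or_ne χ χ' with h | h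
    · subst h
      rw [if_pos (mul_inv_cancel χ), if_pos rfl, one_mul, mul_assoc (C₁ * (1 + x)), ← Real.exp_add]
      apply le_of_eq
      congr 2
      ring
    · have h8 : ¬ (χ * χ'⁻¹ = 1) := by
        rw [mul_inv_eq_one]
        exact h
      rw [if_neg h8, if_neg h]
      simp
  have hgram := gram_le E (th G) hE hEm (th_meas hGf) (th_norm G) (v := x) (κ := κ)
    (c := C₁ * (1 + x) * Real.exp x) (C := C₁) hC₁0 (by positivity) N hN hS
  rw [← hM] at hgram
  -- duality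
  have hU : ∀ χ, ∀ t ∈ E χ, V * Real.exp x ≤ ‖HPP.DP G χ t‖ := by
    intro χ t ht
    have h1 : V ≤ P χ t := ht.2
    rw [hP] at h1
    calc V * Real.exp x ≤ Real.exp (-x) * ‖HPP.DP G χ t‖ * Real.exp x := by gcongr
      _ = (Real.exp (-x) * Real.exp x) * ‖HPP.DP G χ t‖ := by ring
      _ = ‖HPP.DP G χ t‖ := by rw [← Real.exp_add]; simp
  have hb' : ∀ χ, ∀ t ∈ E χ, ‖HPP.DP G χ t‖ ≤ ∑ n ∈ s, |G n| := by
    intro χ t _
    rw [HPP.dp_eq_sum s hsm χ t]
    refine (norm_sum_le _ _).trans (Finset.sum_le_sum fun n _ => ?_)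
    have h1 := ph_norm χ n t
    unfold ph at h1
    rw [mul_assoc, norm_mul, Complex.norm_real, Real.norm_eq_abs]
    calc _ ≤ |G n| * 1 := by gcongr
      _ = _ := mul_one _
  have hdual := dual hGf E hE hEm s hsm hU hb'
  rw [← hM] at hdual
  -- Cauchy-Schwarz
  have hcs : (∑ n ∈ s, |G n| * ‖BB E (th G) n‖) ^ 2 ≤
      (∑ n ∈ s, (G n) ^ 2 / HPP.gw 1 x n) * ∑ n ∈ s, HPP.gw 1 x n * ‖BB E (th G) n‖ ^ 2 := by
    apply Finset.sum_sq_le_sum_mul_sum_of_sq_le_mul
    · intro n _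
      exact div_nonneg (sq_nonneg _) (gw_nonneg _ _ _)
    · intro n _
      exact mul_nonneg (gw_nonneg _ _ _) (sq_nonneg _)
    · intro n hn
      have h1 : 0 < HPP.gw 1 x n := (Real.exp_pos _).trans_le (hW n hn)
      rw [mul_pow, sq_abs]
      apply le_of_eq
      field_simp
  have hsub : ∑ n ∈ s, HPP.gw 1 x n * ‖BB E (th G) n‖ ^ 2 ≤
      ∑ n ∈ Finset.range N, HPP.gw 1 x n * ‖BB E (th G) n‖ ^ 2 := by
    apply Finset.sum_le_sum_of_subset_of_nonneg
    · intro n hn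
      have := Finset.mem_range.1 (Finset.mem_filter.1 hn).1
      exact Finset.mem_range.2 (by omega)
    · intro n _ _
      exact mul_nonneg (gw_nonneg _ _ _) (sq_nonneg _)
  have hsq : (V * Real.exp x * M) ^ 2 ≤
      K₁ * Real.exp (ε * x / 2) * Real.exp x *
        (2 * κ * M ^ 2 + C₁ * (1 + x) * Real.exp x * Real.sqrt (Real.pi * C₁) * M) := by
    calc (V * Real.exp x * M) ^ 2 ≤ (∑ n ∈ s, |G n| * ‖BB E (th G) n‖) ^ 2 :=
          pow_le_pow_left₀ (by positivity) hdual 2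
      _ ≤ _ := hcs
      _ ≤ _ := by
          apply mul_le_mul hfirst (hsub.trans hgram)
          · exact Finset.sum_nonneg fun n _ => mul_nonneg (gw_nonneg _ _ _) (sq_nonneg _)
          · positivity
  -- conclusion
  have hjv3 : 1 + x ≤ K₃ * Real.exp (ε * x / 2) := by
    have h1 := Real.add_one_le_exp (ε * x / 2)
    have h2 : K₃ * (ε * x / 2 + 1) = 1 + x + (ε * x / 2 + 2 / ε) := by
      rw [hK₃]; field_simp; ring
    have h3 : 0 ≤ ε * x / 2 + 2 / ε := by positivity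
    have h4 := mul_le_mul_of_nonneg_left h1 hK₃0.le
    linarith
  have hmain : V ^ 2 * Real.exp x * M ^ 2 ≤
      K * Real.exp (ε * x) * (R * M ^ 2 + Real.exp x * M) := by
    have hsq2 : Real.sqrt 2 ≤ 3 / 2 := by
      rw [Real.sqrt_le_left (by norm_num)]
      norm_num
    have e1 : (V * Real.exp x * M) ^ 2 =
        Real.exp x * (V ^ 2 * Real.exp x * M ^ 2) := by
      ring
    have e2 : K₁ * Real.exp (ε * x / 2) * Real.exp x *
        (2 * κ * M ^ 2 + C₁ * (1 + x) * Real.exp x * Real.sqrt (Real.pi * C₁) * M) =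
        Real.exp x * (K₁ * Real.exp (ε * x / 2) * (C₁ * (1 + x)) *
          (2 * Real.sqrt 2 * R * M ^ 2 + Real.sqrt (Real.pi * C₁) * (Real.exp x * M))) := by
      rw [hκ]; ring
    rw [e1, e2] at hsq
    have h1 := le_of_mul_le_mul_left hsq (Real.exp_pos _)
    refine h1.trans ?_
    have hsp : 0 ≤ Real.sqrt (Real.pi * C₁) := Real.sqrt_nonneg _
    have h2 : 2 * Real.sqrt 2 * R * M ^ 2 + Real.sqrt (Real.pi * C₁) * (Real.exp x * M) ≤
        (3 + Real.sqrt (Real.pi * C₁)) * (R * M ^ 2 + Real.exp x * M) := by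
      have h3 : 0 ≤ R * M ^ 2 := by positivity
      have h4 : 0 ≤ Real.exp x * M := by positivity
      rw [mul_assoc _ R]
      exact comb h3 h4 hsq2 hsp
    calc _ ≤ K₁ * Real.exp (ε * x / 2) * (C₁ * (K₃ * Real.exp (ε * x / 2))) *
          ((3 + Real.sqrt (Real.pi * C₁)) * (R * M ^ 2 + Real.exp x * M)) := by gcongr
      _ = K * (Real.exp (ε * x / 2) * Real.exp (ε * x / 2)) *
          (R * M ^ 2 + Real.exp x * M) := by rw [hK]; ring
      _ = _ := by
          rw [← Real.exp_add]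
          congr 3
          ring
  rw [hLM]
  have hVp : 0 < V ^ 2 := by positivity
  rw [← div_eq_mul_inv, le_div_iff₀ hVp]
  rcases hM0.eq_or_lt with h | hMp
  · rw [← h]
    simp only [zero_mul]
    positivity
  · have h1 : 2 * (K * Real.exp (ε * x) * R) ≤ V ^ 2 * Real.exp x := by
      refine le_trans ?_ hyp
      have h2 : (2 * K + 1) * Real.exp (ε * x) * Real.sqrt (Q * T) * Real.log (Q * (2 + T)) =
          2 * (K * Real.exp (ε * x) * R) + Real.exp (ε * x) * R := by rw [hR]; ring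
      rw [h2]
      have : 0 ≤ Real.exp (ε * x) * R := by positivity
      linarith
    have h6 := concl (Real.exp_pos x) hMp h1 hmain
    have h7 := Real.exp_pos (ε * x)
    linarith

theorem hmProp (h : CoProp) (hPV : HPP.PVProp) : HmProp := by
  intro b hb ε hε
  obtain ⟨C₂, hC₂, hco⟩ := h (ε / 4) (by positivity)
  obtain ⟨C, hC, hgen⟩ := hm_gen hPV hb hε hC₂
  refine ⟨C, hC, ?_⟩
  intro m j hj f v hf A t₀ T U hT hU hyp
  obtain ⟨h1, h2, h3⟩ := hco j hj f v hf A
  have hx : 0 ≤ sv v A := Finset.sum_nonneg fun i _ => Nat.cast_nonneg _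
  exact hgen m (PG f v A) (sv v A) hx h1 h2 (fun χ t => np f v A χ t)
    (fun χ t => h3 (b ^ m) χ t) t₀ T U hT hU hyp

end Pool.Agent.HPZ
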