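import Pool.Agent.HPZ.Iface
import Pool.Agent.HPP.VAux

/-!
# HPZ/VHux: Huxley subdivision (`HuxProp`)

Put `α = sv / log x`, `U = x^(-σ)`, `ε₁ = ε / 1000`. `HmProp` with `ε₁`: `exp (ε₁ sv) ≤ x^(240 ε₁)` (`v i ≤ 3 log x`,
`≤ 80` factors). Its hypothesis for an interval of length `T₀` holds if `b^m T₀ ≤ x^(2α - 4σ - ε / 2)`. `T₀ := min (3T)
(x^(2α - 4σ - ε/2) / b^m)`; `T₀ ≥ 1` as `b^(2m) ≤ b^m T ≤ x^(5/9)` and `2α - 4σ ≥ 5/18 + ε`. Cover `[-3T, 3T]` by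
`≤ 3 (3T / T₀)` intervals of length `T₀` (`HPP.LM_cover`): `LM ≤ C x^(240 ε₁) x^(2σ) * 3 (1 + 3T / T₀)`, and
`3 T / T₀ ≤ 1 + 3 b^m T x^(-2α + 4σ + ε/2) ≤ 1 + 3 x^(5/9 - 2α + 4σ + ε/2)`.
-/

namespace Pool.Agent.HPZ

open Complex MeasureTheory

theorem hux_sv_le {j : ℕ} (hj : j ≤ 80) (v : Fin j → ℕ) {L : ℝ} (hL : 0 ≤ L)
    (hv : ∀ i, (v i : ℝ) ≤ 3 * L) (A : Finset (Fin j)) : sv v A ≤ 240 * L := by
  unfold sv
  calc ∑ i ∈ A, (v i : ℝ) ≤ ∑ i ∈ A, 3 * L := Finset.sum_le_sum fun i _ => hv i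
    _ = A.card * (3 * L) := by rw [Finset.sum_const, nsmul_eq_mul]
    _ ≤ 80 * (3 * L) := by
      refine mul_le_mul_of_nonneg_right ?_ (by positivity)
      have h1 : A.card ≤ 80 := (Finset.card_le_univ A).trans (by simpa using hj)
      exact_mod_cast h1
    _ = _ := by ring

theorem hux_ev {C ε : ℝ} (hC : 1 ≤ C) (hε : 0 < ε) : ∃ x₀ : ℝ, ∀ x : ℝ, x₀ ≤ x →
    1 < x ∧ C * Real.log x ≤ x ^ (ε / 100) ∧ 12 * C ≤ x ^ (ε / 4) ∧
      Real.log 9 ≤ 4 / 9 * Real.log x := by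
  have h1 : ∀ᶠ x : ℝ in Filter.atTop, 1 < x := Filter.eventually_gt_atTop 1
  have h2 : ∀ᶠ x : ℝ in Filter.atTop, C * Real.log x ≤ x ^ (ε / 100) := by
    have h := (isLittleO_log_rpow_atTop (r := ε / 100) (by positivity)).bound
      (c := C⁻¹) (by positivity)
    filter_upwards [h, Filter.eventually_gt_atTop 1] with x hx hx1
    have hl : 0 ≤ Real.log x := Real.log_nonneg hx1.le
    have hp : 0 ≤ x ^ (ε / 100) := Real.rpow_nonneg (by linarith) _
    rw [Real.norm_of_nonneg hl, Real.norm_of_nonneg hp] at hx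
    calc C * Real.log x ≤ C * (C⁻¹ * x ^ (ε / 100)) :=
          mul_le_mul_of_nonneg_left hx (by linarith)
      _ = _ := by
        rw [← mul_assoc, mul_inv_cancel₀ (by linarith), one_mul]
  have h3 : ∀ᶠ x : ℝ in Filter.atTop, 12 * C ≤ x ^ (ε / 4) :=
    (tendsto_rpow_atTop (by positivity : 0 < ε / 4)).eventually_ge_atTop _
  have h4 : ∀ᶠ x : ℝ in Filter.atTop, Real.log 9 ≤ 4 / 9 * Real.log x := by
    filter_upwards [Real.tendsto_log_atTop.eventually_ge_atTop (9 / 4 * Real.log 9)] with x hx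
    linarith
  obtain ⟨x₀, hx₀⟩ := Filter.eventually_atTop.1 ((h1.and h2).and (h3.and h4))
  exact ⟨x₀, fun x hx => ⟨(hx₀ x hx).1.1, (hx₀ x hx).1.2, (hx₀ x hx).2.1, (hx₀ x hx).2.2⟩⟩

theorem huxProp (h : HmProp) : HuxProp := by
  intro b hb ε hε
  obtain ⟨C, hC1, hC⟩ := h b hb (ε / 1000) (by positivity)
  obtain ⟨x₀, hx₀⟩ := hux_ev hC1 hε
  refine ⟨x₀, fun x hx m T hbT hbT2 j hj f v hf hv A σ hσ0 hσ3 hmain => ?_⟩
  obtain ⟨hx1, he1, he2, he3⟩ := hx₀ x hx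
  have hx0 : 0 < x := by linarith
  have hL : 0 < Real.log x := Real.log_pos hx1
  set L : ℝ := Real.log x with hLd
  set α : ℝ := sv v A / L with hα
  have hsv : sv v A = α * L := by rw [hα, div_mul_cancel₀ _ hL.ne']
  have hexp : ∀ y : ℝ, Real.exp (y * L) = x ^ y := fun y => by
    rw [Real.rpow_def_of_pos hx0, hLd, mul_comm]
  have hsvx : Real.exp (sv v A) = x ^ α := by rw [hsv, hexp]
  have hsv240 : sv v A ≤ 240 * L := hux_sv_le hj v hL.le hv A
  have hepsv : Real.exp (ε / 1000 * sv v A) ≤ x ^ (24 / 100 * ε) := by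
    rw [← hexp]
    refine Real.exp_le_exp.2 ?_
    have := mul_le_mul_of_nonneg_left hsv240 (by positivity : 0 ≤ ε / 1000)
    nlinarith
  -- the modulus
  set q : ℝ := (b : ℝ) ^ m with hq
  have hb1 : (1 : ℝ) ≤ b := by exact_mod_cast (by omega : 1 ≤ b)
  have hq1 : 1 ≤ q := one_le_pow₀ hb1
  have hq0 : 0 < q := by linarith
  have hT1 : 1 ≤ T := hq1.trans hbT
  have hT0 : 0 < T := by linarith
  have hqx : q ≤ x ^ (5 / 18 : ℝ) := by
    have h1 : q * q ≤ x ^ (5 / 18 : ℝ) * x ^ (5 / 18 : ℝ) := by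
      rw [← Real.rpow_add hx0]
      norm_num
      exact (mul_le_mul_of_nonneg_left hbT hq0.le).trans hbT2
    exact (mul_self_le_mul_self_iff hq0.le (Real.rpow_nonneg hx0.le _)).2 h1
  set Y : ℝ := x ^ (2 * α - 4 * σ - ε / 2) with hY
  have hY0 : 0 < Y := Real.rpow_pos_of_pos hx0 _
  set T₀ : ℝ := min (3 * T) (Y / q) with hT₀
  have hT₀1 : 1 ≤ T₀ := by
    refine le_min (by linarith) ?_
    rw [le_div_iff₀ hq0, one_mul]
    refine hqx.trans ?_
    refine Real.rpow_le_rpow_of_exponent_le hx1.le ?_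
    linarith
  have hT₀0 : 0 < T₀ := by linarith
  have hT₀3 : T₀ ≤ 3 * T := min_le_left _ _
  have hqT₀ : q * T₀ ≤ Y := by
    have h1 : T₀ ≤ Y / q := min_le_right _ _
    rw [le_div_iff₀ hq0] at h1
    linarith
  -- the logarithm
  have hlog : Real.log (q * (2 + T₀)) ≤ L := by
    have h1 : q * (2 + T₀) ≤ 9 * x ^ (5 / 9 : ℝ) := by
      have h2 : q * T ≤ x ^ (5 / 9 : ℝ) := hbT2
      have h3 : 2 + T₀ ≤ 9 * T := by linarith
      nlinarith [mul_le_mul_of_nonneg_left h3 hq0.le]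
    have h2 : 0 < q * (2 + T₀) := by positivity
    calc Real.log (q * (2 + T₀)) ≤ Real.log (9 * x ^ (5 / 9 : ℝ)) := Real.log_le_log h2 h1
      _ = Real.log 9 + 5 / 9 * L := by
        rw [Real.log_mul (by norm_num) (Real.rpow_pos_of_pos hx0 _).ne', Real.log_rpow hx0]
      _ ≤ L := by linarith
  have hlog0 : 0 ≤ Real.log (q * (2 + T₀)) := Real.log_nonneg (by nlinarith)
  -- the hypothesis of `HmProp`
  have hsqrt : Real.sqrt (q * T₀) ≤ x ^ (α - 2 * σ - ε / 4) := by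
    rw [Real.sqrt_le_left (Real.rpow_nonneg hx0.le _), ← Real.rpow_natCast, ← Real.rpow_mul hx0.le]
    refine hqT₀.trans (le_of_eq ?_)
    rw [hY]
    congr 1
    push_cast
    ring
  have hhyp : C * Real.exp (ε / 1000 * sv v A) * Real.sqrt (q * T₀) * Real.log (q * (2 + T₀)) ≤
      (x ^ (-σ)) ^ 2 * Real.exp (sv v A) := by
    have hR : (x ^ (-σ)) ^ 2 * Real.exp (sv v A) = x ^ (α - 2 * σ) := by
      rw [hsvx, ← Real.rpow_natCast, ← Real.rpow_mul hx0.le, ← Real.rpow_add hx0]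
      congr 1
      push_cast
      ring
    rw [hR]
    calc C * Real.exp (ε / 1000 * sv v A) * Real.sqrt (q * T₀) * Real.log (q * (2 + T₀))
        ≤ C * x ^ (24 / 100 * ε) * x ^ (α - 2 * σ - ε / 4) * L := by
          gcongr
      _ = (C * L) * (x ^ (24 / 100 * ε) * x ^ (α - 2 * σ - ε / 4)) := by ring
      _ ≤ x ^ (ε / 100) * (x ^ (24 / 100 * ε) * x ^ (α - 2 * σ - ε / 4)) :=
          mul_le_mul_of_nonneg_right he1 (by positivity)
      _ = x ^ (α - 2 * σ) := by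
          rw [← Real.rpow_add hx0, ← Real.rpow_add hx0]
          congr 1
          ring
  -- the local bound
  set B : ℝ := C * x ^ (24 / 100 * ε) * x ^ (2 * σ) with hB
  have hB0 : 0 ≤ B := by positivity
  have hloc : ∀ t₀ : ℝ, HPP.LM (fun _ : DirichletCharacter ℂ (b ^ m) => Set.Icc t₀ (t₀ + T₀))
      (fun χ t => np f v A χ t) (x ^ (-σ)) ≤ B := by
    intro t₀
    refine (hC m j hj f v hf A t₀ T₀ (x ^ (-σ)) hT₀1 (Real.rpow_pos_of_pos hx0 _) hhyp).trans ?_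
    have hU : ((x ^ (-σ)) ^ 2)⁻¹ = x ^ (2 * σ) := by
      rw [← Real.rpow_natCast, ← Real.rpow_mul hx0.le, ← Real.rpow_neg hx0.le]
      congr 1
      push_cast
      ring
    rw [hU, hB]
    have hp : 0 ≤ x ^ (2 * σ) := Real.rpow_nonneg hx0.le _
    gcongr
  have hcov := HPP.LM_cover hT₀0 hT₀3 hloc
  refine hcov.trans ?_
  -- the final estimate
  set M : ℝ := max (x ^ (2 * σ)) (x ^ (5 / 9 - 2 * α + 6 * σ)) with hM
  have hratio : 3 * T / T₀ ≤ 1 + 3 * (q * T) / Y := by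
    rcases le_total (3 * T) (Y / q) with hc | hc
    · have h1 : T₀ = 3 * T := min_eq_left hc
      rw [h1, div_self (by positivity)]
      have : 0 ≤ 3 * (q * T) / Y := by positivity
      linarith
    · have h1 : T₀ = Y / q := min_eq_right hc
      rw [h1]
      have h2 : 3 * T / (Y / q) = 3 * (q * T) / Y := by
        field_simp
      rw [h2]
      linarith
  have hratio2 : 3 * (q * T) / Y ≤ 3 * x ^ (5 / 9 - 2 * α + 4 * σ + ε / 2) := by
    have h1 : x ^ (5 / 9 - 2 * α + 4 * σ + ε / 2) = x ^ (5 / 9 : ℝ) / Y := by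
      rw [hY, ← Real.rpow_sub hx0]
      congr 1
      ring
    rw [h1, ← mul_div_assoc]
    gcongr
  have hsum : 3 * (3 * T / T₀) * B ≤ 12 * C * x ^ (74 / 100 * ε) * M := by
    have h1 : 3 * (3 * T / T₀) * B ≤ 3 * (1 + 3 * x ^ (5 / 9 - 2 * α + 4 * σ + ε / 2)) * B := by
      gcongr
      linarith
    refine h1.trans ?_
    have h2 : x ^ (24 / 100 * ε) * x ^ (2 * σ) ≤ x ^ (74 / 100 * ε) * M := by
      have : x ^ (24 / 100 * ε) ≤ x ^ (74 / 100 * ε) :=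
        Real.rpow_le_rpow_of_exponent_le hx1.le (by nlinarith)
      exact mul_le_mul this (le_max_left _ _) (Real.rpow_nonneg hx0.le _)
        (Real.rpow_nonneg hx0.le _)
    have h3 : x ^ (5 / 9 - 2 * α + 4 * σ + ε / 2) * (x ^ (24 / 100 * ε) * x ^ (2 * σ)) ≤
        x ^ (74 / 100 * ε) * M := by
      have h4 : x ^ (5 / 9 - 2 * α + 4 * σ + ε / 2) * (x ^ (24 / 100 * ε) * x ^ (2 * σ)) =
          x ^ (74 / 100 * ε) * x ^ (5 / 9 - 2 * α + 6 * σ) := by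
        rw [← Real.rpow_add hx0, ← Real.rpow_add hx0, ← Real.rpow_add hx0]
        congr 1
        ring
      rw [h4]
      exact mul_le_mul_of_nonneg_left (le_max_right _ _) (Real.rpow_nonneg hx0.le _)
    have hC0 : 0 ≤ C := by linarith
    calc 3 * (1 + 3 * x ^ (5 / 9 - 2 * α + 4 * σ + ε / 2)) * B
        = 3 * C * (x ^ (24 / 100 * ε) * x ^ (2 * σ)) +
          9 * C * (x ^ (5 / 9 - 2 * α + 4 * σ + ε / 2) *
            (x ^ (24 / 100 * ε) * x ^ (2 * σ))) := by rw [hB]; ring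
      _ ≤ 3 * C * (x ^ (74 / 100 * ε) * M) + 9 * C * (x ^ (74 / 100 * ε) * M) := by
          gcongr
      _ = 12 * C * x ^ (74 / 100 * ε) * M := by ring
  refine hsum.trans ?_
  have hM0 : 0 ≤ M := (Real.rpow_nonneg hx0.le _).trans (le_max_left _ _)
  refine mul_le_mul_of_nonneg_right ?_ hM0
  calc 12 * C * x ^ (74 / 100 * ε) ≤ x ^ (ε / 4) * x ^ (74 / 100 * ε) :=
        mul_le_mul_of_nonneg_right he2 (Real.rpow_nonneg hx0.le _)
    _ = x ^ (ε / 4 + 74 / 100 * ε) := by rw [Real.rpow_add hx0]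
    _ ≤ x ^ ε := Real.rpow_le_rpow_of_exponent_le hx1.le (by linarith)

end Pool.Agent.HPZ
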