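import Pool.Agent.HPZ.Iface

/-!
# HPZ/VLay: decomposition into level classes (`LayProp`)

Split `E χ` by the levels: for `t` with all `P i χ t > B exp (-K-1)` let `k i = ⌊log (B / P i χ t)⌋ ≤ K`
(`B exp (-k-1) < P ≤ B exp (-k)`); on the class of `k` one has `∏ P i ≤ B^n exp (-∑ k i)`, so the class contributes
`≤ B^n exp (-∑ k) W exp (∑ k) = B^n W`; there are `(K+1)^n` classes (`Fintype.piFinset fun _ => Finset.range (K+1)`).
If some `P i ≤ B exp (-K-1)` the product is `≤ B^n exp (-K-1)`, `c ≤ s`, measure `≤ 2 T card X`.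
-/

namespace Pool.Agent.HPZ

open Complex MeasureTheory

/-- pointwise form of the decomposition -/
theorem lay_pt {n : ℕ} (K : ℕ) (P : Fin n → ℝ) (c B s : ℝ) (hB : 1 ≤ B) (hc : 0 ≤ c) (hcs : c ≤ s)
    (hP : ∀ i, 0 ≤ P i ∧ P i ≤ B) :
    c * ∏ i, P i ≤ (∑ k ∈ Fintype.piFinset fun _ : Fin n => Finset.range (K + 1),
      (B ^ n * Real.exp (-∑ i, (k i : ℝ))) *
      (open Classical in if (∀ i, B * Real.exp (-(k i : ℝ) - 1) < P i ∧
        P i ≤ B * Real.exp (-(k i : ℝ))) then c else 0)) +
      s * B ^ n * Real.exp (-K) := by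
  classical
  have hB0 : 0 < B := lt_of_lt_of_le one_pos hB
  have hs : 0 ≤ s := le_trans hc hcs
  have hsum : ∀ S : Finset (Fin n → ℕ), 0 ≤ ∑ k ∈ S,
      (B ^ n * Real.exp (-∑ i, (k i : ℝ))) * (if (∀ i, B * Real.exp (-(k i : ℝ) - 1) < P i ∧
        P i ≤ B * Real.exp (-(k i : ℝ))) then c else 0) := by
    intro S
    refine Finset.sum_nonneg fun k _ => ?_
    refine mul_nonneg (by positivity) ?_
    split_ifs
    · exact hc
    · exact le_refl 0
  by_cases h : ∀ i, B * Real.exp (-(K : ℝ) - 1) < P i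
  · -- main case
    have hPp : ∀ i, 0 < P i := fun i => lt_trans (by positivity) (h i)
    let k : Fin n → ℕ := fun i => ⌊Real.log (B / P i)⌋₊
    have hlog0 : ∀ i, 0 ≤ Real.log (B / P i) := fun i =>
      Real.log_nonneg ((one_le_div (hPp i)).2 (hP i).2)
    have hPe : ∀ i, P i = B * Real.exp (-Real.log (B / P i)) := by
      intro i
      rw [Real.exp_neg, Real.exp_log (div_pos hB0 (hPp i))]
      have := (hPp i).ne'
      field_simp
    have hk1 : ∀ i, (k i : ℝ) ≤ Real.log (B / P i) := fun i => Nat.floor_le (hlog0 i)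
    have hk2 : ∀ i, Real.log (B / P i) < (k i : ℝ) + 1 := fun i => Nat.lt_floor_add_one _
    have hcl : ∀ i, B * Real.exp (-(k i : ℝ) - 1) < P i ∧ P i ≤ B * Real.exp (-(k i : ℝ)) := by
      intro i
      constructor
      · rw [hPe i]
        refine mul_lt_mul_of_pos_left (Real.exp_lt_exp.2 ?_) hB0
        have := hk2 i
        linarith
      · rw [hPe i]
        refine mul_le_mul_of_nonneg_left (Real.exp_le_exp.2 ?_) hB0.le
        have := hk1 i
        linarith
    have hkK : ∀ i, k i ≤ K := by
      intro i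
      have h1 : Real.log (B / P i) < (K : ℝ) + 1 := by
        have h2 := h i
        rw [hPe i] at h2
        have h3 := Real.exp_lt_exp.1 (lt_of_mul_lt_mul_left h2 hB0.le)
        linarith
      have h2 : (k i : ℝ) < (K : ℝ) + 1 := lt_of_le_of_lt (hk1 i) h1
      have h3 : k i < K + 1 := by exact_mod_cast h2
      omega
    have hmem : k ∈ Fintype.piFinset fun _ : Fin n => Finset.range (K + 1) := by
      rw [Fintype.mem_piFinset]
      intro i
      rw [Finset.mem_range]
      have := hkK i
      omega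
    have hone : c * ∏ i, P i ≤ (B ^ n * Real.exp (-∑ i, (k i : ℝ))) *
        (if (∀ i, B * Real.exp (-(k i : ℝ) - 1) < P i ∧
        P i ≤ B * Real.exp (-(k i : ℝ))) then c else 0) := by
      rw [if_pos hcl]
      have h1 : ∏ i, P i ≤ ∏ i : Fin n, (B * Real.exp (-(k i : ℝ))) :=
        Finset.prod_le_prod (fun i _ => (hP i).1) (fun i _ => (hcl i).2)
      have h2 : ∏ i : Fin n, (B * Real.exp (-(k i : ℝ))) = B ^ n * Real.exp (-∑ i, (k i : ℝ)) := by
        rw [Finset.prod_mul_distrib, Finset.prod_const, Finset.card_univ, Fintype.card_fin,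
          ← Finset.sum_neg_distrib, Real.exp_sum]
      rw [h2] at h1
      calc c * ∏ i, P i ≤ c * (B ^ n * Real.exp (-∑ i, (k i : ℝ))) := mul_le_mul_of_nonneg_left h1 hc
        _ = _ := by ring
    refine le_trans hone (le_trans ?_ (le_add_of_nonneg_right (by positivity)))
    refine Finset.single_le_sum (f := fun k : Fin n → ℕ => (B ^ n * Real.exp (-∑ i, (k i : ℝ))) *
        (if (∀ i, B * Real.exp (-(k i : ℝ) - 1) < P i ∧
        P i ≤ B * Real.exp (-(k i : ℝ))) then c else 0)) (fun k _ => ?_) hmem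
    refine mul_nonneg (by positivity) ?_
    split_ifs
    · exact hc
    · exact le_refl 0
  · -- small factor
    push Not at h
    obtain ⟨i₀, hi₀⟩ := h
    have h1 : ∏ i, P i ≤ B ^ n * Real.exp (-K) := by
      rw [← Finset.mul_prod_erase Finset.univ P (Finset.mem_univ i₀)]
      have h2 : ∏ i ∈ Finset.univ.erase i₀, P i ≤ ∏ i ∈ Finset.univ.erase i₀, B :=
        Finset.prod_le_prod (fun i _ => (hP i).1) (fun i _ => (hP i).2)
      rw [Finset.prod_const, Finset.card_erase_of_mem (Finset.mem_univ i₀), Finset.card_univ,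
        Fintype.card_fin] at h2
      have hn : 0 < n := lt_of_le_of_lt (Nat.zero_le _) i₀.2
      have h3 : P i₀ ≤ B * Real.exp (-K) := by
        refine le_trans hi₀ (mul_le_mul_of_nonneg_left (Real.exp_le_exp.2 (by linarith)) hB0.le)
      calc P i₀ * ∏ i ∈ Finset.univ.erase i₀, P i ≤ (B * Real.exp (-K)) * B ^ (n - 1) := by
            refine mul_le_mul h3 h2 (Finset.prod_nonneg fun i _ => (hP i).1) (by positivity)
        _ = B ^ (n - 1 + 1) * Real.exp (-K) := by rw [pow_succ]; ring
        _ = B ^ n * Real.exp (-K) := by rw [Nat.sub_add_cancel hn]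
    have h4 : c * ∏ i, P i ≤ s * B ^ n * Real.exp (-K) := by
      calc c * ∏ i, P i ≤ s * (B ^ n * Real.exp (-K)) :=
            mul_le_mul hcs h1 (Finset.prod_nonneg fun i _ => (hP i).1) hs
        _ = _ := by ring
    exact le_trans h4 (le_add_of_nonneg_left (hsum _))

theorem layProp : LayProp := by
  classical
  intro X _ E T n K P c B s W hE hET hPc hcc hT hB hcs hP hW
  have hB0 : 0 < B := lt_of_lt_of_le one_pos hB
  let Cl : (Fin n → ℕ) → X → Set ℝ := fun k χ => {t | ∀ i, B * Real.exp (-(k i : ℝ) - 1) < P i χ t ∧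
    P i χ t ≤ B * Real.exp (-(k i : ℝ))}
  have hClm : ∀ k χ, MeasurableSet (Cl k χ) := by
    intro k χ
    have : Cl k χ = ⋂ i, ({t | B * Real.exp (-(k i : ℝ) - 1) < P i χ t} ∩
      {t | P i χ t ≤ B * Real.exp (-(k i : ℝ))}) := by
      ext t
      simp [Cl, Set.mem_iInter]
    rw [this]
    refine MeasurableSet.iInter fun i => ?_
    exact (measurableSet_lt measurable_const (hPc i χ).measurable).inter
      (measurableSet_le (hPc i χ).measurable measurable_const)
  have hfin : ∀ χ, volume (E χ) ≠ ⊤ := by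
    intro χ
    refine ne_top_of_le_ne_top ?_ (measure_mono (hET χ))
    rw [Real.volume_Icc]
    exact ENNReal.ofReal_ne_top
  have hvol : ∀ χ, volume.real (E χ) ≤ 2 * T := by
    intro χ
    have h1 : volume.real (E χ) ≤ volume.real (Set.Icc (-T) T) := by
      refine measureReal_mono (hET χ) ?_
      rw [Real.volume_Icc]
      exact ENNReal.ofReal_ne_top
    rw [Real.volume_real_Icc_of_le (by linarith)] at h1
    linarith
  have hci : ∀ χ, IntegrableOn (c χ) (E χ) := fun χ =>
    ((hcc χ).integrableOn_Icc (a := -T) (b := T)).mono_set (hET χ)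
  have hprod : ∀ χ, IntegrableOn (fun t => c χ t * ∏ i, P i χ t) (E χ) := by
    intro χ
    have hcont : Continuous (fun t => c χ t * ∏ i, P i χ t) :=
      (hcc χ).mul (continuous_finsetProd _ fun i _ => hPc i χ)
    exact (hcont.integrableOn_Icc (a := -T) (b := T)).mono_set (hET χ)
  have key : ∀ χ, ∫ t in E χ, c χ t * ∏ i, P i χ t ≤
      (∑ k ∈ Fintype.piFinset fun _ : Fin n => Finset.range (K + 1),
        (B ^ n * Real.exp (-∑ i, (k i : ℝ))) * ∫ t in E χ ∩ Cl k χ, c χ t) +
      volume.real (E χ) * (s * B ^ n * Real.exp (-K)) := by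
    intro χ
    have hint : ∀ k : Fin n → ℕ, IntegrableOn (fun t => (B ^ n * Real.exp (-∑ i, (k i : ℝ))) *
        (Cl k χ).indicator (c χ) t) (E χ) := by
      intro k
      exact ((hci χ).indicator (hClm k χ)).const_mul _
    have hconst : IntegrableOn (fun _ : ℝ => s * B ^ n * Real.exp (-K)) (E χ) :=
      integrableOn_const (hfin χ)
    have h1 : ∫ t in E χ, c χ t * ∏ i, P i χ t ≤ ∫ t in E χ,
        ((∑ k ∈ Fintype.piFinset fun _ : Fin n => Finset.range (K + 1),
          (B ^ n * Real.exp (-∑ i, (k i : ℝ))) * (Cl k χ).indicator (c χ) t) +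
          s * B ^ n * Real.exp (-K)) := by
      refine setIntegral_mono (hprod χ) ?_ ?_
      · exact (integrable_finsetSum _ fun k _ => hint k).add hconst
      · intro t
        have h2 := lay_pt K (fun i => P i χ t) (c χ t) B s hB (hcs χ t).1 (hcs χ t).2
          (fun i => hP i χ t)
        refine le_trans h2 (le_of_eq ?_)
        congr 1
        refine Finset.sum_congr rfl fun k _ => ?_
        congr 1
        by_cases ht : t ∈ Cl k χ
        · rw [Set.indicator_of_mem ht]
          exact if_pos ht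
        · rw [Set.indicator_of_notMem ht]
          exact if_neg ht
    refine le_trans h1 (le_of_eq ?_)
    rw [integral_add (integrable_finsetSum _ fun k _ => hint k) hconst,
      integral_finsetSum _ fun k _ => hint k, setIntegral_const, smul_eq_mul]
    congr 1
    refine Finset.sum_congr rfl fun k _ => ?_
    rw [integral_const_mul, setIntegral_indicator (hClm k χ)]
  have hsX : ∀ χ : X, 0 ≤ s := fun χ => le_trans (hcs χ 0).1 (hcs χ 0).2
  calc ∑ χ, ∫ t in E χ, c χ t * ∏ i, P i χ t ≤ ∑ χ,
      ((∑ k ∈ Fintype.piFinset fun _ : Fin n => Finset.range (K + 1),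
        (B ^ n * Real.exp (-∑ i, (k i : ℝ))) * ∫ t in E χ ∩ Cl k χ, c χ t) +
      (2 * T) * (s * B ^ n * Real.exp (-K))) := by
        refine Finset.sum_le_sum fun χ _ => ?_
        refine le_trans (key χ) ?_
        have := hsX χ
        have := hvol χ
        gcongr
    _ = (∑ k ∈ Fintype.piFinset fun _ : Fin n => Finset.range (K + 1),
        (B ^ n * Real.exp (-∑ i, (k i : ℝ))) * ∑ χ, ∫ t in E χ ∩ Cl k χ, c χ t) +
        s * (Fintype.card X * (2 * T)) * B ^ n * Real.exp (-K) := by
        rw [Finset.sum_add_distrib, Finset.sum_comm, Finset.sum_const, Finset.card_univ, nsmul_eq_mul]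
        congr 1
        · refine Finset.sum_congr rfl fun k _ => ?_
          rw [Finset.mul_sum]
        · ring
    _ ≤ (∑ k ∈ Fintype.piFinset fun _ : Fin n => Finset.range (K + 1), B ^ n * W) +
        s * (Fintype.card X * (2 * T)) * B ^ n * Real.exp (-K) := by
        refine add_le_add_left ?_ _
        refine Finset.sum_le_sum fun k hk => ?_
        have hk' : ∀ i, k i ≤ K := by
          intro i
          have := Fintype.mem_piFinset.1 hk i
          rw [Finset.mem_range] at this
          omega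
        have h1 := hW k hk'
        calc (B ^ n * Real.exp (-∑ i, (k i : ℝ))) * ∑ χ, ∫ t in E χ ∩ Cl k χ, c χ t ≤
            (B ^ n * Real.exp (-∑ i, (k i : ℝ))) * (W * Real.exp (∑ i, (k i : ℝ))) :=
              mul_le_mul_of_nonneg_left h1 (by positivity)
          _ = B ^ n * W * (Real.exp (-∑ i, (k i : ℝ)) * Real.exp (∑ i, (k i : ℝ))) := by ring
          _ = B ^ n * W := by rw [← Real.exp_add, neg_add_cancel, Real.exp_zero, mul_one]
    _ = (K + 1) ^ n * B ^ n * W + s * (Fintype.card X * (2 * T)) * B ^ n * Real.exp (-K) := by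
        rw [Finset.sum_const, Fintype.card_piFinset]
        simp [Finset.prod_const, nsmul_eq_mul]
        ring

end Pool.Agent.HPZ
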