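import Pool.Agent.HPZ.Iface
import Pool.Agent.HPP.VMean
import Pool.Agent.HPP.VHBa

/-!
# HPZ/VMv: mean value theorem for products (`MvProp`), as `HPP/VLMv`

`np² = exp (-2 sv) ‖DP (PG f v A)‖²`, `HPP.mv` (sum over the support: `n ≤ exp (sv + 80)`, `‖c n‖ ≤ C exp (ε sv)`):
`≤ C exp (-2 sv) C² exp (2 ε sv) exp (sv + 80) (Q T + exp (sv + 80))`. Use `CoProp` with `ε / 2`. The interval
`t₀ ± T` is that of `HPP.mv`. Finite support: `HPP.fin_mul`, `HPP.pc_fin`, or from the support bound.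
-/

namespace Pool.Agent.HPZ

open Complex MeasureTheory

theorem mvProp (h : CoProp) : MvProp := by
  intro ε hε
  obtain ⟨C₁, hC₁, h1⟩ := HPP.mv
  obtain ⟨C₂, hC₂, h2⟩ := h (ε / 2) (half_pos hε)
  refine ⟨C₁ * C₂ ^ 2 * Real.exp 160, ?_, ?_⟩
  · have e1 : (1 : ℝ) ≤ C₂ ^ 2 := one_le_pow₀ hC₂
    have e2 : (1 : ℝ) ≤ Real.exp 160 := Real.one_le_exp (by norm_num)
    exact one_le_mul_of_one_le_of_one_le (one_le_mul_of_one_le_of_one_le hC₁ e1) e2
  intro Q hQ j hj f v hf A t₀ T hT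
  obtain ⟨hb, hs0, hnp⟩ := h2 j hj f v hf A
  set σ : ℝ := sv v A with hσ
  set s : Finset ℕ := Finset.Icc 1 ⌊Real.exp (σ + 80)⌋₊ with hs
  set c : ℕ → ℂ := fun n => ((PG f v A n : ℝ) : ℂ) with hc
  have hsupp : ∀ n, PG f v A n ≠ 0 → n ∈ s := by
    intro n hn
    obtain ⟨a1, a2⟩ := hs0 n hn
    rw [hs, Finset.mem_Icc]
    refine ⟨a1, Nat.le_floor ?_⟩
    have hn0 : (0 : ℝ) < n := by exact_mod_cast a1
    rw [← Real.log_le_iff_le_exp hn0]
    have := (abs_le.1 a2).2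
    linarith
  have hs1 : ∀ n ∈ s, 1 ≤ n := fun n hn => (Finset.mem_Icc.1 hn).1
  have hfe : ∀ (χ : DirichletCharacter ℂ Q) (t : ℝ), np f v A χ t ^ 2 = Real.exp (-(2 * σ)) *
      ‖∑ n ∈ s, c n * χ (n : ZMod Q) * (n : ℂ) ^ (t * I)‖ ^ 2 := by
    intro χ t
    rw [hnp Q χ t, HPP.dp_eq_sum s hsupp, mul_pow, ← Real.exp_nat_mul]
    congr 2
    push_cast
    ring
  have hmv := h1 Q hQ s c t₀ T hT hs1
  have hcard : (s.card : ℝ) ≤ Real.exp (σ + 80) := by
    rw [hs, Nat.card_Icc, Nat.add_sub_cancel]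
    exact Nat.floor_le (Real.exp_pos _).le
  have hTQ : (0 : ℝ) ≤ Q * T := by positivity
  have hsum : ∑ n ∈ s, ‖c n‖ ^ 2 * (Q * T + n) ≤
      Real.exp (σ + 80) * ((C₂ * Real.exp (ε / 2 * σ)) ^ 2 *
        (Q * T + Real.exp (σ + 80))) := by
    have h3 : ∀ n ∈ s, ‖c n‖ ^ 2 * (Q * T + n) ≤ (C₂ * Real.exp (ε / 2 * σ)) ^ 2 *
        (Q * T + Real.exp (σ + 80)) := by
      intro n hn
      have e1 : ‖c n‖ ≤ C₂ * Real.exp (ε / 2 * σ) := by
        rw [hc]
        simp only [Complex.norm_real, Real.norm_eq_abs]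
        exact hb n
      have e2 : (n : ℝ) ≤ Real.exp (σ + 80) := by
        have := (Finset.mem_Icc.1 hn).2
        exact le_trans (by exact_mod_cast this) (Nat.floor_le (Real.exp_pos _).le)
      have e3 := pow_le_pow_left₀ (norm_nonneg _) e1 2
      exact mul_le_mul e3 (by linarith) (by positivity) (by positivity)
    have h4 := Finset.sum_le_card_nsmul s _ _ h3
    rw [nsmul_eq_mul] at h4
    exact h4.trans (mul_le_mul_of_nonneg_right hcard (by positivity))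
  have hL : ∑ χ : DirichletCharacter ℂ Q, ∫ t in (t₀ - T)..(t₀ + T), np f v A χ t ^ 2
      ≤ Real.exp (-(2 * σ)) * (C₁ * (Real.exp (σ + 80) *
        ((C₂ * Real.exp (ε / 2 * σ)) ^ 2 * (Q * T + Real.exp (σ + 80))))) := by
    have e1 : ∑ χ : DirichletCharacter ℂ Q, ∫ t in (t₀ - T)..(t₀ + T), np f v A χ t ^ 2
        = Real.exp (-(2 * σ)) * ∑ χ : DirichletCharacter ℂ Q, ∫ t in (t₀ - T)..(t₀ + T),
          ‖∑ n ∈ s, c n * χ (n : ZMod Q) * (n : ℂ) ^ (t * I)‖ ^ 2 := by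
      rw [Finset.mul_sum]
      refine Finset.sum_congr rfl fun χ _ => ?_
      rw [← intervalIntegral.integral_const_mul]
      exact intervalIntegral.integral_congr fun t _ => hfe χ t
    rw [e1]
    refine mul_le_mul_of_nonneg_left (hmv.trans ?_) (Real.exp_pos _).le
    exact mul_le_mul_of_nonneg_left hsum (by linarith)
  refine hL.trans ?_
  have a1 : Real.exp (-(2 * σ)) * Real.exp (σ + 80) * Real.exp (σ + 80) = Real.exp 160 := by
    rw [← Real.exp_add, ← Real.exp_add]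
    congr 1
    ring
  have a2 : Real.exp (-(2 * σ)) * Real.exp (σ + 80) = Real.exp (-σ) * Real.exp 80 := by
    rw [← Real.exp_add, ← Real.exp_add]
    congr 1
    ring
  have a3 : Real.exp (80 : ℝ) ≤ Real.exp 160 := Real.exp_le_exp.2 (by norm_num)
  have a4 : Real.exp (ε / 2 * σ) ^ 2 = Real.exp (ε * σ) := by
    rw [← Real.exp_nat_mul]
    congr 1
    push_cast
    ring
  have hpos : 0 ≤ C₁ * C₂ ^ 2 * Real.exp (ε * σ) := by positivity
  calc _ = C₁ * C₂ ^ 2 * Real.exp (ε / 2 * σ) ^ 2 * (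
          (Real.exp (-(2 * σ)) * Real.exp (σ + 80) * Real.exp (σ + 80)) +
          Q * T * (Real.exp (-(2 * σ)) * Real.exp (σ + 80))) := by ring
    _ = C₁ * C₂ ^ 2 * Real.exp (ε * σ) * (Real.exp 160 +
          Q * T * (Real.exp (-σ) * Real.exp 80)) := by rw [a1, a2, a4]
    _ ≤ C₁ * C₂ ^ 2 * Real.exp (ε * σ) * (Real.exp 160 +
          Q * T * (Real.exp (-σ) * Real.exp 160)) := by
        refine mul_le_mul_of_nonneg_left ?_ hpos
        have := mul_le_mul_of_nonneg_left a3 (Real.exp_pos (-σ)).le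
        have := mul_le_mul_of_nonneg_left this hTQ
        linarith
    _ = _ := by ring

end Pool.Agent.HPZ
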