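import Pool.Agent.HPZ.Iface
import Pool.Agent.HPZ.APP
import Pool.Agent.HPP.VHB
import Pool.Agent.HPP.VAux

/-!
# HPZ/VPri: the prime polynomial (`PrimeProp`), as the end of `HPP/VFin` (or `HPX/QFin`)

`HPP.hb` with `e = min (ε / 8) δ` (`δ ≤ 1/1000` from `VecProp`): `‖PP χ t x‖ ≤ x^(1+2e) ∑_j ∑_(v ∈ VV e x j) ∫ gk ξ ∏ nt (t+ξ) dξ
+ x^(-5)`; `VV e x j ⊆ VV δ x j`. Multiply by `‖cc‖`, integrate over `Es`, exchange the integrals (everything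
continuous and bounded: `nt ≤ 3 (v+2) ≤ (log x)²`, `Es ⊆ [-T, T]`). `|ξ| ≤ log x`: `VecProp` with `ε / 8` and `∫ gk = 1`.
`|ξ| > log x`: `∏ nt ≤ (log x)^160`, `∫_(|ξ| > log x) gk ≤ 2 exp (-(log x)²/8)`, `∑_χ ∫_Es ‖cc‖ ≤ #RR b^m 2T ≤ 2 #RR x^(5/9)`.
Number of `(j, v)`: `≤ 40 (2 log x + 3)^80 ≤ x^(ε/8)`.
-/

namespace Pool.Agent.HPZ

open Complex MeasureTheory

private theorem gk_cont44 : Continuous HPP.gk := by
  unfold HPP.gk
  fun_prop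

private theorem gk_tail44 {X : ℝ} (hX : 0 ≤ X) :
    ∫ ξ in {ξ : ℝ | X < |ξ|}, HPP.gk ξ ≤ 2 * Real.exp (-X ^ 2 / 8) := by
  have hms : MeasurableSet {ξ : ℝ | X < |ξ|} := measurableSet_lt measurable_const (by fun_prop)
  have hg : Integrable fun x : ℝ => Real.exp (-(1/8) * x ^ 2) := integrable_exp_neg_mul_sq (by norm_num)
  have hpi : 0 < Real.sqrt Real.pi := Real.sqrt_pos.2 Real.pi_pos
  have h1 : ∫ ξ in {ξ : ℝ | X < |ξ|}, HPP.gk ξ ≤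
      ∫ ξ in {ξ : ℝ | X < |ξ|}, Real.exp (-X ^ 2 / 8) * (Real.exp (-(1/8) * ξ ^ 2) / (2 * Real.sqrt Real.pi)) := by
    refine setIntegral_mono_on HPP.hb_gk_integrable.integrableOn
      ((hg.div_const _).const_mul _).integrableOn hms fun ξ hξ => ?_
    unfold HPP.gk
    rw [← mul_div_assoc, ← Real.exp_add]
    have h2 : X ^ 2 ≤ ξ ^ 2 := by
      have : X ^ 2 ≤ |ξ| ^ 2 := pow_le_pow_left₀ hX (le_of_lt hξ) 2
      rwa [sq_abs] at this
    gcongr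
    linarith
  refine h1.trans ?_
  have h2 : ∫ ξ in {ξ : ℝ | X < |ξ|}, Real.exp (-X ^ 2 / 8) * (Real.exp (-(1/8) * ξ ^ 2) / (2 * Real.sqrt Real.pi)) ≤
      ∫ ξ, Real.exp (-X ^ 2 / 8) * (Real.exp (-(1/8) * ξ ^ 2) / (2 * Real.sqrt Real.pi)) :=
    setIntegral_le_integral ((hg.div_const _).const_mul _)
      (Filter.Eventually.of_forall fun ξ => by positivity)
  refine h2.trans ?_
  rw [integral_const_mul, integral_div, integral_gaussian]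
  have h3 : Real.sqrt (Real.pi / (1 / 8)) = Real.sqrt 8 * Real.sqrt Real.pi := by
    rw [← Real.sqrt_mul (by norm_num)]
    congr 1
    ring
  have h4 : Real.sqrt 8 ≤ 4 := by
    rw [Real.sqrt_le_left (by norm_num)]
    norm_num
  rw [h3]
  have h5 : Real.sqrt 8 * Real.sqrt Real.pi / (2 * Real.sqrt Real.pi) = Real.sqrt 8 / 2 := by
    field_simp
  rw [h5]
  have h6 := Real.exp_pos (-X ^ 2 / 8)
  nlinarith

private theorem polylog44 (A B : ℝ) (k : ℕ) {δ : ℝ} (hδ : 0 < δ) (hA : 0 ≤ A) (hB : 0 ≤ B) :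
    ∀ᶠ x : ℝ in Filter.atTop, (A * Real.log x + B) ^ k ≤ x ^ δ := by
  have hk : (0 : ℝ) < k + 1 := by positivity
  have hr : 0 < δ / (k + 1) := div_pos hδ hk
  have h1 := (isLittleO_log_rpow_atTop hr).bound (show (0 : ℝ) < 1 / (2 * (A + 1)) by positivity)
  have h2 : ∀ᶠ x : ℝ in Filter.atTop, 2 * B + 1 ≤ x ^ (δ / (k + 1)) :=
    (tendsto_rpow_atTop hr).eventually_ge_atTop _
  filter_upwards [h1, h2, Filter.eventually_ge_atTop (1 : ℝ)] with x h1 h2 h3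
  have hx0 : 0 < x := by linarith
  have hl : 0 ≤ Real.log x := Real.log_nonneg h3
  rw [Real.norm_eq_abs, Real.norm_eq_abs, abs_of_nonneg hl,
    abs_of_nonneg (Real.rpow_nonneg hx0.le _)] at h1
  set y := x ^ (δ / (k + 1)) with hy
  have hy1 : 1 ≤ y := by linarith
  have h4 : A * Real.log x + B ≤ y := by
    have h5 : A * Real.log x ≤ y / 2 := by
      calc A * Real.log x ≤ A * (1 / (2 * (A + 1)) * y) := mul_le_mul_of_nonneg_left h1 hA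
        _ = (A / (A + 1)) * (y / 2) := by field_simp
        _ ≤ 1 * (y / 2) := by
            refine mul_le_mul_of_nonneg_right ?_ (by linarith)
            rw [div_le_one (by linarith)]
            linarith
        _ = y / 2 := one_mul _
    linarith
  have h6 : 0 ≤ A * Real.log x + B := by positivity
  calc (A * Real.log x + B) ^ k ≤ y ^ k := pow_le_pow_left₀ h6 h4 k
    _ ≤ y ^ (k + 1) := pow_le_pow_right₀ hy1 (Nat.le_succ k)
    _ = x ^ δ := by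
        rw [hy, ← Real.rpow_natCast, ← Real.rpow_mul hx0.le]
        congr 1
        push_cast
        field_simp

private theorem fub44 {G : Set ℝ} {c P : ℝ → ℝ} {M₁ M T : ℝ}
    (hGT : G ⊆ Set.Icc (-T) T) (hc : Continuous c) (hc0 : ∀ t, 0 ≤ c t) (hcM : ∀ t, c t ≤ M₁)
    (hP : Continuous P) (hP0 : ∀ t, 0 ≤ P t) (hPM : ∀ t, P t ≤ M) :
    (Integrable (fun ξ => HPP.gk ξ * ∫ t in G, c t * P (t + ξ)) ∧
    IntegrableOn (fun t => c t * ∫ ξ, HPP.gk ξ * P (t + ξ)) G) ∧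
    ∫ t in G, c t * ∫ ξ, HPP.gk ξ * P (t + ξ) = ∫ ξ, HPP.gk ξ * ∫ t in G, c t * P (t + ξ) := by
  have hGfin : volume G < ⊤ := lt_of_le_of_lt (measure_mono hGT) (by simp)
  have : IsFiniteMeasure (volume.restrict G) := ⟨by simpa using hGfin⟩
  have hM1 : 0 ≤ M₁ := (hc0 0).trans (hcM 0)
  have hM : 0 ≤ M := (hP0 0).trans (hPM 0)
  have hint : Integrable (fun z : ℝ × ℝ => HPP.gk z.2 * (c z.1 * P (z.1 + z.2)))
      ((volume.restrict G).prod volume) := by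
    have h1 : Integrable (fun z : ℝ × ℝ => (M₁ * M) * HPP.gk z.2)
        ((volume.restrict G).prod volume) := by
      have := Integrable.mul_prod (μ := volume.restrict G) (ν := volume) (f := fun _ : ℝ => M₁ * M)
        (g := HPP.gk) (integrable_const (M₁ * M)) HPP.hb_gk_integrable
      exact this
    have hcont : Continuous (fun z : ℝ × ℝ => HPP.gk z.2 * (c z.1 * P (z.1 + z.2))) :=
      (gk_cont44.comp continuous_snd).mul ((hc.comp continuous_fst).mul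
        (hP.comp (continuous_fst.add continuous_snd)))
    refine h1.mono' hcont.aestronglyMeasurable (Filter.Eventually.of_forall fun z => ?_)
    rw [Real.norm_eq_abs, abs_of_nonneg (mul_nonneg (HPP.gk_nonneg _)
      (mul_nonneg (hc0 _) (hP0 _))), mul_comm]
    exact mul_le_mul_of_nonneg_right (mul_le_mul (hcM _) (hPM _) (hP0 _) hM1) (HPP.gk_nonneg _)
  have e1 : (fun ξ => HPP.gk ξ * ∫ t in G, c t * P (t + ξ)) =
      fun ξ => ∫ t in G, HPP.gk ξ * (c t * P (t + ξ)) := by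
    funext ξ
    rw [integral_const_mul]
  have e2 : (fun t => c t * ∫ ξ, HPP.gk ξ * P (t + ξ)) =
      fun t => ∫ ξ, HPP.gk ξ * (c t * P (t + ξ)) := by
    funext t
    rw [← integral_const_mul]
    refine integral_congr_ae (Filter.Eventually.of_forall fun ξ => ?_)
    beta_reduce
    ring
  rw [e1, e2]
  exact ⟨⟨hint.integral_prod_right, hint.integral_prod_left⟩, integral_integral_swap hint⟩

private theorem one44 {X : Type} [Fintype X] {E : X → Set ℝ} {c P : X → ℝ → ℝ} {M₁ M T B L : ℝ}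
    (hET : ∀ χ, E χ ⊆ Set.Icc (-T) T) (hT : 0 ≤ T)
    (hc : ∀ χ, Continuous (c χ)) (hc0 : ∀ χ t, 0 ≤ c χ t) (hcM : ∀ χ t, c χ t ≤ M₁) (hM1 : 0 ≤ M₁)
    (hP : ∀ χ, Continuous (P χ)) (hP0 : ∀ χ t, 0 ≤ P χ t) (hPM : ∀ χ t, P χ t ≤ M) (hM : 0 ≤ M)
    (hB0 : 0 ≤ B) (hL : 0 ≤ L)
    (hB : ∀ ξ, |ξ| ≤ L → ∑ χ, ∫ t in E χ, c χ t * P χ (t + ξ) ≤ B) :
    ∑ χ, ∫ t in E χ, c χ t * ∫ ξ, HPP.gk ξ * P χ (t + ξ) ≤
      B + Fintype.card X * (2 * T * (M₁ * M)) * (2 * Real.exp (-L ^ 2 / 8)) := by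
  have hf := fun χ => fub44 (hET χ) (hc χ) (hc0 χ) (hcM χ) (hP χ) (hP0 χ) (hPM χ)
  have hms : MeasurableSet {ξ : ℝ | L < |ξ|} := measurableSet_lt measurable_const (by fun_prop)
  set D : ℝ := Fintype.card X * (2 * T * (M₁ * M)) with hD
  have hD0 : 0 ≤ D := by positivity
  have hA : ∀ ξ, ∑ χ, ∫ t in E χ, c χ t * P χ (t + ξ) ≤ D := by
    intro ξ
    have h1 : ∀ χ ∈ (Finset.univ : Finset X), ∫ t in E χ, c χ t * P χ (t + ξ) ≤ 2 * T * (M₁ * M) := by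
      intro χ _
      have hfin : volume (E χ) ≠ ⊤ := ((measure_mono (hET χ)).trans_lt (by simp)).ne
      have hi : IntegrableOn (fun t => c χ t * P χ (t + ξ)) (E χ) :=
        (((hc χ).mul ((hP χ).comp (continuous_id.add continuous_const))).continuousOn.integrableOn_Icc
          (a := -T) (b := T)).mono_set (hET χ)
      calc ∫ t in E χ, c χ t * P χ (t + ξ) ≤ ∫ t in E χ, M₁ * M :=
            setIntegral_mono hi (integrableOn_const hfin) fun t =>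
              mul_le_mul (hcM _ _) (hPM _ _) (hP0 _ _) hM1
        _ = volume.real (E χ) * (M₁ * M) := by rw [setIntegral_const, smul_eq_mul]
        _ ≤ 2 * T * (M₁ * M) := by
            refine mul_le_mul_of_nonneg_right ?_ (by positivity)
            have : volume.real (E χ) ≤ volume.real (Set.Icc (-T) T) :=
              measureReal_mono (hET χ) (by simp)
            rw [Real.volume_real_Icc_of_le (by linarith)] at this
            linarith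
    refine (Finset.sum_le_sum h1).trans ?_
    rw [Finset.sum_const, Finset.card_univ, nsmul_eq_mul]
  have hg := HPP.hb_gk_integrable
  have e0 : ∑ χ, ∫ t in E χ, c χ t * ∫ ξ, HPP.gk ξ * P χ (t + ξ) =
      ∫ ξ, ∑ χ, HPP.gk ξ * ∫ t in E χ, c χ t * P χ (t + ξ) := by
    rw [integral_finsetSum _ fun χ _ => (hf χ).1.1]
    exact Finset.sum_congr rfl fun χ _ => (hf χ).2
  have hi0 : Integrable (fun ξ => ∑ χ, HPP.gk ξ * ∫ t in E χ, c χ t * P χ (t + ξ)) :=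
    integrable_finsetSum _ fun χ _ => (hf χ).1.1
  have hi1 : Integrable (fun ξ => HPP.gk ξ * B) := hg.mul_const _
  have hi2 : Integrable (Set.indicator {ξ : ℝ | L < |ξ|} (fun ξ => D * HPP.gk ξ)) :=
    ((hg.const_mul _).integrableOn).integrable_indicator hms
  have h3 : ∫ ξ, ∑ χ, HPP.gk ξ * ∫ t in E χ, c χ t * P χ (t + ξ) ≤
      ∫ ξ, (HPP.gk ξ * B + Set.indicator {ξ : ℝ | L < |ξ|} (fun ξ => D * HPP.gk ξ) ξ) := by
    refine integral_mono hi0 (hi1.add hi2) fun ξ => ?_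
    beta_reduce
    rw [← Finset.mul_sum]
    by_cases hξ : L < |ξ|
    · rw [Set.indicator_of_mem (show ξ ∈ {ξ : ℝ | L < |ξ|} from hξ)]
      have h4 := mul_le_mul_of_nonneg_left (hA ξ) (HPP.gk_nonneg ξ)
      have h5 := mul_nonneg (HPP.gk_nonneg ξ) hB0
      linarith
    · rw [Set.indicator_of_notMem (show ξ ∉ {ξ : ℝ | L < |ξ|} from hξ), add_zero]
      exact mul_le_mul_of_nonneg_left (hB ξ (not_lt.1 hξ)) (HPP.gk_nonneg ξ)
  rw [integral_add hi1 hi2, integral_mul_const, HPP.gk_int, one_mul, integral_indicator hms,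
    integral_const_mul] at h3
  rw [e0]
  have h6 := mul_le_mul_of_nonneg_left (gk_tail44 hL) hD0
  linarith

private theorem pw44 {a y z : ℝ} (hy : 0 ≤ y) (ha : a ≤ z) (hyz : y ≤ z) :
    a * y ^ 80 ≤ z ^ 81 := by
  have e : z ^ 81 = z * z ^ 80 := by rw [← pow_succ']
  rw [e]
  have h0 : 0 ≤ z := hy.trans hyz
  have h1 : y ^ 80 ≤ z ^ 80 := pow_le_pow_left₀ hy hyz 80
  exact mul_le_mul ha h1 (pow_nonneg hy _) h0

private theorem ev44 {ε : ℝ} (hε : 0 < ε) : ∀ᶠ x : ℝ in Filter.atTop, 40 ≤ Real.log x ∧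
    40 * (2 * Real.log x + 3) ^ 80 ≤ x ^ (ε / 8) ∧ 4 * (6 * Real.log x + 15) ^ 80 ≤ x ^ (3 : ℝ) ∧
    3 ≤ x ^ (3 / 4 : ℝ) ∧ 2 ≤ x := by
  filter_upwards [Real.tendsto_log_atTop.eventually_ge_atTop 40,
    polylog44 2 43 81 (show 0 < ε / 8 by linarith) (by norm_num) (by norm_num),
    polylog44 6 15 81 (show (0 : ℝ) < 3 by norm_num) (by norm_num) (by norm_num),
    (tendsto_rpow_atTop (show (0 : ℝ) < 3 / 4 by norm_num)).eventually_ge_atTop 3,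
    Filter.eventually_ge_atTop 2] with x h1 h2 h3 h4 h5
  refine ⟨h1, le_trans (pw44 ?_ ?_ ?_) h2, le_trans (pw44 ?_ ?_ le_rfl) h3, h4, h5⟩
  · linarith
  · linarith
  · linarith
  · linarith
  · linarith

private theorem num44 {x L ε e δ s Q R₀ B M N : ℝ} (hx : 2 ≤ x) (hL : L = Real.log x)
    (hL40 : 40 ≤ L) (hε : 0 < ε) (heε : e ≤ ε / 8) (hN : 40 * N ≤ x ^ (ε / 8)) (hN0 : 0 ≤ N)
    (hM4 : 4 * M ≤ x ^ (3 : ℝ)) (hM0 : 0 ≤ M) (hp3 : 3 ≤ x ^ (3 / 4 : ℝ)) (hR0 : 0 ≤ R₀)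
    (hs : 0 ≤ s) (hQ0 : 0 ≤ Q) (hBd : B = R₀ * x ^ (ε / 8) * (s + Q * x ^ (-δ) + x ^ (-1 : ℝ))) :
    x ^ (1 + 2 * e) * (40 * (N * (B + 4 * x ^ (5 / 9 : ℝ) * (R₀ * M) * Real.exp (-L ^ 2 / 8)))) +
      2 * x ^ (5 / 9 : ℝ) * (R₀ * x ^ (-5 : ℝ)) ≤
    R₀ * x ^ (1 + ε) * (s + Q * x ^ (-δ) + x ^ (-(1 / 4) : ℝ)) := by
  have hx0 : 0 < x := by linarith
  have hx1' : 1 ≤ x := by linarith
  have hB0 : 0 ≤ B := by rw [hBd]; positivity
  have hexp : Real.exp (-L ^ 2 / 8) ≤ x ^ (-5 : ℝ) := by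
    rw [Real.rpow_def_of_pos hx0]
    apply Real.exp_le_exp.2
    rw [← hL]
    nlinarith
  have h59 : x ^ (5 / 9 : ℝ) ≤ x := by
    calc x ^ (5 / 9 : ℝ) ≤ x ^ (1 : ℝ) := Real.rpow_le_rpow_of_exponent_le hx1' (by norm_num)
      _ = x := Real.rpow_one x
  have htail : 4 * x ^ (5 / 9 : ℝ) * (R₀ * M) * Real.exp (-L ^ 2 / 8) ≤ R₀ * x ^ (-1 : ℝ) := by
    calc 4 * x ^ (5 / 9 : ℝ) * (R₀ * M) * Real.exp (-L ^ 2 / 8)
        = R₀ * ((4 * M) * x ^ (5 / 9 : ℝ) * Real.exp (-L ^ 2 / 8)) := by ring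
      _ ≤ R₀ * (x ^ (3 : ℝ) * x ^ (1 : ℝ) * x ^ (-5 : ℝ)) := by
          refine mul_le_mul_of_nonneg_left ?_ hR0
          refine mul_le_mul (mul_le_mul hM4 ?_ (by positivity) (by positivity)) hexp
            (by positivity) (by positivity)
          rw [Real.rpow_one]
          exact h59
      _ = R₀ * x ^ (-1 : ℝ) := by
          rw [← Real.rpow_add hx0, ← Real.rpow_add hx0]
          norm_num
  have hx5 : 2 * x ^ (5 / 9 : ℝ) * (R₀ * x ^ (-5 : ℝ)) ≤ R₀ * x ^ (1 + ε / 2) * x ^ (-1 : ℝ) := by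
    have h4 : 2 * x ^ (5 / 9 : ℝ) * x ^ (-5 : ℝ) ≤ x ^ (1 + ε / 2) * x ^ (-1 : ℝ) := by
      calc 2 * x ^ (5 / 9 : ℝ) * x ^ (-5 : ℝ) ≤ x * x * x ^ (-5 : ℝ) :=
            mul_le_mul_of_nonneg_right (mul_le_mul hx h59 (by positivity) hx0.le) (by positivity)
        _ = x ^ (-3 : ℝ) := by
            have h5 : x * x = x ^ (2 : ℝ) := by
              rw [Real.rpow_two, sq]
            rw [h5, ← Real.rpow_add hx0]
            norm_num
        _ ≤ x ^ (1 + ε / 2 + -1 : ℝ) := Real.rpow_le_rpow_of_exponent_le hx1' (by linarith)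
        _ = _ := Real.rpow_add hx0 _ _
    calc _ = R₀ * (2 * x ^ (5 / 9 : ℝ) * x ^ (-5 : ℝ)) := by ring
      _ ≤ R₀ * (x ^ (1 + ε / 2) * x ^ (-1 : ℝ)) := mul_le_mul_of_nonneg_left h4 hR0
      _ = _ := by ring
  have hxp : x ^ (1 + 2 * e) * x ^ (ε / 8) * x ^ (ε / 8) ≤ x ^ (1 + ε / 2) := by
    rw [← Real.rpow_add hx0, ← Real.rpow_add hx0]
    exact Real.rpow_le_rpow_of_exponent_le hx1' (by linarith)
  have hxp' : x ^ (1 + 2 * e) * x ^ (ε / 8) ≤ x ^ (1 + ε / 2) := by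
    rw [← Real.rpow_add hx0]
    exact Real.rpow_le_rpow_of_exponent_le hx1' (by linarith)
  have hY0 : 0 ≤ s + Q * x ^ (-δ) := by positivity
  have hY1 : 0 ≤ s + Q * x ^ (-δ) + x ^ (-1 : ℝ) := by positivity
  have hx1m : 3 * x ^ (-1 : ℝ) ≤ x ^ (-(1 / 4) : ℝ) := by
    calc 3 * x ^ (-1 : ℝ) ≤ x ^ (3 / 4 : ℝ) * x ^ (-1 : ℝ) :=
          mul_le_mul_of_nonneg_right hp3 (by positivity)
      _ = x ^ (-(1 / 4) : ℝ) := by
          rw [← Real.rpow_add hx0]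
          norm_num
  calc x ^ (1 + 2 * e) * (40 * (N * (B + 4 * x ^ (5 / 9 : ℝ) * (R₀ * M) * Real.exp (-L ^ 2 / 8)))) +
      2 * x ^ (5 / 9 : ℝ) * (R₀ * x ^ (-5 : ℝ))
      = x ^ (1 + 2 * e) * (40 * N) *
        (B + 4 * x ^ (5 / 9 : ℝ) * (R₀ * M) * Real.exp (-L ^ 2 / 8)) +
        2 * x ^ (5 / 9 : ℝ) * (R₀ * x ^ (-5 : ℝ)) := by ring
    _ ≤ x ^ (1 + 2 * e) * x ^ (ε / 8) * (B + R₀ * x ^ (-1 : ℝ)) +
        R₀ * x ^ (1 + ε / 2) * x ^ (-1 : ℝ) := by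
        refine add_le_add ?_ hx5
        exact mul_le_mul (mul_le_mul_of_nonneg_left hN (by positivity)) (add_le_add le_rfl htail)
          (by positivity) (by positivity)
    _ = R₀ * (x ^ (1 + 2 * e) * x ^ (ε / 8) * x ^ (ε / 8)) * (s + Q * x ^ (-δ) + x ^ (-1 : ℝ)) +
        R₀ * (x ^ (1 + 2 * e) * x ^ (ε / 8)) * x ^ (-1 : ℝ) +
        R₀ * x ^ (1 + ε / 2) * x ^ (-1 : ℝ) := by rw [hBd]; ring
    _ ≤ R₀ * x ^ (1 + ε / 2) * (s + Q * x ^ (-δ) + x ^ (-1 : ℝ)) +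
        R₀ * x ^ (1 + ε / 2) * x ^ (-1 : ℝ) + R₀ * x ^ (1 + ε / 2) * x ^ (-1 : ℝ) := by
        refine add_le_add (add_le_add ?_ ?_) le_rfl
        · exact mul_le_mul_of_nonneg_right (mul_le_mul_of_nonneg_left hxp hR0) hY1
        · exact mul_le_mul_of_nonneg_right (mul_le_mul_of_nonneg_left hxp' hR0) (by positivity)
    _ = R₀ * x ^ (1 + ε / 2) * (s + Q * x ^ (-δ) + 3 * x ^ (-1 : ℝ)) := by ring
    _ ≤ R₀ * x ^ (1 + ε) * (s + Q * x ^ (-δ) + x ^ (-(1 / 4) : ℝ)) := by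
        refine mul_le_mul (mul_le_mul_of_nonneg_left
          (Real.rpow_le_rpow_of_exponent_le hx1' (by linarith)) hR0) (by linarith)
          (by positivity) (by positivity)

/-- the factors are bounded -/
private theorem prod44 {x L M : ℝ} (hL : L = Real.log x) (hL0 : 40 ≤ L) (hM : M = (6 * L + 15) ^ 80)
    {e : ℝ} {Q j : ℕ} (hj : j ∈ Finset.Icc 1 40) {v : Fin (2 * j) → ℕ} (hv : v ∈ HPP.VV e x j)
    (χ : DirichletCharacter ℂ Q) (t : ℝ) :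
    ∏ i, HPP.nt (HPP.tyf (x ^ (1 / 20 : ℝ)) (HPP.fac j i)) (v i) χ t ≤ M := by
  have hfl : (⌊2 * L⌋₊ : ℝ) ≤ 2 * L := Nat.floor_le (by linarith)
  have hj2 : j ≤ 40 := (Finset.mem_Icc.1 hj).2
  have hvi : ∀ i, (v i : ℝ) ≤ 2 * L + 3 := by
    intro i
    have h5 := Finset.mem_range.1 (Fintype.mem_piFinset.1 (Finset.mem_filter.1 hv).1 i)
    rw [← hL] at h5
    have h6 : (v i : ℝ) ≤ ((⌊2 * L⌋₊ + 3 : ℕ) : ℝ) := by exact_mod_cast h5.le
    push_cast at h6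
    linarith
  calc ∏ i, HPP.nt (HPP.tyf (x ^ (1 / 20 : ℝ)) (HPP.fac j i)) (v i) χ t ≤
        ∏ _i : Fin (2 * j), (6 * L + 15) := by
        refine Finset.prod_le_prod (fun i _ => HPP.nt_nonneg _ _ _ _) fun i _ => ?_
        refine (HPP.nt_triv (HPP.tyf_sm _ _) (v i) χ t).trans ?_
        linarith [hvi i]
    _ = (6 * L + 15) ^ (2 * j) := by rw [Finset.prod_const, Finset.card_univ, Fintype.card_fin]
    _ ≤ (6 * L + 15) ^ 80 := pow_le_pow_right₀ (by linarith) (by omega)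
    _ = M := hM.symm

private theorem card44 {x L N : ℝ} (hL : L = Real.log x) (hL0 : 40 ≤ L) (hN : N = (2 * L + 3) ^ 80)
    (e : ℝ) {j : ℕ} (hj : j ∈ Finset.Icc 1 40) : ((HPP.VV e x j).card : ℝ) ≤ N := by
  have hfl : (⌊2 * L⌋₊ : ℝ) ≤ 2 * L := Nat.floor_le (by linarith)
  have hj2 : j ≤ 40 := (Finset.mem_Icc.1 hj).2
  have h5 : (HPP.VV e x j).card ≤ (⌊2 * L⌋₊ + 3) ^ (2 * j) := by
    have h6 : (HPP.VV e x j).card ≤ (Fintype.piFinset fun _ : Fin (2 * j) =>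
        Finset.range (⌊2 * Real.log x⌋₊ + 3)).card := Finset.card_filter_le _ _
    rw [Fintype.card_piFinset, Finset.prod_const, Finset.card_range, Finset.card_univ,
      Fintype.card_fin, ← hL] at h6
    exact h6
  calc ((HPP.VV e x j).card : ℝ) ≤ ((⌊2 * L⌋₊ : ℝ) + 3) ^ (2 * j) := by exact_mod_cast h5
    _ ≤ (2 * L + 3) ^ (2 * j) := pow_le_pow_left₀ (by positivity) (by linarith) _
    _ ≤ (2 * L + 3) ^ 80 := pow_le_pow_right₀ (by linarith) (by omega)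
    _ = N := hN.symm

/-- the integral of the prime polynomial, given bounds for all vectors -/
private theorem sum44 {b p m : ℕ} {F : Finset ℕ} {V : ℝ → ℝ} {e x T N M R₀ W Y : ℝ}
    (hB : Bas b p) (hm : 1 ≤ m) (hV : ∀ y, 0 ≤ V y ∧ V y ≤ 1) (hR₀ : R₀ = (RR b p m F).card)
    (hx0 : 0 < x) (hT0 : 0 ≤ T) (hbT : (b : ℝ) ^ m * T ≤ Y) (hM0 : 0 ≤ M)
    (hW0 : 0 ≤ W) (hN0 : 0 ≤ N) {E : DirichletCharacter ℂ (b ^ m) → Set ℝ}
    (hET : ∀ χ, E χ ⊆ Set.Icc (-T) T)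
    (h1 : ∀ (χ : DirichletCharacter ℂ (b ^ m)) (t : ℝ), ‖HPP.PP χ t x‖ ≤ x ^ (1 + 2 * e) *
      (∑ j ∈ Finset.Icc 1 40, ∑ v ∈ HPP.VV e x j,
        ∫ ξ, HPP.gk ξ * ∏ i, HPP.nt (HPP.tyf (x ^ (1 / 20 : ℝ)) (HPP.fac j i)) (v i) χ (t + ξ)) +
        x ^ (-5 : ℝ))
    (hPM : ∀ j ∈ Finset.Icc 1 40, ∀ v ∈ HPP.VV e x j, ∀ (χ : DirichletCharacter ℂ (b ^ m)) (t : ℝ),
      ∏ i, HPP.nt (HPP.tyf (x ^ (1 / 20 : ℝ)) (HPP.fac j i)) (v i) χ t ≤ M)
    (hVN : ∀ j ∈ Finset.Icc 1 40, ((HPP.VV e x j).card : ℝ) ≤ N)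
    (hone : ∀ j ∈ Finset.Icc 1 40, ∀ v ∈ HPP.VV e x j,
      ∑ χ : DirichletCharacter ℂ (b ^ m), ∫ t in E χ, ‖cc b p F V χ t‖ *
        ∫ ξ, HPP.gk ξ * ∏ i, HPP.nt (HPP.tyf (x ^ (1 / 20 : ℝ)) (HPP.fac j i)) (v i) χ (t + ξ) ≤ W) :
    ∑ χ : DirichletCharacter ℂ (b ^ m), ∫ t in E χ, ‖cc b p F V χ t‖ * ‖HPP.PP χ t x‖ ≤
      x ^ (1 + 2 * e) * (40 * (N * W)) + 2 * Y * (R₀ * x ^ (-5 : ℝ)) := by
  have hR0 : 0 ≤ R₀ := by rw [hR₀]; exact Nat.cast_nonneg _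
  have hcard : (Fintype.card (DirichletCharacter ℂ (b ^ m)) : ℝ) ≤ (b : ℝ) ^ m := by
    have h4 := HPP.card_char_le (Q := b ^ m) (Nat.one_le_pow _ _ (by have := hB.two; omega))
    exact_mod_cast h4
  have hcc : ∀ χ : DirichletCharacter ℂ (b ^ m), Continuous fun t => ‖cc b p F V χ t‖ := fun χ =>
    (cc_continuous hB hm F V χ).norm
  have hccM : ∀ (χ : DirichletCharacter ℂ (b ^ m)) t, ‖cc b p F V χ t‖ ≤ R₀ := fun χ t => by
    rw [hR₀]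
    exact cc_le hB hm F hV χ t
  have hx5 : 0 ≤ x ^ (-5 : ℝ) := Real.rpow_nonneg hx0.le _
  have hxe : 0 ≤ x ^ (1 + 2 * e) := Real.rpow_nonneg hx0.le _
  have hIi : ∀ χ : DirichletCharacter ℂ (b ^ m), ∀ j ∈ Finset.Icc 1 40, ∀ v ∈ HPP.VV e x j,
      IntegrableOn (fun t => ‖cc b p F V χ t‖ * ∫ ξ, HPP.gk ξ *
        ∏ i, HPP.nt (HPP.tyf (x ^ (1 / 20 : ℝ)) (HPP.fac j i)) (v i) χ (t + ξ)) (E χ) :=
    fun χ j hj v hv =>
    (fub44 (P := fun t => ∏ i, HPP.nt (HPP.tyf (x ^ (1 / 20 : ℝ)) (HPP.fac j i)) (v i) χ t)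
      (hET χ) (hcc χ) (fun t => norm_nonneg _) (hccM χ)
      (continuous_finsetProd _ fun i _ => HPP.nt_continuous _ _ χ)
      (fun t => Finset.prod_nonneg fun i _ => HPP.nt_nonneg _ _ _ _)
      (hPM j hj v hv χ)).1.2
  have hchi : ∀ χ : DirichletCharacter ℂ (b ^ m), ∫ t in E χ, ‖cc b p F V χ t‖ * ‖HPP.PP χ t x‖ ≤
      x ^ (1 + 2 * e) * (∑ j ∈ Finset.Icc 1 40, ∑ v ∈ HPP.VV e x j,
        ∫ t in E χ, ‖cc b p F V χ t‖ * ∫ ξ, HPP.gk ξ *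
          ∏ i, HPP.nt (HPP.tyf (x ^ (1 / 20 : ℝ)) (HPP.fac j i)) (v i) χ (t + ξ)) +
        2 * T * (R₀ * x ^ (-5 : ℝ)) := by
    intro χ
    have hfin : volume (E χ) ≠ ⊤ := ((measure_mono (hET χ)).trans_lt (by simp)).ne
    have hi0 : IntegrableOn (fun t => ‖cc b p F V χ t‖ * ‖HPP.PP χ t x‖) (E χ) :=
      (((hcc χ).mul (HPP.PP_continuous χ hx0).norm).continuousOn.integrableOn_Icc
        (a := -T) (b := T)).mono_set (hET χ)
    have hi1 : ∀ j ∈ Finset.Icc 1 40, IntegrableOn (fun t => ∑ v ∈ HPP.VV e x j,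
        ‖cc b p F V χ t‖ * ∫ ξ, HPP.gk ξ *
          ∏ i, HPP.nt (HPP.tyf (x ^ (1 / 20 : ℝ)) (HPP.fac j i)) (v i) χ (t + ξ)) (E χ) :=
      fun j hj => integrable_finsetSum _ fun v hv => hIi χ j hj v hv
    have hi2 : IntegrableOn (fun t => ∑ j ∈ Finset.Icc 1 40, ∑ v ∈ HPP.VV e x j,
        ‖cc b p F V χ t‖ * ∫ ξ, HPP.gk ξ *
          ∏ i, HPP.nt (HPP.tyf (x ^ (1 / 20 : ℝ)) (HPP.fac j i)) (v i) χ (t + ξ)) (E χ) :=
      integrable_finsetSum _ hi1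
    have hi3 : IntegrableOn (fun _ : ℝ => R₀ * x ^ (-5 : ℝ)) (E χ) := integrableOn_const hfin
    calc ∫ t in E χ, ‖cc b p F V χ t‖ * ‖HPP.PP χ t x‖
        ≤ ∫ t in E χ, (x ^ (1 + 2 * e) * (∑ j ∈ Finset.Icc 1 40, ∑ v ∈ HPP.VV e x j,
            ‖cc b p F V χ t‖ * ∫ ξ, HPP.gk ξ *
          ∏ i, HPP.nt (HPP.tyf (x ^ (1 / 20 : ℝ)) (HPP.fac j i)) (v i) χ (t + ξ)) +
            R₀ * x ^ (-5 : ℝ)) := by
          refine setIntegral_mono hi0 ((hi2.const_mul _).add hi3) fun t => ?_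
          have h4 := mul_le_mul_of_nonneg_left (h1 χ t) (norm_nonneg (cc b p F V χ t))
          refine h4.trans ?_
          beta_reduce
          rw [mul_add]
          refine add_le_add (le_of_eq ?_) ?_
          · rw [mul_left_comm, Finset.mul_sum]
            refine congrArg _ (Finset.sum_congr rfl fun j _ => ?_)
            rw [Finset.mul_sum]
          · exact mul_le_mul_of_nonneg_right (hccM χ t) hx5
      _ = x ^ (1 + 2 * e) * (∑ j ∈ Finset.Icc 1 40, ∑ v ∈ HPP.VV e x j,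
            ∫ t in E χ, ‖cc b p F V χ t‖ * ∫ ξ, HPP.gk ξ *
          ∏ i, HPP.nt (HPP.tyf (x ^ (1 / 20 : ℝ)) (HPP.fac j i)) (v i) χ (t + ξ)) +
            volume.real (E χ) * (R₀ * x ^ (-5 : ℝ)) := by
          rw [integral_add (hi2.const_mul _) hi3, integral_const_mul,
            integral_finsetSum _ hi1, setIntegral_const, smul_eq_mul]
          refine congrArg (· + _) (congrArg _ (Finset.sum_congr rfl fun j hj => ?_))
          rw [integral_finsetSum _ fun v hv => hIi χ j hj v hv]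
      _ ≤ _ := by
          refine add_le_add le_rfl (mul_le_mul_of_nonneg_right ?_ (mul_nonneg hR0 hx5))
          have : volume.real (E χ) ≤ volume.real (Set.Icc (-T) T) :=
            measureReal_mono (hET χ) (by simp)
          rw [Real.volume_real_Icc_of_le (by linarith)] at this
          linarith
  refine (Finset.sum_le_sum fun χ _ => hchi χ).trans ?_
  rw [Finset.sum_add_distrib, Finset.sum_const, Finset.card_univ, nsmul_eq_mul, ← Finset.mul_sum]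
  refine add_le_add (mul_le_mul_of_nonneg_left ?_ hxe) ?_
  · rw [Finset.sum_comm]
    have h4 : ∀ j ∈ Finset.Icc 1 40, ∑ χ : DirichletCharacter ℂ (b ^ m), ∑ v ∈ HPP.VV e x j,
        ∫ t in E χ, ‖cc b p F V χ t‖ * ∫ ξ, HPP.gk ξ *
          ∏ i, HPP.nt (HPP.tyf (x ^ (1 / 20 : ℝ)) (HPP.fac j i)) (v i) χ (t + ξ) ≤ N * W := by
      intro j hj
      rw [Finset.sum_comm]
      refine (Finset.sum_le_sum fun v hv => hone j hj v hv).trans ?_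
      rw [Finset.sum_const, nsmul_eq_mul]
      exact mul_le_mul_of_nonneg_right (hVN j hj) hW0
    refine (Finset.sum_le_sum h4).trans ?_
    rw [Finset.sum_const, Nat.card_Icc, nsmul_eq_mul]
    norm_num
  · calc (Fintype.card (DirichletCharacter ℂ (b ^ m)) : ℝ) * (2 * T * (R₀ * x ^ (-5 : ℝ))) ≤
          (b : ℝ) ^ m * (2 * T * (R₀ * x ^ (-5 : ℝ))) :=
          mul_le_mul_of_nonneg_right hcard (by positivity)
      _ = 2 * ((b : ℝ) ^ m * T) * (R₀ * x ^ (-5 : ℝ)) := by ring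
      _ ≤ 2 * Y * (R₀ * x ^ (-5 : ℝ)) :=
          mul_le_mul_of_nonneg_right (by linarith) (mul_nonneg hR0 hx5)

theorem primeProp (h : VecProp) : PrimeProp := by
  obtain ⟨δ, hδ0, hδ1, h⟩ := h
  refine ⟨δ, hδ0, fun b hb ε hε κ hκ => ?_⟩
  obtain ⟨e, he0, heδ, heε⟩ : ∃ e : ℝ, 0 < e ∧ e ≤ δ ∧ e ≤ ε / 8 :=
    ⟨min (ε / 8) δ, lt_min (by linarith) hδ0, min_le_right _ _, min_le_left _ _⟩
  obtain ⟨x₁, h1⟩ := HPP.hb he0 (by linarith)
  obtain ⟨x₂, h2⟩ := h b hb (ε / 8) (by linarith) κ hκ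
  obtain ⟨x₃, h3⟩ := Filter.eventually_atTop.1 (ev44 hε)
  refine ⟨max x₁ (max x₂ x₃), fun x hx p m F V T K s hB hm hF hV hbT hbT' hxK hxT hs E hEm hEG hEs => ?_⟩
  have hx1 : x₁ ≤ x := (le_max_left _ _).trans hx
  have hx2 : x₂ ≤ x := ((le_max_left _ _).trans (le_max_right _ _)).trans hx
  have hx3 : x₃ ≤ x := ((le_max_right _ _).trans (le_max_right _ _)).trans hx
  obtain ⟨hL40, hp1, hp2, hp3, hxt⟩ := h3 x hx3
  obtain ⟨L, hL⟩ : ∃ L : ℝ, L = Real.log x := ⟨_, rfl⟩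
  rw [← hL] at hL40 hp1 hp2
  obtain ⟨N, hNd⟩ : ∃ N : ℝ, N = (2 * L + 3) ^ 80 := ⟨_, rfl⟩
  obtain ⟨M, hMd⟩ : ∃ M : ℝ, M = (6 * L + 15) ^ 80 := ⟨_, rfl⟩
  rw [← hNd] at hp1
  rw [← hMd] at hp2
  have hN0 : 0 ≤ N := by rw [hNd]; exact pow_nonneg (by linarith) _
  have hM0 : 0 ≤ M := by rw [hMd]; exact pow_nonneg (by linarith) _
  have hx0 : 0 < x := by linarith
  have hb1 : (1 : ℝ) ≤ (b : ℝ) ^ m := one_le_pow₀ (by exact_mod_cast (by omega : 1 ≤ b))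
  have hT0 : 0 ≤ T := by linarith
  obtain ⟨R₀, hR₀⟩ : ∃ R₀ : ℝ, R₀ = ((RR b p m F).card : ℝ) := ⟨_, rfl⟩
  have hR0 : 0 ≤ R₀ := by rw [hR₀]; exact Nat.cast_nonneg _
  have hET : ∀ χ, E χ ⊆ Set.Icc (-T) T := fun χ => (hEG χ).trans (HPP.Gt_sub χ K T)
  obtain ⟨Q, hQ⟩ : ∃ Q : ℝ, Q = ((T / (b : ℝ) ^ m) * (b : ℝ) ^ (3 * F.card)) ^ (1 / 2 : ℝ) :=
    ⟨_, rfl⟩
  have hQ0 : 0 ≤ Q := by rw [hQ]; positivity
  obtain ⟨B, hBd⟩ : ∃ B : ℝ, B = R₀ * x ^ (ε / 8) * (s + Q * x ^ (-δ) + x ^ (-1 : ℝ)) := ⟨_, rfl⟩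
  have hB0 : 0 ≤ B := by rw [hBd]; positivity
  have hPM : ∀ j ∈ Finset.Icc 1 40, ∀ v ∈ HPP.VV e x j, ∀ (χ : DirichletCharacter ℂ (b ^ m)) (t : ℝ),
      ∏ i, HPP.nt (HPP.tyf (x ^ (1 / 20 : ℝ)) (HPP.fac j i)) (v i) χ t ≤ M :=
    fun j hj v hv χ t => prod44 hL hL40 hMd hj hv χ t
  have hcard : (Fintype.card (DirichletCharacter ℂ (b ^ m)) : ℝ) ≤ (b : ℝ) ^ m := by
    have h4 := HPP.card_char_le (Q := b ^ m) (Nat.one_le_pow _ _ (by omega))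
    exact_mod_cast h4
  have hone : ∀ j ∈ Finset.Icc 1 40, ∀ v ∈ HPP.VV e x j,
      ∑ χ : DirichletCharacter ℂ (b ^ m), ∫ t in E χ, ‖cc b p F V χ t‖ *
        ∫ ξ, HPP.gk ξ * ∏ i, HPP.nt (HPP.tyf (x ^ (1 / 20 : ℝ)) (HPP.fac j i)) (v i) χ (t + ξ) ≤
        B + 4 * x ^ (5 / 9 : ℝ) * (R₀ * M) * Real.exp (-L ^ 2 / 8) := by
    intro j hj v hv
    have hv' : v ∈ HPP.VV δ x j := by
      unfold HPP.VV at hv ⊢
      rw [Finset.mem_filter] at hv ⊢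
      exact ⟨hv.1, hv.2.trans (mul_le_mul_of_nonneg_right heδ (by linarith))⟩
    have h4 := one44 (X := DirichletCharacter ℂ (b ^ m)) (E := E) (c := fun χ t => ‖cc b p F V χ t‖)
      (P := fun χ t => ∏ i, HPP.nt (HPP.tyf (x ^ (1 / 20 : ℝ)) (HPP.fac j i)) (v i) χ t)
      (M₁ := R₀) (M := M) (T := T) (B := B) (L := L) hET hT0
      (fun χ => (cc_continuous hB hm F V χ).norm)
      (fun χ t => norm_nonneg _) (fun χ t => by rw [hR₀]; exact cc_le hB hm F hV χ t) hR0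
      (fun χ => continuous_finsetProd _ fun i _ => HPP.nt_continuous _ _ χ)
      (fun χ t => Finset.prod_nonneg fun i _ => HPP.nt_nonneg _ _ _ _) (hPM j hj v hv) hM0 hB0
      (by linarith) (fun ξ hξ => by
        rw [hBd, hR₀, hQ]
        exact h2 x hx2 p m F V T K s hB hm hF hV hbT hbT' hxK hxT hs E hEm hEG hEs
          j hj v hv' ξ (by rw [← hL]; exact hξ))
    refine h4.trans (add_le_add le_rfl ?_)
    have h5 : (Fintype.card (DirichletCharacter ℂ (b ^ m)) : ℝ) * (2 * T * (R₀ * M)) ≤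
        2 * x ^ (5 / 9 : ℝ) * (R₀ * M) := by
      have hRM : 0 ≤ R₀ * M := mul_nonneg hR0 hM0
      calc (Fintype.card (DirichletCharacter ℂ (b ^ m)) : ℝ) * (2 * T * (R₀ * M)) ≤
            (b : ℝ) ^ m * (2 * T * (R₀ * M)) :=
            mul_le_mul_of_nonneg_right hcard (mul_nonneg (by linarith) hRM)
        _ = 2 * ((b : ℝ) ^ m * T) * (R₀ * M) := by ring
        _ ≤ 2 * x ^ (5 / 9 : ℝ) * (R₀ * M) :=
            mul_le_mul_of_nonneg_right (by linarith) hRM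
    have h6 := mul_le_mul_of_nonneg_right h5
      (mul_nonneg (by norm_num) (Real.exp_pos _).le : 0 ≤ 2 * Real.exp (-L ^ 2 / 8))
    calc _ ≤ _ := h6
      _ = _ := by ring
  have hW0 : 0 ≤ B + 4 * x ^ (5 / 9 : ℝ) * (R₀ * M) * Real.exp (-L ^ 2 / 8) := by positivity
  have hsum := sum44 (F := F) (e := e) (Y := x ^ (5 / 9 : ℝ)) hB hm hV hR₀ hx0 hT0 hbT' hM0 hW0 hN0 hET
    (fun χ t => h1 x hx1 (b ^ m) χ t) hPM (fun j hj => card44 hL hL40 hNd e hj) hone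
  rw [← hQ, ← hR₀]
  exact hsum.trans (num44 hxt hL hL40 hε heε hp1 hN0 hp2 hM0 hp3 hR0 hs hQ0 hBd)

end Pool.Agent.HPZ
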