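import Pool.Agent.HPZ.Iface
import Pool.Agent.HPZ.EBas
import Pool.Agent.HPP.VHBa

/-!
# HPZ/VT1: the mixed lemma for products (`T1Prop`)

`np f v A χ (t+ξ) = exp (-sv) ‖∑_(n ≤ H) a_n χ(n) n^(it)‖`, `a_n = PG f v A n * n^(iξ)`, `H = ⌊exp (sv + 80)⌋`, `D = C exp (ε₁ sv)`
(`CoProp` with `ε₁ = ε / 1000`, `exp (ε₁ sv) ≤ x^(240 ε₁)`). `MixProp`:
`≤ exp (-2 sv) C D² T b^m (1 + log H) b^(3#F) (H² + H b^m) ≤ C' x^(ε/2) (T b^m) b^(3#F) (1 + b^m exp (-sv)) (1 + 81 * 240 log x)`,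
and `#RR = b^(m-1+#F)` (`card_RR`): `T b^m ≤ b² (T / b^m) #RR²`. (`1 + log H ≤ 81 + 240 log x`.)
-/

namespace Pool.Agent.HPZ

open Complex MeasureTheory

private theorem ev83 (K r : ℝ) (hr : 0 < r) :
    ∃ x₀ : ℝ, 1 ≤ x₀ ∧ ∀ x : ℝ, x₀ ≤ x → K * (81 + 240 * Real.log x) ≤ x ^ r := by
  have h1 : (fun x : ℝ => K * (81 + 240 * Real.log x)) =o[Filter.atTop] fun x : ℝ => x ^ r := by
    apply Asymptotics.IsLittleO.const_mul_left
    apply Asymptotics.IsLittleO.add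
    · exact Asymptotics.isLittleO_const_left.2 (Or.inr
        (Filter.tendsto_abs_atTop_atTop.comp (tendsto_rpow_atTop hr)))
    · exact (isLittleO_log_rpow_atTop hr).const_mul_left _
  have h2 := h1.bound (c := 1) one_pos
  obtain ⟨x₀, hx₀⟩ := Filter.eventually_atTop.1 h2
  refine ⟨max 1 x₀, le_max_left _ _, fun x hx => ?_⟩
  have h3 := hx₀ x ((le_max_right _ _).trans hx)
  have hx1 : 1 ≤ x := (le_max_left _ _).trans hx
  rw [one_mul, Real.norm_eq_abs, Real.norm_eq_abs, abs_of_nonneg (by positivity : 0 ≤ x ^ r)] at h3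
  exact (le_abs_self _).trans h3

theorem t1Prop (hM : MixProp) (h : CoProp) : T1Prop := by
  intro b hb ε hε
  obtain ⟨C2, hC2, hM⟩ := hM b hb
  obtain ⟨C1, hC1, hC⟩ := h (ε / 1000) (by positivity)
  obtain ⟨x₀, hx₀1, hx₀⟩ := ev83 (C2 * C1 ^ 2 * Real.exp 160 * b ^ 2) (52 / 100 * ε) (by positivity)
  refine ⟨x₀, fun x hx p m F V T hB hm hF hV hT hTx j hj f v hf hv A ξ => ?_⟩
  have hx1 : 1 ≤ x := hx₀1.trans hx
  have hlx : 0 ≤ Real.log x := Real.log_nonneg hx1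
  obtain ⟨h1, h2, h3⟩ := hC j hj f v hf A
  set s := sv v A with hs
  have hs0 : 0 ≤ s := Finset.sum_nonneg fun i _ => Nat.cast_nonneg _
  have hs1 : s ≤ 240 * Real.log x := by
    have e1 : s ≤ ∑ i ∈ A, 3 * Real.log x := Finset.sum_le_sum fun i _ => hv i
    rw [Finset.sum_const, nsmul_eq_mul] at e1
    have e2 : (A.card : ℝ) ≤ 80 := by
      have := (Finset.card_le_univ A).trans_eq (Fintype.card_fin j)
      exact_mod_cast this.trans hj
    nlinarith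
  have hb0 : (0 : ℝ) < b := by positivity
  have hb1 : (1 : ℝ) ≤ b := by exact_mod_cast (by omega : 1 ≤ b)
  set H : ℕ := ⌊Real.exp (s + 80)⌋₊ with hH
  have hH1 : 1 ≤ H := Nat.le_floor (by
    rw [Nat.cast_one]
    exact Real.one_le_exp (by linarith))
  have hH2 : (H : ℝ) ≤ Real.exp (s + 80) := Nat.floor_le (Real.exp_pos _).le
  set D := C1 * Real.exp (ε / 1000 * s) with hD
  have hD0 : 0 ≤ D := by positivity
  set a : ℕ → ℂ := fun n => ((PG f v A n : ℝ) : ℂ) * (n : ℂ) ^ ((ξ : ℂ) * I) with ha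
  have haD : ∀ n, ‖a n‖ ≤ D := by
    intro n
    rcases Nat.eq_zero_or_pos n with h0 | h0
    · rw [h0, ha]
      simp only [ArithmeticFunction.map_zero, Complex.ofReal_zero, zero_mul, norm_zero]
      exact hD0
    · have e1 : ‖(n : ℂ) ^ ((ξ : ℂ) * I)‖ = 1 := by
        rw [← Complex.ofReal_natCast, Complex.norm_cpow_eq_rpow_re_of_pos (by exact_mod_cast h0)]
        simp
      rw [ha]
      simp only
      rw [norm_mul, e1, mul_one, Complex.norm_real, Real.norm_eq_abs]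
      exact h1 n
  have key := hM p m F V hB hm hF hV H a D hH1 hD0 haD T hT
  -- the product as a Dirichlet polynomial
  have hsupp : ∀ n : ℕ, PG f v A n ≠ 0 → n ∈ Finset.Icc 1 H := by
    intro n hn
    obtain ⟨g1, g2⟩ := h2 n hn
    have hn0 : (0 : ℝ) < n := by exact_mod_cast g1
    rw [Finset.mem_Icc]
    refine ⟨g1, Nat.le_floor ?_⟩
    rw [← Real.log_le_iff_le_exp hn0]
    rw [abs_le] at g2
    linarith [g2.2]
  have hnp : ∀ (χ : DirichletCharacter ℂ (b ^ m)) (t : ℝ), np f v A χ (t + ξ) ^ 2 =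
      Real.exp (-(2 * s)) *
        ‖∑ n ∈ Finset.Icc 1 H, a n * χ (n : ZMod (b ^ m)) * (n : ℂ) ^ (t * I)‖ ^ 2 := by
    intro χ t
    rw [h3, mul_pow, ← Real.exp_nat_mul, HPP.dp_eq_sum (Finset.Icc 1 H) hsupp]
    congr 2
    · push_cast
      ring
    · congr 1
      refine Finset.sum_congr rfl fun n hn => ?_
      have hn1 : (n : ℂ) ≠ 0 := by
        have := (Finset.mem_Icc.1 hn).1
        exact_mod_cast (by omega : n ≠ 0)
      have e2 : (n : ℂ) ^ (((t + ξ : ℝ) : ℂ) * I) = (n : ℂ) ^ (t * I) * (n : ℂ) ^ (ξ * I) := by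
        rw [← Complex.cpow_add _ _ hn1]
        congr 1
        push_cast
        ring
      rw [e2, ha]
      ring
  have hsum : ∑ χ : DirichletCharacter ℂ (b ^ m), ∫ t in (-T)..T,
        ‖cc b p F V χ t‖ ^ 2 * np f v A χ (t + ξ) ^ 2 =
      Real.exp (-(2 * s)) * ∑ χ : DirichletCharacter ℂ (b ^ m), ∫ t in (-T)..T, ‖cc b p F V χ t‖ ^ 2 *
        ‖∑ n ∈ Finset.Icc 1 H, a n * χ (n : ZMod (b ^ m)) * (n : ℂ) ^ (t * I)‖ ^ 2 := by
    rw [Finset.mul_sum]
    refine Finset.sum_congr rfl fun χ _ => ?_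
    rw [← intervalIntegral.integral_const_mul]
    congr 1
    funext t
    rw [hnp χ t]
    ring
  rw [hsum]
  refine (mul_le_mul_of_nonneg_left key (Real.exp_pos _).le).trans ?_
  -- numerics
  have hbm : (0 : ℝ) < (b : ℝ) ^ m := by positivity
  have hT0 : 0 < T := hbm.trans_le hT
  set R : ℝ := ((RR b p m F).card : ℝ) with hR
  have n1 : T * (b : ℝ) ^ m ≤ b ^ 2 * ((T / (b : ℝ) ^ m) * R ^ 2) := by
    have e1 : (b : ℝ) ^ (m - 1) ≤ R := by
      rw [hR, card_RR hm hF]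
      push_cast
      exact pow_le_pow_right₀ hb1 (by omega)
    have e2 : (b : ℝ) ^ m = b * (b : ℝ) ^ (m - 1) := by
      rw [← pow_succ']
      congr 1
      omega
    have e3 : ((b : ℝ) ^ m) ^ 2 ≤ b ^ 2 * R ^ 2 := by
      rw [e2, mul_pow]
      have : 0 ≤ (b : ℝ) ^ (m - 1) := by positivity
      gcongr
    have e4 : b ^ 2 * ((T / (b : ℝ) ^ m) * R ^ 2) = T / (b : ℝ) ^ m * ((b : ℝ) ^ 2 * R ^ 2) := by ring
    have e5 : T * (b : ℝ) ^ m = T / (b : ℝ) ^ m * ((b : ℝ) ^ m) ^ 2 := by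
      field_simp
    rw [e4, e5]
    exact mul_le_mul_of_nonneg_left e3 (by positivity)
  have n2 : Real.exp (-(2 * s)) * ((H : ℝ) ^ 2 + H * (b : ℝ) ^ m) ≤
      Real.exp 160 * (1 + (b : ℝ) ^ m * Real.exp (-s)) := by
    have e1 : (H : ℝ) ^ 2 ≤ Real.exp 160 * Real.exp (2 * s) := by
      calc (H : ℝ) ^ 2 ≤ (Real.exp (s + 80)) ^ 2 := by gcongr
        _ = _ := by rw [← Real.exp_nat_mul, ← Real.exp_add]; congr 1; push_cast; ring
    have e2 : (H : ℝ) * (b : ℝ) ^ m ≤ Real.exp 160 * (Real.exp s * (b : ℝ) ^ m) := by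
      have g1 : (H : ℝ) ≤ Real.exp 160 * Real.exp s := by
        refine hH2.trans ?_
        rw [← Real.exp_add]
        exact Real.exp_le_exp.2 (by linarith)
      calc (H : ℝ) * (b : ℝ) ^ m ≤ (Real.exp 160 * Real.exp s) * (b : ℝ) ^ m := by gcongr
        _ = _ := by ring
    have e3 : Real.exp (-(2 * s)) * Real.exp (2 * s) = 1 := by
      rw [← Real.exp_add]; simp
    have e4 : Real.exp (-(2 * s)) * Real.exp s = Real.exp (-s) := by
      rw [← Real.exp_add]; congr 1; ring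
    calc Real.exp (-(2 * s)) * ((H : ℝ) ^ 2 + H * (b : ℝ) ^ m)
        ≤ Real.exp (-(2 * s)) * (Real.exp 160 * Real.exp (2 * s) +
          Real.exp 160 * (Real.exp s * (b : ℝ) ^ m)) :=
          mul_le_mul_of_nonneg_left (add_le_add e1 e2) (Real.exp_pos _).le
      _ = Real.exp 160 * (Real.exp (-(2 * s)) * Real.exp (2 * s) +
          (b : ℝ) ^ m * (Real.exp (-(2 * s)) * Real.exp s)) := by ring
      _ = _ := by rw [e3, e4]
  have n3 : 1 + Real.log H ≤ 81 + 240 * Real.log x := by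
    have hH0 : (0 : ℝ) < H := by exact_mod_cast hH1
    have : Real.log H ≤ s + 80 := (Real.log_le_iff_le_exp hH0).2 hH2
    linarith
  have n4 : D ^ 2 ≤ C1 ^ 2 * x ^ (48 / 100 * ε) := by
    have hx0 : 0 < x := by linarith
    rw [hD, mul_pow, ← Real.exp_nat_mul, Real.rpow_def_of_pos hx0]
    have : ((2 : ℕ) : ℝ) * (ε / 1000 * s) ≤ Real.log x * (48 / 100 * ε) := by
      push_cast
      nlinarith
    have := Real.exp_le_exp.2 this
    gcongr
  have n5 := hx₀ x hx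
  have hH0 : 0 ≤ Real.log H := Real.log_natCast_nonneg _
  have hx0 : 0 < x := by linarith
  calc Real.exp (-(2 * s)) * (C2 * D ^ 2 * T * (b : ℝ) ^ m * (1 + Real.log H) *
        (b : ℝ) ^ (3 * F.card) * ((H : ℝ) ^ 2 + H * (b : ℝ) ^ m))
      = C2 * D ^ 2 * (1 + Real.log H) * (T * (b : ℝ) ^ m) * (b : ℝ) ^ (3 * F.card) *
        (Real.exp (-(2 * s)) * ((H : ℝ) ^ 2 + H * (b : ℝ) ^ m)) := by ring
    _ ≤ C2 * (C1 ^ 2 * x ^ (48 / 100 * ε)) * (81 + 240 * Real.log x) *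
        (b ^ 2 * ((T / (b : ℝ) ^ m) * R ^ 2)) * (b : ℝ) ^ (3 * F.card) *
        (Real.exp 160 * (1 + (b : ℝ) ^ m * Real.exp (-s))) := by
        gcongr
    _ = (C2 * C1 ^ 2 * Real.exp 160 * b ^ 2 * (81 + 240 * Real.log x)) * x ^ (48 / 100 * ε) *
        ((T / (b : ℝ) ^ m) * (b : ℝ) ^ (3 * F.card) * R ^ 2 *
          (1 + (b : ℝ) ^ m * Real.exp (-s))) := by ring
    _ ≤ x ^ (52 / 100 * ε) * x ^ (48 / 100 * ε) *
        ((T / (b : ℝ) ^ m) * (b : ℝ) ^ (3 * F.card) * R ^ 2 *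
          (1 + (b : ℝ) ^ m * Real.exp (-s))) := by
        gcongr
    _ = _ := by
        rw [← Real.rpow_add hx0, show 52 / 100 * ε + 48 / 100 * ε = ε by ring]
        ring

end Pool.Agent.HPZ
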