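import Pool.Agent.HPZ.Iface
import Pool.Agent.HPZ.APP
import Pool.Agent.HPP.VPow
import Pool.Agent.HPP.VAux

/-!
# HPZ/VVec: one vector (`VecProp`)

`LayProp` with `X` = the characters, `E χ ⊆ HPP.Gt χ K T`, `n = 2 j`, `K = ⌊4 log x⌋`, `c = ‖cc‖ ≤ #RR` (`cc_le`),
`P i χ t = nt .. (t + ξ) ≤ 3 (v i + 2) ≤ (log x)² = B` (`HPP.nt_triv`, `HPP.tyf_sm`, `v i ≤ 2 log x + 2`), continuity
`cc_continuous`, `HPP.nt_continuous`; `W` from `ClsProp` with `ε / 2`. `(K+1)^n B^n ≤ (5 log x)^80 (log x)^160 ≤ x^(ε/2)`.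
Last term: `card X ≤ b^m` (`φ (b^m)`), `#RR b^m 2T B^80 exp (1 - 4 log x) ≤ #RR 2 x^(5/9) .. x^(-4) ≤ #RR x^(-1)`.
-/

namespace Pool.Agent.HPZ

open Complex MeasureTheory

private theorem vvec_polylog (A B : ℝ) (k : ℕ) {δ : ℝ} (hδ : 0 < δ) (hA : 0 ≤ A) (hB : 0 ≤ B) :
    ∀ᶠ x : ℝ in Filter.atTop, (A * Real.log x + B) ^ k ≤ x ^ δ := by
  have hk : (0 : ℝ) < k + 1 := by positivity
  have hr : 0 < δ / (k + 1) := div_pos hδ hk
  have h1 := (isLittleO_log_rpow_atTop hr).bound (show (0 : ℝ) < 1 / (2 * (A + 1)) by positivity)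
  have h2 : ∀ᶠ x : ℝ in Filter.atTop, 2 * B + 1 ≤ x ^ (δ / (k + 1)) :=
    (tendsto_rpow_atTop hr).eventually_ge_atTop _
  filter_upwards [h1, h2, Filter.eventually_ge_atTop (1 : ℝ)] with x h1 h2 h3
  have hx0 : 0 < x := by linarith
  have hl : 0 ≤ Real.log x := Real.log_nonneg h3
  rw [Real.norm_eq_abs, Real.norm_eq_abs, abs_of_nonneg hl,
    abs_of_nonneg (Real.rpow_nonneg hx0.le _)] at h1
  set y := x ^ (δ / (k + 1)) with hy
  have hy1 : 1 ≤ y := by linarith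
  have h4 : A * Real.log x + B ≤ y := by
    have h5 : A * Real.log x ≤ y / 2 := by
      calc A * Real.log x ≤ A * (1 / (2 * (A + 1)) * y) := mul_le_mul_of_nonneg_left h1 hA
        _ = (A / (A + 1)) * (y / 2) := by field_simp
        _ ≤ 1 * (y / 2) := by
            refine mul_le_mul_of_nonneg_right ?_ (by linarith)
            rw [div_le_one (by linarith)]
            linarith
        _ = y / 2 := one_mul _
    linarith
  have h6 : 0 ≤ A * Real.log x + B := by positivity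
  calc (A * Real.log x + B) ^ k ≤ y ^ k := pow_le_pow_left₀ h6 h4 k
    _ ≤ y ^ (k + 1) := pow_le_pow_right₀ hy1 (Nat.le_succ k)
    _ = x ^ δ := by
        rw [hy, ← Real.rpow_natCast, ← Real.rpow_mul hx0.le]
        congr 1
        push_cast
        field_simp

private theorem vvec_vle {e x : ℝ} {j : ℕ} (hx : 0 ≤ Real.log x) {v : Fin (2 * j) → ℕ}
    (hv : v ∈ HPP.VV e x j) (i : Fin (2 * j)) : (v i : ℝ) ≤ 2 * Real.log x + 2 := by
  unfold HPP.VV at hv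
  rw [Finset.mem_filter, Fintype.mem_piFinset] at hv
  have h1 := hv.1 i
  rw [Finset.mem_range] at h1
  have h2 : (v i : ℝ) ≤ ⌊2 * Real.log x⌋₊ + 2 := by
    have : v i ≤ ⌊2 * Real.log x⌋₊ + 2 := by omega
    exact_mod_cast this
  have h3 := Nat.floor_le (show 0 ≤ 2 * Real.log x by linarith)
  linarith

private theorem vvec_ntle {x : ℝ} {Q : ℕ} (χ : DirichletCharacter ℂ Q) (k : Fin 3) (v : ℕ) (t : ℝ)
    (hx : 8 ≤ Real.log x) (hv : (v : ℝ) ≤ 2 * Real.log x + 2) :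
    HPP.nt (HPP.tyf (x ^ (1 / 20 : ℝ)) k) v χ t ≤ (Real.log x) ^ 2 := by
  have := HPP.nt_triv (HPP.tyf_sm (x ^ (1 / 20 : ℝ)) k) v χ t
  nlinarith

theorem vecProp (hL : LayProp) (hC : ClsProp) : VecProp := by
  obtain ⟨δ, hδ0, hδ1, hC⟩ := hC
  refine ⟨δ, hδ0, hδ1, ?_⟩
  intro b hb ε hε κ hκ
  obtain ⟨x₁, hx₁⟩ := hC b hb (ε / 2) (by linarith) κ hκ
  obtain ⟨x₂, hx₂⟩ := Filter.eventually_atTop.1
    ((vvec_polylog 5 0 240 (show 0 < ε / 2 by linarith) (by norm_num) le_rfl).and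
      ((vvec_polylog 1 0 160 (show (0 : ℝ) < 1 by norm_num) (by norm_num) le_rfl).and
        ((Real.tendsto_log_atTop.eventually_ge_atTop (8 : ℝ)).and
          (Filter.eventually_ge_atTop (6 : ℝ)))))
  refine ⟨max x₁ x₂, ?_⟩
  intro x hx p m F V T K s hbas hm hF hV hbT hbTx hK hTκ hs0 E hEm hEG hcs j hj v hv ξ hξ
  have hxx₁ : x₁ ≤ x := (le_max_left _ _).trans hx
  obtain ⟨hp1, hp2, hlog, hx6⟩ := hx₂ x ((le_max_right _ _).trans hx)
  have hcls := hx₁ x hxx₁ p m F V T K s hbas hm hF hV hbT hbTx hK hTκ hs0 E hEm hEG hcs j hj v hv ξ hξ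
  set L := Real.log x with hLdef
  have hx0 : 0 < x := by linarith
  have hbpos : (0 : ℝ) < (b : ℝ) ^ m := by
    have : 0 < b := by omega
    positivity
  have hT0 : 0 ≤ T := hbpos.le.trans hbT
  have hj1 : 1 ≤ j ∧ j ≤ 40 := Finset.mem_Icc.1 hj
  have hn80 : 2 * j ≤ 80 := by omega
  have hfl : ((⌊4 * L⌋₊ : ℕ) : ℝ) ≤ 4 * L := Nat.floor_le (by linarith)
  have hfl2 : 4 * L < (⌊4 * L⌋₊ : ℕ) + 1 := Nat.lt_floor_add_one _
  set Q : ℝ := ((RR b p m F).card : ℝ) with hQ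
  have hQ0 : 0 ≤ Q := Nat.cast_nonneg _
  set Z : ℝ := s + ((T / (b : ℝ) ^ m) * (b : ℝ) ^ (3 * F.card)) ^ (1 / 2 : ℝ) * x ^ (-δ) with hZ
  have hZ0 : 0 ≤ Z := by
    have h1 : 0 ≤ ((T / (b : ℝ) ^ m) * (b : ℝ) ^ (3 * F.card)) ^ (1 / 2 : ℝ) :=
      Real.rpow_nonneg (by positivity) _
    have h2 : 0 ≤ x ^ (-δ) := Real.rpow_nonneg hx0.le _
    rw [hZ]
    have := mul_nonneg h1 h2
    linarith
  have hB1 : 1 ≤ L ^ 2 := by nlinarith
  have key := hL (X := DirichletCharacter ℂ (b ^ m)) E T (2 * j) ⌊4 * L⌋₊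
    (fun i χ t => HPP.nt (HPP.tyf (x ^ (1 / 20 : ℝ)) (HPP.fac j i)) (v i) χ (t + ξ))
    (fun χ t => ‖cc b p F V χ t‖) (L ^ 2) Q (Q * x ^ (ε / 2) * Z)
    hEm (fun χ t ht => abs_le.1 (hEG χ ht).1)
    (fun i χ => (HPP.nt_continuous _ _ _).comp (continuous_id.add_const ξ))
    (fun χ => (cc_continuous hbas hm F V χ).norm) hT0 hB1
    (fun χ t => ⟨norm_nonneg _, cc_le hbas hm F hV χ t⟩)
    (fun i χ t => ⟨HPP.nt_nonneg _ _ _ _, vvec_ntle χ _ _ _ hlog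
      (vvec_vle (by linarith) hv i)⟩)
    (fun k hk => by
      refine hcls k fun i => ?_
      have : (k i : ℝ) ≤ (⌊4 * L⌋₊ : ℕ) := by exact_mod_cast hk i
      linarith)
  refine key.trans ?_
  -- first term
  have hxe2 : 0 ≤ x ^ (ε / 2) := Real.rpow_nonneg hx0.le _
  have hxe : x ^ ε = x ^ (ε / 2) * x ^ (ε / 2) := by
    rw [← Real.rpow_add hx0]; congr 1; ring
  have hK1 : (1 : ℝ) ≤ (⌊4 * L⌋₊ : ℕ) + 1 := by
    have : (0 : ℝ) ≤ (⌊4 * L⌋₊ : ℕ) := Nat.cast_nonneg _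
    linarith
  have hBn : (L ^ 2) ^ (2 * j) ≤ L ^ 160 := by
    calc (L ^ 2) ^ (2 * j) ≤ (L ^ 2) ^ 80 := pow_le_pow_right₀ hB1 hn80
      _ = L ^ 160 := by ring
  have hBn0 : 0 ≤ (L ^ 2) ^ (2 * j) := by positivity
  have h1 : ((⌊4 * L⌋₊ : ℕ) + 1 : ℝ) ^ (2 * j) * (L ^ 2) ^ (2 * j) ≤ x ^ (ε / 2) := by
    calc ((⌊4 * L⌋₊ : ℕ) + 1 : ℝ) ^ (2 * j) * (L ^ 2) ^ (2 * j)
        ≤ (5 * L) ^ 80 * L ^ 160 := by
          refine mul_le_mul ?_ hBn hBn0 (by positivity)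
          calc ((⌊4 * L⌋₊ : ℕ) + 1 : ℝ) ^ (2 * j) ≤ ((⌊4 * L⌋₊ : ℕ) + 1 : ℝ) ^ 80 :=
                pow_le_pow_right₀ hK1 hn80
            _ ≤ (5 * L) ^ 80 := pow_le_pow_left₀ (by linarith) (by linarith) _
      _ ≤ (5 * L) ^ 80 * (5 * L) ^ 160 := by
          refine mul_le_mul_of_nonneg_left ?_ (by positivity)
          exact pow_le_pow_left₀ (by linarith) (by linarith) _
      _ = (5 * L + 0) ^ 240 := by rw [add_zero]; ring
      _ ≤ x ^ (ε / 2) := hp1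
  have hfirst : ((⌊4 * L⌋₊ : ℕ) + 1 : ℝ) ^ (2 * j) * (L ^ 2) ^ (2 * j) * (Q * x ^ (ε / 2) * Z) ≤
      Q * x ^ ε * Z := by
    calc ((⌊4 * L⌋₊ : ℕ) + 1 : ℝ) ^ (2 * j) * (L ^ 2) ^ (2 * j) * (Q * x ^ (ε / 2) * Z)
        ≤ x ^ (ε / 2) * (Q * x ^ (ε / 2) * Z) :=
          mul_le_mul_of_nonneg_right h1 (by positivity)
      _ = Q * x ^ ε * Z := by rw [hxe]; ring
  -- second term
  have hcard : (Fintype.card (DirichletCharacter ℂ (b ^ m)) : ℝ) ≤ (b : ℝ) ^ m := by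
    have := HPP.card_char_le (Q := b ^ m) (Nat.one_le_pow _ _ (by omega))
    calc _ ≤ ((b ^ m : ℕ) : ℝ) := this
      _ = _ := by push_cast; ring
  have hxle : x ^ (5 / 9 : ℝ) ≤ x := by
    calc x ^ (5 / 9 : ℝ) ≤ x ^ (1 : ℝ) := Real.rpow_le_rpow_of_exponent_le (by linarith) (by norm_num)
      _ = x := Real.rpow_one x
  have hcT : (Fintype.card (DirichletCharacter ℂ (b ^ m)) : ℝ) * (2 * T) ≤ 2 * x := by
    calc (Fintype.card (DirichletCharacter ℂ (b ^ m)) : ℝ) * (2 * T) ≤ (b : ℝ) ^ m * (2 * T) :=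
          mul_le_mul_of_nonneg_right hcard (by linarith)
      _ = 2 * ((b : ℝ) ^ m * T) := by ring
      _ ≤ 2 * x := by linarith
  have hexp : Real.exp (-((⌊4 * L⌋₊ : ℕ) : ℝ)) ≤ 3 / x ^ 4 := by
    calc Real.exp (-((⌊4 * L⌋₊ : ℕ) : ℝ)) ≤ Real.exp (1 - 4 * L) := Real.exp_le_exp.2 (by linarith)
      _ = Real.exp 1 / x ^ 4 := by
          rw [Real.exp_sub]
          congr 1
          rw [show 4 * L = ((4 : ℕ) : ℝ) * L by norm_num, Real.exp_nat_mul, Real.exp_log hx0]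
      _ ≤ 3 / x ^ 4 := by
          refine div_le_div_of_nonneg_right ?_ (by positivity)
          linarith [Real.exp_one_lt_d9]
  have hLx : (L ^ 2) ^ (2 * j) ≤ x := by
    refine hBn.trans ?_
    have : (1 * L + 0) ^ 160 ≤ x ^ (1 : ℝ) := hp2
    rwa [one_mul, add_zero, Real.rpow_one] at this
  have hx1e : 1 ≤ x ^ ε := Real.one_le_rpow (by linarith) hε.le
  have hsecond : Q * (Fintype.card (DirichletCharacter ℂ (b ^ m)) * (2 * T)) * (L ^ 2) ^ (2 * j) *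
      Real.exp (-((⌊4 * L⌋₊ : ℕ) : ℝ)) ≤ Q * x ^ ε * x ^ (-1 : ℝ) := by
    have hc0 : (0 : ℝ) ≤ (Fintype.card (DirichletCharacter ℂ (b ^ m)) : ℝ) * (2 * T) := by positivity
    calc Q * (Fintype.card (DirichletCharacter ℂ (b ^ m)) * (2 * T)) * (L ^ 2) ^ (2 * j) *
          Real.exp (-((⌊4 * L⌋₊ : ℕ) : ℝ))
        ≤ Q * (2 * x) * x * (3 / x ^ 4) := by
          refine mul_le_mul ?_ hexp (Real.exp_pos _).le (by positivity)
          refine mul_le_mul ?_ hLx hBn0 (by positivity)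
          exact mul_le_mul_of_nonneg_left hcT hQ0
      _ = Q * (6 / x ^ 2) := by
          field_simp
          ring
      _ ≤ Q * (1 / x) := by
          refine mul_le_mul_of_nonneg_left ?_ hQ0
          rw [div_le_div_iff₀ (by positivity) hx0]
          nlinarith
      _ = Q * 1 * x ^ (-1 : ℝ) := by
          rw [Real.rpow_neg_one, mul_one, one_div]
      _ ≤ Q * x ^ ε * x ^ (-1 : ℝ) := by
          refine mul_le_mul_of_nonneg_right ?_ (Real.rpow_nonneg hx0.le _)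
          exact mul_le_mul_of_nonneg_left hx1e hQ0
  calc _ ≤ Q * x ^ ε * Z + Q * x ^ ε * x ^ (-1 : ℝ) := add_le_add hfirst hsecond
    _ = Q * x ^ ε * (Z + x ^ (-1 : ℝ)) := by ring

end Pool.Agent.HPZ
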