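import Pool.Agent.HPZ.CMer
import Pool.Agent.HPZ.CaseA
import Pool.Agent.HPZ.CaseB
import Pool.Agent.HPZ.CaseC
import Pool.Agent.HPZ.CaseD
import Pool.Agent.HPZ.CaseE
import Pool.Agent.HPZ.CaseF
import Pool.Agent.HPZ.CaseG
import Pool.Agent.HPZ.LLat
import Pool.Agent.HPZ.LCa
import Pool.Agent.HPZ.LCb
import Pool.Agent.HPZ.LCc
import Pool.Agent.HPZ.LSec
import Pool.Agent.HPZ.LMix
import Pool.Agent.HPZ.VCo
import Pool.Agent.HPZ.VMv
import Pool.Agent.HPZ.VHm
import Pool.Agent.HPZ.VHux
import Pool.Agent.HPZ.VFo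
import Pool.Agent.HPZ.VT1
import Pool.Agent.HPZ.VLay
import Pool.Agent.HPZ.VClA
import Pool.Agent.HPZ.VClB
import Pool.Agent.HPZ.VCls
import Pool.Agent.HPZ.VVec
import Pool.Agent.HPZ.VPri
import Pool.Agent.HPP.LPV
import Pool.Agent.HPP.LFin

/-!
# HPZ/Prime: the bound for the prime polynomial (`PrimeProp`), from all parts
-/

namespace Pool.Agent.HPZ

theorem mixP : MixProp := mixProp secondProp (mixCount_of (prmBig latProp) (prmSmall latProp))

theorem combP : CombProp := combProp_of
  ⟨case40, case50, case60, case70, case01, case11, case21, case31, case41, case51, case02, case12,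
    case22, case32, case03, case13⟩

theorem primeP : PrimeProp := primeProp (vecProp layProp (clsProp combP
  (clA (mvProp coProp) (huxProp (hmProp coProp HPP.pv_prop)) (foProp HPP.four_prop))
  (clB (t1Prop mixP coProp))))

end Pool.Agent.HPZ
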