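import Pool.Agent.HPZ.Iface

/-!
# HPZ/VClD: the class sets and the two halves of `ClsProp`

`Kl` is the set of `ClsProp`. `ClAProp`: the hypotheses of `CombProp` for `R = log μ / log x`, `μ` the measure of the
class. `ClBProp`: the Cauchy-Schwarz bound.
-/

namespace Pool.Agent.HPZ

open Complex MeasureTheory

/-- the class of the level vector `k` -/
noncomputable def Kl {b m : ℕ} (E : DirichletCharacter ℂ (b ^ m) → Set ℝ) (x ξ : ℝ) (j : ℕ)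
    (v k : Fin (2 * j) → ℕ) (χ : DirichletCharacter ℂ (b ^ m)) : Set ℝ :=
  E χ ∩ {t | ∀ i,
      (Real.log x) ^ 2 * Real.exp (-(k i : ℝ) - 1) <
        HPP.nt (HPP.tyf (x ^ (1 / 20 : ℝ)) (HPP.fac j i)) (v i) χ (t + ξ) ∧
      HPP.nt (HPP.tyf (x ^ (1 / 20 : ℝ)) (HPP.fac j i)) (v i) χ (t + ξ) ≤
        (Real.log x) ^ 2 * Real.exp (-(k i : ℝ))}

/-- the measure of the class -/
noncomputable def muK {b m : ℕ} (E : DirichletCharacter ℂ (b ^ m) → Set ℝ) (x ξ : ℝ) (j : ℕ)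
    (v k : Fin (2 * j) → ℕ) : ℝ :=
  ∑ χ : DirichletCharacter ℂ (b ^ m), volume.real (Kl E x ξ j v k χ)

/-- constraints on the measure -/
def ClAProp : Prop := ∀ b : ℕ, 2 ≤ b → ∀ η : ℝ, 0 < η → ∀ κ : ℝ, 0 < κ →
  ∃ x₀ : ℝ, ∀ x : ℝ, x₀ ≤ x → ∀ (m : ℕ) (T K : ℝ), (b : ℝ) ^ m ≤ T →
  (b : ℝ) ^ m * T ≤ x ^ (5 / 9 : ℝ) → x ^ κ ≤ K → x ^ κ ≤ T →
  ∀ E : DirichletCharacter ℂ (b ^ m) → Set ℝ, (∀ χ, MeasurableSet (E χ)) → (∀ χ, E χ ⊆ HPP.Gt χ K T) →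
  ∀ j ∈ Finset.Icc 1 40, ∀ v ∈ HPP.VV (1 / 1000) x j, ∀ ξ : ℝ, |ξ| ≤ Real.log x →
  ∀ k : Fin (2 * j) → ℕ, (∀ i, (k i : ℝ) ≤ 4 * Real.log x) → 0 < muK E x ξ j v k →
  (∀ A : Finset (Fin (2 * j)), Real.log (muK E x ξ j v k) / Real.log x ≤
    max 0 (5 / 9 - ∑ i ∈ A, (v i : ℝ) / Real.log x) + 2 * ∑ i ∈ A, (k i : ℝ) / Real.log x + η) ∧
  (∀ A : Finset (Fin (2 * j)),
    5 / 18 + η ≤ 2 * (∑ i ∈ A, (v i : ℝ) / Real.log x) - 4 * ∑ i ∈ A, (k i : ℝ) / Real.log x →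
    Real.log (muK E x ξ j v k) / Real.log x ≤ max (2 * ∑ i ∈ A, (k i : ℝ) / Real.log x)
      (5 / 9 - 2 * (∑ i ∈ A, (v i : ℝ) / Real.log x) + 6 * ∑ i ∈ A, (k i : ℝ) / Real.log x) + η) ∧
  (∀ i, 1 / 4 ≤ (v i : ℝ) / Real.log x → Real.log (muK E x ξ j v k) / Real.log x ≤
    5 / 9 - 2 * ((v i : ℝ) / Real.log x) + 4 * ((k i : ℝ) / Real.log x) + η)

/-- Cauchy-Schwarz with the mixed lemma -/
def ClBProp : Prop := ∀ b : ℕ, 2 ≤ b → ∀ ε : ℝ, 0 < ε → ∃ x₀ : ℝ, ∀ x : ℝ, x₀ ≤ x →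
  ∀ (p m : ℕ) (F : Finset ℕ) (V : ℝ → ℝ) (T : ℝ), Bas b p → 1 ≤ m →
  F ⊆ Finset.Ico 1 m → (∀ y, 0 ≤ V y ∧ V y ≤ 1) → (b : ℝ) ^ m ≤ T → (b : ℝ) ^ m * T ≤ x ^ (5 / 9 : ℝ) →
  ∀ E : DirichletCharacter ℂ (b ^ m) → Set ℝ, (∀ χ, MeasurableSet (E χ)) → (∀ χ, E χ ⊆ Set.Icc (-T) T) →
  ∀ j ∈ Finset.Icc 1 40, ∀ v ∈ HPP.VV (1 / 1000) x j, ∀ (ξ : ℝ) (k : Fin (2 * j) → ℕ)
  (A : Finset (Fin (2 * j))),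
  ∑ χ : DirichletCharacter ℂ (b ^ m), ∫ t in Kl E x ξ j v k χ, ‖cc b p F V χ t‖ ≤
    (RR b p m F).card * x ^ ε * (muK E x ξ j v k * ((T / (b : ℝ) ^ m) * (b : ℝ) ^ (3 * F.card)) *
      Real.exp (2 * ∑ i ∈ A, (k i : ℝ)) *
      x ^ (max 0 (5 / 18 - ∑ i ∈ A, (v i : ℝ) / Real.log x))) ^ (1 / 2 : ℝ)

end Pool.Agent.HPZ
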