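import Pool.Agent.HPZ.Iface
import Pool.Agent.HPP.VFour

/-!
# HPZ/VFo: fourth moment of a smooth factor (`FoProp`), from `HPP.four_nt`

`X = log x`, `t → t + ξ` maps `HPP.Gt χ K T` into `HPP.Gt χ (K - log x) (T + log x)`
and `K - log x ≥ x^κ - log x ≥ x^(κ/2)` for large `x`; `four_nt` with `κ / 2`, `ε / 2`, `T + log x ≤ T (1 + log x)`
(`T ≥ b^m ≥ 1`), `b^m T (1 + log x) ≤ x^(5/9) (1 + log x) ≤ x`. Translation of the integral:
`integral_comp_add_right` / `MeasureTheory.integral_add_right_eq_self` with indicators (see `shift16` in `HPP/VFour`).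
-/

namespace Pool.Agent.HPZ

open Complex MeasureTheory

private theorem measG91 {Q : ℕ} (χ : DirichletCharacter ℂ Q) (κ T : ℝ) :
    MeasurableSet (HPP.Gt χ κ T) := by
  unfold HPP.Gt
  by_cases h : χ = 1
  · have h1 : {t : ℝ | |t| ≤ T ∧ (χ = 1 → κ ≤ |t|)} = {t | |t| ≤ T} ∩ {t | κ ≤ |t|} := by
      ext t
      simp [h]
    rw [h1]
    exact (measurableSet_le continuous_abs.measurable measurable_const).inter
      (measurableSet_le measurable_const continuous_abs.measurable)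
  · have h1 : {t : ℝ | |t| ≤ T ∧ (χ = 1 → κ ≤ |t|)} = {t | |t| ≤ T} := by
      ext t
      simp [h]
    rw [h1]
    exact measurableSet_le continuous_abs.measurable measurable_const

private theorem subG91 {Q : ℕ} (χ : DirichletCharacter ℂ Q) (κ T : ℝ) :
    HPP.Gt χ κ T ⊆ Set.Icc (-T) T := fun _ ht => abs_le.1 ht.1

private theorem shift91 {G G' : Set ℝ} {T' : ℝ} (c : ℝ) (hG : MeasurableSet G)
    (hG' : MeasurableSet G') (hb : G' ⊆ Set.Icc (-T') T') {f : ℝ → ℝ} (hf : Continuous f)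
    (hf0 : ∀ x, 0 ≤ f x) (hs : ∀ t ∈ G, t + c ∈ G') :
    ∫ t in G, f (t + c) ≤ ∫ s in G', f s := by
  have hi : IntegrableOn f G' := (hf.continuousOn.integrableOn_compact isCompact_Icc).mono_set hb
  rw [← integral_indicator hG, ← integral_indicator hG',
    ← integral_add_right_eq_self (G'.indicator f) c]
  refine integral_mono_of_nonneg ?_ ?_ ?_
  · exact Filter.Eventually.of_forall fun t => Set.indicator_nonneg (fun t _ => hf0 _) t
  · exact ((integrable_indicator_iff hG').2 hi).comp_add_right c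
  · refine Filter.Eventually.of_forall fun t => ?_
    by_cases ht : t ∈ G
    · simp only [Set.indicator_of_mem ht, Set.indicator_of_mem (hs t ht)]
      exact le_rfl
    · simp only [Set.indicator_of_notMem ht]
      exact Set.indicator_nonneg (fun t _ => hf0 _) _

private theorem grow91 {c : ℝ} (hc : 0 < c) {X : ℝ} (h1 : 1 ≤ X) (h2 : 4 / c ^ 2 ≤ X) :
    1 + X ≤ Real.exp (c * X) := by
  have h3 := Real.pow_div_factorial_le_exp (c * X) (by positivity) 2
  have h4 : (Nat.factorial 2 : ℝ) = 2 := by norm_num [Nat.factorial]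
  rw [h4] at h3
  rw [div_le_iff₀ (by positivity)] at h2
  nlinarith

theorem foProp (h4 : HPP.FourProp) : FoProp := by
  intro b hb ε hε κ hκ
  obtain ⟨X₀, hX₀, hF⟩ := HPP.four_nt h4 hb (half_pos hε) (half_pos hκ)
  refine ⟨Real.exp (max X₀ (max (4 / (4 / 9 : ℝ) ^ 2)
    (max (4 / (ε / 2) ^ 2) (4 / (κ / 2) ^ 2)))), ?_⟩
  intro x hx m T K hT hQT hK k Z hk v hv ξ hξ
  have hx0 : 0 < x := (Real.exp_pos _).trans_le hx
  obtain ⟨X, hX⟩ : ∃ X : ℝ, X = Real.log x := ⟨_, rfl⟩
  have hxX : x = Real.exp X := by rw [hX, Real.exp_log hx0]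
  rw [← hX] at hv hξ
  have hXl : max X₀ (max (4 / (4 / 9 : ℝ) ^ 2)
      (max (4 / (ε / 2) ^ 2) (4 / (κ / 2) ^ 2))) ≤ X := by
    rw [hxX] at hx
    exact Real.exp_le_exp.1 hx
  have hXa : X₀ ≤ X := (le_max_left _ _).trans hXl
  have hX1 : 1 ≤ X := hX₀.trans hXa
  have hXr := (le_max_right _ _).trans hXl
  have hXb : 4 / (4 / 9 : ℝ) ^ 2 ≤ X := (le_max_left _ _).trans hXr
  have hXr2 := (le_max_right _ _).trans hXr
  have hXc : 4 / (ε / 2) ^ 2 ≤ X := (le_max_left _ _).trans hXr2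
  have hXd : 4 / (κ / 2) ^ 2 ≤ X := (le_max_right _ _).trans hXr2
  have g1 := grow91 (by norm_num : (0 : ℝ) < 4 / 9) hX1 hXb
  have g2 := grow91 (half_pos hε) hX1 hXc
  have g3 := grow91 (half_pos hκ) hX1 hXd
  have hQ1 : (1 : ℝ) ≤ (b : ℝ) ^ m := one_le_pow₀ (by exact_mod_cast (by omega : 1 ≤ b))
  have hT1 : 1 ≤ T := hQ1.trans hT
  have hXn : 0 ≤ X := by linarith
  have hTX : T + X ≤ T * (1 + X) := by nlinarith
  have hpow : ∀ s : ℝ, x ^ s = Real.exp (s * X) := by
    intro s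
    rw [hxX, ← Real.exp_mul]
    congr 1
    ring
  rw [hpow] at hQT hK
  rw [hpow]
  have hb1 : (b : ℝ) ^ m * (T + X) ≤ (b : ℝ) ^ m * T * (1 + X) := by
    have := mul_le_mul_of_nonneg_left hTX (by linarith : (0 : ℝ) ≤ (b : ℝ) ^ m)
    linarith
  have hb2 : (b : ℝ) ^ m * (T + X) ≤ Real.exp X := by
    refine hb1.trans ?_
    calc (b : ℝ) ^ m * T * (1 + X) ≤ Real.exp (5 / 9 * X) * Real.exp (4 / 9 * X) :=
          mul_le_mul hQT g1 (by linarith) (Real.exp_pos _).le
      _ = Real.exp X := by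
          rw [← Real.exp_add]
          congr 1
          ring
  have hKX : Real.exp (κ / 2 * X) ≤ K - X := by
    have h1 : Real.exp (κ * X) = Real.exp (κ / 2 * X) * Real.exp (κ / 2 * X) := by
      rw [← Real.exp_add]
      congr 1
      ring
    nlinarith
  have key := hF X hXa m (T + X) (by linarith) hb2 k Z hk v hv
  have hsum : ∑ χ : DirichletCharacter ℂ (b ^ m),
      ∫ t in HPP.Gt χ K T, HPP.nt (HPP.tyf Z k) v χ (t + ξ) ^ 4 ≤
      ∑ χ : DirichletCharacter ℂ (b ^ m),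
      ∫ t in HPP.Gt χ (Real.exp (κ / 2 * X)) (T + X), HPP.nt (HPP.tyf Z k) v χ t ^ 4 := by
    refine Finset.sum_le_sum fun χ _ => ?_
    refine shift91 ξ (measG91 χ K T) (measG91 χ _ _) (subG91 χ _ _)
      ((HPP.nt_continuous (HPP.tyf Z k) v χ).pow 4) (fun s => Even.pow_nonneg (by decide) _) fun t ht => ?_
    refine ⟨?_, fun h1 => ?_⟩
    · have := abs_add_le t ξ
      have h2 := ht.1
      linarith
    · have h2 := ht.2 h1
      have h3 := abs_sub_abs_le_abs_sub t (-ξ)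
      rw [abs_neg, sub_neg_eq_add] at h3
      linarith
  refine hsum.trans (key.trans ?_)
  have h5 : Real.exp (ε * X) = Real.exp (ε / 2 * X) * Real.exp (ε / 2 * X) := by
    rw [← Real.exp_add]
    congr 1
    ring
  have hQT0 : 0 ≤ (b : ℝ) ^ m * T := mul_nonneg (by positivity) (by linarith)
  have h6 : (b : ℝ) ^ m * (T + X) ≤ Real.exp (ε / 2 * X) * ((b : ℝ) ^ m * T) := by
    refine hb1.trans ?_
    have := mul_le_mul_of_nonneg_left g2 hQT0
    linarith
  have h7 := mul_le_mul_of_nonneg_left h6 (Real.exp_pos (ε / 2 * X)).le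
  have h8 := mul_le_mul_of_nonneg_right h7 (Real.exp_pos (-(2 * (v : ℝ)))).le
  refine h8.trans (le_of_eq ?_)
  rw [h5]
  ring

end Pool.Agent.HPZ
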